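import Pool.Agent.H6.HalfJensen
import Pool.Agent.H6.AbsLog

/-!
# Local zeros and the logarithmic derivative

If `f` is analytic near `closedBall c R2`, `f c ≠ 0` and `‖f‖ ≤ M ‖f c‖` there, then `f` has
`O(log M)` zeros in `closedBall c R1`, and on `closedBall c R0` its logarithmic derivative is the sum
over these zeros up to `O(log M)`.
-/

set_option autoImplicit false

open Complex Metric Set Filter Topology Real MeasureTheory

namespace Pool.Agent.H6

/-- The exponents in a factorisation are the orders of vanishing. -/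
lemma order_eq_of_factor {f g : ℂ → ℂ} {c : ℂ} {r : ℝ} {S : Finset ℂ} {n : ℂ → ℕ}
    (hg : AnalyticOnNhd ℂ g (closedBall c r)) (hgne : ∀ z ∈ closedBall c r, g z ≠ 0)
    (hf : AnalyticOnNhd ℂ f (closedBall c r))
    (hfac : ∀ z ∈ closedBall c r, f z = (∏ u ∈ S, (z - u) ^ (n u)) * g z)
    {u : ℂ} (hu : u ∈ S) (hub : u ∈ ball c r) : analyticOrderNatAt f u = n u := by
  classical
  have huc := ball_subset_closedBall hub
  have h : analyticOrderAt f u = (n u : ℕ∞) := by
    rw [(hf u huc).analyticOrderAt_eq_natCast]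
    refine ⟨fun z => (∏ v ∈ S.erase u, (z - v) ^ (n v)) * g z, ?_, ?_, ?_⟩
    · apply AnalyticAt.mul _ (hg u huc)
      apply Finset.analyticAt_fun_prod
      intro v _
      exact ((analyticAt_id.sub analyticAt_const).pow _)
    · apply mul_ne_zero _ (hgne u huc)
      rw [Finset.prod_ne_zero_iff]
      intro v hv
      apply pow_ne_zero
      rw [Finset.mem_erase] at hv
      exact sub_ne_zero.2 hv.1.symm
    · filter_upwards [isOpen_ball.mem_nhds hub] with z hz
      rw [hfac z (ball_subset_closedBall hz), smul_eq_mul, ← mul_assoc,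
        Finset.mul_prod_erase S (fun v => (z - v) ^ n v) hu]
  rw [analyticOrderNatAt, h]
  rfl

/-- The Blaschke type factor. -/
noncomputable def blf (c : ℂ) (r : ℝ) (u z : ℂ) : ℂ :=
  ((r:ℂ) ^ 2 - (starRingEnd ℂ) (u - c) * (z - c)) / r

lemma blf_hasDerivAt (c : ℂ) (r : ℝ) (u z : ℂ) :
    HasDerivAt (blf c r u) (-(starRingEnd ℂ) (u - c) / r) z := by
  have h3 : HasDerivAt (blf c r u) ((0 - (starRingEnd ℂ) (u - c) * 1) / r) z := by
    unfold blf
    exact (((hasDerivAt_const _ _).sub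
      (((hasDerivAt_id z).sub_const c).const_mul _)).div_const _)
  convert h3 using 1
  ring

lemma blf_analyticAt (c : ℂ) (r : ℝ) (u z : ℂ) : AnalyticAt ℂ (blf c r u) z := by
  have h : Differentiable ℂ (blf c r u) := fun z => (blf_hasDerivAt c r u z).differentiableAt
  exact h.analyticAt z

lemma norm_blf_ge {c : ℂ} {r : ℝ} (hr : 0 < r) {u z : ℂ} {a b : ℝ} (ha : ‖u - c‖ ≤ a)
    (hb : ‖z - c‖ ≤ b) (ha0 : 0 ≤ a) : (r ^ 2 - a * b) / r ≤ ‖blf c r u z‖ := by
  unfold blf
  rw [norm_div, Complex.norm_real, Real.norm_eq_abs, abs_of_pos hr]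
  gcongr
  have h1 : ‖(r:ℂ) ^ 2‖ = r ^ 2 := by
    rw [norm_pow, Complex.norm_real, Real.norm_eq_abs, abs_of_pos hr]
  have h2 : ‖(starRingEnd ℂ) (u - c) * (z - c)‖ ≤ a * b := by
    rw [norm_mul, RCLike.norm_conj]
    have := norm_nonneg (z - c)
    gcongr
  calc r ^ 2 - a * b ≤ ‖(r:ℂ) ^ 2‖ - ‖(starRingEnd ℂ) (u - c) * (z - c)‖ := by
        rw [h1]; linarith
    _ ≤ _ := norm_sub_norm_le _ _

lemma norm_blf_sphere {c : ℂ} {r : ℝ} (hr : 0 < r) {u z : ℂ} (hz : ‖z - c‖ = r) :
    ‖blf c r u z‖ = ‖z - u‖ := by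
  unfold blf
  have h2 : (r:ℂ) ^ 2 = (z - c) * (starRingEnd ℂ) (z - c) := by
    rw [Complex.mul_conj, Complex.normSq_eq_norm_sq, hz]
    norm_cast
  rw [h2, mul_comm ((starRingEnd ℂ) (u - c)), ← mul_sub, ← map_sub, norm_div, norm_mul,
    RCLike.norm_conj, hz, Complex.norm_real, Real.norm_eq_abs, abs_of_pos hr,
    mul_div_cancel_left₀ _ hr.ne']
  congr 1
  ring

/-- Zero-free case: bound for the logarithmic derivative. -/
lemma logDeriv_le_of_ne_zero {R0 R1 : ℝ} (h0 : 0 < R0) (h01 : R0 < R1) :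
    ∃ C : ℝ, 0 < C ∧ ∀ (G : ℂ → ℂ) (c : ℂ) (Λ : ℝ), 0 < Λ → DifferentiableOn ℂ G (ball c R1) →
      (∀ z ∈ ball c R1, G z ≠ 0) → (∀ z ∈ ball c R1, ‖G z‖ ≤ Real.exp Λ * ‖G c‖) →
      ∀ z, ‖z - c‖ ≤ R0 → ‖deriv G z / G z‖ ≤ C * Λ := by
  set r : ℝ := (R0 + R1) / 2 with hr
  have hr0 : R0 < r := by rw [hr]; linarith
  have hr1 : r < R1 := by rw [hr]; linarith
  refine ⟨2 * r / (R1 - r) / (r - R0), ?_, ?_⟩
  · have : 0 < R1 - r := by linarith
    have : 0 < r - R0 := by linarith
    have : 0 < r := by linarith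
    positivity
  intro G c Λ hΛ hG hne hup z hz
  have hR1 : 0 < R1 := by linarith
  have hc0 : c ∈ ball c R1 := mem_ball_self hR1
  have hGc : G c ≠ 0 := hne c hc0
  set f : ℂ → ℂ := fun z => G z / G c with hf
  have hfd : DifferentiableOn ℂ f (ball c R1) := hG.div_const _
  have hfne : ∀ z ∈ ball c R1, f z ≠ 0 := fun z hz => div_ne_zero (hne z hz) hGc
  obtain ⟨L, hLc, hL, hexp⟩ := exists_log_on_ball hR1 hfd hfne
  have hLc0 : L c = 0 := by
    rw [hLc, hf]
    simp [div_self hGc]
  have hLd : DifferentiableOn ℂ L (ball c R1) :=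
    fun z hz => (hL z hz).differentiableAt.differentiableWithinAt
  have hre : ∀ z ∈ ball c R1, (L z).re ≤ Λ := by
    intro z hz
    have h1 : ‖f z‖ = Real.exp (L z).re := by rw [← hexp z hz, Complex.norm_exp]
    have h2 : ‖f z‖ ≤ Real.exp Λ := by
      rw [hf]
      simp only [norm_div]
      rw [div_le_iff₀ (norm_pos_iff.2 hGc)]
      exact hup z hz
    rw [h1] at h2
    exact Real.exp_le_exp.1 h2
  have hbc : ∀ w, ‖w - c‖ ≤ r → ‖L w‖ ≤ 2 * Λ * r / (R1 - r) := by
    intro w hw
    have := bc_ball (by linarith) hr1 hLd hΛ hre hw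
    rw [hLc0, norm_zero, zero_mul, zero_div, add_zero] at this
    exact this
  have hrR : 0 < r - R0 := by linarith
  have hcau := Complex.norm_deriv_le_of_forall_mem_sphere_norm_le (c := z) (R := r - R0)
    (C := 2 * Λ * r / (R1 - r)) (F := ℂ) (f := L) hrR ?_ ?_
  · have hzb : z ∈ ball c R1 := by
      rw [mem_ball, dist_eq_norm]; linarith
    have h3 : deriv L z = deriv G z / G z := by
      rw [(hL z hzb).deriv, hf]
      simp only
      rw [deriv_div_const]
      field_simp
    rw [h3] at hcau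
    refine hcau.trans (le_of_eq ?_)
    ring
  · apply DifferentiableOn.diffContOnCl
    apply hLd.mono
    rw [closure_ball z hrR.ne']
    intro w hw
    rw [mem_closedBall, dist_eq_norm] at hw
    rw [mem_ball, dist_eq_norm]
    calc ‖w - c‖ = ‖(w - z) + (z - c)‖ := by ring_nf
      _ ≤ ‖w - z‖ + ‖z - c‖ := norm_add_le _ _
      _ < R1 := by linarith
  · intro w hw
    apply hbc
    rw [mem_sphere, dist_eq_norm] at hw
    calc ‖w - c‖ = ‖(w - z) + (z - c)‖ := by ring_nf
      _ ≤ ‖w - z‖ + ‖z - c‖ := norm_add_le _ _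
      _ ≤ r := by linarith

/-- **Local zeros and the logarithmic derivative.** -/
theorem loc_log {R0 R1 R2 : ℝ} (h0 : 0 < R0) (h01 : R0 < R1) (h12 : R1 < R2) :
    ∃ C : ℝ, 0 < C ∧ ∀ (f : ℂ → ℂ) (c : ℂ) (Λ : ℝ), 0 < Λ →
      AnalyticOnNhd ℂ f (closedBall c R2) → f c ≠ 0 →
      (∀ z ∈ closedBall c R2, ‖f z‖ ≤ Real.exp Λ * ‖f c‖) →
      ∃ S : Finset ℂ, (∀ u, u ∈ S ↔ (u ∈ closedBall c R1 ∧ f u = 0)) ∧
        (∀ u ∈ S, 1 ≤ analyticOrderNatAt f u) ∧
        (∑ u ∈ S, (analyticOrderNatAt f u : ℝ)) ≤ C * Λ ∧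
        ∀ z ∈ closedBall c R0, f z ≠ 0 →
          ‖deriv f z / f z - ∑ u ∈ S, (analyticOrderNatAt f u : ℂ) / (z - u)‖ ≤ C * Λ := by
  classical
  obtain ⟨C1, hC1, hlog⟩ := logDeriv_le_of_ne_zero h0 h01
  have hR1 : 0 < R1 := by linarith
  have hR2 : 0 < R2 := by linarith
  have hlr : 0 < Real.log (R2 / R1) := Real.log_pos (by rw [lt_div_iff₀ hR1]; linarith)
  have hq : 0 < R2 ^ 2 - R1 * R1 := by nlinarith
  set K : ℝ := 1 / Real.log (R2 / R1) with hK
  have hKpos : 0 < K := by positivity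
  refine ⟨K + (C1 + K * (R1 / (R2 ^ 2 - R1 * R1))), by positivity, ?_⟩
  intro f c Λ hΛ hf hfc hup
  obtain ⟨S2, n, g, hg, hgne, hS, hfac⟩ := exists_factor hR2 hf hfc
  set S : Finset ℂ := S2.filter (fun u => u ∈ closedBall c R1 ∧ f u = 0 ∧ n u ≠ 0) with hSdef
  have hcU : c ∈ closedBall c R2 := mem_closedBall_self hR2.le
  -- membership
  have hmem : ∀ u, u ∈ S ↔ (u ∈ closedBall c R1 ∧ f u = 0) := by
    intro u
    rw [hSdef, Finset.mem_filter]
    constructor
    · rintro ⟨_, h1, h2, _⟩; exact ⟨h1, h2⟩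
    · rintro ⟨h1, h2⟩
      have hu2 : u ∈ closedBall c R2 := closedBall_subset_closedBall h12.le h1
      have h3 := h2
      rw [hfac u hu2] at h3
      rcases mul_eq_zero.1 h3 with h | h
      · rw [Finset.prod_eq_zero_iff] at h
        obtain ⟨v, hv, h4⟩ := h
        have h5 : u - v = 0 := by
          by_contra h6
          exact (pow_ne_zero _ h6) h4
        have h6 : n v ≠ 0 := by
          intro h7
          rw [h7, pow_zero] at h4
          exact one_ne_zero h4
        have h8 : v = u := (sub_eq_zero.1 h5).symm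
        subst h8
        exact ⟨hv, h1, h2, h6⟩
      · exact absurd h (hgne u hu2)
  have hball : ∀ u ∈ S, u ∈ ball c R2 := by
    intro u hu
    have := ((hmem u).1 hu).1
    rw [mem_closedBall] at this
    rw [mem_ball]
    linarith
  have hnorm : ∀ u ∈ S, ‖u - c‖ ≤ R1 := by
    intro u hu
    have := ((hmem u).1 hu).1
    rwa [mem_closedBall, dist_eq_norm] at this
  have hsub : S ⊆ S2 := Finset.filter_subset _ _
  have hord : ∀ u ∈ S, analyticOrderNatAt f u = n u := fun u hu =>
    order_eq_of_factor hg hgne hf hfac (hsub hu) (hball u hu)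
  have hn1 : ∀ u ∈ S, 1 ≤ n u := by
    intro u hu
    rw [hSdef, Finset.mem_filter] at hu
    exact Nat.one_le_iff_ne_zero.2 hu.2.2.2
  -- the modified function
  set b : ℂ → ℂ → ℂ := blf c R2 with hb
  set G : ℂ → ℂ := fun z => (∏ u ∈ S, (b u z) ^ (n u)) * ((∏ u ∈ S2 \ S, (z - u) ^ (n u)) * g z)
    with hGdef
  have hfac' : ∀ z ∈ closedBall c R2,
      f z = (∏ u ∈ S, (z - u) ^ (n u)) * ((∏ u ∈ S2 \ S, (z - u) ^ (n u)) * g z) := by
    intro z hz
    rw [hfac z hz, ← mul_assoc]
    congr 1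
    rw [mul_comm]
    exact (Finset.prod_sdiff hsub).symm
  have hGan : AnalyticOnNhd ℂ G (closedBall c R2) := by
    intro z hz
    apply AnalyticAt.mul
    · apply Finset.analyticAt_fun_prod
      intro u _
      exact (blf_analyticAt c R2 u z).pow _
    · apply AnalyticAt.mul _ (hg z hz)
      apply Finset.analyticAt_fun_prod
      intro u _
      exact ((analyticAt_id.sub analyticAt_const).pow _)
  have hbne : ∀ u ∈ S, ∀ z ∈ closedBall c R2, b u z ≠ 0 := by
    intro u hu z hz
    rw [mem_closedBall, dist_eq_norm] at hz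
    have h1 := norm_blf_ge hR2 (hnorm u hu) hz hR1.le
    have h2 : 0 < (R2 ^ 2 - R1 * R2) / R2 := by
      apply div_pos _ hR2
      nlinarith
    intro h
    rw [hb] at h
    rw [h, norm_zero] at h1
    linarith
  -- modulus on the sphere
  have hsph : ∀ z, ‖z - c‖ = R2 → ‖G z‖ = ‖f z‖ := by
    intro z hz
    have hzc : z ∈ closedBall c R2 := by rw [mem_closedBall, dist_eq_norm, hz]
    rw [hfac' z hzc, hGdef]
    simp only
    rw [norm_mul, norm_mul (∏ u ∈ S, (z - u) ^ (n u))]
    congr 1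
    rw [norm_prod, norm_prod]
    refine Finset.prod_congr rfl fun u hu => ?_
    rw [norm_pow, norm_pow, hb, norm_blf_sphere hR2 hz]
  -- maximum modulus
  have hmax : ∀ z ∈ closedBall c R2, ‖G z‖ ≤ Real.exp Λ * ‖f c‖ := by
    intro z hz
    have hd : DiffContOnCl ℂ G (ball c R2) := by
      apply DifferentiableOn.diffContOnCl
      rw [closure_ball c hR2.ne']
      exact hGan.differentiableOn
    refine Complex.norm_le_of_forall_mem_frontier_norm_le isBounded_ball hd ?_ ?_
    · intro w hw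
      rw [frontier_ball c hR2.ne', mem_sphere, dist_eq_norm] at hw
      rw [hsph w hw]
      exact hup w (by rw [mem_closedBall, dist_eq_norm, hw])
    · rw [closure_ball c hR2.ne']; exact hz
  -- value at the centre
  have hcS : ∀ u ∈ S, c - u ≠ 0 := by
    intro u hu h
    have : u = c := (sub_eq_zero.1 h).symm
    rw [this] at hu
    exact hfc ((hmem c).1 hu).2
  have hGc : ‖G c‖ = (∏ u ∈ S, (R2 / ‖c - u‖) ^ (n u)) * ‖f c‖ := by
    rw [hfac' c hcU, hGdef]
    simp only
    rw [norm_mul, norm_mul (∏ u ∈ S, (c - u) ^ (n u)), ← mul_assoc]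
    congr 1
    rw [norm_prod, norm_prod, ← Finset.prod_mul_distrib]
    refine Finset.prod_congr rfl fun u hu => ?_
    have hb0 : ‖b u c‖ = R2 := by
      rw [hb]
      unfold blf
      rw [sub_self, mul_zero, sub_zero, norm_div, norm_pow, Complex.norm_real, Real.norm_eq_abs,
        abs_of_pos hR2]
      field_simp
    rw [norm_pow, norm_pow, hb0, ← mul_pow]
    congr 1
    have : 0 < ‖c - u‖ := norm_pos_iff.2 (hcS u hu)
    field_simp
  have hfcpos : 0 < ‖f c‖ := norm_pos_iff.2 hfc
  have hGcge : (R2 / R1) ^ (∑ u ∈ S, n u) * ‖f c‖ ≤ ‖G c‖ := by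
    rw [hGc, ← Finset.prod_pow_eq_pow_sum]
    gcongr with u hu
    · exact norm_pos_iff.2 (hcS u hu)
    · rw [← norm_neg, neg_sub]
      exact hnorm u hu
  -- number of zeros
  have hcount : (∑ u ∈ S, (n u : ℝ)) ≤ K * Λ := by
    have h1 : (R2 / R1) ^ (∑ u ∈ S, n u) ≤ Real.exp Λ := by
      have := hGcge.trans (hmax c hcU)
      exact le_of_mul_le_mul_right this hfcpos
    have h2 := Real.log_le_log (by positivity) h1
    rw [Real.log_exp, Real.log_pow] at h2
    rw [hK, one_div, ← div_eq_inv_mul, le_div_iff₀ hlr]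
    push_cast at h2
    exact h2
  -- the logarithmic derivative of G
  have hGne : ∀ z ∈ ball c R1, G z ≠ 0 := by
    intro z hz
    have hz2 : z ∈ closedBall c R2 :=
      closedBall_subset_closedBall h12.le (ball_subset_closedBall hz)
    refine mul_ne_zero (Finset.prod_ne_zero_iff.2 fun u hu => pow_ne_zero _ (hbne u hu z hz2))
      (mul_ne_zero (Finset.prod_ne_zero_iff.2 fun u hu => ?_) (hgne z hz2))
    rw [Finset.mem_sdiff] at hu
    by_cases hnu : n u = 0
    · rw [hnu, pow_zero]; exact one_ne_zero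
    · apply pow_ne_zero
      intro h
      have h1 : u = z := (sub_eq_zero.1 h).symm
      subst h1
      exact hu.2 ((hmem u).2 ⟨ball_subset_closedBall hz, (hS u hu.1).2⟩)
  have hGc_ge : ‖f c‖ ≤ ‖G c‖ := by
    refine le_trans ?_ hGcge
    have h1 : 1 ≤ (R2 / R1) ^ (∑ u ∈ S, n u) := by
      apply one_le_pow₀
      rw [le_div_iff₀ hR1]; linarith
    nlinarith
  have hlogG := hlog G c Λ hΛ
    (hGan.differentiableOn.mono (ball_subset_closedBall.trans (closedBall_subset_closedBall h12.le)))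
    hGne (fun z hz => (hmax z (closedBall_subset_closedBall h12.le (ball_subset_closedBall hz))).trans
      (by gcongr))
  refine ⟨S, hmem, fun u hu => by rw [hord u hu]; exact hn1 u hu, ?_, ?_⟩
  · rw [Finset.sum_congr rfl (fun u hu => by rw [hord u hu])]
    refine hcount.trans ?_
    gcongr
    have : 0 ≤ C1 + K * (R1 / (R2 ^ 2 - R1 * R1)) := by positivity
    linarith
  · intro z hz hfz
    rw [mem_closedBall, dist_eq_norm] at hz
    have hzR2 : z ∈ ball c R2 := by rw [mem_ball, dist_eq_norm]; linarith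
    have hzR1 : z ∈ ball c R1 := by rw [mem_ball, dist_eq_norm]; linarith
    have hz2 := ball_subset_closedBall hzR2
    have hzu : ∀ u ∈ S, z - u ≠ 0 := by
      intro u hu h
      have : u = z := (sub_eq_zero.1 h).symm
      rw [this] at hu
      exact hfz ((hmem z).1 hu).2
    set h : ℂ → ℂ := fun z => (∏ u ∈ S2 \ S, (z - u) ^ (n u)) * g z with hh
    have hhan : AnalyticAt ℂ h z := by
      apply AnalyticAt.mul _ (hg z hz2)
      apply Finset.analyticAt_fun_prod
      intro u _
      exact ((analyticAt_id.sub analyticAt_const).pow _)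
    have hhne : h z ≠ 0 := by
      have := hGne z hzR1
      rw [hGdef] at this
      exact right_ne_zero_of_mul this
    have e1 : deriv f z / f z = (∑ u ∈ S, (n u : ℂ) / (z - u)) + deriv h z / h z := by
      have h1 : f =ᶠ[𝓝 z] fun z => (∏ u ∈ S, (z - u) ^ (n u)) * h z := by
        filter_upwards [isOpen_ball.mem_nhds hzR2] with w hw
        exact hfac' w (ball_subset_closedBall hw)
      have h2 : logDeriv f z = logDeriv (fun z => (∏ u ∈ S, (z - u) ^ (n u)) * h z) z := by
        rw [logDeriv_apply, logDeriv_apply, h1.deriv_eq, h1.self_of_nhds]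
      rw [← logDeriv_apply, ← logDeriv_apply, h2, logDeriv_mul]
      · congr 1
        rw [logDeriv_prod]
        · refine Finset.sum_congr rfl fun u hu => ?_
          rw [logDeriv_fun_pow (by fun_prop), logDeriv_apply]
          simp [div_eq_mul_inv]
        · intro u hu
          exact pow_ne_zero _ (hzu u hu)
        · intro u hu
          fun_prop
      · exact Finset.prod_ne_zero_iff.2 fun u hu => pow_ne_zero _ (hzu u hu)
      · exact hhne
      · fun_prop
      · exact hhan.differentiableAt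
    have e2 : deriv G z / G z = (∑ u ∈ S, (n u : ℂ) * ((-(starRingEnd ℂ) (u - c) / R2) / b u z)) +
        deriv h z / h z := by
      rw [← logDeriv_apply, ← logDeriv_apply, hGdef, logDeriv_mul]
      · congr 1
        rw [logDeriv_prod]
        · refine Finset.sum_congr rfl fun u hu => ?_
          rw [logDeriv_fun_pow (blf_hasDerivAt c R2 u z).differentiableAt, logDeriv_apply,
            (blf_hasDerivAt c R2 u z).deriv]
        · intro u hu
          exact pow_ne_zero _ (hbne u hu z hz2)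
        · intro u hu
          exact (blf_hasDerivAt c R2 u z).differentiableAt.pow _
      · exact Finset.prod_ne_zero_iff.2 fun u hu => pow_ne_zero _ (hbne u hu z hz2)
      · exact hhne
      · exact DifferentiableAt.fun_finsetProd fun u _ =>
          (blf_hasDerivAt c R2 u z).differentiableAt.pow _
      · exact hhan.differentiableAt
    have e3 : deriv f z / f z - ∑ u ∈ S, (analyticOrderNatAt f u : ℂ) / (z - u) =
        deriv G z / G z - ∑ u ∈ S, (n u : ℂ) * ((-(starRingEnd ℂ) (u - c) / R2) / b u z) := by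
      have hs : ∑ u ∈ S, (analyticOrderNatAt f u : ℂ) / (z - u) = ∑ u ∈ S, (n u : ℂ) / (z - u) :=
        Finset.sum_congr rfl (fun u hu => by rw [hord u hu])
      rw [e1, e2, hs]
      ring
    rw [e3]
    have h4 : ‖∑ u ∈ S, (n u : ℂ) * ((-(starRingEnd ℂ) (u - c) / R2) / b u z)‖ ≤
        K * Λ * (R1 / (R2 ^ 2 - R1 * R1)) := by
      calc ‖∑ u ∈ S, (n u : ℂ) * ((-(starRingEnd ℂ) (u - c) / R2) / b u z)‖
          ≤ ∑ u ∈ S, (n u : ℝ) * (R1 / (R2 ^ 2 - R1 * R1)) := by
            refine norm_sum_le_of_le _ fun u hu => ?_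
            rw [norm_mul, Complex.norm_natCast]
            gcongr
            have h5 := norm_blf_ge (z := z) (b := R1) hR2 (hnorm u hu) (by linarith) hR1.le
            rw [norm_div, norm_div, norm_neg, RCLike.norm_conj, Complex.norm_real,
              Real.norm_eq_abs, abs_of_pos hR2]
            have h6 : 0 < (R2 ^ 2 - R1 * R1) / R2 := by positivity
            calc ‖u - c‖ / R2 / ‖b u z‖ ≤ (R1 / R2) / ((R2 ^ 2 - R1 * R1) / R2) := by
                  have := hnorm u hu
                  have := norm_nonneg (u - c)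
                  rw [hb]
                  gcongr
              _ = R1 / (R2 ^ 2 - R1 * R1) := by
                  field_simp
        _ = (∑ u ∈ S, (n u : ℝ)) * (R1 / (R2 ^ 2 - R1 * R1)) := by rw [Finset.sum_mul]
        _ ≤ K * Λ * (R1 / (R2 ^ 2 - R1 * R1)) := by gcongr
    calc ‖deriv G z / G z - ∑ u ∈ S, (n u : ℂ) * ((-(starRingEnd ℂ) (u - c) / R2) / b u z)‖
        ≤ ‖deriv G z / G z‖ + ‖∑ u ∈ S, (n u : ℂ) * ((-(starRingEnd ℂ) (u - c) / R2) / b u z)‖ :=
          norm_sub_le _ _
      _ ≤ C1 * Λ + K * Λ * (R1 / (R2 ^ 2 - R1 * R1)) := by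
          gcongr
          exact hlogG z hz
      _ ≤ (K + (C1 + K * (R1 / (R2 ^ 2 - R1 * R1)))) * Λ := by
          have : 0 ≤ K * Λ := by positivity
          nlinarith

end Pool.Agent.H6
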