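import Pool.Agent.H6.Win.Line

/-!
# The regularised logarithmic derivative
-/

set_option autoImplicit false

open Complex Filter Topology MeasureTheory Set Metric

namespace Pool.Agent.H6.Win

open Pool.Agent.H6

lemma zetaPole_eventually_ne (s : ℂ) : ∀ᶠ z in 𝓝[≠] s, zetaPole z ≠ 0 := by
  rcases (zetaPole_analyticAt s).eventually_eq_zero_or_eventually_ne_zero with h | h
  · exfalso
    have h3 := (zetaPole_differentiable.differentiableOn.analyticOnNhd
      isOpen_univ).eqOn_zero_of_preconnected_of_eventuallyEq_zero isPreconnected_univ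
      (mem_univ s) h
    exact zetaPole_ne_zero_of_one_le (s := 2) (by simp) (h3 (mem_univ 2))
  · exact h

/-- crude bound for the number of zeros -/
theorem zset_count {σ : ℝ} (hσ : 1 / 2 < σ) (hσ2 : σ < 2) :
    ∃ C : ℝ, 0 < C ∧ ∀ T : ℝ, 1 ≤ T → (∑ u ∈ zset σ T, (zord u : ℝ)) ≤ C * T ^ 2 := by
  set σ1 : ℝ := (1 / 2 + σ) / 2 with hσ1
  set η : ℝ := σ - σ1 with hη
  have hη0 : 0 < η := by rw [hη, hσ1]; linarith
  obtain ⟨C, hC, hloc⟩ := local_count (σ1 := σ1) (σ := σ) (by rw [hσ1]; linarith)
    (by rw [hσ1]; linarith) hσ2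
  refine ⟨(2 * (1 / η + 1) + 1) * (C * (η + 3)), by positivity, fun T hT => ?_⟩
  set J : ℤ := ⌈T / η⌉ with hJ
  have hTη : 0 < T / η := by positivity
  have hJ1 : T / η ≤ J := Int.le_ceil _
  have hJ2 : (J:ℝ) < T / η + 1 := Int.ceil_lt_add_one _
  have hJ0 : 0 ≤ J := by
    have : (0:ℝ) < J := by linarith
    exact_mod_cast this.le
  have h1 : ∀ u ∈ zset σ T, (zord u : ℝ) ≤
      ∑ j ∈ Finset.Icc (-J) J, if |u.im - j * η| ≤ η then (zord u : ℝ) else 0 := by
    intro u hu
    rw [mem_zset] at hu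
    set j : ℤ := ⌊u.im / η⌋ with hj
    have e1 : (j:ℝ) ≤ u.im / η := Int.floor_le _
    have e2 : u.im / η < j + 1 := Int.lt_floor_add_one _
    rw [le_div_iff₀ hη0] at e1
    rw [div_lt_iff₀ hη0] at e2
    have him := abs_le.1 hu.2.1
    have hjm : j ∈ Finset.Icc (-J) J := by
      rw [Finset.mem_Icc]
      have e3 : T ≤ J * η := by rwa [div_le_iff₀ hη0] at hJ1
      constructor
      · have : (-(J:ℝ) - 1) < j := by
          by_contra hcon
          rw [not_lt] at hcon
          nlinarith [him.1]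
        have h5 : -J - 1 < j := by
          have : ((-J - 1 : ℤ) : ℝ) < (j : ℝ) := by push_cast; linarith
          exact_mod_cast this
        omega
      · have : (j:ℝ) ≤ J := by
          by_contra hcon
          rw [not_le] at hcon
          nlinarith [him.2]
        exact_mod_cast this
    have hcond : |u.im - j * η| ≤ η := by
      rw [abs_le]; constructor <;> linarith
    calc (zord u : ℝ) = if |u.im - j * η| ≤ η then (zord u : ℝ) else 0 := by rw [if_pos hcond]
      _ ≤ _ := Finset.single_le_sum (f := fun j : ℤ => if |u.im - j * η| ≤ η then (zord u : ℝ) else 0)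
          (fun i _ => by positivity) hjm
  calc ∑ u ∈ zset σ T, (zord u : ℝ)
      ≤ ∑ u ∈ zset σ T, ∑ j ∈ Finset.Icc (-J) J, if |u.im - j * η| ≤ η then (zord u : ℝ) else 0 :=
        Finset.sum_le_sum h1
    _ = ∑ j ∈ Finset.Icc (-J) J, ∑ u ∈ zset σ T, if |u.im - j * η| ≤ η then (zord u : ℝ) else 0 :=
        Finset.sum_comm
    _ ≤ ∑ j ∈ Finset.Icc (-J) J, C * ((η + 3) * T) := by
        refine Finset.sum_le_sum fun j hj => ?_
        rw [Finset.mem_Icc] at hj
        rw [← Finset.sum_filter]
        refine (hloc (j * η) _ (fun u hu => ?_)).trans ?_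
        · rw [Finset.mem_filter, mem_zset] at hu
          exact ⟨hu.1.1, hu.2, hu.1.2.2⟩
        · have hjabs : |(j:ℝ) * η| ≤ T + η := by
            rw [abs_mul, abs_of_pos hη0]
            have h5 : |(j:ℝ)| ≤ J := by
              rw [abs_le]
              constructor
              · have := hj.1
                have h6 : ((-J : ℤ) : ℝ) ≤ j := by exact_mod_cast this
                push_cast at h6
                exact h6
              · exact_mod_cast hj.2
            calc |(j:ℝ)| * η ≤ (T / η + 1) * η := by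
                  have : |(j:ℝ)| ≤ T / η + 1 := by linarith
                  gcongr
              _ = T + η := by field_simp
          have h6 : Real.log (|(j:ℝ) * η| + 2) ≤ (η + 3) * T := by
            have h7 := Real.log_le_sub_one_of_pos (show 0 < |(j:ℝ) * η| + 2 by positivity)
            nlinarith
          gcongr
    _ = ((2 * J + 1 : ℤ) : ℝ) * (C * ((η + 3) * T)) := by
        rw [Finset.sum_const, nsmul_eq_mul]
        congr 1
        have h8 : ((Finset.Icc (-J) J).card : ℤ) = 2 * J + 1 := by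
          rw [Int.card_Icc, Int.toNat_of_nonneg (by omega)]
          ring
        exact_mod_cast h8
    _ ≤ ((2 * (1 / η + 1) + 1) * T) * (C * ((η + 3) * T)) := by
        have h9 : ((2 * J + 1 : ℤ) : ℝ) ≤ (2 * (1 / η + 1) + 1) * T := by
          push_cast
          have h10 : T / η = 1 / η * T := by ring
          have h11 : 0 < 1 / η := by positivity
          nlinarith
        gcongr
    _ = _ := by ring

/-- bound for `hline` on the line `Re s = 2`. -/
theorem hline_line : ∃ C : ℝ, 0 < C ∧ ∀ (Z : Finset ℂ) (t : ℝ), (∀ ρ ∈ Z, zetaPole ρ = 0) →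
    ‖hline Z (2 + t * I)‖ ≤ C + ∑ u ∈ Z, (zord u : ℝ) := by
  set M : ℝ := ∑' n, ‖LSeries.term (fun n => (ArithmeticFunction.vonMangoldt n : ℂ)) 2 n‖ with hM
  have hM0 : 0 ≤ M := tsum_nonneg fun n => norm_nonneg _
  refine ⟨M + 1, by positivity, fun Z t hZ => ?_⟩
  rw [hline, neg_logDeriv_zetaPole (by simp)]
  refine (norm_add_le _ _).trans ?_
  gcongr
  · refine (norm_sub_le _ _).trans ?_
    gcongr
    · exact norm_LSeries_line t
    · rw [norm_div, norm_one]
      apply div_le_one_of_le₀ _ (norm_nonneg _)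
      have h1 := Complex.abs_re_le_norm (2 + t * I - 1)
      have h2 : (2 + t * I - 1).re = 1 := by simp; norm_num
      rw [h2] at h1
      simpa using h1
  · refine norm_sum_le_of_le _ fun u hu => ?_
    rw [norm_div, Complex.norm_natCast]
    have hu1 : u.re < 1 := by
      by_contra h
      exact zetaPole_ne_zero_of_one_le (not_lt.1 h) (hZ u hu)
    have h1 := Complex.abs_re_le_norm (2 + t * I - u)
    have h2 : (2 + t * I - u).re = 2 - u.re := by simp
    rw [h2] at h1
    have h3 := le_abs_self (2 - u.re)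
    apply div_le_self (by positivity)
    linarith

/-- **The regularised logarithmic derivative.** -/
theorem exists_H {σ σ' : ℝ} (h1 : 1 / 2 < σ) (h2 : σ < σ') (h3 : σ' ≤ 1) :
    ∃ C : ℝ, 0 < C ∧ ∀ T : ℝ, 1 ≤ T → (∑ u ∈ zset σ (T + 3), (zord u : ℝ)) ≤ C * T ^ 2 ∧
      ∃ H : ℂ → ℂ, (∀ s : ℂ, σ' ≤ s.re → s.re ≤ 2 → |s.im| ≤ T →
        DifferentiableAt ℂ H s ∧ ‖H s‖ ≤ C * T ^ 2) ∧
      ∀ t : ℝ, |t| ≤ T → H (2 + t * I) = hline (zset σ (T + 3)) (2 + t * I) := by
  classical
  set σ1 : ℝ := (1 / 2 + σ) / 2 with hσ1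
  set σ2 : ℝ := (σ + σ') / 2 with hσ2
  set d : ℝ := σ2 - σ with hd
  have hd0 : 0 < d := by rw [hd, hσ2]; linarith
  have hσ1σ : σ1 < σ := by rw [hσ1]; linarith
  have hσ1h : 1 / 2 < σ1 := by rw [hσ1]; linarith
  have hσ2' : σ2 < σ' := by rw [hσ2]; linarith
  have hσσ2 : σ < σ2 := by rw [hσ2]; linarith
  obtain ⟨C0, hC0, hloc⟩ := zeta_loc (σ1 := σ1) (σ2 := σ2) hσ1h (by linarith) (by linarith)
  obtain ⟨C1, hC1, hcount⟩ := zset_count (σ := σ) h1 (by linarith)
  have hcount' : ∀ T : ℝ, 1 ≤ T → (∑ u ∈ zset σ (T + 3), (zord u : ℝ)) ≤ 16 * C1 * T ^ 2 := by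
    intro T hT
    refine (hcount (T + 3) (by linarith)).trans ?_
    have : (T + 3) ^ 2 ≤ 16 * T ^ 2 := by nlinarith
    calc C1 * (T + 3) ^ 2 ≤ C1 * (16 * T ^ 2) := by gcongr
      _ = _ := by ring
  set C : ℝ := 4 * C0 + (4 * C0 + 16 * C1) / d + 16 * C1 with hC
  refine ⟨C, by positivity, fun T hT => ⟨?_, ?_⟩⟩
  · refine (hcount' T hT).trans ?_
    have : 0 ≤ 4 * C0 + (4 * C0 + 16 * C1) / d := by positivity
    have : 16 * C1 ≤ C := by rw [hC]; linarith
    gcongr
  set Z := zset σ (T + 3) with hZ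
  set Ω : Set ℂ := {s : ℂ | σ2 < s.re ∧ s.re < 3 ∧ |s.im| < T + 1} with hΩ
  have hΩo : IsOpen Ω := by
    apply IsOpen.inter (isOpen_lt continuous_const Complex.continuous_re)
    apply IsOpen.inter (isOpen_lt Complex.continuous_re continuous_const)
    exact isOpen_lt Complex.continuous_im.abs continuous_const
  -- bound for hline
  have hbound : ∀ s ∈ Ω, zetaPole s ≠ 0 → ‖hline Z s‖ ≤ C * T ^ 2 := by
    rintro s ⟨a1, a2, a3⟩ hs0
    obtain ⟨S, hS1, hS2, hS3, hS4⟩ := hloc s.im
    have hlogle : Real.log (|s.im| + 2) ≤ 4 * T ^ 2 := by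
      have := Real.log_le_sub_one_of_pos (show 0 < |s.im| + 2 by positivity)
      nlinarith
    have hsc : s - ((2:ℂ) + s.im * I) = ((s.re - 2 : ℝ) : ℂ) := by
      apply Complex.ext <;> simp
    have hscn : ‖s - ((2:ℂ) + s.im * I)‖ ≤ 2 - σ2 := by
      rw [hsc, Complex.norm_real, Real.norm_eq_abs, abs_le]
      constructor <;> linarith
    have hs2 : s ∈ closedBall ((2:ℂ) + s.im * I) (2 - σ2) := by
      rw [mem_closedBall, dist_eq_norm]; exact hscn
    have hS4' := hS4 s hs2 hs0
    -- rearrange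
    have hsplit : hline Z s = -(deriv zetaPole s / zetaPole s - ∑ u ∈ S, (zord u : ℂ) / (s - u)) -
        ∑ u ∈ S \ Z, (zord u : ℂ) / (s - u) + ∑ u ∈ Z \ S, (zord u : ℂ) / (s - u) := by
      have e1 := Finset.sum_sdiff_sub_sum_sdiff (s₁ := S) (s₂ := Z) (f := fun u => (zord u : ℂ) / (s - u))
      rw [hline]
      linear_combination -e1
    have b1 : ‖∑ u ∈ S \ Z, (zord u : ℂ) / (s - u)‖ ≤ (∑ u ∈ S, (zord u : ℝ)) / d := by
      calc ‖∑ u ∈ S \ Z, (zord u : ℂ) / (s - u)‖ ≤ ∑ u ∈ S \ Z, (zord u : ℝ) / d := by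
            refine norm_sum_le_of_le _ fun u hu => ?_
            rw [Finset.mem_sdiff, hS1, hZ, mem_zset] at hu
            obtain ⟨⟨c1, c2⟩, c3⟩ := hu
            rw [mem_closedBall, dist_eq_norm] at c1
            have c4 := (Complex.abs_im_le_norm (u - (2 + s.im * I))).trans c1
            have c5 : (u - (2 + s.im * I)).im = u.im - s.im := by simp
            rw [c5, abs_le] at c4
            have c6 : |u.im| ≤ T + 3 := by
              rw [abs_lt] at a3
              rw [abs_le]
              constructor <;> linarith [a3.1, a3.2, c4.1, c4.2]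
            have c7 : u.re ≤ σ := by
              by_contra hcon
              exact c3 ⟨not_le.1 hcon, c6, c2⟩
            have c8 : d ≤ ‖s - u‖ := by
              have := Complex.abs_re_le_norm (s - u)
              rw [Complex.sub_re] at this
              have := le_abs_self (s.re - u.re)
              rw [hd]
              linarith
            rw [norm_div, Complex.norm_natCast]
            gcongr
        _ ≤ ∑ u ∈ S, (zord u : ℝ) / d :=
            Finset.sum_le_sum_of_subset_of_nonneg Finset.sdiff_subset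
              (fun u _ _ => by positivity)
        _ = _ := by rw [Finset.sum_div]
    have b2 : ‖∑ u ∈ Z \ S, (zord u : ℂ) / (s - u)‖ ≤ (∑ u ∈ Z, (zord u : ℝ)) / d := by
      calc ‖∑ u ∈ Z \ S, (zord u : ℂ) / (s - u)‖ ≤ ∑ u ∈ Z \ S, (zord u : ℝ) / d := by
            refine norm_sum_le_of_le _ fun u hu => ?_
            rw [Finset.mem_sdiff, hS1, hZ, mem_zset] at hu
            obtain ⟨⟨c1, c2, c2'⟩, c3⟩ := hu
            have c4 : 2 - σ1 < ‖u - (2 + s.im * I)‖ := by
              by_contra hcon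
              apply c3
              rw [mem_closedBall, dist_eq_norm]
              exact ⟨not_lt.1 hcon, c2'⟩
            have c8 : d ≤ ‖s - u‖ := by
              have h5 : ‖u - (2 + s.im * I)‖ ≤ ‖s - u‖ + ‖s - ((2:ℂ) + s.im * I)‖ := by
                calc ‖u - (2 + s.im * I)‖ = ‖-(s - u) + (s - (2 + s.im * I))‖ := by
                      congr 1; ring
                  _ ≤ ‖-(s - u)‖ + ‖s - ((2:ℂ) + s.im * I)‖ := norm_add_le _ _
                  _ = _ := by rw [norm_neg]
              rw [hd]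
              linarith
            rw [norm_div, Complex.norm_natCast]
            gcongr
        _ ≤ ∑ u ∈ Z, (zord u : ℝ) / d :=
            Finset.sum_le_sum_of_subset_of_nonneg Finset.sdiff_subset
              (fun u _ _ => by positivity)
        _ = _ := by rw [Finset.sum_div]
    have hZc := hcount' T hT
    calc ‖hline Z s‖ ≤ ‖-(deriv zetaPole s / zetaPole s - ∑ u ∈ S, (zord u : ℂ) / (s - u))‖ +
          ‖∑ u ∈ S \ Z, (zord u : ℂ) / (s - u)‖ + ‖∑ u ∈ Z \ S, (zord u : ℂ) / (s - u)‖ := by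
          rw [hsplit]
          refine (norm_add_le _ _).trans ?_
          gcongr
          exact norm_sub_le _ _
      _ ≤ C0 * (4 * T ^ 2) + (C0 * (4 * T ^ 2)) / d + (16 * C1 * T ^ 2) / d := by
          rw [norm_neg]
          gcongr
          · exact hS4'.trans (by gcongr)
          · refine b1.trans ?_
            gcongr
            exact hS3.trans (by gcongr)
          · refine b2.trans ?_
            gcongr
      _ = (4 * C0 + (4 * C0 + 16 * C1) / d) * T ^ 2 := by ring
      _ ≤ C * T ^ 2 := by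
          have h13 : 0 < 16 * C1 := by positivity
          have h12 : 4 * C0 + (4 * C0 + 16 * C1) / d ≤ C := by rw [hC]; linarith
          exact mul_le_mul_of_nonneg_right h12 (by positivity)
  -- the analytic function
  have hR : 0 < T + 10 := by linarith
  obtain ⟨S2, n, g, hg, hgne, hS, hfac⟩ := exists_factor hR (f := zetaPole) (c := 2)
    (fun z _ => zetaPole_analyticAt z) (zetaPole_ne_zero_of_one_le (by simp))
  have hΩball : Ω ⊆ ball 2 (T + 10) := by
    rintro s ⟨a1, a2, a3⟩
    rw [mem_ball, dist_eq_norm]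
    have h4 := Complex.norm_le_abs_re_add_abs_im (s - 2)
    simp only [Complex.sub_re, Complex.sub_im, Complex.re_ofNat, Complex.im_ofNat, sub_zero] at h4
    have h5 : |s.re - 2| ≤ 2 := by
      rw [abs_le]; constructor <;> linarith
    linarith
  have hZball : ∀ u ∈ Z, u ∈ ball (2:ℂ) (T + 10) := by
    intro u hu
    rw [hZ, mem_zset] at hu
    have hu1 : u.re < 1 := by
      by_contra h
      exact zetaPole_ne_zero_of_one_le (not_lt.1 h) hu.2.2
    rw [mem_ball, dist_eq_norm]
    have h4 := Complex.norm_le_abs_re_add_abs_im (u - 2)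
    simp only [Complex.sub_re, Complex.sub_im, Complex.re_ofNat, Complex.im_ofNat, sub_zero] at h4
    have h5 : |u.re - 2| ≤ 2 := by
      rw [abs_le]; constructor <;> linarith [hu.1]
    linarith [hu.2.1]
  have hfact0 : ∀ z ∈ closedBall (2:ℂ) (T + 10), zetaPole z = 0 → z ∈ S2 ∧ n z ≠ 0 := by
    intro z hz h0
    have h3 := h0
    rw [hfac z hz] at h3
    rcases mul_eq_zero.1 h3 with h | h
    · rw [Finset.prod_eq_zero_iff] at h
      obtain ⟨v, hv, h4⟩ := h
      have h5 : z - v = 0 := by
        by_contra h6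
        exact (pow_ne_zero _ h6) h4
      have h6 : n v ≠ 0 := by
        intro h7
        rw [h7, pow_zero] at h4
        exact one_ne_zero h4
      have h8 : v = z := (sub_eq_zero.1 h5).symm
      subst h8
      exact ⟨hv, h6⟩
    · exact absurd h (hgne z hz)
  have hZS2 : Z ⊆ S2 := by
    intro u hu
    refine (hfact0 u (ball_subset_closedBall (hZball u hu)) ?_).1
    rw [hZ, mem_zset] at hu
    exact hu.2.2
  have hord : ∀ u ∈ Z, zord u = n u := fun u hu =>
    order_eq_of_factor hg hgne (fun z _ => zetaPole_analyticAt z) hfac (hZS2 hu) (hZball u hu)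
  set g1 : ℂ → ℂ := fun z => (∏ u ∈ S2 \ Z, (z - u) ^ (n u)) * g z with hg1
  have hfac' : ∀ z ∈ closedBall (2:ℂ) (T + 10),
      zetaPole z = (∏ u ∈ Z, (z - u) ^ (n u)) * g1 z := by
    intro z hz
    rw [hfac z hz, hg1]
    simp only
    rw [← mul_assoc]
    congr 1
    rw [mul_comm]
    exact (Finset.prod_sdiff hZS2).symm
  have hg1an : ∀ s ∈ Ω, AnalyticAt ℂ g1 s := by
    intro s hs
    apply AnalyticAt.mul _ (hg s (ball_subset_closedBall (hΩball hs)))
    apply Finset.analyticAt_fun_prod
    intro u _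
    exact ((analyticAt_id.sub analyticAt_const).pow _)
  have hg1ne : ∀ s ∈ Ω, g1 s ≠ 0 := by
    intro s hs
    have hs2 := ball_subset_closedBall (hΩball hs)
    refine mul_ne_zero (Finset.prod_ne_zero_iff.2 fun u hu => ?_) (hgne s hs2)
    rw [Finset.mem_sdiff] at hu
    by_cases hnu : n u = 0
    · rw [hnu, pow_zero]; exact one_ne_zero
    · apply pow_ne_zero
      intro h
      have h1 : u = s := (sub_eq_zero.1 h).symm
      subst h1
      apply hu.2
      rw [hZ, mem_zset]
      obtain ⟨a1, a2, a3⟩ := hs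
      exact ⟨by linarith, by linarith, (hS u hu.1).2⟩
  set H : ℂ → ℂ := fun s => -(deriv g1 s / g1 s) with hH
  have hHd : ∀ s ∈ Ω, DifferentiableAt ℂ H s := by
    intro s hs
    exact ((hg1an s hs).deriv.differentiableAt.div (hg1an s hs).differentiableAt (hg1ne s hs)).neg
  have hHeq : ∀ s ∈ Ω, zetaPole s ≠ 0 → H s = hline Z s := by
    intro s hs hs0
    have hzu : ∀ u ∈ Z, s - u ≠ 0 := by
      intro u hu h
      have : u = s := (sub_eq_zero.1 h).symm
      rw [this, hZ, mem_zset] at hu
      exact hs0 hu.2.2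
    have e1 : deriv zetaPole s / zetaPole s = (∑ u ∈ Z, (n u : ℂ) / (s - u)) +
        deriv g1 s / g1 s := by
      have h1 : zetaPole =ᶠ[𝓝 s] fun z => (∏ u ∈ Z, (z - u) ^ (n u)) * g1 z := by
        filter_upwards [isOpen_ball.mem_nhds (hΩball hs)] with w hw
        exact hfac' w (ball_subset_closedBall hw)
      have h2 : logDeriv zetaPole s = logDeriv (fun z => (∏ u ∈ Z, (z - u) ^ (n u)) * g1 z) s := by
        rw [logDeriv_apply, logDeriv_apply, h1.deriv_eq, h1.self_of_nhds]
      rw [← logDeriv_apply, ← logDeriv_apply, h2, logDeriv_mul]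
      · congr 1
        rw [logDeriv_prod]
        · refine Finset.sum_congr rfl fun u hu => ?_
          rw [logDeriv_fun_pow (by fun_prop), logDeriv_apply]
          simp [div_eq_mul_inv]
        · intro u hu
          exact pow_ne_zero _ (hzu u hu)
        · intro u hu
          fun_prop
      · exact Finset.prod_ne_zero_iff.2 fun u hu => pow_ne_zero _ (hzu u hu)
      · exact hg1ne s hs
      · fun_prop
      · exact (hg1an s hs).differentiableAt
    have e2 : ∑ u ∈ Z, (zord u : ℂ) / (s - u) = ∑ u ∈ Z, (n u : ℂ) / (s - u) :=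
      Finset.sum_congr rfl fun u hu => by rw [hord u hu]
    rw [hline, e1, e2, hH]
    ring
  refine ⟨H, ?_, ?_⟩
  · intro s a1 a2 a3
    have hsΩ : s ∈ Ω := ⟨by linarith, by linarith, by linarith⟩
    refine ⟨hHd s hsΩ, ?_⟩
    have hcont : Tendsto (fun z => ‖H z‖) (𝓝[≠] s) (𝓝 ‖H s‖) :=
      ((hHd s hsΩ).continuousAt.norm).tendsto.mono_left nhdsWithin_le_nhds
    refine le_of_tendsto hcont ?_
    filter_upwards [zetaPole_eventually_ne s, mem_nhdsWithin_of_mem_nhds (hΩo.mem_nhds hsΩ)]
      with z hz1 hz2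
    rw [hHeq z hz2 hz1]
    exact hbound z hz2 hz1
  · intro t ht
    apply hHeq
    · refine ⟨?_, ?_, ?_⟩
      · simp; linarith
      · simp; norm_num
      · simp; linarith
    · exact zetaPole_ne_zero_of_one_le (by simp)

end Pool.Agent.H6.Win
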