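import Pool.Agent.H6.Win.LocLog

/-!
# Local zeros of `ζ` and its logarithmic derivative
-/

set_option autoImplicit false

open Complex Metric Set Filter Topology Real MeasureTheory

namespace Pool.Agent.H6

/-- multiplicity of a zero -/
noncomputable def zord (u : ℂ) : ℕ := analyticOrderNatAt zetaPole u

lemma zetaPole_analyticAt (z : ℂ) : AnalyticAt ℂ zetaPole z := zetaPole_differentiable.analyticAt z

lemma zetaPole_ne_zero_of_one_le {s : ℂ} (hs : 1 ≤ s.re) : zetaPole s ≠ 0 := by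
  unfold zetaPole
  by_cases h : s = 1
  · subst h; simp
  · rw [Function.update_of_ne h]
    exact mul_ne_zero (sub_ne_zero.2 h) (riemannZeta_ne_zero_of_one_le_re hs)

/-- size of `zetaPole` compared with its value at `2 + it`. -/
lemma zetaPole_ratio : ∃ K : ℝ, 1 ≤ K ∧ ∀ t : ℝ, ∀ z ∈ closedBall ((2:ℂ) + t * I) (3 / 2),
    ‖zetaPole z‖ ≤ K * (|t| + 5) ^ 2 * ‖zetaPole (2 + t * I)‖ := by
  set K0 : ℝ := ∑' n : ℕ, 1 / (n : ℝ) ^ (2:ℝ) with hK0
  refine ⟨max 1 (2 * K0), le_max_left _ _, fun t z hz => ?_⟩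
  rw [mem_closedBall, dist_eq_norm] at hz
  have hre : 1 / 2 ≤ z.re := by
    have h1 := (Complex.abs_re_le_norm (z - (2 + t * I))).trans hz
    simp at h1
    rw [abs_le] at h1
    linarith [h1.1]
  have h1 := norm_zetaPole_le hre
  have hz2 : ‖z‖ ≤ |t| + 7 / 2 := by
    calc ‖z‖ = ‖(z - (2 + t * I)) + (2 + t * I)‖ := by ring_nf
      _ ≤ ‖z - (2 + t * I)‖ + (‖(2:ℂ)‖ + ‖(t:ℂ) * I‖) := (norm_add_le _ _).trans (by
          gcongr; exact norm_add_le _ _)
      _ ≤ |t| + 7 / 2 := by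
          simp
          linarith
  have h2 : ‖zetaPole z‖ ≤ 2 * (|t| + 5) ^ 2 := by
    refine h1.trans ?_
    have := norm_nonneg z
    have h8 : 1 + ‖z‖ ≤ |t| + 5 := by linarith
    gcongr
  set c : ℂ := 2 + t * I with hc
  have hcre : c.re = 2 := by simp [hc]
  have h3 := norm_inv_riemannZeta_le (s := c) (x := 2) (by norm_num) (by rw [hcre])
  have hcne : c ≠ 1 := by
    intro h; rw [h] at hcre; simp at hcre
  have hζ : riemannZeta c ≠ 0 := riemannZeta_ne_zero_of_one_le_re (by rw [hcre]; norm_num)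
  have h4 : zetaPole c = (c - 1) * riemannZeta c := by
    unfold zetaPole
    rw [Function.update_of_ne hcne]
  have h5 : 1 ≤ ‖c - 1‖ := by
    have := Complex.abs_re_le_norm (c - 1)
    rw [Complex.sub_re, hcre, Complex.one_re] at this
    norm_num at this
    exact this
  have h6 : 1 ≤ K0 * ‖zetaPole c‖ := by
    rw [h4, norm_mul]
    rw [norm_inv] at h3
    have hpos : 0 < ‖riemannZeta c‖ := norm_pos_iff.2 hζ
    have h7 : 1 ≤ K0 * ‖riemannZeta c‖ := by
      rw [inv_le_iff_one_le_mul₀ hpos] at h3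
      exact h3
    calc (1:ℝ) ≤ K0 * ‖riemannZeta c‖ := h7
      _ = 1 * (K0 * ‖riemannZeta c‖) := by ring
      _ ≤ ‖c - 1‖ * (K0 * ‖riemannZeta c‖) := by gcongr
      _ = _ := by ring
  calc ‖zetaPole z‖ ≤ 2 * (|t| + 5) ^ 2 := h2
    _ = 2 * (|t| + 5) ^ 2 * 1 := by ring
    _ ≤ 2 * (|t| + 5) ^ 2 * (K0 * ‖zetaPole c‖) := by gcongr
    _ = 2 * K0 * (|t| + 5) ^ 2 * ‖zetaPole c‖ := by ring
    _ ≤ max 1 (2 * K0) * (|t| + 5) ^ 2 * ‖zetaPole c‖ := by
        gcongr
        exact le_max_right _ _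

lemma log_two_add_pos (t : ℝ) : 0 < Real.log (|t| + 2) := by
  apply Real.log_pos
  have := abs_nonneg t
  linarith

theorem zeta_loc {σ1 σ2 : ℝ} (h1 : 1 / 2 < σ1) (h12 : σ1 < σ2) (h2 : σ2 < 2) :
    ∃ C : ℝ, 0 < C ∧ ∀ t : ℝ, ∃ S : Finset ℂ,
      (∀ u, u ∈ S ↔ (u ∈ closedBall ((2:ℂ) + t * I) (2 - σ1) ∧ zetaPole u = 0)) ∧
      (∀ u ∈ S, 1 ≤ zord u) ∧
      (∑ u ∈ S, (zord u : ℝ)) ≤ C * Real.log (|t| + 2) ∧
      ∀ z ∈ closedBall ((2:ℂ) + t * I) (2 - σ2), zetaPole z ≠ 0 →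
        ‖deriv zetaPole z / zetaPole z - ∑ u ∈ S, (zord u : ℂ) / (z - u)‖ ≤
          C * Real.log (|t| + 2) := by
  obtain ⟨C, hC, hmain⟩ := loc_log (R0 := 2 - σ2) (R1 := 2 - σ1) (R2 := 3 / 2)
    (by linarith) (by linarith) (by linarith)
  obtain ⟨K, hK1, hK⟩ := zetaPole_ratio
  -- the constant
  have hl2 : 0 < Real.log 2 := Real.log_pos (by norm_num)
  set D : ℝ := Real.log K / Real.log 2 + 6 with hD
  have hDpos : 0 < D := by
    have : 0 ≤ Real.log K := Real.log_nonneg hK1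
    positivity
  refine ⟨C * D, by positivity, fun t => ?_⟩
  have ht := abs_nonneg t
  set x : ℝ := |t| + 2 with hx
  have hx2 : 2 ≤ x := by rw [hx]; linarith
  have hlx : 0 < Real.log x := log_two_add_pos t
  have hbound : K * (|t| + 5) ^ 2 ≤ Real.exp (D * Real.log x) := by
    have e1 : Real.exp (D * Real.log x) = Real.exp (Real.log K / Real.log 2 * Real.log x) *
        x ^ 6 := by
      rw [hD, add_mul, Real.exp_add]
      congr 1
      rw [← Real.exp_log (show (0:ℝ) < x ^ 6 by positivity), Real.log_pow]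
      norm_num
    rw [e1]
    have e2 : K ≤ Real.exp (Real.log K / Real.log 2 * Real.log x) := by
      have : Real.log K ≤ Real.log K / Real.log 2 * Real.log x := by
        rw [div_mul_eq_mul_div, le_div_iff₀ hl2]
        have := Real.log_nonneg hK1
        have := Real.log_le_log (by norm_num) hx2
        gcongr
      calc K = Real.exp (Real.log K) := (Real.exp_log (by linarith)).symm
        _ ≤ _ := Real.exp_le_exp.2 this
    have e3 : (|t| + 5) ^ 2 ≤ x ^ 6 := by
      have : |t| + 5 ≤ x ^ 3 := by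
        rw [hx]
        nlinarith [pow_nonneg ht 2, pow_nonneg ht 3]
      calc (|t| + 5) ^ 2 ≤ (x ^ 3) ^ 2 := by gcongr
        _ = x ^ 6 := by ring
    gcongr
  obtain ⟨S, hS1, hS2, hS3, hS4⟩ := hmain zetaPole (2 + t * I) (D * Real.log x) (by positivity)
    (fun z _ => zetaPole_analyticAt z)
    (zetaPole_ne_zero_of_one_le (by simp)) (fun z hz => (hK t z hz).trans (by gcongr))
  refine ⟨S, hS1, hS2, hS3.trans (le_of_eq (by ring)), fun z hz hne => (hS4 z hz hne).trans
    (le_of_eq (by ring))⟩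

/-- zeros in a compact set -/
lemma zeros_finite (R : ℝ) : {u : ℂ | u ∈ closedBall (2:ℂ) R ∧ zetaPole u = 0}.Finite := by
  have hR : 0 < max R 1 := lt_of_lt_of_le one_pos (le_max_right _ _)
  obtain ⟨C, hC, hmain⟩ := loc_log (R0 := max R 1 / 2) (R1 := max R 1) (R2 := max R 1 + 1)
    (by linarith) (by linarith) (by linarith)
  have hne : zetaPole 2 ≠ 0 := zetaPole_ne_zero_of_one_le (by simp)
  obtain ⟨B, hB⟩ := (isCompact_closedBall (2:ℂ) (max R 1 + 1)).exists_bound_of_continuousOn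
    (zetaPole_differentiable.continuous.continuousOn)
  have hpos : 0 < ‖zetaPole 2‖ := norm_pos_iff.2 hne
  set Q : ℝ := max (B / ‖zetaPole 2‖) 2 with hQ
  have hQ2 : 2 ≤ Q := le_max_right _ _
  obtain ⟨S, hS1, -⟩ := hmain zetaPole 2 (Real.log Q) (Real.log_pos (by linarith))
    (fun z _ => zetaPole_analyticAt z) hne (fun z hz => by
      rw [Real.exp_log (by linarith)]
      calc ‖zetaPole z‖ ≤ B := hB z hz
        _ = B / ‖zetaPole 2‖ * ‖zetaPole 2‖ := by field_simp
        _ ≤ Q * ‖zetaPole 2‖ := by gcongr; exact le_max_left _ _)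
  refine S.finite_toSet.subset ?_
  rintro u ⟨h1, h2⟩
  exact (hS1 u).2 ⟨closedBall_subset_closedBall (le_max_left _ _) h1, h2⟩

/-- zeros with real part greater than `σ` and `|Im| ≤ T`. -/
lemma zset_finite (σ T : ℝ) : {u : ℂ | σ < u.re ∧ |u.im| ≤ T ∧ zetaPole u = 0}.Finite := by
  refine (zeros_finite (|σ| + 3 + |T|)).subset ?_
  rintro u ⟨h1, h2, h3⟩
  refine ⟨?_, h3⟩
  rw [mem_closedBall, dist_eq_norm]
  have hlt : u.re < 1 := by
    by_contra h
    exact zetaPole_ne_zero_of_one_le (not_lt.1 h) h3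
  have h4 := Complex.norm_le_abs_re_add_abs_im (u - 2)
  simp only [Complex.sub_re, Complex.sub_im, Complex.re_ofNat, Complex.im_ofNat, sub_zero] at h4
  have h5 : |u.re - 2| ≤ |σ| + 3 := by
    rw [abs_le]
    constructor
    · have := neg_abs_le σ
      linarith
    · have := abs_nonneg σ
      linarith
  linarith [le_abs_self T]

noncomputable def zset (σ T : ℝ) : Finset ℂ := (zset_finite σ T).toFinset

lemma mem_zset {σ T : ℝ} {u : ℂ} : u ∈ zset σ T ↔ σ < u.re ∧ |u.im| ≤ T ∧ zetaPole u = 0 := by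
  simp [zset]

lemma zord_pos {u : ℂ} (hu : zetaPole u = 0) : 1 ≤ zord u := by
  rw [zord, Nat.one_le_iff_ne_zero, analyticOrderNatAt, Ne, ENat.toNat_eq_zero, not_or]
  constructor
  · rw [(zetaPole_analyticAt u).analyticOrderAt_eq_zero]
    simpa using hu
  · intro h
    have h1 : ∀ᶠ z in 𝓝 u, zetaPole z = 0 := by
      rw [analyticOrderAt_eq_top] at h
      exact h
    have h2 : zetaPole 2 = 0 := by
      have h3 := (zetaPole_differentiable.differentiableOn.analyticOnNhd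
        isOpen_univ).eqOn_zero_of_preconnected_of_eventuallyEq_zero isPreconnected_univ
        (mem_univ u) h1
      exact h3 (mem_univ 2)
    exact zetaPole_ne_zero_of_one_le (by simp) h2

/-- number of zeros near a point -/
theorem local_count {σ1 σ : ℝ} (h1 : 1 / 2 < σ1) (h12 : σ1 < σ) (h2 : σ < 2) :
    ∃ C : ℝ, 0 < C ∧ ∀ (t : ℝ) (F : Finset ℂ),
      (∀ u ∈ F, σ < u.re ∧ |u.im - t| ≤ σ - σ1 ∧ zetaPole u = 0) →
      (∑ u ∈ F, (zord u : ℝ)) ≤ C * Real.log (|t| + 2) := by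
  obtain ⟨C, hC, hmain⟩ := zeta_loc h1 h12 h2
  refine ⟨C, hC, fun t F hF => ?_⟩
  obtain ⟨S, hS1, -, hS3, -⟩ := hmain t
  refine le_trans ?_ hS3
  apply Finset.sum_le_sum_of_subset_of_nonneg
  · intro u hu
    obtain ⟨a1, a2, a3⟩ := hF u hu
    rw [hS1]
    refine ⟨?_, a3⟩
    rw [mem_closedBall, dist_eq_norm]
    have hlt : u.re < 1 := by
      by_contra h
      exact zetaPole_ne_zero_of_one_le (not_lt.1 h) a3
    have h4 := Complex.norm_le_abs_re_add_abs_im (u - (2 + t * I))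
    have e1 : (u - (2 + t * I)).re = u.re - 2 := by simp
    have e2 : (u - (2 + t * I)).im = u.im - t := by simp
    rw [e1, e2] at h4
    have h5 : |u.re - 2| = 2 - u.re := by
      rw [abs_of_neg (by linarith)]; ring
    rw [h5] at h4
    linarith
  · intro u _ _
    positivity

end Pool.Agent.H6
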