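import Pool.Agent.H6.CertZero

/-!
The Kusmin-Landau inequality for `∑ n^(-it)` over `n ≥ |t|`, and short Dirichlet polynomials which
are small at the zeros of `ζ`.
-/

set_option autoImplicit false

open Complex Filter Topology MeasureTheory Set

namespace Pool.Agent.H6.Win

open Pool.Agent.H6

/-- the ratio `((n+1)/n)^(-it)` -/
noncomputable def rat (t : ℝ) (n : ℕ) : ℂ := cexp (I * (-(t * Real.log (((n : ℝ) + 1) / n)) : ℝ))

lemma cpow_succ_eq (t : ℝ) {n : ℕ} (hn : 1 ≤ n) :
    ((n + 1 : ℕ) : ℂ) ^ (-(t * I)) = rat t n * (n : ℂ) ^ (-(t * I)) := by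
  have hn0 : (n : ℂ) ≠ 0 := by
    have : n ≠ 0 := by omega
    exact_mod_cast this
  have hn1 : ((n + 1 : ℕ) : ℂ) ≠ 0 := by
    exact_mod_cast Nat.succ_ne_zero n
  have hnr : (0 : ℝ) < n := by
    have : 0 < n := by omega
    exact_mod_cast this
  rw [cpow_def_of_ne_zero hn0, cpow_def_of_ne_zero hn1, rat, ← Complex.exp_add]
  congr 1
  rw [← natCast_log, ← natCast_log, Real.log_div (by positivity) hnr.ne']
  push_cast
  ring

lemma log_ratio_le {n : ℕ} (hn : 1 ≤ n) : Real.log (((n : ℝ) + 1) / n) ≤ 1 / n := by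
  have hnr : (0 : ℝ) < n := by
    have : 0 < n := by omega
    exact_mod_cast this
  have h := Real.log_le_sub_one_of_pos (x := ((n : ℝ) + 1) / n) (by positivity)
  have h2 : ((n : ℝ) + 1) / n - 1 = 1 / n := by
    field_simp
    ring
  linarith

lemma log_ratio_ge {n : ℕ} (hn : 1 ≤ n) : 1 / (2 * n) ≤ Real.log (((n : ℝ) + 1) / n) := by
  have hnr : (1 : ℝ) ≤ n := by exact_mod_cast hn
  have h := Real.one_sub_inv_le_log_of_pos (x := ((n : ℝ) + 1) / n) (by positivity)
  have h2 : 1 - (((n : ℝ) + 1) / n)⁻¹ = 1 / (n + 1) := by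
    field_simp
    ring
  rw [h2] at h
  refine le_trans ?_ h
  apply one_div_le_one_div_of_le (by linarith)
  linarith

lemma norm_one_sub_rat_ge {t : ℝ} {n : ℕ} (hn : 1 ≤ n) (ht : |t| ≤ n) :
    |t| / (4 * n) ≤ ‖1 - rat t n‖ := by
  have hnr : (1 : ℝ) ≤ n := by exact_mod_cast hn
  set L := Real.log (((n : ℝ) + 1) / n) with hL
  have h1 := log_ratio_le hn
  have h2 := log_ratio_ge hn
  rw [← hL] at h1 h2
  have hL0 : 0 ≤ L := le_trans (by positivity) h2
  rw [rat, norm_sub_rev, Complex.norm_exp_I_mul_ofReal_sub_one, ← hL]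
  have h3 : ‖2 * Real.sin (-(t * L) / 2)‖ = 2 * |Real.sin (|t| * L / 2)| := by
    rw [norm_mul, Real.norm_eq_abs, Real.norm_eq_abs, abs_of_pos (by norm_num : (0 : ℝ) < 2)]
    congr 1
    rcases le_total 0 t with h | h
    · rw [abs_of_nonneg h, neg_div, Real.sin_neg, abs_neg]
    · rw [abs_of_nonpos h]
      congr 2
      ring
  rw [h3]
  have h4 : |t| * L ≤ 1 := by
    calc |t| * L ≤ n * (1 / n) := by gcongr
      _ = 1 := by field_simp
  have h5 : 0 ≤ |t| * L := by positivity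
  have h6 : 2 / Real.pi * (|t| * L / 2) ≤ Real.sin (|t| * L / 2) :=
    Real.mul_le_sin (by positivity) (by linarith [Real.pi_gt_three])
  have h7 : 0 ≤ Real.sin (|t| * L / 2) := le_trans (by positivity) h6
  rw [abs_of_nonneg h7]
  have h8 : |t| * L / 4 ≤ Real.sin (|t| * L / 2) := by
    refine le_trans ?_ h6
    have h9 : Real.pi ≤ 4 := Real.pi_le_four
    rw [div_mul_eq_mul_div, div_le_div_iff₀ (by norm_num) Real.pi_pos]
    nlinarith
  have h9 : |t| / (4 * n) ≤ |t| * L / 2 := by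
    have : |t| * (1 / (2 * n)) ≤ |t| * L := by gcongr
    calc |t| / (4 * n) = (|t| * (1 / (2 * n))) / 2 := by field_simp; ring
      _ ≤ |t| * L / 2 := by linarith
  linarith

lemma norm_rat_sub_le (t : ℝ) {n : ℕ} (hn : 1 ≤ n) :
    ‖rat t n - rat t (n + 1)‖ ≤ |t| / (n * (n + 1)) := by
  have hnr : (1 : ℝ) ≤ n := by exact_mod_cast hn
  set a : ℝ := -(t * Real.log (((n : ℝ) + 1) / n)) with ha
  set b : ℝ := -(t * Real.log ((((n + 1 : ℕ) : ℝ) + 1) / ((n + 1 : ℕ) : ℝ))) with hb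
  have h1 : rat t n - rat t (n + 1) = cexp (I * b) * (cexp (I * (a - b : ℝ)) - 1) := by
    rw [rat, rat, ← ha, ← hb, mul_sub, mul_one, ← Complex.exp_add]
    congr 2
    push_cast
    ring
  have h2 : ‖cexp (I * b)‖ = 1 := by
    rw [mul_comm]
    exact norm_exp_ofReal_mul_I b
  rw [h1, norm_mul, h2, one_mul]
  refine (Real.norm_exp_I_mul_ofReal_sub_one_le).trans ?_
  rw [Real.norm_eq_abs]
  have h3 : a - b = -(t * (Real.log (((n : ℝ) + 1) / n) -
      Real.log ((((n + 1 : ℕ) : ℝ) + 1) / ((n + 1 : ℕ) : ℝ)))) := by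
    rw [ha, hb]; ring
  rw [h3, abs_neg, abs_mul]
  have h4 : Real.log (((n : ℝ) + 1) / n) - Real.log ((((n + 1 : ℕ) : ℝ) + 1) / ((n + 1 : ℕ) : ℝ)) =
      Real.log (1 + 1 / (n * (n + 2))) := by
    rw [← Real.log_div (by positivity) (by positivity)]
    congr 1
    push_cast
    field_simp
    ring
  have h5 : 0 ≤ Real.log (1 + 1 / ((n : ℝ) * (n + 2))) := Real.log_nonneg (by
    have : 0 < 1 / ((n : ℝ) * (n + 2)) := by positivity
    linarith)
  have h6 : Real.log (1 + 1 / ((n : ℝ) * (n + 2))) ≤ 1 / (n * (n + 2)) := by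
    have := Real.log_le_sub_one_of_pos (x := 1 + 1 / ((n : ℝ) * (n + 2))) (by positivity)
    linarith
  rw [h4, abs_of_nonneg h5]
  have h7 : 1 / ((n : ℝ) * (n + 2)) ≤ 1 / (n * (n + 1)) := by
    apply one_div_le_one_div_of_le (by positivity)
    gcongr
    norm_num
  calc |t| * Real.log (1 + 1 / (n * (n + 2))) ≤ |t| * (1 / (n * (n + 1))) := by
        exact mul_le_mul_of_nonneg_left (h6.trans h7) (abs_nonneg t)
    _ = |t| / (n * (n + 1)) := by ring

/-- **Kusmin-Landau** for `n^(-it)`. -/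
theorem kusmin_landau {t : ℝ} (ht : t ≠ 0) {A B : ℕ} (hA : 1 ≤ A) (htA : |t| ≤ A) (hAB : A ≤ B) :
    ‖∑ n ∈ Finset.Icc A B, (n : ℂ) ^ (-(t * I))‖ ≤ 24 * B / |t| := by
  have ht0 : 0 < |t| := abs_pos.mpr ht
  set a : ℕ → ℂ := fun n ↦ (n : ℂ) ^ (-(t * I)) with ha
  set c : ℕ → ℂ := fun n ↦ 1 / (1 - rat t n) with hc
  have hna : ∀ n : ℕ, 1 ≤ n → ‖a n‖ = 1 := by
    intro n hn
    simp only [ha]
    rw [norm_natCast_cpow_of_pos (by omega)]
    simp
  have hge : ∀ n : ℕ, A ≤ n → |t| / (4 * n) ≤ ‖1 - rat t n‖ := by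
    intro n hn
    have : (A : ℝ) ≤ n := by exact_mod_cast hn
    exact norm_one_sub_rat_ge (by omega) (by linarith)
  have hpos : ∀ n : ℕ, A ≤ n → 0 < ‖1 - rat t n‖ := by
    intro n hn
    have hn0 : (0 : ℝ) < n := by
      have : 0 < n := by omega
      exact_mod_cast this
    exact lt_of_lt_of_le (by positivity) (hge n hn)
  have hcn : ∀ n : ℕ, A ≤ n → ‖c n‖ ≤ 4 * n / |t| := by
    intro n hn
    have hn0 : (0 : ℝ) < n := by
      have : 0 < n := by omega
      exact_mod_cast this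
    simp only [hc]
    rw [norm_div, norm_one, div_le_div_iff₀ (hpos n hn) ht0, one_mul]
    have h1 := hge n hn
    rw [div_le_iff₀ (by positivity)] at h1
    linarith
  have hcc : ∀ n : ℕ, A ≤ n → ‖c (n + 1) - c n‖ ≤ 16 / |t| := by
    intro n hn
    have hn0 : (0 : ℝ) < n := by
      have : 0 < n := by omega
      exact_mod_cast this
    have h1 := hpos n hn
    have h2 := hpos (n + 1) (by omega)
    have e1 : c (n + 1) - c n = (rat t (n + 1) - rat t n) / ((1 - rat t (n + 1)) * (1 - rat t n)) := by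
      simp only [hc]
      rw [div_sub_div _ _ (norm_pos_iff.mp h2) (norm_pos_iff.mp h1)]
      congr 1
      ring
    rw [e1, norm_div, norm_mul, norm_sub_rev, div_le_div_iff₀ (by positivity) ht0]
    have h3 := norm_rat_sub_le t (n := n) (by omega)
    have h4 := hge n hn
    have h5 := hge (n + 1) (by omega)
    have h6 : |t| / (4 * ((n + 1 : ℕ) : ℝ)) * (|t| / (4 * n)) ≤
        ‖1 - rat t (n + 1)‖ * ‖1 - rat t n‖ := by gcongr
    calc ‖rat t n - rat t (n + 1)‖ * |t| ≤ |t| / (n * (n + 1)) * |t| := by gcongr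
      _ = 16 * (|t| / (4 * ((n + 1 : ℕ) : ℝ)) * (|t| / (4 * n))) := by
          push_cast
          field_simp
          ring
      _ ≤ 16 * (‖1 - rat t (n + 1)‖ * ‖1 - rat t n‖) := by gcongr
  -- main induction
  have key : ∀ B : ℕ, A ≤ B → ‖∑ n ∈ Finset.Icc A B, a n + c B * a (B + 1)‖ ≤
      4 * A / |t| + 16 * ((B : ℝ) - A) / |t| := by
    intro B hB
    induction B, hB using Nat.le_induction with
    | base =>
      have h1 : a A + c A * a (A + 1) = c A * a A := by
        have h2 : a (A + 1) = rat t A * a A := cpow_succ_eq t hA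
        have h3 : (1 - rat t A) ≠ 0 := norm_pos_iff.mp (hpos A le_rfl)
        rw [h2]
        simp only [hc]
        field_simp
        ring
      rw [Finset.Icc_self, Finset.sum_singleton, h1, norm_mul, hna A hA, mul_one, sub_self,
        mul_zero, zero_div, add_zero]
      exact hcn A le_rfl
    | succ B hB ih =>
      have h1 : ∑ n ∈ Finset.Icc A (B + 1), a n + c (B + 1) * a (B + 1 + 1) =
          (∑ n ∈ Finset.Icc A B, a n + c B * a (B + 1)) + (c (B + 1) - c B) * a (B + 1) := by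
        rw [Finset.sum_Icc_succ_top (by omega)]
        have h2 : a (B + 1 + 1) = rat t (B + 1) * a (B + 1) := cpow_succ_eq t (by omega)
        have h3 : (1 - rat t (B + 1)) ≠ 0 := norm_pos_iff.mp (hpos (B + 1) (by omega))
        have h4 : a (B + 1) + c (B + 1) * a (B + 1 + 1) = c (B + 1) * a (B + 1) := by
          rw [h2]
          simp only [hc]
          field_simp
          ring
        linear_combination h4
      rw [h1]
      refine (norm_add_le _ _).trans ?_
      rw [norm_mul, hna (B + 1) (by omega), mul_one]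
      have h2 := hcc B hB
      push_cast
      calc ‖∑ n ∈ Finset.Icc A B, a n + c B * a (B + 1)‖ + ‖c (B + 1) - c B‖
          ≤ (4 * A / |t| + 16 * ((B : ℝ) - A) / |t|) + 16 / |t| := add_le_add ih h2
        _ = 4 * A / |t| + 16 * ((B : ℝ) + 1 - A) / |t| := by ring
  have h1 := key B hAB
  have h2 : ‖∑ n ∈ Finset.Icc A B, a n‖ ≤ ‖∑ n ∈ Finset.Icc A B, a n + c B * a (B + 1)‖ +
      ‖c B * a (B + 1)‖ := by
    have := norm_sub_le (∑ n ∈ Finset.Icc A B, a n + c B * a (B + 1)) (c B * a (B + 1))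
    simpa using this
  rw [norm_mul, hna (B + 1) (by omega), mul_one] at h2
  have h3 := hcn B hAB
  have hAB' : (A : ℝ) ≤ B := by exact_mod_cast hAB
  have hA0 : (0 : ℝ) ≤ A := by positivity
  refine (h2.trans (add_le_add h1 h3)).trans ?_
  rw [← add_div, ← add_div]
  gcongr
  linarith

end Pool.Agent.H6.Win
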