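import Pool.Agent.H6.Win.Kern2
import Pool.Agent.H6.Win.ZetaLoc

/-!
# The explicit formula on the line `Re s = 2`
-/

set_option autoImplicit false

open Complex Filter Topology MeasureTheory Set Metric
open scoped FourierTransform

namespace Pool.Agent.H6.Win

open Pool.Agent.H6

/-- Fourier inversion in the variable `t`. -/
lemma fourier_inv_t {F G : ℝ → ℂ} (hF : Continuous F) (hi : Integrable F) (hG : Integrable G)
    (h : ∀ t : ℝ, ∫ u, F u * cexp (-(t * u * I)) = G t) (x : ℝ) :
    ∫ t : ℝ, G t * cexp (t * x * I) = 2 * Real.pi * F x := by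
  have hFG : 𝓕 F = fun ξ : ℝ ↦ G (2 * Real.pi * ξ) := by
    ext ξ
    rw [← h, Real.fourier_eq']
    refine integral_congr_ae (Eventually.of_forall fun u ↦ ?_)
    simp only [smul_eq_mul]
    rw [mul_comm]
    congr 2
    simp only [RCLike.inner_apply, conj_trivial]
    push_cast
    ring
  have hint : Integrable (𝓕 F) := by
    rw [hFG]
    exact hG.comp_mul_left' (R := 2 * Real.pi) (by positivity)
  have h := hi.fourierInv_fourier_eq hint hF.continuousAt (v := x)
  rw [Real.fourierInv_eq', hFG] at h
  rw [← h]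
  have h2 := Measure.integral_comp_mul_left (fun t : ℝ ↦ G t * cexp (t * x * I))
    (2 * Real.pi)
  have h3 : ∫ v : ℝ, cexp (((2 * Real.pi * inner ℝ v x : ℝ) : ℂ) * I) •
      G (2 * Real.pi * v) = ∫ y : ℝ,
      G (2 * Real.pi * y) * cexp (((2 * Real.pi * y : ℝ) : ℂ) * x * I) := by
    refine integral_congr_ae (Eventually.of_forall fun v ↦ ?_)
    simp only [smul_eq_mul]
    rw [mul_comm]
    congr 2
    simp only [RCLike.inner_apply, conj_trivial]
    push_cast
    ring
  rw [h3, h2]
  have hpi : (Real.pi : ℂ) ≠ 0 := by exact_mod_cast Real.pi_ne_zero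
  rw [abs_of_pos (by positivity), real_smul, ← mul_assoc]
  have h4 : (2 * (Real.pi : ℂ)) * (((2 * Real.pi)⁻¹ : ℝ) : ℂ) = 1 := by
    push_cast
    field_simp
  rw [h4, one_mul]

variable {w : ℝ → ℂ} {L V : ℝ} {W : ℂ → ℂ}

/-- Inversion of the Laplace transform on `Re s = 2`. -/
lemma Kf.inversion (H : Kf w L V W) (hc : Continuous w)
    (hW : Integrable (fun t : ℝ => W (2 + t * I))) (x : ℝ) :
    ∫ t : ℝ, W (2 + t * I) * cexp (-((2 + t * I) * x)) = 2 * Real.pi * w x := by
  have h1 := fourier_inv_t (F := fun v : ℝ => w v * cexp (2 * v)) (G := fun t => W (2 - t * I))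
    (by fun_prop) (H.int_exp 2) ?_ ?_ x
  · have h2 : ∫ t : ℝ, W (2 - t * I) * cexp (t * x * I) =
        ∫ t : ℝ, W (2 + t * I) * cexp (-(t * x * I)) := by
      rw [← integral_neg_eq_self]
      apply integral_congr_ae
      refine Eventually.of_forall fun t => ?_
      simp only
      congr 2
      · push_cast; ring
      · push_cast; ring
    rw [h2] at h1
    have h3 : ∀ t : ℝ, W (2 + t * I) * cexp (-((2 + t * I) * x)) =
        cexp (-(2 * x)) * (W (2 + t * I) * cexp (-(t * x * I))) := by
      intro t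
      have : cexp (-((2 + t * I) * x)) = cexp (-(2 * x)) * cexp (-(t * x * I)) := by
        rw [← Complex.exp_add]
        congr 1
        ring
      rw [this]
      ring
    simp only [h3]
    rw [integral_const_mul, h1]
    have h4 : cexp (-(2 * x)) * cexp (2 * x) = 1 := by
      rw [← Complex.exp_add]; simp
    calc cexp (-(2 * x)) * (2 * Real.pi * (w x * cexp (2 * x)))
        = 2 * Real.pi * w x * (cexp (-(2 * x)) * cexp (2 * x)) := by ring
      _ = _ := by rw [h4, mul_one]
  · have := hW.comp_neg
    refine this.congr (Eventually.of_forall fun t => ?_)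
    simp only
    congr 1
    push_cast
    ring
  · intro t
    rw [← H.tr]
    apply integral_congr_ae
    refine Eventually.of_forall fun v => ?_
    simp only
    rw [mul_assoc, ← Complex.exp_add]
    congr 2
    ring

lemma norm_exp_line (u t : ℝ) : ‖cexp (u * (2 + t * I))‖ = Real.exp (2 * u) := by
  rw [Complex.norm_exp]
  congr 1
  simp
  ring

/-- The contribution of the primes. -/
lemma Kf.prime_sum (H : Kf w L V W) (hc : Continuous w)
    (hW : Integrable (fun t : ℝ => W (2 + t * I))) (u : ℝ) :
    ∫ t : ℝ, W (2 + t * I) * cexp (u * (2 + t * I)) *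
      LSeries (fun n => (ArithmeticFunction.vonMangoldt n : ℂ)) (2 + t * I) =
      2 * Real.pi * ∑' n : ℕ, (ArithmeticFunction.vonMangoldt n : ℂ) * w (Real.log n - u) := by
  set Λ : ℕ → ℂ := fun n => (ArithmeticFunction.vonMangoldt n : ℂ) with hΛ
  set F : ℕ → ℝ → ℂ := fun n t => W (2 + t * I) * cexp (u * (2 + t * I)) *
    LSeries.term Λ (2 + t * I) n with hF
  have hterm : ∀ n : ℕ, ∀ t : ℝ, LSeries.term Λ (2 + t * I) n =
      Λ n * cexp (-((2 + t * I) * Real.log n)) := by
    intro n t
    rcases eq_or_ne n 0 with rfl | hn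
    · simp [hΛ]
    · rw [LSeries.term_of_ne_zero hn]
      have hn' : (n:ℂ) ≠ 0 := by exact_mod_cast hn
      rw [Complex.cpow_def_of_ne_zero hn', Complex.exp_neg, ← Complex.natCast_log, div_eq_mul_inv]
      congr 3
      ring
  have hFi : ∀ n, Integrable (F n) := by
    intro n
    have h1 : Integrable (fun t : ℝ => W (2 + t * I) *
        (cexp (u * (2 + t * I)) * (Λ n * cexp (-((2 + t * I) * Real.log n))))) := by
      refine hW.mul_bdd (c := Real.exp (2 * u) * (‖Λ n‖ * Real.exp (-(2 * Real.log n)))) ?_ ?_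
      · exact (by fun_prop : Continuous (fun t : ℝ => cexp (u * (2 + t * I)) *
          (Λ n * cexp (-((2 + t * I) * Real.log n))))).aestronglyMeasurable
      · refine Eventually.of_forall fun t => ?_
        rw [norm_mul, norm_exp_line, norm_mul, Complex.norm_exp]
        apply le_of_eq
        congr 4
        generalize Real.log n = x
        simp
    refine h1.congr (Eventually.of_forall fun t => ?_)
    simp only [hF, hterm]
    ring
  have hFint : ∀ n, ∫ t, F n t = 2 * Real.pi * (Λ n * w (Real.log n - u)) := by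
    intro n
    have h1 : ∀ t : ℝ, F n t = Λ n * (W (2 + t * I) *
        cexp (-((2 + t * I) * ((Real.log n - u : ℝ) : ℂ)))) := by
      intro t
      simp only [hF, hterm]
      have : cexp (-((2 + t * I) * ((Real.log n - u : ℝ) : ℂ))) =
          cexp (u * (2 + t * I)) * cexp (-((2 + t * I) * Real.log n)) := by
        rw [← Complex.exp_add]
        congr 1
        push_cast
        ring
      rw [this]
      ring
    simp only [h1]
    rw [integral_const_mul, H.inversion hc hW]
    ring
  have hsum : Summable fun n => ∫ t, ‖F n t‖ := by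
    have h1 : ∀ n, ∫ t, ‖F n t‖ = (∫ t : ℝ, ‖W (2 + t * I)‖) * Real.exp (2 * u) *
        ‖LSeries.term Λ 2 n‖ := by
      intro n
      have h2 : ∀ t : ℝ, ‖F n t‖ = ‖W (2 + t * I)‖ * (Real.exp (2 * u) * ‖LSeries.term Λ 2 n‖) := by
        intro t
        simp only [hF]
        rw [norm_mul, norm_mul, norm_exp_line, mul_assoc]
        congr 2
        rw [LSeries.norm_term_eq, LSeries.norm_term_eq]
        simp
      simp only [h2]
      rw [integral_mul_const]
      ring
    simp only [h1]
    apply Summable.mul_left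
    have h3 := ArithmeticFunction.LSeriesSummable_vonMangoldt (s := 2) (by simp)
    exact h3.norm
  have h := hasSum_integral_of_summable_integral_norm hFi hsum
  simp only [hFint] at h
  have h2 : ∫ t, ∑' n, F n t = ∫ t : ℝ, W (2 + t * I) * cexp (u * (2 + t * I)) *
      LSeries Λ (2 + t * I) := by
    apply integral_congr_ae
    refine Eventually.of_forall fun t => ?_
    simp only [hF]
    rw [tsum_mul_left]
    rfl
  rw [h2] at h
  rw [← h.tsum_eq, tsum_mul_left]

/-- The contribution of a pole. -/
lemma Kf.pole (H : Kf w L V W) (hc : Continuous w)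
    (hW : Integrable (fun t : ℝ => W (2 + t * I))) {u : ℝ} (hu : 0 ≤ u) {ρ : ℂ} (hρ : ρ.re < 2) :
    ∫ t : ℝ, W (2 + t * I) * cexp (u * (2 + t * I)) * (1 / (2 + t * I - ρ)) =
      2 * Real.pi * (cexp (u * ρ) * W ρ) := by
  have hd : 0 < 2 - ρ.re := by linarith
  -- the Laplace integral
  have hlap : ∀ t : ℝ, (1 / (2 + t * I - ρ)) = ∫ y in Ioi (0:ℝ), cexp (-((2 + t * I - ρ) * y)) := by
    intro t
    have h1 := integral_exp_mul_complex_Ioi (a := -(2 + t * I - ρ)) (by simp; linarith) 0
    have h2 : ∀ y : ℝ, cexp (-((2 + t * I - ρ) * y)) = cexp (-(2 + t * I - ρ) * y) := by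
      intro y; congr 1; ring
    simp only [h2]
    rw [h1]
    simp only [Complex.ofReal_zero, mul_zero, Complex.exp_zero]
    rw [neg_div_neg_eq]
  have hint : Integrable (fun p : ℝ × ℝ => W (2 + p.1 * I) * cexp (u * (2 + p.1 * I)) *
      cexp (-((2 + p.1 * I - ρ) * p.2))) (volume.prod (volume.restrict (Ioi 0))) := by
    have hb : Integrable (fun p : ℝ × ℝ => W (2 + p.1 * I) * cexp (-((2 - ρ) * p.2)))
        (volume.prod (volume.restrict (Ioi 0))) := by
      refine Integrable.mul_prod (f := fun t : ℝ => W (2 + t * I))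
        (g := fun y : ℝ => cexp (-((2 - ρ) * y))) hW ?_
      have h1 := integrableOn_exp_mul_complex_Ioi (a := -(2 - ρ)) (by simp; linarith) 0
      refine h1.congr (Eventually.of_forall fun y => ?_)
      simp only
      congr 1
      ring
    have h2 : Integrable (fun p : ℝ × ℝ => (W (2 + p.1 * I) * cexp (-((2 - ρ) * p.2))) *
        (cexp (u * (2 + p.1 * I)) * cexp (-(p.1 * I * p.2))))
        (volume.prod (volume.restrict (Ioi 0))) := by
      refine hb.mul_bdd (c := Real.exp (2 * u)) ?_ ?_
      · exact (by fun_prop : Continuous (fun p : ℝ × ℝ => cexp (u * (2 + p.1 * I)) *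
          cexp (-(p.1 * I * p.2)))).aestronglyMeasurable
      · refine Eventually.of_forall fun p => ?_
        rw [norm_mul, norm_exp_line, Complex.norm_exp]
        simp
    refine h2.congr (Eventually.of_forall fun p => ?_)
    dsimp only
    have : cexp (-((2 + p.1 * I - ρ) * p.2)) =
        cexp (-((2 - ρ) * p.2)) * cexp (-(p.1 * I * p.2)) := by
      rw [← Complex.exp_add]; congr 1; ring
    rw [this]
    ring
  calc ∫ t : ℝ, W (2 + t * I) * cexp (u * (2 + t * I)) * (1 / (2 + t * I - ρ))
      = ∫ t : ℝ, ∫ y in Ioi (0:ℝ), W (2 + t * I) * cexp (u * (2 + t * I)) *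
          cexp (-((2 + t * I - ρ) * y)) := by
        apply integral_congr_ae
        refine Eventually.of_forall fun t => ?_
        dsimp only
        rw [hlap, integral_const_mul]
    _ = ∫ y in Ioi (0:ℝ), ∫ t : ℝ, W (2 + t * I) * cexp (u * (2 + t * I)) *
          cexp (-((2 + t * I - ρ) * y)) := by
        rw [integral_integral_swap]
        exact hint
    _ = ∫ y in Ioi (0:ℝ), 2 * Real.pi * (cexp (ρ * y) * w (y - u)) := by
        apply integral_congr_ae
        refine Eventually.of_forall fun y => ?_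
        dsimp only
        have h1 : ∀ t : ℝ, W (2 + t * I) * cexp (u * (2 + t * I)) *
            cexp (-((2 + t * I - ρ) * y)) =
            cexp (ρ * y) * (W (2 + t * I) * cexp (-((2 + t * I) * ((y - u : ℝ) : ℂ)))) := by
          intro t
          have : cexp (-((2 + t * I) * ((y - u : ℝ) : ℂ))) * cexp (ρ * y) =
              cexp (u * (2 + t * I)) * cexp (-((2 + t * I - ρ) * y)) := by
            rw [← Complex.exp_add, ← Complex.exp_add]
            congr 1
            push_cast
            ring
          rw [mul_assoc, ← this]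
          ring
        simp only [h1]
        rw [integral_const_mul, H.inversion hc hW]
        ring
    _ = 2 * Real.pi * ∫ y in Ioi (0:ℝ), cexp (ρ * y) * w (y - u) := integral_const_mul _ _
    _ = 2 * Real.pi * ∫ y : ℝ, cexp (ρ * y) * w (y - u) := by
        congr 1
        rw [← integral_Ici_eq_integral_Ioi]
        apply setIntegral_eq_integral_of_forall_compl_eq_zero
        intro y hy
        rw [H.supp, mul_zero]
        intro h
        apply hy
        rw [mem_Ici]
        linarith [h.1]
    _ = 2 * Real.pi * (cexp (u * ρ) * W ρ) := by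
        congr 1
        rw [← H.tr ρ, ← integral_const_mul,
          ← integral_add_right_eq_self (fun y : ℝ => cexp (ρ * y) * w (y - u)) u]
        apply integral_congr_ae
        refine Eventually.of_forall fun v => ?_
        dsimp only
        rw [add_sub_cancel_right]
        have : cexp (ρ * ((v + u : ℝ) : ℂ)) = cexp (u * ρ) * cexp (ρ * v) := by
          rw [← Complex.exp_add]; congr 1; push_cast; ring
        rw [this]
        ring

/-- `-Z'/Z` on the half plane of absolute convergence. -/
lemma neg_logDeriv_zetaPole {s : ℂ} (hs : 1 < s.re) :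
    -(deriv zetaPole s / zetaPole s) =
      LSeries (fun n => (ArithmeticFunction.vonMangoldt n : ℂ)) s - 1 / (s - 1) := by
  have hs1 : s ≠ 1 := by
    intro h; rw [h] at hs; simp at hs
  have hs1' : s - 1 ≠ 0 := sub_ne_zero.2 hs1
  have hζ : riemannZeta s ≠ 0 := riemannZeta_ne_zero_of_one_le_re hs.le
  have h1 : zetaPole =ᶠ[𝓝 s] fun z => (z - 1) * riemannZeta z := by
    filter_upwards [isOpen_ne.mem_nhds hs1] with z hz
    unfold zetaPole
    rw [Function.update_of_ne hz]
  have h2 : deriv zetaPole s / zetaPole s =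
      logDeriv (fun z => (z - 1) * riemannZeta z) s := by
    rw [logDeriv_apply, h1.deriv_eq, h1.self_of_nhds]
  rw [h2, logDeriv_mul (f := fun z => z - 1) (g := riemannZeta) _ hs1' hζ (by fun_prop)
    (differentiableAt_riemannZeta hs1)]
  have h3 := ArithmeticFunction.LSeries_vonMangoldt_eq_deriv_riemannZeta_div hs
  rw [h3, logDeriv_apply, logDeriv_apply]
  have h4 : deriv (fun z : ℂ => z - 1) s = 1 := by
    rw [deriv_sub_const, deriv_id'']
  rw [h4]
  ring

/-- The function whose contour integral gives the remainder. -/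
noncomputable def hline (Z : Finset ℂ) (s : ℂ) : ℂ :=
  -(deriv zetaPole s / zetaPole s) + ∑ ρ ∈ Z, (zord ρ : ℂ) / (s - ρ)

/-- bound for `-ζ'/ζ` on the line `Re s = 2`. -/
lemma norm_LSeries_line (t : ℝ) :
    ‖LSeries (fun n => (ArithmeticFunction.vonMangoldt n : ℂ)) (2 + t * I)‖ ≤
      ∑' n, ‖LSeries.term (fun n => (ArithmeticFunction.vonMangoldt n : ℂ)) 2 n‖ := by
  have h3 := (ArithmeticFunction.LSeriesSummable_vonMangoldt (s := 2) (by simp)).norm
  refine tsum_of_norm_bounded h3.hasSum fun n => ?_
  apply le_of_eq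
  rw [LSeries.norm_term_eq, LSeries.norm_term_eq]
  simp

theorem Kf.line_formula (H : Kf w L V W) (hc : Continuous w)
    (hW : Integrable (fun t : ℝ => W (2 + t * I))) {u : ℝ} (hu : 0 ≤ u) {Z : Finset ℂ}
    (hZ : ∀ ρ ∈ Z, zetaPole ρ = 0) :
    ∫ t : ℝ, W (2 + t * I) * cexp (u * (2 + t * I)) * hline Z (2 + t * I) =
      2 * Real.pi * ((∑' n : ℕ, (ArithmeticFunction.vonMangoldt n : ℂ) * w (Real.log n - u)) -
        cexp u * W 1 + ∑ ρ ∈ Z, (zord ρ : ℂ) * (cexp (u * ρ) * W ρ)) := by
  have hZre : ∀ ρ ∈ Z, ρ.re < 1 := by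
    intro ρ hρ
    by_contra h
    exact zetaPole_ne_zero_of_one_le (not_lt.1 h) (hZ ρ hρ)
  have hWe : Integrable (fun t : ℝ => W (2 + t * I) * cexp (u * (2 + t * I))) := by
    refine hW.mul_bdd (c := Real.exp (2 * u)) ?_ ?_
    · exact (by fun_prop : Continuous (fun t : ℝ => cexp (u * (2 + t * I)))).aestronglyMeasurable
    · exact Eventually.of_forall fun t => (norm_exp_line u t).le
  have hpole : ∀ ρ : ℂ, ρ.re ≤ 1 → Integrable (fun t : ℝ =>
      W (2 + t * I) * cexp (u * (2 + t * I)) * (1 / (2 + t * I - ρ))) := by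
    intro ρ hρ
    have hne : ∀ t : ℝ, (2 + t * I - ρ) ≠ 0 := by
      intro t h
      have := congrArg Complex.re h
      simp at this
      linarith
    refine hWe.mul_bdd (c := 1) ?_ ?_
    · exact (Continuous.div₀ continuous_const (by fun_prop) hne).aestronglyMeasurable
    · refine Eventually.of_forall fun t => ?_
      rw [norm_div, norm_one, div_le_one (norm_pos_iff.2 (hne t))]
      have h1 := Complex.abs_re_le_norm (2 + t * I - ρ)
      have h2 : (2 + t * I - ρ).re = 2 - ρ.re := by simp
      rw [h2] at h1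
      have := le_abs_self (2 - ρ.re)
      linarith
  have hLs : Integrable (fun t : ℝ => W (2 + t * I) * cexp (u * (2 + t * I)) *
      LSeries (fun n => (ArithmeticFunction.vonMangoldt n : ℂ)) (2 + t * I)) := by
    refine hWe.mul_bdd (c := _) ?_ (Eventually.of_forall norm_LSeries_line)
    apply Continuous.aestronglyMeasurable
    have h1 : ∀ t : ℝ, LSeries (fun n => (ArithmeticFunction.vonMangoldt n : ℂ)) (2 + t * I) =
        -(deriv zetaPole (2 + t * I) / zetaPole (2 + t * I)) + 1 / ((2 + t * I) - 1) := by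
      intro t
      rw [neg_logDeriv_zetaPole (by simp)]
      ring
    simp only [h1]
    have h2 : ∀ t : ℝ, zetaPole (2 + t * I) ≠ 0 := fun t =>
      zetaPole_ne_zero_of_one_le (by simp)
    have h3 : ∀ t : ℝ, (2 + (t:ℂ) * I) - 1 ≠ 0 := by
      intro t h
      have := congrArg Complex.re h
      norm_num at this
    have h4 : Continuous (deriv zetaPole) := by
      have h5 : ContDiff ℂ 1 zetaPole := zetaPole_differentiable.contDiff
      exact h5.continuous_deriv le_rfl
    have h5 : Continuous (fun t : ℝ => deriv zetaPole (2 + t * I)) := h4.comp (by fun_prop)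
    have h6 : Continuous (fun t : ℝ => zetaPole (2 + t * I)) :=
      zetaPole_differentiable.continuous.comp (by fun_prop)
    exact (h5.div₀ h6 h2).neg.add (continuous_const.div₀ (by fun_prop) h3)
  -- decomposition
  have hdec : ∀ t : ℝ, W (2 + t * I) * cexp (u * (2 + t * I)) * hline Z (2 + t * I) =
      (W (2 + t * I) * cexp (u * (2 + t * I)) *
        LSeries (fun n => (ArithmeticFunction.vonMangoldt n : ℂ)) (2 + t * I) -
      W (2 + t * I) * cexp (u * (2 + t * I)) * (1 / (2 + t * I - 1))) +
      ∑ ρ ∈ Z, (zord ρ : ℂ) *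
        (W (2 + t * I) * cexp (u * (2 + t * I)) * (1 / (2 + t * I - ρ))) := by
    intro t
    rw [hline, neg_logDeriv_zetaPole (by simp)]
    have : ∑ ρ ∈ Z, (zord ρ : ℂ) *
        (W (2 + t * I) * cexp (u * (2 + t * I)) * (1 / (2 + t * I - ρ))) =
        W (2 + t * I) * cexp (u * (2 + t * I)) * ∑ ρ ∈ Z, (zord ρ : ℂ) / (2 + t * I - ρ) := by
      rw [Finset.mul_sum]
      refine Finset.sum_congr rfl fun ρ _ => ?_
      ring
    rw [this]
    ring
  simp only [hdec]
  rw [integral_add, integral_sub hLs (hpole 1 (by simp)), H.prime_sum hc hW,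
    H.pole hc hW hu (by simp : (1:ℂ).re < 2), integral_finsetSum]
  · have : ∀ ρ ∈ Z, ∫ t : ℝ, (zord ρ : ℂ) *
        (W (2 + t * I) * cexp (u * (2 + t * I)) * (1 / (2 + t * I - ρ))) =
        (zord ρ : ℂ) * (2 * Real.pi * (cexp (u * ρ) * W ρ)) := by
      intro ρ hρ
      rw [integral_const_mul, H.pole hc hW hu (by linarith [hZre ρ hρ])]
    rw [Finset.sum_congr rfl this, mul_one]
    have h7 : ∑ ρ ∈ Z, (zord ρ : ℂ) * (2 * Real.pi * (cexp (u * ρ) * W ρ)) =
        2 * Real.pi * ∑ ρ ∈ Z, (zord ρ : ℂ) * (cexp (u * ρ) * W ρ) := by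
      rw [Finset.mul_sum]
      refine Finset.sum_congr rfl fun ρ _ => ?_
      ring
    rw [h7]
    ring
  · intro ρ hρ
    exact (hpole ρ (hZre ρ hρ).le).const_mul _
  · exact hLs.sub (hpole 1 (by simp))
  · apply integrable_finsetSum
    intro ρ hρ
    exact (hpole ρ (hZre ρ hρ).le).const_mul _

end Pool.Agent.H6.Win
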