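import Pool.Agent.H6.Win.Density

/-!
# Carlson's zero density theorem, summed over dyadic blocks
-/

set_option autoImplicit false

open Complex Filter Topology MeasureTheory Set Metric

namespace Pool.Agent.H6.Win

open Pool.Agent.H6

/-- **Carlson's zero density theorem.** -/
theorem zero_density {σ κ : ℝ} (hσ : 1 / 2 < σ) (hσ1 : σ < 1) (hκ : 4 * σ * (1 - σ) < κ) :
    ∃ C : ℝ, 0 < C ∧ ∀ (T : ℝ) (F : Finset ℂ), 1 ≤ T →
      (∀ u ∈ F, σ ≤ u.re ∧ |u.im| ≤ T ∧ zetaPole u = 0) → (F.card : ℝ) ≤ C * T ^ κ := by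
  classical
  obtain ⟨C1, T1, hC1, hT1, hblock⟩ := density_block hσ hσ1 hκ
  have hκ0 : 0 < κ := by
    have : 0 < 4 * σ * (1 - σ) := by
      have : 0 < 1 - σ := by linarith
      positivity
    linarith
  have h2κ : (2:ℝ) ^ (-κ) < 1 := by
    rw [Real.rpow_neg (by norm_num)]
    exact inv_lt_one_of_one_lt₀ (Real.one_lt_rpow (by norm_num) hκ0)
  set N0 : ℝ := ((zset (σ - 1) (2 * T1)).card : ℝ) with hN0
  set C : ℝ := max (N0 + 1) (C1 / (1 - (2:ℝ) ^ (-κ))) with hC
  have hC0 : 0 < C := lt_of_lt_of_le (by positivity) (le_max_left _ _)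
  have hCC1 : C1 ≤ C * (1 - (2:ℝ) ^ (-κ)) := by
    have h1 : C1 / (1 - (2:ℝ) ^ (-κ)) ≤ C := le_max_right _ _
    rwa [div_le_iff₀ (by linarith)] at h1
  -- induction
  have key : ∀ k : ℕ, ∀ (T : ℝ) (F : Finset ℂ), 1 ≤ T → T ≤ 2 ^ k * (2 * T1) →
      (∀ u ∈ F, σ ≤ u.re ∧ |u.im| ≤ T ∧ zetaPole u = 0) → (F.card : ℝ) ≤ C * T ^ κ := by
    intro k
    induction k with
    | zero =>
      intro T F hT hTk hF
      have h1 : F ⊆ zset (σ - 1) (2 * T1) := by
        intro u hu
        obtain ⟨a1, a2, a3⟩ := hF u hu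
        rw [mem_zset]
        exact ⟨by linarith, by linarith, a3⟩
      have h2 : (F.card : ℝ) ≤ N0 := by
        rw [hN0]
        exact_mod_cast Finset.card_le_card h1
      have h3 : 1 ≤ T ^ κ := Real.one_le_rpow hT hκ0.le
      calc (F.card : ℝ) ≤ N0 + 1 := by linarith
        _ ≤ C * 1 := by rw [mul_one]; exact le_max_left _ _
        _ ≤ C * T ^ κ := by gcongr
    | succ k ih =>
      intro T F hT hTk hF
      by_cases hsmall : T ≤ 2 ^ k * (2 * T1)
      · exact ih T F hT hsmall hF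
      · rw [not_le] at hsmall
        have hTbig : 2 * T1 < T := by
          refine lt_of_le_of_lt ?_ hsmall
          have : (1:ℝ) ≤ 2 ^ k := one_le_pow₀ (by norm_num)
          nlinarith
        have hT0 : 0 < T := by linarith
        set F1 := F.filter (fun u => |u.im| ≤ T / 2) with hF1
        set F2 := F.filter (fun u => ¬ |u.im| ≤ T / 2) with hF2
        have hcard : (F.card : ℝ) = F1.card + F2.card := by
          rw [hF1, hF2]
          exact_mod_cast (Finset.card_filter_add_card_filter_not (s := F)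
            (fun u => |u.im| ≤ T / 2)).symm
        have h1 : (F1.card : ℝ) ≤ C * (T / 2) ^ κ := by
          apply ih (T / 2) F1 (by linarith)
          · rw [pow_succ] at hTk
            linarith
          · intro u hu
            rw [hF1, Finset.mem_filter] at hu
            obtain ⟨a1, a2, a3⟩ := hF u hu.1
            exact ⟨a1, hu.2, a3⟩
        have h2 : (F2.card : ℝ) ≤ C1 * (T / 2) ^ κ := by
          apply hblock (T / 2) F2 (by linarith)
          intro u hu
          rw [hF2, Finset.mem_filter, not_le] at hu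
          obtain ⟨a1, a2, a3⟩ := hF u hu.1
          exact ⟨a1, hu.2.le, by linarith, a3⟩
        have h3 : (T / 2) ^ κ = T ^ κ * (2:ℝ) ^ (-κ) := by
          rw [Real.div_rpow hT0.le (by norm_num), Real.rpow_neg (by norm_num), div_eq_mul_inv]
        have h4 : (T / 2) ^ κ ≤ T ^ κ := Real.rpow_le_rpow (by linarith) (by linarith) hκ0.le
        have h5 : 0 < T ^ κ := Real.rpow_pos_of_pos hT0 κ
        calc (F.card : ℝ) ≤ C * (T / 2) ^ κ + C1 * (T / 2) ^ κ := by rw [hcard]; linarith
          _ ≤ C * (T ^ κ * (2:ℝ) ^ (-κ)) + C1 * T ^ κ := by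
              rw [← h3]
              gcongr
          _ ≤ C * (T ^ κ * (2:ℝ) ^ (-κ)) + (C * (1 - (2:ℝ) ^ (-κ))) * T ^ κ := by gcongr
          _ = C * T ^ κ := by ring
  refine ⟨C, hC0, fun T F hT hF => ?_⟩
  obtain ⟨k, hk⟩ := pow_unbounded_of_one_lt T (show (1:ℝ) < 2 by norm_num)
  refine key k T F hT ?_ hF
  have h2T : (1:ℝ) ≤ 2 * T1 := by linarith
  have : (0:ℝ) < 2 ^ k := by positivity
  nlinarith

end Pool.Agent.H6.Win
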