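import Pool.Agent.H6.Win.KL

/-!
Short Dirichlet polynomials at the zeros of `ζ`.
-/

set_option autoImplicit false

open Complex Filter Topology MeasureTheory Set
open scoped ArithmeticFunction.Moebius

namespace Pool.Agent.H6.Win

open Pool.Agent.H6

lemma rpow_neg_le_div {x : ℝ} (hx1 : x ≤ 1) {n B : ℕ} (hn : 1 ≤ n) (hnB : n ≤ B) :
    (n : ℝ) ^ (-x) ≤ (B : ℝ) ^ (1 - x) / n := by
  have hn0 : (0 : ℝ) < n := by
    have : 0 < n := by omega
    exact_mod_cast this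
  rw [le_div_iff₀ hn0]
  have h1 : (n : ℝ) ^ (-x) * n = (n : ℝ) ^ (1 - x) := by
    rw [sub_eq_add_neg, add_comm, Real.rpow_add hn0, Real.rpow_one]
  rw [h1]
  exact Real.rpow_le_rpow hn0.le (by exact_mod_cast hnB) (by linarith)

lemma rpow_neg_sub_le {x : ℝ} (hx0 : 0 ≤ x) (hx1 : x ≤ 1) {n : ℕ} (hn : 1 ≤ n) :
    0 ≤ (n : ℝ) ^ (-x) - ((n : ℝ) + 1) ^ (-x) ∧
      ((n : ℝ) ^ (-x) - ((n : ℝ) + 1) ^ (-x)) * n ≤ (n : ℝ) ^ (-x) := by
  have hn0 : (0 : ℝ) < n := by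
    have : 0 < n := by omega
    exact_mod_cast this
  have h1 : ((n : ℝ) + 1) ^ (-x) = (n : ℝ) ^ (-x) * ((n : ℝ) / (n + 1)) ^ x := by
    rw [Real.div_rpow hn0.le (by positivity), Real.rpow_neg hn0.le, Real.rpow_neg (by positivity)]
    have : (n : ℝ) ^ x ≠ 0 := (Real.rpow_pos_of_pos hn0 x).ne'
    field_simp
  have h2 : (n : ℝ) / (n + 1) ≤ ((n : ℝ) / (n + 1)) ^ x := by
    have h3 := Real.rpow_le_rpow_of_exponent_ge (x := (n : ℝ) / (n + 1)) (by positivity)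
      (by rw [div_le_one (by positivity)]; linarith) hx1
    rwa [Real.rpow_one] at h3
  have h3 : ((n : ℝ) / (n + 1)) ^ x ≤ 1 := by
    refine Real.rpow_le_one (by positivity) ?_ hx0
    rw [div_le_one (by positivity)]
    linarith
  have h4 : 0 ≤ (n : ℝ) ^ (-x) := by positivity
  rw [h1]
  refine ⟨by nlinarith, ?_⟩
  have h5 : 1 - ((n : ℝ) / (n + 1)) ^ x ≤ 1 / (n + 1) := by
    have : 1 - (n : ℝ) / (n + 1) = 1 / (n + 1) := by field_simp; ring
    linarith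
  calc ((n : ℝ) ^ (-x) - (n : ℝ) ^ (-x) * ((n : ℝ) / (n + 1)) ^ x) * n
      = (n : ℝ) ^ (-x) * ((1 - ((n : ℝ) / (n + 1)) ^ x) * n) := by ring
    _ ≤ (n : ℝ) ^ (-x) * ((1 / (n + 1)) * n) := by gcongr
    _ ≤ (n : ℝ) ^ (-x) * 1 := by
        gcongr
        rw [one_div, inv_mul_le_iff₀ (by positivity)]
        linarith
    _ = (n : ℝ) ^ (-x) := mul_one _

lemma harmonic_sum_le {A B : ℕ} (hA : 1 ≤ A) (hB : 1 ≤ B) :
    ∑ n ∈ Finset.Icc A B, (1 : ℝ) / n ≤ 1 + Real.log B := by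
  have h1 : ∑ n ∈ Finset.Icc A B, (1 : ℝ) / n ≤ ∑ n ∈ Finset.Icc 1 B, (1 : ℝ) / n := by
    refine Finset.sum_le_sum_of_subset_of_nonneg (Finset.Icc_subset_Icc_left hA)
      fun n _ _ ↦ by positivity
  refine h1.trans ?_
  have h2 := harmonic_le_one_add_log B
  rw [harmonic_eq_sum_Icc] at h2
  push_cast at h2
  simpa [one_div] using h2

/-- weighted version -/
lemma norm_wsum_le {s : ℂ} (hs0 : 0 ≤ s.re) (hs1 : s.re ≤ 1) (ht : s.im ≠ 0) {A B : ℕ}
    (hA : 1 ≤ A) (htA : |s.im| ≤ A) (hAB : A ≤ B) :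
    ‖∑ n ∈ Finset.Icc A B, (n : ℂ) ^ (-s)‖ ≤
      24 / |s.im| * (B : ℝ) ^ (1 - s.re) * (2 + Real.log B) := by
  have ht0 : 0 < |s.im| := abs_pos.mpr ht
  set x := s.re with hx
  set t := s.im with ht'
  have hsplit : ∀ n : ℕ, 1 ≤ n → (n : ℂ) ^ (-s) = ((n : ℝ) ^ (-x) : ℝ) * (n : ℂ) ^ (-(t * I)) := by
    intro n hn
    have hn0 : (n : ℂ) ≠ 0 := by
      have : n ≠ 0 := by omega
      exact_mod_cast this
    rw [ofReal_cpow (by positivity), ofReal_natCast, ← cpow_add _ _ hn0]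
    congr 1
    conv_lhs => rw [← re_add_im s]
    push_cast
    ring
  set P : ℕ → ℂ := fun B ↦ ∑ n ∈ Finset.Icc A B, (n : ℂ) ^ (-(t * I)) with hP
  have hPb : ∀ n : ℕ, A ≤ n → ‖P n‖ ≤ 24 * n / |t| := fun n hn ↦ kusmin_landau ht hA htA hn
  have key : ∀ C : ℕ, A ≤ C → C ≤ B →
      ‖∑ n ∈ Finset.Icc A C, (n : ℂ) ^ (-s) - ((C : ℝ) ^ (-x) : ℝ) * P C‖ ≤
      24 / |t| * ((B : ℝ) ^ (1 - x) * ∑ n ∈ Finset.Ico A C, (1 : ℝ) / n) := by
    intro C hC
    induction C, hC using Nat.le_induction with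
    | base =>
      intro _
      simp only [hP, Finset.Icc_self, Finset.sum_singleton, Finset.Ico_self, Finset.sum_empty,
        mul_zero]
      rw [hsplit A hA, sub_self, norm_zero]
    | succ C hC ih =>
      intro hCB
      have ih' := ih (by omega)
      have e1 : ∑ n ∈ Finset.Icc A (C + 1), (n : ℂ) ^ (-s) -
          (((C + 1 : ℕ) : ℝ) ^ (-x) : ℝ) * P (C + 1) =
          (∑ n ∈ Finset.Icc A C, (n : ℂ) ^ (-s) - ((C : ℝ) ^ (-x) : ℝ) * P C) +
          (((C : ℝ) ^ (-x) - ((C : ℝ) + 1) ^ (-x) : ℝ) : ℂ) * P C := by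
        simp only [hP]
        rw [Finset.sum_Icc_succ_top (by omega), Finset.sum_Icc_succ_top (by omega),
          hsplit (C + 1) (by omega)]
        push_cast
        ring
      rw [e1, Finset.sum_Ico_succ_top hC, mul_add, mul_add]
      refine (norm_add_le _ _).trans (add_le_add ih' ?_)
      obtain ⟨h1, h2⟩ := rpow_neg_sub_le (x := x) hs0 hs1 (n := C) (by omega)
      rw [norm_mul, norm_real, Real.norm_of_nonneg h1]
      have h3 := hPb C hC
      have h4 := rpow_neg_le_div hs1 (n := C) (B := B) (by omega) (by omega)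
      calc ((C : ℝ) ^ (-x) - ((C : ℝ) + 1) ^ (-x)) * ‖P C‖
          ≤ ((C : ℝ) ^ (-x) - ((C : ℝ) + 1) ^ (-x)) * (24 * C / |t|) := by gcongr
        _ = 24 / |t| * (((C : ℝ) ^ (-x) - ((C : ℝ) + 1) ^ (-x)) * C) := by ring
        _ ≤ 24 / |t| * ((B : ℝ) ^ (1 - x) / C) := by gcongr; linarith
        _ = 24 / |t| * ((B : ℝ) ^ (1 - x) * (1 / C)) := by ring
  have h1 := key B hAB le_rfl
  have hB1 : 1 ≤ B := hA.trans hAB
  have hB0 : (0 : ℝ) < B := by exact_mod_cast hB1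
  have h2 : ∑ n ∈ Finset.Ico A B, (1 : ℝ) / n ≤ 1 + Real.log B := by
    refine le_trans ?_ (harmonic_sum_le hA hB1)
    exact Finset.sum_le_sum_of_subset_of_nonneg Finset.Ico_subset_Icc_self
      fun n _ _ ↦ by positivity
  have h3 : ‖(((B : ℝ) ^ (-x) : ℝ) : ℂ) * P B‖ ≤ 24 / |t| * (B : ℝ) ^ (1 - x) := by
    rw [norm_mul, norm_real, Real.norm_of_nonneg (by positivity)]
    have h4 : (B : ℝ) ^ (1 - x) = (B : ℝ) ^ (-x) * B := by
      rw [sub_eq_add_neg, add_comm, Real.rpow_add hB0, Real.rpow_one]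
    calc (B : ℝ) ^ (-x) * ‖P B‖ ≤ (B : ℝ) ^ (-x) * (24 * B / |t|) := by
          gcongr
          exact hPb B hAB
      _ = 24 / |t| * (B : ℝ) ^ (1 - x) := by rw [h4]; ring
  have h4 : ‖∑ n ∈ Finset.Icc A B, (n : ℂ) ^ (-s)‖ ≤
      ‖∑ n ∈ Finset.Icc A B, (n : ℂ) ^ (-s) - ((B : ℝ) ^ (-x) : ℝ) * P B‖ +
      ‖(((B : ℝ) ^ (-x) : ℝ) : ℂ) * P B‖ := by
    have := norm_add_le (∑ n ∈ Finset.Icc A B, (n : ℂ) ^ (-s) - ((B : ℝ) ^ (-x) : ℝ) * P B)
      ((((B : ℝ) ^ (-x) : ℝ) : ℂ) * P B)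
    simpa using this
  calc ‖∑ n ∈ Finset.Icc A B, (n : ℂ) ^ (-s)‖
      ≤ 24 / |t| * ((B : ℝ) ^ (1 - x) * (1 + Real.log B)) + 24 / |t| * (B : ℝ) ^ (1 - x) := by
        refine h4.trans (add_le_add (h1.trans ?_) h3)
        gcongr
    _ = 24 / |t| * (B : ℝ) ^ (1 - x) * (2 + Real.log B) := by ring

/-- At a zero of `ζ` of height `≍ T` the sum `∑_{n ≤ 2T} n^(-s)` is small. -/
theorem usum_at_zero {s : ℂ} (hs : 1 / 2 ≤ s.re) (hs1 : s.re ≤ 1) (hz : riemannZeta s = 0)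
    {T : ℝ} (hT : 2 ≤ T) (h1 : T ≤ |s.im|) (h2 : |s.im| ≤ 2 * T) :
    ‖usum s ⌈2 * T⌉₊‖ ≤ 200 * T ^ (1 - 2 * s.re) * (1 + Real.log T) := by
  have hT0 : 0 < T := by linarith
  have hlog0 : 0 ≤ Real.log T := Real.log_nonneg (by linarith)
  set x := s.re with hx
  have him : s.im ≠ 0 := by
    intro h
    rw [h, abs_zero] at h1
    linarith
  have hsne : s ≠ 1 := by
    intro h
    rw [h, one_im] at him
    exact him rfl
  set N : ℕ := ⌈2 * T⌉₊ with hN
  set B : ℕ := ⌊4 * T ^ 2⌋₊ with hB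
  have hB1 : (B : ℝ) ≤ 4 * T ^ 2 := Nat.floor_le (by positivity)
  have hB2 : 4 * T ^ 2 - 1 < B := by
    have := Nat.lt_floor_add_one (4 * T ^ 2)
    linarith
  have hB3 : T ^ 2 ≤ B := by nlinarith
  have hN1 : (N : ℝ) < 2 * T + 1 := Nat.ceil_lt_add_one (by positivity)
  have hN2 : 2 * T ≤ N := Nat.le_ceil _
  have hNB : N + 1 ≤ B := by
    have : ((N + 1 : ℕ) : ℝ) ≤ B := by
      push_cast
      nlinarith
    exact_mod_cast this
  have hB0 : (0 : ℝ) < B := lt_of_lt_of_le (by positivity) hB3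
  have hBn : 1 ≤ B := by exact_mod_cast hB0
  -- split
  have e1 : usum s N = usum s B - ∑ n ∈ Finset.Icc (N + 1) B, (n : ℂ) ^ (-s) := by
    have h3 : Finset.Icc 1 B = Finset.Icc 1 N ∪ Finset.Icc (N + 1) B := by
      ext n
      simp only [Finset.mem_Icc, Finset.mem_union]
      omega
    have h4 : Disjoint (Finset.Icc 1 N) (Finset.Icc (N + 1) B) := by
      rw [Finset.disjoint_left]
      intro n hn hn'
      rw [Finset.mem_Icc] at hn hn'
      omega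
    unfold usum
    rw [h3, Finset.sum_union h4]
    ring
  have hBx : (B : ℝ) ^ (1 - x) ≤ 2 * T ^ (2 - 2 * x) := by
    calc (B : ℝ) ^ (1 - x) ≤ (4 * T ^ 2) ^ (1 - x) :=
          Real.rpow_le_rpow hB0.le hB1 (by linarith)
      _ = 4 ^ (1 - x) * T ^ (2 - 2 * x) := by
          rw [Real.mul_rpow (by norm_num) (by positivity), ← Real.rpow_natCast T 2,
            ← Real.rpow_mul hT0.le]
          congr 2
          push_cast
          ring
      _ ≤ 2 * T ^ (2 - 2 * x) := by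
          gcongr
          have h3 : (4 : ℝ) ^ (1 - x) ≤ 4 ^ (1 / 2 : ℝ) :=
            Real.rpow_le_rpow_of_exponent_le (by norm_num) (by linarith)
          have h4 : (4 : ℝ) ^ (1 / 2 : ℝ) = 2 := by
            rw [← Real.sqrt_eq_rpow, show (4 : ℝ) = 2 ^ 2 by norm_num, Real.sqrt_sq (by norm_num)]
          linarith
  have hBx0 : (0 : ℝ) ≤ (B : ℝ) ^ (1 - x) := by positivity
  have hTpow : T ^ (2 - 2 * x) = T * T ^ (1 - 2 * x) := by
    rw [show 2 - 2 * x = 1 + (1 - 2 * x) by ring, Real.rpow_add hT0, Real.rpow_one]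
  have hTp0 : 0 < T ^ (1 - 2 * x) := Real.rpow_pos_of_pos hT0 _
  -- first part
  have h3 : ‖usum s B‖ ≤ 8 * T ^ (1 - 2 * x) := by
    have h4 := usum_zero (s := s) (by linarith) hsne hz hBn
    have h5 : ‖(B : ℂ) ^ (1 - s) / (1 - s)‖ ≤ 2 * T ^ (1 - 2 * x) := by
      rw [norm_div, norm_natCast_cpow_of_pos (by omega)]
      have h6 : (1 - s).re = 1 - x := by simp [hx]
      have h7 : T ≤ ‖1 - s‖ := by
        refine h1.trans ?_
        have := abs_im_le_norm (1 - s)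
        simpa using this
      rw [h6, div_le_iff₀ (by linarith)]
      calc (B : ℝ) ^ (1 - x) ≤ 2 * T ^ (2 - 2 * x) := hBx
        _ = 2 * T ^ (1 - 2 * x) * T := by rw [hTpow]; ring
        _ ≤ 2 * T ^ (1 - 2 * x) * ‖1 - s‖ := by gcongr
    have h6 : ‖s‖ / x * (B : ℝ) ^ (-x) ≤ 6 * T ^ (1 - 2 * x) := by
      have h7 : ‖s‖ ≤ 3 * T := by
        have := norm_le_abs_re_add_abs_im s
        rw [← hx, abs_of_nonneg (by linarith : 0 ≤ x)] at this
        linarith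
      have h8 : (B : ℝ) ^ (-x) ≤ T ^ (-2 * x) := by
        have h9 : (B : ℝ) ^ (-x) ≤ (T ^ 2) ^ (-x) :=
          Real.rpow_le_rpow_of_nonpos (by positivity) hB3 (by linarith)
        refine h9.trans (le_of_eq ?_)
        rw [← Real.rpow_natCast T 2, ← Real.rpow_mul hT0.le]
        congr 1
        push_cast
        ring
      have h9 : ‖s‖ / x ≤ 6 * T := by
        rw [div_le_iff₀ (by linarith)]
        nlinarith
      calc ‖s‖ / x * (B : ℝ) ^ (-x) ≤ 6 * T * T ^ (-2 * x) := by gcongr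
        _ = 6 * T ^ (1 - 2 * x) := by
            rw [show 1 - 2 * x = 1 + -2 * x by ring, Real.rpow_add hT0, Real.rpow_one]
            ring
    have h7 : ‖usum s B‖ ≤ ‖usum s B - (B : ℂ) ^ (1 - s) / (1 - s)‖ +
        ‖(B : ℂ) ^ (1 - s) / (1 - s)‖ := by
      have := norm_add_le (usum s B - (B : ℂ) ^ (1 - s) / (1 - s)) ((B : ℂ) ^ (1 - s) / (1 - s))
      simpa using this
    linarith
  have h4 : ‖∑ n ∈ Finset.Icc (N + 1) B, (n : ℂ) ^ (-s)‖ ≤
      48 * T ^ (1 - 2 * x) * (4 + 2 * Real.log T) := by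
    have h5 := norm_wsum_le (s := s) (by linarith) hs1 him (A := N + 1) (B := B) (by omega)
      (by push_cast; linarith) hNB
    refine h5.trans ?_
    have h6 : Real.log B ≤ 2 + 2 * Real.log T := by
      have h7 : Real.log B ≤ Real.log (4 * T ^ 2) := Real.log_le_log hB0 hB1
      rw [Real.log_mul (by norm_num) (by positivity), Real.log_pow] at h7
      have h8 : Real.log 4 ≤ 2 := by
        rw [show (4 : ℝ) = 2 ^ 2 by norm_num, Real.log_pow]
        have := Real.log_two_lt_d9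
        push_cast
        linarith
      push_cast at h7
      linarith
    have h7 : 24 / |s.im| ≤ 24 / T := by gcongr
    have h8 : 0 ≤ Real.log B := Real.log_natCast_nonneg B
    calc 24 / |s.im| * (B : ℝ) ^ (1 - x) * (2 + Real.log B)
        ≤ 24 / T * (2 * T ^ (2 - 2 * x)) * (2 + (2 + 2 * Real.log T)) := by gcongr
      _ = 48 * T ^ (1 - 2 * x) * (4 + 2 * Real.log T) := by
          rw [hTpow]
          field_simp
          ring
  rw [e1]
  refine (norm_sub_le _ _).trans ((add_le_add h3 h4).trans ?_)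
  nlinarith

end Pool.Agent.H6.Win
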