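import Pool.Agent.H6.Weil.Four

/-!
The mean value theorem for Dirichlet polynomials,
`∫_{-T}^{T} |∑ a_n n^(-it)|^2 dt ≤ C ∑ (T + n) |a_n|^2`, by Plancherel.
-/

set_option autoImplicit false

open Complex Filter Topology MeasureTheory Set

namespace Pool.Agent.H6.Win

open Pool.Agent.H6.Weil

/-- a fixed smooth kernel on `[-1/4, 1/4]` -/
noncomputable def bmp : ContDiffBump (0 : ℝ) := ⟨1 / 8, 1 / 4, by norm_num, by norm_num⟩

noncomputable def ker (x : ℝ) : ℝ := bmp.normed volume x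

lemma ker_contDiff : ContDiff ℝ 1 ker := bmp.contDiff_normed (n := 1)

lemma ker_nonneg (x : ℝ) : 0 ≤ ker x := bmp.nonneg_normed x

lemma ker_hasCompactSupport : HasCompactSupport ker := bmp.hasCompactSupport_normed

lemma ker_eq_zero {x : ℝ} (hx : 1 / 4 ≤ |x|) : ker x = 0 := by
  have h := bmp.support_normed_eq (μ := volume)
  have h2 : x ∉ Function.support (bmp.normed volume) := by
    rw [h, Metric.mem_ball, dist_zero_right, Real.norm_eq_abs]
    exact not_lt.mpr hx
  exact Function.notMem_support.mp h2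

lemma ker_integral : ∫ x, ker x = 1 := bmp.integral_normed

lemma ker_integrable : Integrable ker := bmp.integrable_normed

/-- its Fourier transform is bounded below near the origin -/
lemma four_ker_ge {ξ : ℝ} (hξ : |ξ| ≤ 1) :
    1 / 2 ≤ ‖∫ v : ℝ, (ker v : ℂ) * cexp (-(ξ * v * I))‖ := by
  have h1 : ‖(∫ v : ℝ, (ker v : ℂ) * cexp (-(ξ * v * I))) - 1‖ ≤ 1 / 4 := by
    have h2 : (1 : ℂ) = ∫ v : ℝ, (ker v : ℂ) := by
      rw [integral_complex_ofReal, ker_integral, ofReal_one]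
    have i1 : Integrable fun v : ℝ ↦ (ker v : ℂ) * cexp (-(ξ * v * I)) := by
      refine Continuous.integrable_of_hasCompactSupport ?_ ?_
      · have := ker_contDiff.continuous
        fun_prop
      · exact (ker_hasCompactSupport.comp_left (g := fun x : ℝ ↦ (x : ℂ)) (by simp)).mul_right
    have i2 : Integrable fun v : ℝ ↦ (ker v : ℂ) := ker_integrable.ofReal
    conv_lhs => rw [h2]
    rw [← integral_sub i1 i2]
    have h3 : ∫ v : ℝ, ker v * (1 / 4) = 1 / 4 := by
      rw [integral_mul_const, ker_integral, one_mul]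
    rw [← h3]
    refine norm_integral_le_of_norm_le (ker_integrable.mul_const _)
      (Eventually.of_forall fun v ↦ ?_)
    have h4 : (ker v : ℂ) * cexp (-(ξ * v * I)) - ker v =
        ker v * (cexp (I * ((-(ξ * v) : ℝ) : ℂ)) - 1) := by
      rw [mul_sub, mul_one]
      congr 3
      push_cast
      ring
    rw [h4, norm_mul, norm_real, Real.norm_of_nonneg (ker_nonneg v)]
    by_cases hv : |v| < 1 / 4
    · refine mul_le_mul_of_nonneg_left ?_ (ker_nonneg v)
      refine Real.norm_exp_I_mul_ofReal_sub_one_le.trans ?_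
      rw [Real.norm_eq_abs, abs_neg, abs_mul]
      calc |ξ| * |v| ≤ 1 * (1 / 4) := by gcongr
        _ = 1 / 4 := one_mul _
    · rw [ker_eq_zero (not_lt.mp hv)]
      simp
  have h2 : (1 : ℝ) ≤ ‖(∫ v : ℝ, (ker v : ℂ) * cexp (-(ξ * v * I))) - 1‖ +
      ‖∫ v : ℝ, (ker v : ℂ) * cexp (-(ξ * v * I))‖ := by
    have := norm_sub_le (∫ v : ℝ, (ker v : ℂ) * cexp (-(ξ * v * I)))
      ((∫ v : ℝ, (ker v : ℂ) * cexp (-(ξ * v * I))) - 1)
    rw [sub_sub_cancel, norm_one] at this
    linarith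
  linarith

/-- smoothed Dirichlet polynomial -/
noncomputable def smo (T : ℝ) (S : Finset ℕ) (a : ℕ → ℂ) (y : ℝ) : ℂ :=
  ∑ n ∈ S, a n * (ker (T * (y - Real.log n)) : ℂ)

variable {T : ℝ} {S : Finset ℕ} {a : ℕ → ℂ}

lemma smo_contDiff : ContDiff ℝ 1 (smo T S a) := by
  unfold smo
  refine ContDiff.sum fun n _ ↦ ?_
  refine contDiff_const.mul ?_
  have h1 : ContDiff ℝ 1 fun y : ℝ ↦ ker (T * (y - Real.log n)) :=
    ker_contDiff.comp (contDiff_const.mul (contDiff_id.sub contDiff_const))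
  exact ofRealCLM.contDiff.comp h1

lemma term_hasCompactSupport (hT : 0 < T) (c : ℝ) :
    HasCompactSupport fun y : ℝ ↦ ker (T * (y - c)) := by
  refine HasCompactSupport.intro (isCompact_Icc (a := c - 1 / T) (b := c + 1 / T)) fun y hy ↦ ?_
  refine ker_eq_zero ?_
  by_contra h
  apply hy
  rw [not_le, abs_mul, abs_of_pos hT] at h
  have h1 : |y - c| ≤ 1 / T := by
    rw [le_div_iff₀ hT]
    linarith
  rw [abs_le] at h1
  exact ⟨by linarith, by linarith⟩

lemma smo_hasCompactSupport (hT : 0 < T) : HasCompactSupport (smo T S a) := by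
  classical
  induction S using Finset.induction_on with
  | empty =>
    have : smo T ∅ a = fun _ ↦ 0 := by
      funext y
      simp [smo]
    rw [this]
    exact HasCompactSupport.zero
  | insert m S hm ih =>
    have : smo T (insert m S) a = (fun y ↦ a m * (ker (T * (y - Real.log m)) : ℂ)) + smo T S a := by
      funext y
      simp [smo, Finset.sum_insert hm]
    rw [this]
    refine HasCompactSupport.add ?_ ih
    exact ((term_hasCompactSupport hT _).comp_left (g := fun x : ℝ ↦ (x : ℂ)) (by simp)).mul_left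

lemma four_smo (hT : 0 < T) (hS : ∀ n ∈ S, 1 ≤ n) (t : ℝ) :
    four (smo T S a) t = (1 / T) * (∫ v : ℝ, (ker v : ℂ) * cexp (-(((t / T : ℝ) : ℂ) * v * I))) *
      ∑ n ∈ S, a n * (n : ℂ) ^ (-(t * I)) := by
  have hTc : (T : ℂ) ≠ 0 := by exact_mod_cast hT.ne'
  have h1 : ∀ n ∈ S, ∫ y : ℝ, a n * (ker (T * (y - Real.log n)) : ℂ) * cexp (-(t * y * I)) =
      (1 / T) * (∫ v : ℝ, (ker v : ℂ) * cexp (-(((t / T : ℝ) : ℂ) * v * I))) *
      (a n * (n : ℂ) ^ (-(t * I))) := by
    intro n hn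
    have hn0 : (n : ℂ) ≠ 0 := by
      have : n ≠ 0 := by have := hS n hn; omega
      exact_mod_cast this
    set F : ℝ → ℂ := fun v ↦ (ker v : ℂ) * cexp (-(((t / T : ℝ) : ℂ) * v * I)) with hF
    have h2 : ∀ y : ℝ, a n * (ker (T * (y - Real.log n)) : ℂ) * cexp (-(t * y * I)) =
        a n * (n : ℂ) ^ (-(t * I)) * F (T * (y - Real.log n)) := by
      intro y
      simp only [hF]
      rw [cpow_def_of_ne_zero hn0, ← natCast_log]
      have h3 : cexp (-(t * y * I)) = cexp (Real.log n * (-(t * I))) *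
          cexp (-(((t / T : ℝ) : ℂ) * ((T * (y - Real.log n) : ℝ) : ℂ) * I)) := by
        rw [← Complex.exp_add]
        congr 1
        push_cast
        field_simp
        ring
      rw [h3]
      ring
    simp_rw [h2]
    rw [integral_const_mul]
    have h4 : ∫ y : ℝ, F (T * (y - Real.log n)) = (1 / T) * ∫ v, F v := by
      have h5 := integral_sub_right_eq_self (μ := volume) (fun y ↦ F (T * y)) (Real.log n)
      rw [h5, Measure.integral_comp_mul_left F T, abs_of_pos (inv_pos.mpr hT), real_smul]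
      push_cast
      rw [one_div]
    rw [h4]
    ring
  unfold four smo
  rw [Finset.mul_sum, ← Finset.sum_congr rfl h1, ← integral_finsetSum]
  · refine integral_congr_ae (Eventually.of_forall fun y ↦ ?_)
    simp only
    rw [Finset.sum_mul]
  · intro n _
    refine Continuous.integrable_of_hasCompactSupport ?_ ?_
    · have := ker_contDiff.continuous
      fun_prop
    · refine HasCompactSupport.mul_right ?_
      exact ((term_hasCompactSupport hT _).comp_left (g := fun x : ℝ ↦ (x : ℂ)) (by simp)).mul_left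

/-- pointwise bound -/
lemma norm_smo_sq_le (hT : 1 ≤ T) (hS : ∀ n ∈ S, 1 ≤ n) {G : ℝ} (hG : ∀ x, ker x ≤ G) (y : ℝ) :
    ‖smo T S a y‖ ^ 2 ≤ ∑ n ∈ S, (Ioo (Real.log n - 1 / (4 * T)) (Real.log n + 1 / (4 * T))).indicator
      (fun _ ↦ G ^ 2 * (1 + n / T) * ‖a n‖ ^ 2) y := by
  classical
  have hT0 : 0 < T := by linarith
  have hG0 : 0 ≤ G := (ker_nonneg 0).trans (hG 0)
  set Sy : Finset ℕ := S.filter fun n ↦ y ∈ Ioo (Real.log n - 1 / (4 * T)) (Real.log n + 1 / (4 * T))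
    with hSy
  have hmem : ∀ n ∈ S, n ∉ Sy → ker (T * (y - Real.log n)) = 0 := by
    intro n hn hn'
    refine ker_eq_zero ?_
    by_contra h
    apply hn'
    rw [hSy, Finset.mem_filter]
    refine ⟨hn, ?_⟩
    rw [not_le, abs_mul, abs_of_pos hT0] at h
    have h1 : |y - Real.log n| < 1 / (4 * T) := by
      rw [lt_div_iff₀ (by positivity)]
      linarith
    rw [abs_lt] at h1
    exact ⟨by linarith [h1.1], by linarith [h1.2]⟩
  have h1 : ‖smo T S a y‖ ≤ ∑ n ∈ Sy, G * ‖a n‖ := by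
    unfold smo
    rw [← Finset.sum_subset (Finset.filter_subset _ _) (fun n hn hn' ↦ by
      rw [hmem n hn hn', ofReal_zero, mul_zero])]
    refine (norm_sum_le _ _).trans (Finset.sum_le_sum fun n _ ↦ ?_)
    rw [norm_mul, norm_real, Real.norm_of_nonneg (ker_nonneg _), mul_comm]
    gcongr
    exact hG _
  have hcard : ∀ n ∈ Sy, (Sy.card : ℝ) ≤ 1 + n / T := by
    intro n hn
    have hne : Sy.Nonempty := ⟨n, hn⟩
    set m := Sy.min' hne with hm
    have hmS : m ∈ Sy := Finset.min'_mem _ _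
    have hm1 : 1 ≤ m := hS m (Finset.mem_filter.mp hmS).1
    have hmr : (1 : ℝ) ≤ m := by exact_mod_cast hm1
    have hsub : Sy ⊆ Finset.Icc m (m + ⌊(m : ℝ) / T⌋₊) := by
      intro k hk
      rw [Finset.mem_Icc]
      refine ⟨Finset.min'_le _ _ hk, ?_⟩
      have hk1 : 1 ≤ k := hS k (Finset.mem_filter.mp hk).1
      have hkr : (1 : ℝ) ≤ k := by exact_mod_cast hk1
      have h2 := (Finset.mem_filter.mp hk).2
      have h3 := (Finset.mem_filter.mp hmS).2
      have h4 : Real.log k - Real.log m ≤ 1 / (2 * T) := by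
        have : 1 / (2 * T) = 1 / (4 * T) + 1 / (4 * T) := by field_simp; norm_num
        rw [this]
        linarith [h2.1, h3.2]
      have h5 : (k : ℝ) ≤ m * Real.exp (1 / (2 * T)) := by
        rw [← Real.log_le_log_iff (by linarith) (by positivity), Real.log_mul (by linarith)
          (Real.exp_pos _).ne', Real.log_exp]
        linarith
      have h6 : Real.exp (1 / (2 * T)) ≤ 1 + 1 / T := by
        have h7 : 1 / (2 * T) ≤ 1 / 2 := by
          apply one_div_le_one_div_of_le (by norm_num)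
          linarith
        have h8 : 0 ≤ 1 / (2 * T) := by positivity
        have h9 := Real.abs_exp_sub_one_sub_id_le (x := 1 / (2 * T)) (by
          rw [abs_of_nonneg h8]; linarith)
        have h10 := (abs_le.mp h9).2
        have h11 : 1 / T = 2 * (1 / (2 * T)) := by field_simp
        rw [h11]
        nlinarith
      have h7 : (k : ℝ) - m ≤ m / T := by
        calc (k : ℝ) - m ≤ m * (1 + 1 / T) - m := by
              have := mul_le_mul_of_nonneg_left h6 (by linarith : (0 : ℝ) ≤ m)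
              linarith
          _ = m / T := by ring
      have hmk : m ≤ k := Finset.min'_le _ _ hk
      have h8 : ((k - m : ℕ) : ℝ) ≤ m / T := by
        rw [Nat.cast_sub hmk]
        exact h7
      have h9 := Nat.le_floor h8
      omega
    have h2 := Finset.card_le_card hsub
    rw [Nat.card_Icc] at h2
    have h3 : (Sy.card : ℝ) ≤ 1 + ⌊(m : ℝ) / T⌋₊ := by
      have : Sy.card ≤ 1 + ⌊(m : ℝ) / T⌋₊ := by omega
      exact_mod_cast this
    have h4 : ((⌊(m : ℝ) / T⌋₊ : ℕ) : ℝ) ≤ m / T := Nat.floor_le (by positivity)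
    have h5 : (m : ℝ) ≤ n := by exact_mod_cast Finset.min'_le _ _ hn
    have h6 : (m : ℝ) / T ≤ n / T := by gcongr
    linarith
  calc ‖smo T S a y‖ ^ 2 ≤ (∑ n ∈ Sy, G * ‖a n‖) ^ 2 := by gcongr
    _ ≤ Sy.card * ∑ n ∈ Sy, (G * ‖a n‖) ^ 2 := sq_sum_le_card_mul_sum_sq
    _ = ∑ n ∈ Sy, Sy.card * (G * ‖a n‖) ^ 2 := by rw [Finset.mul_sum]
    _ ≤ ∑ n ∈ Sy, G ^ 2 * (1 + n / T) * ‖a n‖ ^ 2 := by
        refine Finset.sum_le_sum fun n hn ↦ ?_
        have := hcard n hn
        calc (Sy.card : ℝ) * (G * ‖a n‖) ^ 2 ≤ (1 + n / T) * (G * ‖a n‖) ^ 2 := by gcongr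
          _ = G ^ 2 * (1 + n / T) * ‖a n‖ ^ 2 := by ring
    _ = _ := by
        rw [hSy, Finset.sum_filter]
        refine Finset.sum_congr rfl fun n _ ↦ ?_
        rw [Set.indicator_apply]

/-- **Mean value theorem for Dirichlet polynomials.** -/
theorem mean_value : ∃ C : ℝ, 0 < C ∧ ∀ (T : ℝ) (S : Finset ℕ) (a : ℕ → ℂ), 1 ≤ T →
    (∀ n ∈ S, 1 ≤ n) →
    ∫ t in (-T)..T, ‖∑ n ∈ S, a n * (n : ℂ) ^ (-(t * I))‖ ^ 2 ≤
      C * ∑ n ∈ S, (T + n) * ‖a n‖ ^ 2 := by
  obtain ⟨G, hG⟩ := ker_hasCompactSupport.exists_bound_of_continuous ker_contDiff.continuous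
  have hG' : ∀ x, ker x ≤ G := fun x ↦ (le_abs_self _).trans (hG x)
  have hG0 : 0 ≤ G := (ker_nonneg 0).trans (hG' 0)
  refine ⟨4 * Real.pi * (G + 1) ^ 2, by positivity, fun T S a hT hS ↦ ?_⟩
  have hT0 : 0 < T := by linarith
  have hf := smo_contDiff (T := T) (S := S) (a := a)
  have hs := smo_hasCompactSupport (S := S) (a := a) hT0
  set D : ℝ → ℂ := fun t ↦ ∑ n ∈ S, a n * (n : ℂ) ^ (-(t * I)) with hD
  have hDc : Continuous D := by
    simp only [hD]
    refine continuous_finsetSum _ fun n hn ↦ ?_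
    have hn0 : (n : ℂ) ≠ 0 := by
      have : n ≠ 0 := by have := hS n hn; omega
      exact_mod_cast this
    refine continuous_const.mul ?_
    exact Continuous.const_cpow (by fun_prop) (Or.inl hn0)
  -- Fourier side
  have h1 : ∀ t ∈ Icc (-T) T, ‖D t‖ ^ 2 ≤ 4 * T ^ 2 * ‖four (smo T S a) t‖ ^ 2 := by
    intro t ht
    have h2 : |t / T| ≤ 1 := by
      rw [abs_div, abs_of_pos hT0, div_le_one hT0, abs_le]
      exact ht
    have h3 := four_ker_ge h2
    rw [four_smo hT0 hS, norm_mul, norm_mul, norm_div, norm_one, norm_real,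
      Real.norm_of_nonneg hT0.le]
    have h4 : ‖D t‖ ≤ 2 * T * (1 / T * ‖∫ v : ℝ, (ker v : ℂ) * cexp (-(((t / T : ℝ) : ℂ) * v * I))‖ *
        ‖D t‖) := by
      have h5 : 1 / 2 * ‖D t‖ ≤ ‖∫ v : ℝ, (ker v : ℂ) * cexp (-(((t / T : ℝ) : ℂ) * v * I))‖ *
        ‖D t‖ := by gcongr
      have h6 : 2 * T * (1 / T * ‖∫ v : ℝ, (ker v : ℂ) * cexp (-(((t / T : ℝ) : ℂ) * v * I))‖ *
        ‖D t‖) = 2 * (‖∫ v : ℝ, (ker v : ℂ) * cexp (-(((t / T : ℝ) : ℂ) * v * I))‖ * ‖D t‖) := by
        generalize ‖∫ v : ℝ, (ker v : ℂ) * cexp (-(((t / T : ℝ) : ℂ) * v * I))‖ = W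
        field_simp
      rw [h6]
      linarith
    calc ‖D t‖ ^ 2 ≤ (2 * T * (1 / T * ‖∫ v : ℝ, (ker v : ℂ) *
          cexp (-(((t / T : ℝ) : ℂ) * v * I))‖ * ‖D t‖)) ^ 2 := by gcongr
      _ = _ := by ring
  have hFi := integrable_four_sq hf hs
  have h2 : ∫ t in (-T)..T, ‖D t‖ ^ 2 ≤ 4 * T ^ 2 * ∫ t, ‖four (smo T S a) t‖ ^ 2 := by
    have hle : -T ≤ T := by linarith
    rw [← integral_const_mul]
    calc ∫ t in (-T)..T, ‖D t‖ ^ 2
        ≤ ∫ t in (-T)..T, 4 * T ^ 2 * ‖four (smo T S a) t‖ ^ 2 := by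
          refine intervalIntegral.integral_mono_on hle ?_ ?_ h1
          · exact (by fun_prop : Continuous fun t ↦ ‖D t‖ ^ 2).intervalIntegrable _ _
          · have := (hFi.const_mul (4 * T ^ 2)).intervalIntegrable (a := -T) (b := T)
            exact this
      _ ≤ ∫ t, 4 * T ^ 2 * ‖four (smo T S a) t‖ ^ 2 := by
          rw [intervalIntegral.integral_of_le hle]
          exact setIntegral_le_integral (hFi.const_mul _)
            (Eventually.of_forall fun t ↦ by positivity)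
  -- Plancherel
  have h3 : ∫ t, ‖four (smo T S a) t‖ ^ 2 = 2 * Real.pi * ∫ y, ‖smo T S a y‖ ^ 2 := by
    have h4 := acorr_inversion hf hs 0
    have h5 : acorr (smo T S a) 0 = ((∫ v, ‖smo T S a v‖ ^ 2 : ℝ) : ℂ) := by
      rw [acorr, ← integral_complex_ofReal]
      refine integral_congr_ae (Eventually.of_forall fun v ↦ ?_)
      simp only [zero_add]
      rw [mul_conj, normSq_eq_norm_sq]
    have h6 : ∫ t : ℝ, ((‖four (smo T S a) t‖ ^ 2 : ℝ) : ℂ) * cexp (t * ((0 : ℝ) : ℂ) * I) =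
        ((∫ t : ℝ, ‖four (smo T S a) t‖ ^ 2 : ℝ) : ℂ) := by
      rw [← integral_complex_ofReal]
      refine integral_congr_ae (Eventually.of_forall fun t ↦ ?_)
      simp
    rw [h5, h6] at h4
    exact_mod_cast h4
  -- space side
  have h4 : ∫ y, ‖smo T S a y‖ ^ 2 ≤ ∑ n ∈ S, G ^ 2 * (1 + n / T) * ‖a n‖ ^ 2 * (1 / (2 * T)) := by
    have h5 : ∀ n ∈ S, Integrable ((Ioo (Real.log n - 1 / (4 * T)) (Real.log n + 1 / (4 * T))).indicator
        (fun _ ↦ G ^ 2 * (1 + n / T) * ‖a n‖ ^ 2)) := by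
      intro n _
      rw [integrable_indicator_iff measurableSet_Ioo]
      exact integrableOn_const (by simp)
    have h6 : ∫ y, ∑ n ∈ S, (Ioo (Real.log n - 1 / (4 * T)) (Real.log n + 1 / (4 * T))).indicator
        (fun _ ↦ G ^ 2 * (1 + n / T) * ‖a n‖ ^ 2) y =
        ∑ n ∈ S, G ^ 2 * (1 + n / T) * ‖a n‖ ^ 2 * (1 / (2 * T)) := by
      rw [integral_finsetSum _ h5]
      refine Finset.sum_congr rfl fun n _ ↦ ?_
      rw [integral_indicator_const _ measurableSet_Ioo, Real.volume_real_Ioo_of_le (by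
        have : 0 < 1 / (4 * T) := by positivity
        linarith), smul_eq_mul, mul_comm]
      congr 1
      field_simp
      norm_num
    rw [← h6]
    refine integral_mono_of_nonneg (Eventually.of_forall fun y ↦ by positivity)
      (integrable_finsetSum _ h5) (Eventually.of_forall fun y ↦ ?_)
    exact norm_smo_sq_le hT hS hG' y
  calc ∫ t in (-T)..T, ‖D t‖ ^ 2 ≤ 4 * T ^ 2 * (2 * Real.pi * ∫ y, ‖smo T S a y‖ ^ 2) := by
        rw [← h3]; exact h2
    _ ≤ 4 * T ^ 2 * (2 * Real.pi * ∑ n ∈ S, G ^ 2 * (1 + n / T) * ‖a n‖ ^ 2 * (1 / (2 * T))) := by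
        gcongr
    _ = 4 * Real.pi * G ^ 2 * ∑ n ∈ S, (T + n) * ‖a n‖ ^ 2 := by
        rw [Finset.mul_sum, Finset.mul_sum, Finset.mul_sum]
        refine Finset.sum_congr rfl fun n _ ↦ ?_
        field_simp
    _ ≤ 4 * Real.pi * (G + 1) ^ 2 * ∑ n ∈ S, (T + n) * ‖a n‖ ^ 2 := by
        have : 0 ≤ ∑ n ∈ S, (T + n) * ‖a n‖ ^ 2 := Finset.sum_nonneg fun n _ ↦ by positivity
        gcongr
        linarith

end Pool.Agent.H6.Win
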