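import Mathlib

/-!
The area mean value inequality for analytic functions, and its consequence for sums of `‖D ρ‖ ^ 2`
over a finite set of points with bounded overlap.
(`enorm_le_circle`, `measurable_polar_symm`, `enorm_mul_volume_le` are copied from
`Pool/Agent/H69/Forcing.lean` by helper69.)
-/

set_option autoImplicit false

open Complex Filter Topology MeasureTheory Set Metric
open scoped ENNReal

namespace Pool.Agent.H6.Win

lemma enorm_le_circle {h : ℂ → ℂ} {ζ : ℂ} {ρ : ℝ} (hρ : 0 < ρ)
    (hd : DiffContOnCl ℂ h (ball ζ ρ)) :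
    ENNReal.ofReal (2 * Real.pi) * ‖h ζ‖ₑ ≤
      ∫⁻ θ in Ioo (-Real.pi) Real.pi, ‖h (ζ + Complex.polarCoord.symm (ρ, θ))‖ₑ := by
  have h1 : Real.circleAverage h ζ ρ = h ζ := by
    apply DiffContOnCl.circleAverage
    rwa [abs_of_pos hρ]
  have h2 : h ζ = (2 * Real.pi)⁻¹ • ∫ θ in (-Real.pi)..Real.pi, h (circleMap ζ ρ θ) := by
    rw [← h1, Real.circleAverage_eq_integral_add (-Real.pi)]
    congr 1
    rw [intervalIntegral.integral_comp_add_right (fun θ => h (circleMap ζ ρ θ))]
    congr 1 <;> ring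
  have h3 : (2 * Real.pi) • h ζ = ∫ θ in (-Real.pi)..Real.pi, h (circleMap ζ ρ θ) := by
    rw [h2, smul_smul, mul_inv_cancel₀ (by positivity), one_smul]
  have h4 : ENNReal.ofReal (2 * Real.pi) * ‖h ζ‖ₑ = ‖(2 * Real.pi) • h ζ‖ₑ := by
    rw [enorm_smul]
    congr 1
    rw [Real.enorm_eq_ofReal (by positivity)]
  rw [h4, h3, intervalIntegral.integral_of_le (by linarith [Real.pi_pos])]
  refine (enorm_integral_le_lintegral_enorm _).trans ?_
  rw [← restrict_Ioo_eq_restrict_Ioc]
  apply le_of_eq
  apply lintegral_congr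
  intro θ
  congr 2
  rw [Complex.polarCoord_symm_apply, circleMap, Complex.exp_mul_I]
  simp

lemma measurable_polar_symm : Measurable (fun p : ℝ × ℝ => Complex.polarCoord.symm p) := by
  have : (fun p : ℝ × ℝ => Complex.polarCoord.symm p) =
      fun p : ℝ × ℝ => ((p.1 : ℂ) * (Real.cos p.2 + Real.sin p.2 * Complex.I)) := by
    funext p
    exact Complex.polarCoord_symm_apply p
  rw [this]
  fun_prop

/-- Area mean value inequality. -/
lemma enorm_mul_volume_le {h : ℂ → ℂ} {ζ : ℂ} {r : ℝ}
    (hd : DifferentiableOn ℂ h (ball ζ r)) :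
    ‖h ζ‖ₑ * volume (ball ζ r) ≤ ∫⁻ z in ball ζ r, ‖h z‖ₑ := by
  have key : ∀ F : ℂ → ℝ≥0∞, Measurable ((ball ζ r).indicator F) → ∫⁻ z in ball ζ r, F z =
      ∫⁻ ρ in Ioi (0:ℝ), ∫⁻ θ in Ioo (-Real.pi) Real.pi, ENNReal.ofReal ρ *
        ((ball ζ r).indicator F (ζ + Complex.polarCoord.symm (ρ, θ))) := by
    intro F hF
    have h0 : Measurable (fun p : ℝ × ℝ => ENNReal.ofReal p.1 *
        ((ball ζ r).indicator F (ζ + Complex.polarCoord.symm p))) := by
      apply Measurable.mul
      · exact ENNReal.measurable_ofReal.comp measurable_fst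
      · exact hF.comp (measurable_const.add measurable_polar_symm)
    rw [← lintegral_indicator measurableSet_ball, ← lintegral_add_left_eq_self _ ζ,
      ← Complex.lintegral_comp_polarCoord_symm, polarCoord_target, Measure.volume_eq_prod,
      ← Measure.prod_restrict, lintegral_prod]
    · simp only [smul_eq_mul]
    · simp only [smul_eq_mul]
      exact h0.aemeasurable
  have hmeas : ∀ F : ℂ → ℝ≥0∞, ContinuousOn F (ball ζ r) → Measurable ((ball ζ r).indicator F) := by
    classical
    intro F hF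
    rw [← Set.piecewise_eq_indicator]
    exact hF.measurable_piecewise continuousOn_const measurableSet_ball
  have hc : ContinuousOn (fun z => ‖h z‖ₑ) (ball ζ r) := hd.continuousOn.enorm
  rw [key _ (hmeas _ hc), ← setLIntegral_const]
  rw [key _ (hmeas _ continuousOn_const)]
  apply setLIntegral_mono' measurableSet_Ioi
  intro ρ hρ
  have hρ0 : (0:ℝ) < ρ := hρ
  have hmem : ∀ θ : ℝ, (ζ + Complex.polarCoord.symm (ρ, θ) ∈ ball ζ r) ↔ ρ < r := by
    intro θ
    rw [mem_ball, dist_eq_norm, add_sub_cancel_left, Complex.norm_polarCoord_symm,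
      abs_of_pos hρ0]
  by_cases hr : ρ < r
  · have e1 : ∀ F : ℂ → ℝ≥0∞, ∀ θ : ℝ, (ball ζ r).indicator F
        (ζ + Complex.polarCoord.symm (ρ, θ)) = F (ζ + Complex.polarCoord.symm (ρ, θ)) := by
      intro F θ
      exact indicator_of_mem ((hmem θ).2 hr) _
    simp only [e1]
    rw [lintegral_const_mul' _ _ ENNReal.ofReal_ne_top, lintegral_const_mul' _ _ ENNReal.ofReal_ne_top]
    refine mul_le_mul_right ?_ _
    have e2 := enorm_le_circle (h := h) (ζ := ζ) hρ0 ?_
    · refine le_trans (le_of_eq ?_) e2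
      rw [lintegral_const, Measure.restrict_apply_univ, Real.volume_Ioo, mul_comm]
      congr 2
      ring
    · apply DifferentiableOn.diffContOnCl_ball (U := ball ζ r) hd
      exact closedBall_subset_ball hr
  · have e1 : ∀ F : ℂ → ℝ≥0∞, ∀ θ : ℝ, (ball ζ r).indicator F
        (ζ + Complex.polarCoord.symm (ρ, θ)) = 0 := by
      intro F θ
      exact indicator_of_notMem (fun h' => hr ((hmem θ).1 h')) _
    simp only [e1, le_refl]

/-- Integral over a rectangle. -/
lemma lintegral_rect {F : ℂ → ℝ≥0∞} (hF : Measurable F) (x0 x1 H : ℝ) :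
    ∫⁻ z in (Icc x0 x1 ×ℂ Icc (-H) H), F z =
      ∫⁻ x in Icc x0 x1, ∫⁻ t in Icc (-H) H, F (x + t * I) := by
  have h1 := (Complex.volume_preserving_equiv_real_prod.symm
    Complex.measurableEquivRealProd).setLIntegral_comp_preimage_emb
    (MeasurableEquiv.measurableEmbedding _) F (Icc x0 x1 ×ℂ Icc (-H) H)
  have h2 : Complex.measurableEquivRealProd.symm ⁻¹' (Icc x0 x1 ×ℂ Icc (-H) H) =
      Icc x0 x1 ×ˢ Icc (-H) H := by
    ext p
    simp only [Complex.measurableEquivRealProd, Set.mem_preimage, Complex.mem_reProdIm,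
      Set.mem_prod]
    rfl
  rw [h2] at h1
  rw [← h1, Measure.volume_eq_prod, ← Measure.prod_restrict, lintegral_prod]
  · apply lintegral_congr
    intro x
    apply lintegral_congr
    intro t
    congr 1
    apply Complex.ext <;> simp [Complex.measurableEquivRealProd]
  · exact (hF.comp (MeasurableEquiv.measurable _)).aemeasurable

/-- **Sums over points with bounded overlap.** -/
theorem area_sum {D : ℂ → ℂ} (hD : Differentiable ℂ D) {S : Finset ℂ} {r x0 x1 H K B : ℝ}
    (hr : 0 < r) (hx : x0 ≤ x1) (hH : 0 ≤ H) (hK0 : 0 ≤ K) (hB0 : 0 ≤ B)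
    (hloc : ∀ ρ ∈ S, x0 + r ≤ ρ.re ∧ ρ.re + r ≤ x1 ∧ |ρ.im| + r ≤ H)
    (hK : ∀ z : ℂ, ∀ F ⊆ S, (∀ ρ ∈ F, z ∈ ball ρ r) → (F.card : ℝ) ≤ K)
    (hB : ∀ x ∈ Icc x0 x1, ∫ t in (-H)..H, ‖D (x + t * I)‖ ^ 2 ≤ B) :
    Real.pi * r ^ 2 * ∑ ρ ∈ S, ‖D ρ‖ ^ 2 ≤ K * ((x1 - x0) * B) := by
  classical
  set R : Set ℂ := Icc x0 x1 ×ℂ Icc (-H) H with hR
  have hRm : MeasurableSet R := by
    rw [hR]
    exact (measurableSet_Icc.preimage Complex.measurable_re).inter
      (measurableSet_Icc.preimage Complex.measurable_im)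
  set F : ℂ → ℝ≥0∞ := fun z => ‖D z ^ 2‖ₑ with hF
  have hFc : Continuous F := by
    rw [hF]
    exact (hD.continuous.pow 2).enorm
  have hFm : Measurable F := hFc.measurable
  -- the mean value inequality at each point
  have h1 : ∀ ρ ∈ S, ‖D ρ ^ 2‖ₑ * volume (ball ρ r) ≤ ∫⁻ z in ball ρ r, F z := fun ρ _ =>
    enorm_mul_volume_le (h := fun z => D z ^ 2) (hD.pow 2).differentiableOn
  have hvol : ∀ ρ : ℂ, volume (ball ρ r) = ENNReal.ofReal (Real.pi * r ^ 2) := by
    intro ρ
    rw [Complex.volume_ball, ENNReal.ofReal_mul Real.pi_pos.le, mul_comm]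
    congr 1
    · rw [← NNReal.coe_real_pi, ENNReal.ofReal_coe_nnreal]
    · rw [ENNReal.ofReal_pow hr.le]
  -- summation
  have h2 : ∑ ρ ∈ S, ∫⁻ z in ball ρ r, F z ≤ ENNReal.ofReal K * ∫⁻ z in R, F z := by
    have e1 : ∀ ρ ∈ S, ∫⁻ z in ball ρ r, F z = ∫⁻ z, (ball ρ r).indicator F z := by
      intro ρ _
      rw [lintegral_indicator measurableSet_ball]
    rw [Finset.sum_congr rfl e1, ← lintegral_finsetSum, ← lintegral_indicator hRm,
      ← lintegral_const_mul]
    · apply lintegral_mono
      intro z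
      dsimp only
      by_cases hz : z ∈ R
      · rw [indicator_of_mem hz]
        calc ∑ ρ ∈ S, (ball ρ r).indicator F z
            = ∑ ρ ∈ S.filter (fun ρ => z ∈ ball ρ r), F z := by
              rw [Finset.sum_filter]
              refine Finset.sum_congr rfl fun ρ _ => ?_
              rw [Set.indicator_apply]
          _ = ((S.filter (fun ρ => z ∈ ball ρ r)).card : ℝ≥0∞) * F z := by
              rw [Finset.sum_const, nsmul_eq_mul]
          _ ≤ ENNReal.ofReal K * F z := by
              gcongr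
              rw [← ENNReal.ofReal_natCast]
              exact ENNReal.ofReal_le_ofReal (hK z _ (Finset.filter_subset _ _)
                (fun ρ hρ => (Finset.mem_filter.1 hρ).2))
      · rw [indicator_of_notMem hz, mul_zero]
        apply le_of_eq
        apply Finset.sum_eq_zero
        intro ρ hρ
        apply indicator_of_notMem
        intro hzb
        apply hz
        obtain ⟨a1, a2, a3⟩ := hloc ρ hρ
        rw [mem_ball, dist_eq_norm] at hzb
        have b1 := (Complex.abs_re_le_norm (z - ρ)).trans hzb.le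
        have b2 := (Complex.abs_im_le_norm (z - ρ)).trans hzb.le
        rw [Complex.sub_re, abs_le] at b1
        rw [Complex.sub_im, abs_le] at b2
        have b3 := neg_abs_le ρ.im
        have b4 := le_abs_self ρ.im
        rw [hR, Complex.mem_reProdIm]
        exact ⟨⟨by linarith, by linarith⟩, ⟨by linarith, by linarith⟩⟩
    · exact hFm.indicator hRm
    · intro ρ _
      exact hFm.indicator measurableSet_ball
  -- the integral over the rectangle
  have h3 : ∫⁻ z in R, F z ≤ ENNReal.ofReal ((x1 - x0) * B) := by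
    rw [hR, lintegral_rect hFm]
    calc ∫⁻ x in Icc x0 x1, ∫⁻ t in Icc (-H) H, F (x + t * I)
        ≤ ∫⁻ x in Icc x0 x1, ENNReal.ofReal B := by
          apply setLIntegral_mono' measurableSet_Icc
          intro x hx
          have e1 : ∫⁻ t in Icc (-H) H, F (x + t * I) =
              ENNReal.ofReal (∫ t in (-H)..H, ‖D (x + t * I)‖ ^ 2) := by
            rw [intervalIntegral.integral_of_le (by linarith), ← integral_Icc_eq_integral_Ioc,
              ofReal_integral_eq_lintegral_ofReal]
            · apply lintegral_congr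
              intro t
              rw [hF]
              simp only
              rw [← ofReal_norm, norm_pow]
            · apply ContinuousOn.integrableOn_Icc
              apply Continuous.continuousOn
              exact ((hD.continuous.comp (by fun_prop)).norm.pow 2)
            · exact Eventually.of_forall fun t => by positivity
          rw [e1]
          exact ENNReal.ofReal_le_ofReal (hB x hx)
      _ = ENNReal.ofReal ((x1 - x0) * B) := by
          rw [setLIntegral_const, Real.volume_Icc, ← ENNReal.ofReal_mul hB0, mul_comm]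
  have h4 : ENNReal.ofReal (Real.pi * r ^ 2 * ∑ ρ ∈ S, ‖D ρ‖ ^ 2) ≤
      ENNReal.ofReal (K * ((x1 - x0) * B)) := by
    calc ENNReal.ofReal (Real.pi * r ^ 2 * ∑ ρ ∈ S, ‖D ρ‖ ^ 2)
        = ∑ ρ ∈ S, ‖D ρ ^ 2‖ₑ * volume (ball ρ r) := by
          rw [Finset.mul_sum, ENNReal.ofReal_sum_of_nonneg (fun ρ _ => by positivity)]
          refine Finset.sum_congr rfl fun ρ _ => ?_
          rw [hvol, ← ofReal_norm, norm_pow, ← ENNReal.ofReal_mul (by positivity), mul_comm]
      _ ≤ ∑ ρ ∈ S, ∫⁻ z in ball ρ r, F z := Finset.sum_le_sum h1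
      _ ≤ ENNReal.ofReal K * ∫⁻ z in R, F z := h2
      _ ≤ ENNReal.ofReal K * ENNReal.ofReal ((x1 - x0) * B) := by gcongr
      _ = ENNReal.ofReal (K * ((x1 - x0) * B)) := by rw [ENNReal.ofReal_mul hK0]
  have h5 : 0 ≤ K * ((x1 - x0) * B) := by
    have : 0 ≤ x1 - x0 := by linarith
    positivity
  exact (ENNReal.ofReal_le_ofReal_iff h5).1 h4

end Pool.Agent.H6.Win
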