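import Pool.Agent.H6.Win.ZeroSum

/-!
The zero detecting Dirichlet polynomial.
-/

set_option autoImplicit false

open Complex Filter Topology MeasureTheory Set
open scoped ArithmeticFunction.Moebius ArithmeticFunction.zeta

namespace Pool.Agent.H6.Win

open Pool.Agent.H6

/-- the mollifier -/
noncomputable def mobs (s : ℂ) (X : ℕ) : ℂ := ∑ d ∈ Finset.Icc 1 X, (μ d : ℂ) * (d : ℂ) ^ (-s)

/-- coefficients of the product of the mollifier and the partial sum -/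
def bcoef (X N n : ℕ) : ℤ :=
  ∑ p ∈ (Finset.Icc 1 X ×ˢ Finset.Icc 1 N) with p.1 * p.2 = n, μ p.1

/-- the zero detecting polynomial -/
noncomputable def Dpoly (X N : ℕ) (s : ℂ) : ℂ :=
  ∑ n ∈ Finset.Icc (X + 1) (X * N), (bcoef X N n : ℂ) * (n : ℂ) ^ (-s)

lemma mobs_mul_usum (s : ℂ) (X N : ℕ) :
    mobs s X * usum s N = ∑ n ∈ Finset.Icc 1 (X * N), (bcoef X N n : ℂ) * (n : ℂ) ^ (-s) := by
  unfold mobs usum bcoef
  rw [Finset.sum_mul_sum, ← Finset.sum_product']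
  have h1 : ∀ p ∈ Finset.Icc 1 X ×ˢ Finset.Icc 1 N, p.1 * p.2 ∈ Finset.Icc 1 (X * N) := by
    intro p hp
    rw [Finset.mem_product, Finset.mem_Icc, Finset.mem_Icc] at hp
    rw [Finset.mem_Icc]
    exact ⟨Nat.mul_pos hp.1.1 hp.2.1, Nat.mul_le_mul hp.1.2 hp.2.2⟩
  rw [← Finset.sum_fiberwise_of_maps_to h1]
  refine Finset.sum_congr rfl fun n hn ↦ ?_
  push_cast
  rw [Finset.sum_mul]
  refine Finset.sum_congr rfl fun p hp ↦ ?_
  rw [Finset.mem_filter, Finset.mem_product, Finset.mem_Icc, Finset.mem_Icc] at hp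
  rw [← hp.2]
  push_cast
  rw [natCast_mul_natCast_cpow]
  ring

lemma bcoef_eq {X N n : ℕ} (hn : n ≠ 0) (hX : n ≤ X) (hN : n ≤ N) :
    bcoef X N n = ∑ d ∈ n.divisors, μ d := by
  unfold bcoef
  refine Finset.sum_bij' (fun p _ ↦ p.1) (fun d _ ↦ (d, n / d)) ?_ ?_ ?_ ?_ ?_
  · intro p hp
    rw [Finset.mem_filter] at hp
    rw [Nat.mem_divisors]
    exact ⟨⟨p.2, hp.2.symm⟩, hn⟩
  · intro d hd
    have hd' := Nat.dvd_of_mem_divisors hd
    have hd0 : 0 < d := Nat.pos_of_mem_divisors hd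
    have h1 : d ≤ n := Nat.divisor_le hd
    have h2 : n / d ≤ n := Nat.div_le_self _ _
    have h3 : 0 < n / d := Nat.div_pos h1 hd0
    rw [Finset.mem_filter, Finset.mem_product, Finset.mem_Icc, Finset.mem_Icc]
    exact ⟨⟨⟨hd0, by simpa using h1.trans hX⟩, ⟨h3, by simpa using h2.trans hN⟩⟩,
      Nat.mul_div_cancel' hd'⟩
  · intro p hp
    rw [Finset.mem_filter, Finset.mem_product, Finset.mem_Icc, Finset.mem_Icc] at hp
    have h0 : 0 < p.1 := hp.1.1.1
    have : n / p.1 = p.2 := by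
      rw [← hp.2, Nat.mul_div_cancel_left _ h0]
    rw [this]
  · intro d _
    rfl
  · intro p _
    rfl

lemma bcoef_one {X N : ℕ} (hX : 1 ≤ X) (hN : 1 ≤ N) : bcoef X N 1 = 1 := by
  rw [bcoef_eq one_ne_zero hX hN]
  simp

lemma bcoef_zero {X N n : ℕ} (hn : 1 < n) (hX : n ≤ X) (hN : n ≤ N) : bcoef X N n = 0 := by
  rw [bcoef_eq (by omega) hX hN]
  have h := ArithmeticFunction.moebius_mul_coe_zeta
  have h2 : ((μ * (ζ : ArithmeticFunction ℤ)) : ArithmeticFunction ℤ) n = 0 := by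
    rw [h]
    exact ArithmeticFunction.one_apply_ne (by omega)
  rw [ArithmeticFunction.coe_mul_zeta_apply] at h2
  exact h2

lemma abs_bcoef_le {X N n : ℕ} (hn : n ≠ 0) : |(bcoef X N n : ℝ)| ≤ n.divisors.card := by
  have h1 : |bcoef X N n| ≤ n.divisors.card := by
    unfold bcoef
    refine (Finset.abs_sum_le_sum_abs _ _).trans ?_
    calc ∑ p ∈ (Finset.Icc 1 X ×ˢ Finset.Icc 1 N) with p.1 * p.2 = n, |μ p.1|
        ≤ ∑ p ∈ (Finset.Icc 1 X ×ˢ Finset.Icc 1 N) with p.1 * p.2 = n, (1 : ℤ) :=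
          Finset.sum_le_sum fun p _ ↦ ArithmeticFunction.abs_moebius_le_one
      _ = (((Finset.Icc 1 X ×ˢ Finset.Icc 1 N).filter fun p ↦ p.1 * p.2 = n).card : ℤ) := by
          simp
      _ ≤ (n.divisorsAntidiagonal.card : ℤ) := by
          have : ((Finset.Icc 1 X ×ˢ Finset.Icc 1 N).filter fun p ↦ p.1 * p.2 = n).card ≤
              n.divisorsAntidiagonal.card := by
            refine Finset.card_le_card fun p hp ↦ ?_
            rw [Finset.mem_filter] at hp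
            rw [Nat.mem_divisorsAntidiagonal]
            exact ⟨hp.2, hn⟩
          exact_mod_cast this
      _ = n.divisors.card := by
          congr 1
          rw [← Nat.map_div_right_divisors, Finset.card_map]
  exact_mod_cast h1

lemma norm_mobs_le {s : ℂ} (hs1 : s.re ≤ 1) {X : ℕ} (hX : 1 ≤ X) :
    ‖mobs s X‖ ≤ (X : ℝ) ^ (1 - s.re) * (1 + Real.log X) := by
  have h1 := harmonic_sum_le (le_refl 1) hX
  unfold mobs
  refine (norm_sum_le _ _).trans ?_
  calc ∑ d ∈ Finset.Icc 1 X, ‖(μ d : ℂ) * (d : ℂ) ^ (-s)‖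
      ≤ ∑ d ∈ Finset.Icc 1 X, (X : ℝ) ^ (1 - s.re) * (1 / d) := by
        refine Finset.sum_le_sum fun d hd ↦ ?_
        rw [Finset.mem_Icc] at hd
        rw [norm_mul, norm_natCast_cpow_of_pos (by omega), neg_re]
        have h2 : ‖(μ d : ℂ)‖ ≤ 1 := by
          rw [Complex.norm_intCast]
          exact_mod_cast ArithmeticFunction.abs_moebius_le_one
        have h3 := rpow_neg_le_div hs1 hd.1 hd.2
        calc ‖(μ d : ℂ)‖ * (d : ℝ) ^ (-s.re) ≤ 1 * ((X : ℝ) ^ (1 - s.re) / d) := by gcongr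
          _ = (X : ℝ) ^ (1 - s.re) * (1 / d) := by ring
    _ = (X : ℝ) ^ (1 - s.re) * ∑ d ∈ Finset.Icc 1 X, (1 : ℝ) / d := by rw [Finset.mul_sum]
    _ ≤ (X : ℝ) ^ (1 - s.re) * (1 + Real.log X) := by gcongr

lemma mobs_mul_usum_eq {s : ℂ} {X N : ℕ} (hX : 1 ≤ X) (hXN : X ≤ N) :
    mobs s X * usum s N = 1 + Dpoly X N s := by
  rw [mobs_mul_usum]
  have hN : 1 ≤ N := hX.trans hXN
  have h1 : Finset.Icc 1 (X * N) = Finset.Icc 1 X ∪ Finset.Icc (X + 1) (X * N) := by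
    ext n
    simp only [Finset.mem_Icc, Finset.mem_union]
    have : X ≤ X * N := Nat.le_mul_of_pos_right X hN
    omega
  have h2 : Disjoint (Finset.Icc 1 X) (Finset.Icc (X + 1) (X * N)) := by
    rw [Finset.disjoint_left]
    intro n hn hn'
    rw [Finset.mem_Icc] at hn hn'
    omega
  rw [h1, Finset.sum_union h2]
  congr 1
  rw [Finset.sum_eq_single 1]
  · rw [bcoef_one hX hN]
    simp
  · intro n hn hn1
    rw [Finset.mem_Icc] at hn
    rw [bcoef_zero (by omega) hn.2 (hn.2.trans hXN)]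
    simp
  · intro h
    exfalso
    apply h
    rw [Finset.mem_Icc]
    exact ⟨le_rfl, hX⟩

/-- **Zero detection.** -/
theorem detect {σ : ℝ} (hσ : 1 / 2 < σ) (hσ1 : σ ≤ 1) : ∃ T₀ : ℝ, 2 ≤ T₀ ∧ ∀ (T : ℝ) (X : ℕ),
    T₀ ≤ T → 1 ≤ X → (X : ℝ) ≤ T ^ (2 * σ - 1) → ∀ s : ℂ, riemannZeta s = 0 → σ ≤ s.re →
    s.re ≤ 1 → T ≤ |s.im| → |s.im| ≤ 2 * T → 1 / 2 ≤ ‖Dpoly X ⌈2 * T⌉₊ s‖ := by
  have hp : 0 < σ * (2 * σ - 1) := by nlinarith
  -- smallness
  have hlim : Tendsto (fun T : ℝ ↦ 200 * ((1 + Real.log T) ^ 2 * T ^ (-(σ * (2 * σ - 1))))) atTop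
      (𝓝 0) := by
    have h1 : Tendsto (fun T : ℝ ↦ (1 + Real.log T) ^ 2 * T ^ (-(σ * (2 * σ - 1)))) atTop (𝓝 0) := by
      have h2 : (fun T : ℝ ↦ (1 + Real.log T) ^ 2) =o[atTop] fun T : ℝ ↦ T ^ (σ * (2 * σ - 1)) := by
        have h3 : (fun T : ℝ ↦ 1 + Real.log T) =o[atTop] fun T : ℝ ↦ T ^ (σ * (2 * σ - 1) / 2) := by
          refine Asymptotics.IsLittleO.add ?_ (isLittleO_log_rpow_atTop (by positivity))
          exact (Asymptotics.isLittleO_const_left.mpr (Or.inr (tendsto_norm_atTop_atTop.comp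
            (tendsto_rpow_atTop (by positivity)))))
        have h4 := h3.pow (n := 2) (by norm_num)
        refine h4.congr' (Eventually.of_forall fun _ ↦ rfl) ?_
        filter_upwards [eventually_ge_atTop 0] with T hT
        rw [← Real.rpow_natCast, ← Real.rpow_mul hT]
        congr 1
        push_cast
        ring
      have h5 := h2.tendsto_div_nhds_zero
      refine h5.congr' ?_
      filter_upwards [eventually_gt_atTop 0] with T hT
      rw [Real.rpow_neg hT.le, div_eq_mul_inv]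
    simpa using h1.const_mul 200
  obtain ⟨T₁, hT₁⟩ := (hlim.eventually (gt_mem_nhds (by norm_num : (0 : ℝ) < 1 / 2))).exists_forall_of_atTop
  refine ⟨max 2 T₁, le_max_left _ _, fun T X hT hX hXT s hz h1 h2 h3 h4 ↦ ?_⟩
  have hT2 : 2 ≤ T := (le_max_left _ _).trans hT
  have hT0 : 0 < T := by linarith
  have hTs := hT₁ T ((le_max_right _ _).trans hT)
  set N : ℕ := ⌈2 * T⌉₊ with hN
  have hN2 : 2 * T ≤ N := Nat.le_ceil _
  have hXT' : (X : ℝ) ≤ T := by
    refine hXT.trans ?_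
    calc T ^ (2 * σ - 1) ≤ T ^ (1 : ℝ) :=
          Real.rpow_le_rpow_of_exponent_le (by linarith) (by linarith)
      _ = T := Real.rpow_one T
  have hXN : X ≤ N := by
    have : (X : ℝ) ≤ N := by linarith
    exact_mod_cast this
  have hX0 : (0 : ℝ) < X := by exact_mod_cast hX
  have h5 := usum_at_zero (by linarith) h2 hz hT2 h3 h4
  have h6 := norm_mobs_le h2 hX
  have hlogX : 0 ≤ Real.log X := Real.log_natCast_nonneg X
  have hlogT : 0 ≤ Real.log T := Real.log_nonneg (by linarith)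
  have hlogXT : Real.log X ≤ Real.log T := Real.log_le_log hX0 hXT'
  have h7 : ‖mobs s X * usum s N‖ < 1 / 2 := by
    refine lt_of_le_of_lt ?_ hTs
    rw [norm_mul]
    have h8 : (X : ℝ) ^ (1 - s.re) ≤ T ^ ((2 * σ - 1) * (1 - s.re)) := by
      rw [Real.rpow_mul hT0.le]
      exact Real.rpow_le_rpow hX0.le hXT (by linarith)
    have h9 : T ^ ((2 * σ - 1) * (1 - s.re)) * T ^ (1 - 2 * s.re) ≤ T ^ (-(σ * (2 * σ - 1))) := by
      rw [← Real.rpow_add hT0]
      refine Real.rpow_le_rpow_of_exponent_le (by linarith) ?_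
      nlinarith
    calc ‖mobs s X‖ * ‖usum s N‖
        ≤ ((X : ℝ) ^ (1 - s.re) * (1 + Real.log X)) *
          (200 * T ^ (1 - 2 * s.re) * (1 + Real.log T)) := by gcongr
      _ ≤ (T ^ ((2 * σ - 1) * (1 - s.re)) * (1 + Real.log T)) *
          (200 * T ^ (1 - 2 * s.re) * (1 + Real.log T)) := by gcongr
      _ = 200 * ((1 + Real.log T) ^ 2 *
          (T ^ ((2 * σ - 1) * (1 - s.re)) * T ^ (1 - 2 * s.re))) := by ring
      _ ≤ 200 * ((1 + Real.log T) ^ 2 * T ^ (-(σ * (2 * σ - 1)))) := by gcongr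
  rw [mobs_mul_usum_eq hX hXN] at h7
  have h8 : (1 : ℝ) ≤ ‖1 + Dpoly X N s‖ + ‖Dpoly X N s‖ := by
    have := norm_sub_le (1 + Dpoly X N s) (Dpoly X N s)
    simpa using this
  linarith

end Pool.Agent.H6.Win
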