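import Pool.Agent.H6.Win.ZetaLoc
import Pool.Agent.H6.Win.Area
import Pool.Agent.H6.Win.Detect
import Pool.Agent.H6.Win.MVT
import Pool.Agent.H56.DivBound

/-!
# Carlson's zero density theorem
-/

set_option autoImplicit false

open Complex Filter Topology MeasureTheory Set Metric

namespace Pool.Agent.H6.Win

open Pool.Agent.H6

lemma weight_sum {p : ℝ} (hp1 : 1 ≤ p) (hp2 : p ≤ 2) {X Y : ℕ} (hX : 1 ≤ X) (hY : 1 ≤ Y) {H : ℝ}
    (hH : 0 ≤ H) : ∑ n ∈ Finset.Icc (X + 1) Y, (H + n) * (n : ℝ) ^ (-p) ≤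
      (H * (X : ℝ) ^ (1 - p) + (Y : ℝ) ^ (2 - p)) * (1 + Real.log Y) := by
  have hX0 : (0:ℝ) < X := by exact_mod_cast hX
  have h1 : ∀ n ∈ Finset.Icc (X + 1) Y, (H + n) * (n : ℝ) ^ (-p) ≤
      (H * (X : ℝ) ^ (1 - p) + (Y : ℝ) ^ (2 - p)) * ((1:ℝ) / n) := by
    intro n hn
    rw [Finset.mem_Icc] at hn
    have hn0 : (0:ℝ) < n := by
      have : 0 < n := by omega
      exact_mod_cast this
    have hXn : (X:ℝ) ≤ n := by
      have : X ≤ n := by omega
      exact_mod_cast this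
    have hnY : (n:ℝ) ≤ Y := by exact_mod_cast hn.2
    have e1 : (n:ℝ) ^ (-p) = (n:ℝ) ^ (1 - p) * (1 / n) := by
      rw [show -p = (1 - p) + (-1) by ring, Real.rpow_add hn0, Real.rpow_neg_one, one_div]
    have e2 : (n:ℝ) * (n:ℝ) ^ (-p) = (n:ℝ) ^ (2 - p) * (1 / n) := by
      rw [show -p = (2 - p) + (-1) + (-1) by ring, Real.rpow_add hn0, Real.rpow_add hn0,
        Real.rpow_neg_one]
      field_simp
    rw [add_mul, e2, e1, add_mul, mul_assoc]
    have a1 : (n:ℝ) ^ (1 - p) ≤ (X:ℝ) ^ (1 - p) :=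
      Real.rpow_le_rpow_of_nonpos hX0 hXn (by linarith)
    have a2 : (n:ℝ) ^ (2 - p) ≤ (Y:ℝ) ^ (2 - p) :=
      Real.rpow_le_rpow hn0.le hnY (by linarith)
    gcongr
  calc ∑ n ∈ Finset.Icc (X + 1) Y, (H + n) * (n : ℝ) ^ (-p)
      ≤ ∑ n ∈ Finset.Icc (X + 1) Y, (H * (X : ℝ) ^ (1 - p) + (Y : ℝ) ^ (2 - p)) * ((1:ℝ) / n) :=
        Finset.sum_le_sum h1
    _ = (H * (X : ℝ) ^ (1 - p) + (Y : ℝ) ^ (2 - p)) * ∑ n ∈ Finset.Icc (X + 1) Y, ((1:ℝ) / n) := by
        rw [Finset.mul_sum]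
    _ ≤ _ := by
        gcongr
        exact harmonic_sum_le (by omega) hY

/-- mean square of the zero detecting polynomial -/
lemma Dpoly_mean {x0 ε : ℝ} (hε : 0 < ε) (hp1 : 1 ≤ 2 * x0 - 2 * ε) (hp2 : 2 * x0 - 2 * ε ≤ 2) :
    ∃ C : ℝ, 0 < C ∧ ∀ (X N : ℕ) (H x : ℝ), 1 ≤ X → 1 ≤ N → 1 ≤ H → x0 ≤ x →
      ∫ t in (-H)..H, ‖Dpoly X N (x + t * I)‖ ^ 2 ≤
        C * ((H * (X : ℝ) ^ (1 - (2 * x0 - 2 * ε)) + ((X * N : ℕ) : ℝ) ^ (2 - (2 * x0 - 2 * ε))) *
          (1 + Real.log ((X * N : ℕ) : ℝ))) := by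
  obtain ⟨C1, hC1, hmv⟩ := mean_value
  obtain ⟨C2, hC2, hdiv⟩ := Pool.Agent.H56.DivBound.divisors_card_le ε hε
  refine ⟨C1 * C2 ^ 2, by positivity, fun X N H x hX hN hH hx => ?_⟩
  have hXN : 1 ≤ X * N := Nat.one_le_iff_ne_zero.2 (by positivity)
  set a : ℕ → ℂ := fun n => (bcoef X N n : ℂ) * (n : ℂ) ^ (-(x:ℂ)) with ha
  have e1 : ∀ t : ℝ, Dpoly X N (x + t * I) =
      ∑ n ∈ Finset.Icc (X + 1) (X * N), a n * (n : ℂ) ^ (-(t * I)) := by
    intro t
    unfold Dpoly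
    refine Finset.sum_congr rfl fun n hn => ?_
    rw [Finset.mem_Icc] at hn
    have hn0 : (n:ℂ) ≠ 0 := by
      have : n ≠ 0 := by omega
      exact_mod_cast this
    rw [ha]
    simp only
    rw [mul_assoc, ← Complex.cpow_add _ _ hn0]
    congr 2
    ring
  simp only [e1]
  refine (hmv H (Finset.Icc (X + 1) (X * N)) a hH (fun n hn => by
    rw [Finset.mem_Icc] at hn; omega)).trans ?_
  rw [mul_assoc]
  gcongr
  calc ∑ n ∈ Finset.Icc (X + 1) (X * N), (H + n) * ‖a n‖ ^ 2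
      ≤ ∑ n ∈ Finset.Icc (X + 1) (X * N), C2 ^ 2 * ((H + n) * (n:ℝ) ^ (-(2 * x0 - 2 * ε))) := by
        refine Finset.sum_le_sum fun n hn => ?_
        rw [Finset.mem_Icc] at hn
        have hnn : n ≠ 0 := by omega
        have hn0 : (0:ℝ) < n := by
          have : 0 < n := by omega
          exact_mod_cast this
        have hn1 : (1:ℝ) ≤ n := by
          have : 1 ≤ n := by omega
          exact_mod_cast this
        have b1 : ‖a n‖ ≤ C2 * (n:ℝ) ^ (ε - x0) := by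
          rw [ha]
          simp only
          rw [norm_mul]
          have c1 : ‖((bcoef X N n : ℤ) : ℂ)‖ ≤ C2 * (n:ℝ) ^ ε := by
            rw [Complex.norm_intCast]
            exact (abs_bcoef_le hnn).trans (hdiv n hnn)
          have c2 : ‖(n:ℂ) ^ (-(x:ℂ))‖ ≤ (n:ℝ) ^ (-x0) := by
            rw [Complex.norm_natCast_cpow_of_pos (by omega), Complex.neg_re, Complex.ofReal_re]
            exact Real.rpow_le_rpow_of_exponent_le hn1 (by linarith)
          calc ‖((bcoef X N n : ℤ) : ℂ)‖ * ‖(n:ℂ) ^ (-(x:ℂ))‖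
              ≤ (C2 * (n:ℝ) ^ ε) * (n:ℝ) ^ (-x0) := by gcongr
            _ = C2 * (n:ℝ) ^ (ε - x0) := by
                rw [mul_assoc, ← Real.rpow_add hn0]
                congr 2
        have b2 : ‖a n‖ ^ 2 ≤ C2 ^ 2 * (n:ℝ) ^ (-(2 * x0 - 2 * ε)) := by
          calc ‖a n‖ ^ 2 ≤ (C2 * (n:ℝ) ^ (ε - x0)) ^ 2 := by gcongr
            _ = C2 ^ 2 * (n:ℝ) ^ (-(2 * x0 - 2 * ε)) := by
                rw [mul_pow, ← Real.rpow_natCast ((n:ℝ) ^ (ε - x0)) 2, ← Real.rpow_mul hn0.le]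
                congr 2
                push_cast
                ring
        calc (H + n) * ‖a n‖ ^ 2 ≤ (H + n) * (C2 ^ 2 * (n:ℝ) ^ (-(2 * x0 - 2 * ε))) := by gcongr
          _ = _ := by ring
    _ = C2 ^ 2 * ∑ n ∈ Finset.Icc (X + 1) (X * N), (H + n) * (n:ℝ) ^ (-(2 * x0 - 2 * ε)) := by
        rw [Finset.mul_sum]
    _ ≤ _ := by
        gcongr
        exact weight_sum hp1 hp2 hX hXN (by linarith)

lemma Dpoly_differentiable (X N : ℕ) : Differentiable ℂ (Dpoly X N) := by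
  unfold Dpoly
  refine Differentiable.fun_sum fun n hn => ?_
  rw [Finset.mem_Icc] at hn
  have hn0 : (n:ℂ) ≠ 0 := by
    have : n ≠ 0 := by omega
    exact_mod_cast this
  intro s
  apply DifferentiableAt.const_mul
  exact (differentiableAt_id.neg).const_cpow (Or.inl hn0)

/-- zeros of `zetaPole` in the right half plane are zeros of `ζ`. -/
lemma zeta_zero_of_zetaPole {u : ℂ} (hu : zetaPole u = 0) : riemannZeta u = 0 := by
  unfold zetaPole at hu
  by_cases h : u = 1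
  · subst h; simp at hu
  · rw [Function.update_of_ne h] at hu
    rcases mul_eq_zero.1 hu with h1 | h1
    · exact absurd (sub_eq_zero.1 h1) h
    · exact h1

lemma zero_re_lt {u : ℂ} (hu : zetaPole u = 0) : u.re < 1 := by
  by_contra h
  exact zetaPole_ne_zero_of_one_le (not_lt.1 h) hu

/-- The dyadic block. -/
theorem density_block {σ κ : ℝ} (hσ : 1 / 2 < σ) (hσ1 : σ < 1) (hκ : 4 * σ * (1 - σ) < κ) :
    ∃ C T₁ : ℝ, 0 < C ∧ 2 ≤ T₁ ∧ ∀ (T : ℝ) (F : Finset ℂ), T₁ ≤ T →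
      (∀ u ∈ F, σ ≤ u.re ∧ T ≤ |u.im| ∧ |u.im| ≤ 2 * T ∧ zetaPole u = 0) →
      (F.card : ℝ) ≤ C * T ^ κ := by
  -- parameters
  set κσ : ℝ := 4 * σ * (1 - σ) with hκσ
  set δ : ℝ := min ((κ - κσ) / 4) ((2 * σ - 1) / 2) with hδ
  have hδ0 : 0 < δ := by
    rw [hδ]; apply lt_min <;> linarith
  have hδ1 : δ ≤ (κ - κσ) / 4 := min_le_left _ _
  have hδ2 : δ ≤ (2 * σ - 1) / 2 := min_le_right _ _
  set r : ℝ := δ / 4 with hr
  set ε : ℝ := δ / 4 with hε
  set x0 : ℝ := σ - r with hx0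
  have hr0 : 0 < r := by positivity
  have hp : 2 * x0 - 2 * ε = 2 * σ - δ := by rw [hx0, hr, hε]; ring
  have hp1 : 1 ≤ 2 * x0 - 2 * ε := by rw [hp]; linarith
  have hp2 : 2 * x0 - 2 * ε ≤ 2 := by rw [hp]; linarith
  obtain ⟨T0, hT0, hdet⟩ := detect hσ hσ1.le
  obtain ⟨C1, hC1, hmean⟩ := Dpoly_mean (x0 := x0) (ε := ε) (by positivity) hp1 hp2
  obtain ⟨C2, hC2, hloc⟩ := local_count (σ1 := σ - 2 * r) (σ := σ - r) (by linarith) (by linarith)
    (by linarith)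
  -- log bound
  set κ0 : ℝ := κσ + 2 * δ with hκ0
  have hκ0' : κ0 + 2 * δ ≤ κ := by rw [hκ0]; linarith
  obtain ⟨C3, hC3, hlog⟩ : ∃ C3 : ℝ, 0 < C3 ∧ ∀ T : ℝ, 2 ≤ T → 1 + Real.log (9 * T ^ 2) ≤ C3 * T ^ δ := by
    refine ⟨(1 + Real.log 9 + 2 / δ), by
      have : 0 < Real.log 9 := Real.log_pos (by norm_num)
      positivity, fun T hT => ?_⟩
    have hT0 : 0 < T := by linarith
    have h1 := Real.log_le_rpow_div hT0.le hδ0
    have h2 : 1 ≤ T ^ δ := Real.one_le_rpow (by linarith) hδ0.le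
    have h9 : 0 < Real.log 9 := Real.log_pos (by norm_num)
    rw [Real.log_mul (by norm_num) (by positivity), Real.log_pow]
    push_cast
    calc 1 + (Real.log 9 + 2 * Real.log T) ≤ 1 * T ^ δ + (Real.log 9 * T ^ δ + 2 * (T ^ δ / δ)) := by
          gcongr
          · linarith
          · nlinarith
      _ = _ := by ring
  set C4 : ℝ := 4 / (Real.pi * r ^ 2) * (C2 * C3 * ((2 - x0) * (C1 * (9 * C3)))) with hC4
  have hC4pos : 0 < C4 := by
    have := Real.pi_pos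
    have : 0 < 2 - x0 := by linarith
    positivity
  refine ⟨C4, T0, hC4pos, hT0, fun T F hT hF => ?_⟩
  have hT2 : 2 ≤ T := hT0.trans hT
  have hTpos : 0 < T := by linarith
  set q : ℝ := 2 * σ - 1 with hq
  have hq0 : 0 < q := by rw [hq]; linarith
  set X : ℕ := ⌊T ^ q⌋₊ with hX
  have hTq : 1 ≤ T ^ q := Real.one_le_rpow (by linarith) hq0.le
  have hX1 : 1 ≤ X := by
    rw [hX]
    exact Nat.one_le_floor_iff _ |>.2 hTq
  have hXle : (X:ℝ) ≤ T ^ q := Nat.floor_le (by positivity)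
  have hXge : T ^ q / 2 ≤ X := by
    have h1 : T ^ q < X + 1 := Nat.lt_floor_add_one _
    have h2 : (1:ℝ) ≤ X := by exact_mod_cast hX1
    linarith
  set N : ℕ := ⌈2 * T⌉₊ with hN
  have hN1 : 1 ≤ N := by
    rw [hN]
    exact Nat.one_le_iff_ne_zero.2 (by
      have : 0 < ⌈2 * T⌉₊ := Nat.ceil_pos.2 (by linarith)
      omega)
  have hNle : (N:ℝ) ≤ 3 * T := by
    have := Nat.ceil_lt_add_one (show (0:ℝ) ≤ 2 * T by linarith)
    rw [hN]
    linarith
  -- detection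
  have hD : ∀ ρ ∈ F, 1 / 4 ≤ ‖Dpoly X N ρ‖ ^ 2 := by
    intro ρ hρ
    obtain ⟨h1, h2, h3, h4⟩ := hF ρ hρ
    have h5 := hdet T X hT hX1 hXle ρ (zeta_zero_of_zetaPole h4) h1 (zero_re_lt h4).le h2 h3
    calc (1:ℝ) / 4 = (1 / 2) ^ 2 := by norm_num
      _ ≤ _ := by gcongr
  -- overlap
  set K : ℝ := C2 * (1 + Real.log (9 * T ^ 2)) with hK
  have hl9 : 0 ≤ Real.log (9 * T ^ 2) := Real.log_nonneg (by nlinarith)
  have hover : ∀ z : ℂ, ∀ F' ⊆ F, (∀ ρ ∈ F', z ∈ ball ρ r) → (F'.card : ℝ) ≤ K := by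
    intro z F' hF' hz
    rcases F'.eq_empty_or_nonempty with h | ⟨u0, hu0⟩
    · rw [h, hK]; simp; positivity
    · have him : ∀ u ∈ F', |u.im - z.im| ≤ r := by
        intro u hu
        have h1 := hz u hu
        rw [mem_ball, dist_eq_norm] at h1
        have h2 := Complex.abs_im_le_norm (z - u)
        rw [Complex.sub_im] at h2
        rw [abs_sub_comm]
        linarith
      have h3 := hloc z.im F' (fun u hu => by
        obtain ⟨a1, a2, a3, a4⟩ := hF u (hF' hu)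
        refine ⟨by linarith, ?_, a4⟩
        have := him u hu
        linarith)
      have h4 : (F'.card : ℝ) ≤ ∑ u ∈ F', (zord u : ℝ) := by
        rw [Finset.card_eq_sum_ones]
        push_cast
        refine Finset.sum_le_sum fun u hu => ?_
        exact_mod_cast zord_pos (hF u (hF' hu)).2.2.2
      have h5 : |z.im| + 2 ≤ 9 * T ^ 2 := by
        have h6 := him u0 hu0
        have h7 := (hF u0 (hF' hu0)).2.2.1
        have h8 : |z.im| ≤ |u0.im| + r := by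
          have := abs_sub_abs_le_abs_sub z.im u0.im
          rw [abs_sub_comm] at this
          linarith
        have hr1 : r ≤ 1 := by
          rw [hr]; linarith
        nlinarith
      refine h4.trans (h3.trans ?_)
      rw [hK]
      gcongr
      have : Real.log (|z.im| + 2) ≤ Real.log (9 * T ^ 2) := by
        apply Real.log_le_log (by positivity) h5
      linarith
  -- mean square
  set B : ℝ := C1 * ((3 * T * (X : ℝ) ^ (1 - (2 * x0 - 2 * ε)) +
    ((X * N : ℕ) : ℝ) ^ (2 - (2 * x0 - 2 * ε))) * (1 + Real.log ((X * N : ℕ) : ℝ))) with hB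
  have hXN1 : (1:ℝ) ≤ ((X * N : ℕ) : ℝ) := by
    have : 1 ≤ X * N := Nat.one_le_iff_ne_zero.2 (by positivity)
    exact_mod_cast this
  have hXNle : ((X * N : ℕ) : ℝ) ≤ 3 * T ^ (2 * σ) := by
    push_cast
    calc (X:ℝ) * N ≤ T ^ q * (3 * T) := by gcongr
      _ = 3 * T ^ (2 * σ) := by
          rw [show 2 * σ = q + 1 by rw [hq]; ring, Real.rpow_add hTpos, Real.rpow_one]
          ring
  have hXNle2 : ((X * N : ℕ) : ℝ) ≤ 9 * T ^ 2 := by
    refine hXNle.trans ?_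
    have : T ^ (2 * σ) ≤ T ^ (2:ℝ) := Real.rpow_le_rpow_of_exponent_le (by linarith) (by linarith)
    rw [Real.rpow_two] at this
    nlinarith
  have hB0 : 0 ≤ B := by
    have := Real.log_nonneg hXN1
    positivity
  have hsum := area_sum (Dpoly_differentiable X N) (S := F) (r := r) (x0 := x0) (x1 := 2)
    (H := 3 * T) (K := K) (B := B) hr0 (by linarith) (by linarith) (by positivity) hB0
    (fun ρ hρ => by
      obtain ⟨a1, a2, a3, a4⟩ := hF ρ hρ
      have := zero_re_lt a4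
      have hr1 : r ≤ 1 := by rw [hr]; linarith
      exact ⟨by rw [hx0]; linarith, by linarith, by linarith⟩) hover
    (fun x hx => hmean X N (3 * T) x hX1 hN1 (by linarith) hx.1)
  -- lower bound for the sum
  have hlow : (F.card : ℝ) / 4 ≤ ∑ ρ ∈ F, ‖Dpoly X N ρ‖ ^ 2 := by
    rw [div_eq_mul_inv, ← nsmul_eq_mul]
    apply Finset.card_nsmul_le_sum
    intro ρ hρ
    have := hD ρ hρ
    linarith
  -- size of B
  have hBle : B ≤ C1 * (9 * C3) * T ^ (κ0 + δ) := by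
    have h1 : (X:ℝ) ^ (1 - (2 * x0 - 2 * ε)) ≤ 2 * T ^ (q * (1 - (2 * x0 - 2 * ε))) := by
      calc (X:ℝ) ^ (1 - (2 * x0 - 2 * ε)) ≤ (T ^ q / 2) ^ (1 - (2 * x0 - 2 * ε)) :=
            Real.rpow_le_rpow_of_nonpos (by positivity) hXge (by linarith)
        _ = 2 ^ ((2 * x0 - 2 * ε) - 1) * T ^ (q * (1 - (2 * x0 - 2 * ε))) := by
            rw [Real.div_rpow (by positivity) (by norm_num), ← Real.rpow_mul hTpos.le,
              div_eq_mul_inv, ← Real.rpow_neg (by norm_num), mul_comm]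
            congr 2
            ring
        _ ≤ 2 * T ^ (q * (1 - (2 * x0 - 2 * ε))) := by
            gcongr
            calc (2:ℝ) ^ ((2 * x0 - 2 * ε) - 1) ≤ 2 ^ (1:ℝ) :=
                  Real.rpow_le_rpow_of_exponent_le (by norm_num) (by linarith)
              _ = 2 := by norm_num
    have h2 : ((X * N : ℕ) : ℝ) ^ (2 - (2 * x0 - 2 * ε)) ≤
        3 * T ^ (2 * σ * (2 - (2 * x0 - 2 * ε))) := by
      calc ((X * N : ℕ) : ℝ) ^ (2 - (2 * x0 - 2 * ε))
          ≤ (3 * T ^ (2 * σ)) ^ (2 - (2 * x0 - 2 * ε)) := by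
            apply Real.rpow_le_rpow (by positivity) hXNle (by linarith)
        _ = 3 ^ (2 - (2 * x0 - 2 * ε)) * T ^ (2 * σ * (2 - (2 * x0 - 2 * ε))) := by
            rw [Real.mul_rpow (by norm_num) (by positivity), ← Real.rpow_mul hTpos.le]
        _ ≤ 3 * T ^ (2 * σ * (2 - (2 * x0 - 2 * ε))) := by
            gcongr
            calc (3:ℝ) ^ (2 - (2 * x0 - 2 * ε)) ≤ 3 ^ (1:ℝ) :=
                  Real.rpow_le_rpow_of_exponent_le (by norm_num) (by linarith)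
              _ = 3 := by norm_num
    have h3 : T * T ^ (q * (1 - (2 * x0 - 2 * ε))) ≤ T ^ κ0 := by
      rw [← Real.rpow_one_add' hTpos.le (by
        rw [hp, hq]
        nlinarith)]
      apply Real.rpow_le_rpow_of_exponent_le (by linarith)
      rw [hp, hκ0, hκσ, hq]
      nlinarith
    have h4 : T ^ (2 * σ * (2 - (2 * x0 - 2 * ε))) ≤ T ^ κ0 := by
      apply Real.rpow_le_rpow_of_exponent_le (by linarith)
      rw [hp, hκ0, hκσ]
      nlinarith
    have h5 : 1 + Real.log ((X * N : ℕ) : ℝ) ≤ C3 * T ^ δ := by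
      refine le_trans ?_ (hlog T hT2)
      have := Real.log_le_log (by linarith) hXNle2
      linarith
    have h6 : 0 ≤ 1 + Real.log ((X * N : ℕ) : ℝ) := by
      have := Real.log_nonneg hXN1
      linarith
    rw [hB]
    calc C1 * ((3 * T * (X : ℝ) ^ (1 - (2 * x0 - 2 * ε)) +
          ((X * N : ℕ) : ℝ) ^ (2 - (2 * x0 - 2 * ε))) * (1 + Real.log ((X * N : ℕ) : ℝ)))
        ≤ C1 * ((3 * T * (2 * T ^ (q * (1 - (2 * x0 - 2 * ε)))) +
          3 * T ^ (2 * σ * (2 - (2 * x0 - 2 * ε)))) * (C3 * T ^ δ)) := by gcongr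
      _ = C1 * ((6 * (T * T ^ (q * (1 - (2 * x0 - 2 * ε)))) +
          3 * T ^ (2 * σ * (2 - (2 * x0 - 2 * ε)))) * (C3 * T ^ δ)) := by ring
      _ ≤ C1 * ((6 * T ^ κ0 + 3 * T ^ κ0) * (C3 * T ^ δ)) := by gcongr
      _ = C1 * (9 * C3) * T ^ (κ0 + δ) := by
          rw [Real.rpow_add hTpos κ0 δ]
          generalize T ^ κ0 = A1
          generalize T ^ δ = A2
          ring
  -- conclusion
  have hKle : K ≤ C2 * C3 * T ^ δ := by
    rw [hK, mul_assoc]
    gcongr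
    exact hlog T hT2
  have hx2 : 0 ≤ 2 - x0 := by linarith
  have hfin : Real.pi * r ^ 2 * ((F.card : ℝ) / 4) ≤
      (C2 * C3 * ((2 - x0) * (C1 * (9 * C3)))) * T ^ κ := by
    calc Real.pi * r ^ 2 * ((F.card : ℝ) / 4) ≤ Real.pi * r ^ 2 * ∑ ρ ∈ F, ‖Dpoly X N ρ‖ ^ 2 := by
          have := Real.pi_pos
          gcongr
      _ ≤ K * ((2 - x0) * B) := hsum
      _ ≤ (C2 * C3 * T ^ δ) * ((2 - x0) * (C1 * (9 * C3) * T ^ (κ0 + δ))) := by gcongr
      _ = (C2 * C3 * ((2 - x0) * (C1 * (9 * C3)))) * T ^ (κ0 + 2 * δ) := by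
          rw [show κ0 + 2 * δ = δ + (κ0 + δ) by ring, Real.rpow_add hTpos δ]
          ring
      _ ≤ (C2 * C3 * ((2 - x0) * (C1 * (9 * C3)))) * T ^ κ := by
          have : T ^ (κ0 + 2 * δ) ≤ T ^ κ := Real.rpow_le_rpow_of_exponent_le (by linarith) hκ0'
          gcongr
  have hpr : 0 < Real.pi * r ^ 2 := by
    have := Real.pi_pos
    positivity
  rw [hC4, div_mul_eq_mul_div, div_mul_eq_mul_div, le_div_iff₀ hpr]
  linarith

end Pool.Agent.H6.Win

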