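import Pool.Agent.H6.Win.TwoSided

/-!
# Interpolation by exponential polynomials with controlled coefficients
-/

set_option autoImplicit false

open Complex Filter Topology MeasureTheory Set Metric

namespace Pool.Agent.H6.Win

open Pool.Agent.H6

lemma Kf.mono {f : ℝ → ℂ} {L L' V V' : ℝ} {W : ℂ → ℂ} (H : Kf f L V W) (hL : L ≤ L')
    (hV : V ≤ V') : Kf f L' V' W where
  int := H.int
  supp := fun v hv => H.supp v fun h => hv ⟨h.1, h.2.trans hL⟩
  norm := H.norm.trans hV
  tr := H.tr

lemma Kf.smul {f : ℝ → ℂ} {L V : ℝ} {W : ℂ → ℂ} (H : Kf f L V W) (c : ℂ) :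
    Kf (fun v => c * f v) L (‖c‖ * V) (fun s => c * W s) where
  int := H.int.const_mul c
  supp := fun v hv => by rw [H.supp v hv, mul_zero]
  norm := by
    simp only [norm_mul]
    rw [integral_const_mul]
    have := H.norm
    gcongr
  tr := fun s => by
    simp only [mul_assoc]
    rw [integral_const_mul, H.tr]

lemma Kf.add {f g : ℝ → ℂ} {L V V' : ℝ} {W W' : ℂ → ℂ} (H : Kf f L V W) (H' : Kf g L V' W') :
    Kf (fun v => f v + g v) L (V + V') (fun s => W s + W' s) where
  int := H.int.add H'.int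
  supp := fun v hv => by rw [H.supp v hv, H'.supp v hv, add_zero]
  norm := by
    calc ∫ v, ‖f v + g v‖ ≤ ∫ v, (‖f v‖ + ‖g v‖) := by
          apply integral_mono (H.int.add H'.int).norm (H.int.norm.add H'.int.norm)
          intro v
          exact norm_add_le _ _
      _ = (∫ v, ‖f v‖) + ∫ v, ‖g v‖ := integral_add H.int.norm H'.int.norm
      _ ≤ V + V' := add_le_add H.norm H'.norm
  tr := fun s => by
    simp only [add_mul]
    rw [integral_add (H.int_exp s) (H'.int_exp s), H.tr, H'.tr]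

lemma Kf.V_nonneg {f : ℝ → ℂ} {L V : ℝ} {W : ℂ → ℂ} (H : Kf f L V W) : 0 ≤ V :=
  (integral_nonneg fun _ => norm_nonneg _).trans H.norm

/-- `Q` is an exponential polynomial with step `h`, at most `k` steps, and size `M`. -/
structure Comb (h : ℝ) (k : ℕ) (M : ℝ) (Q : ℂ → ℂ) : Prop where
  diff : Differentiable ℂ Q
  bd : ∀ s : ℂ, 0 ≤ s.re → s.re ≤ 2 → ‖Q s‖ ≤ M
  ker : ∀ (f : ℝ → ℂ) (L V : ℝ) (W : ℂ → ℂ), Kf f L V W →
    ∃ f' : ℝ → ℂ, Kf f' (L + k * h) (M * V) (fun s => W s * Q s)

lemma Comb.const (h : ℝ) {c : ℂ} {M : ℝ} (hc : ‖c‖ ≤ M) : Comb h 0 M (fun _ => c) where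
  diff := differentiable_const _
  bd := fun _ _ _ => hc
  ker := fun f L V W H => by
    refine ⟨fun v => c * f v, ?_⟩
    have h1 := (H.smul c).mono (L' := L + (0:ℕ) * h) (V' := M * V) (by simp)
      (by have := H.V_nonneg; gcongr)
    exact h1.congr (fun v => rfl) rfl rfl (fun s => mul_comm _ _)

lemma exp_quarter_le : Real.exp (1 / 4) ≤ 3 / 2 := by
  have h1 := Real.exp_one_lt_d9
  have h3 : Real.exp (1 / 4) ^ 4 = Real.exp 1 := by
    rw [← Real.exp_nat_mul]; norm_num
  by_contra hcon
  rw [not_le] at hcon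
  have h4 : (3 / 2 : ℝ) ^ 4 < Real.exp (1 / 4) ^ 4 := by gcongr
  rw [h3] at h4
  norm_num at h4
  linarith

lemma exp_half_le : Real.exp (1 / 2) ≤ 2 := by
  have h1 := Real.exp_one_lt_d9
  have h3 : Real.exp (1 / 2) ^ 2 = Real.exp 1 := by
    rw [← Real.exp_nat_mul]; norm_num
  by_contra hcon
  rw [not_le] at hcon
  have h4 : (2 : ℝ) ^ 2 < Real.exp (1 / 2) ^ 2 := by gcongr
  rw [h3] at h4
  norm_num at h4
  linarith

lemma Comb.step {h : ℝ} {k : ℕ} {M M1 : ℝ} {Q1 : ℂ → ℂ} {a c : ℂ} (H : Comb h k M1 Q1)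
    (hh : 0 ≤ h) (hh1 : h ≤ 1 / 4) (ha : ‖a‖ ≤ 2) (hc : ‖c‖ ≤ M) :
    Comb h (k + 1) (M + 4 * M1) (fun s => c + Q1 s * (cexp (s * h) - a)) where
  diff := by
    have := H.diff
    fun_prop
  bd := fun s h0 h2 => by
    have e1 : ‖cexp (s * h)‖ ≤ 2 := by
      rw [Complex.norm_exp]
      refine le_trans (Real.exp_le_exp.2 ?_) exp_half_le
      have h3 : (s * (h : ℂ)).re = s.re * h := by simp
      rw [h3]
      nlinarith
    have e2 := H.bd s h0 h2
    have e3 : ‖cexp (s * h) - a‖ ≤ 4 := (norm_sub_le _ _).trans (by linarith)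
    calc ‖c + Q1 s * (cexp (s * h) - a)‖ ≤ ‖c‖ + ‖Q1 s‖ * ‖cexp (s * h) - a‖ := by
          refine (norm_add_le _ _).trans ?_
          rw [norm_mul]
      _ ≤ M + M1 * 4 := by
          have := norm_nonneg (Q1 s)
          gcongr
          exact this.trans e2
      _ = _ := by ring
  ker := fun f L V W HK => by
    obtain ⟨f', hf'⟩ := H.ker f L V W HK
    have hM1 : 0 ≤ M1 := (norm_nonneg _).trans (H.bd 1 (by simp) (by simp))
    have hV := HK.V_nonneg
    have hM : 0 ≤ M := (norm_nonneg c).trans hc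
    have h1 := hf'.dif hh a
    have h2 := (HK.smul c).mono (L' := L + k * h + h) (V' := M * V)
      (by have : (0:ℝ) ≤ k * h := by positivity
          linarith) (by gcongr)
    have h3 := h2.add h1
    refine ⟨_, (h3.mono (L' := L + (k + 1 : ℕ) * h) (V' := (M + 4 * M1) * V)
      (by push_cast; linarith) ?_).congr (fun v => rfl) rfl rfl (fun s => ?_)⟩
    · have : M1 * V * (1 + ‖a‖) ≤ M1 * V * 4 := by
        gcongr
        linarith
      linarith
    · ring

/-- **Interpolation.** -/
theorem interp {ρ0 : ℂ} {R w h : ℝ} (hw : 0 < w) (hwR : w < R) (hR : R ≤ 1) (hh : 0 < h)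
    (hh1 : h ≤ 1 / 4) (K : Finset ℂ) :
    ∀ (Φ : ℂ → ℂ) (M : ℝ), (∀ z ∈ K, ‖z - ρ0‖ ≤ R - w ∧ 0 ≤ z.re ∧ z.re ≤ 1) →
      DifferentiableOn ℂ Φ (ball ρ0 (R + w)) → (∀ s ∈ closedBall ρ0 R, ‖Φ s‖ ≤ M) →
      ∃ Q : ℂ → ℂ, Comb h K.card (M * (K.card + 1) * (16 / (w * h)) ^ K.card) Q ∧
        ∀ z ∈ K, Q z = Φ z := by
  classical
  induction K using Finset.induction_on with
  | empty =>
    intro Φ M hK hΦ hM
    have hM0 : 0 ≤ M := (norm_nonneg _).trans (hM ρ0 (mem_closedBall_self (by linarith)))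
    refine ⟨fun _ => 0, ?_, by simp⟩
    simp only [Finset.card_empty]
    exact Comb.const h (by simpa using hM0)
  | insert z K hzK ih =>
    intro Φ M hK hΦ hM
    have hM0 : 0 ≤ M := (norm_nonneg _).trans (hM ρ0 (mem_closedBall_self (by linarith)))
    obtain ⟨hz1, hz2, hz3⟩ := hK z (Finset.mem_insert_self _ _)
    set U : Set ℂ := ball ρ0 (R + w) with hU
    have hUo : IsOpen U := isOpen_ball
    have hzU : z ∈ U := by
      rw [hU, mem_ball, dist_eq_norm]; linarith
    set E : ℂ → ℂ := fun s => cexp (s * h) with hE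
    have hEd : Differentiable ℂ E := by rw [hE]; fun_prop
    -- difference of exponentials
    have hEdiff : ∀ s ∈ U, s ≠ z → ‖s - z‖ * h / 2 ≤ ‖E s - E z‖ := by
      intro s hs hsz
      rw [hU, mem_ball, dist_eq_norm] at hs
      have hsz2 : ‖s - z‖ ≤ 2 := by
        calc ‖s - z‖ = ‖(s - ρ0) - (z - ρ0)‖ := by congr 1; ring
          _ ≤ ‖s - ρ0‖ + ‖z - ρ0‖ := norm_sub_le _ _
          _ ≤ 2 := by linarith
      have e1 : E s - E z = cexp (z * h) * (cexp ((s - z) * h) - 1) := by
        rw [hE, mul_sub, ← Complex.exp_add]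
        ring_nf
      have e2 : 1 ≤ ‖cexp (z * h)‖ := by
        rw [Complex.norm_exp, Real.one_le_exp_iff]
        have h3 : (z * (h : ℂ)).re = z.re * h := by simp
        rw [h3]
        positivity
      have e3 : ‖(s - z) * (h : ℂ)‖ = ‖s - z‖ * h := by
        rw [norm_mul, Complex.norm_real, Real.norm_eq_abs, abs_of_pos hh]
      have e4 : ‖s - z‖ * h ≤ 1 / 2 := by nlinarith [norm_nonneg (s - z)]
      have e5 := norm_exp_sub_one_ge (w := (s - z) * h) (by rw [e3]; exact e4)
      rw [e3] at e5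
      rw [e1, norm_mul]
      calc ‖s - z‖ * h / 2 ≤ ‖cexp ((s - z) * h) - 1‖ := e5
        _ ≤ ‖cexp (z * h)‖ * ‖cexp ((s - z) * h) - 1‖ := by
            have := norm_nonneg (cexp ((s - z) * h) - 1)
            nlinarith
    -- the quotient
    set Φ1 : ℂ → ℂ := fun s => dslope Φ z s / dslope E z s with hΦ1
    have hne : ∀ s ∈ U, dslope E z s ≠ 0 := by
      intro s hs
      by_cases hsz : s = z
      · subst hsz
        rw [dslope_same]
        have h1 : HasDerivAt E (cexp (s * h) * h) s := by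
          have := ((hasDerivAt_id s).mul_const (h:ℂ)).cexp
          simpa using this
        rw [h1.deriv]
        refine mul_ne_zero (Complex.exp_ne_zero _) ?_
        exact_mod_cast hh.ne'
      · rw [dslope_of_ne _ hsz, slope_def_field]
        have h1 := hEdiff s hs hsz
        have h2 : 0 < ‖s - z‖ := norm_pos_iff.2 (sub_ne_zero.2 hsz)
        have h3 : 0 < ‖E s - E z‖ := lt_of_lt_of_le (by positivity) h1
        exact div_ne_zero (norm_pos_iff.1 h3) (sub_ne_zero.2 hsz)
    have hΦ1d : DifferentiableOn ℂ Φ1 U := by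
      have h1 : DifferentiableOn ℂ (dslope Φ z) U :=
        (Complex.differentiableOn_dslope (hUo.mem_nhds hzU)).2 hΦ
      have h2 : DifferentiableOn ℂ (dslope E z) U :=
        (Complex.differentiableOn_dslope (hUo.mem_nhds hzU)).2 hEd.differentiableOn
      exact h1.div h2 hne
    have hΦ1eq : ∀ s ∈ U, s ≠ z → Φ1 s * (E s - E z) = Φ s - Φ z := by
      intro s hs hsz
      have h0 := hne s hs
      simp only [hΦ1]
      rw [dslope_of_ne _ hsz] at h0
      rw [dslope_of_ne _ hsz, dslope_of_ne _ hsz]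
      rw [slope_def_field] at h0
      rw [slope_def_field, slope_def_field]
      have h1 : s - z ≠ 0 := sub_ne_zero.2 hsz
      have h2 : E s - E z ≠ 0 := by
        intro h; rw [h, zero_div] at h0; exact h0 rfl
      field_simp
    have hΦ1b : ∀ s ∈ closedBall ρ0 R, ‖Φ1 s‖ ≤ 4 * M / (w * h) := by
      intro s hs
      have hRpos : 0 < R := by linarith
      have hcl : closedBall ρ0 R ⊆ U := by
        rw [hU]; exact closedBall_subset_ball (by linarith)
      have hd : DiffContOnCl ℂ Φ1 (ball ρ0 R) := by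
        apply DifferentiableOn.diffContOnCl
        rw [closure_ball _ hRpos.ne']
        exact hΦ1d.mono hcl
      refine Complex.norm_le_of_forall_mem_frontier_norm_le isBounded_ball hd ?_ ?_
      · intro v hv
        rw [frontier_ball _ hRpos.ne', mem_sphere, dist_eq_norm] at hv
        have hvc : v ∈ closedBall ρ0 R := by rw [mem_closedBall, dist_eq_norm, hv]
        have hvz : w ≤ ‖v - z‖ := by
          have h5 : ‖v - ρ0‖ ≤ ‖v - z‖ + ‖z - ρ0‖ := by
            calc ‖v - ρ0‖ = ‖(v - z) + (z - ρ0)‖ := by congr 1; ring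
              _ ≤ _ := norm_add_le _ _
          linarith
        have hvne : v ≠ z := by
          intro h; rw [h, sub_self, norm_zero] at hvz; linarith
        have h1 := hEdiff v (hcl hvc) hvne
        have h2 : w * h / 2 ≤ ‖E v - E z‖ := by
          refine le_trans ?_ h1
          gcongr
        have h3 := congrArg norm (hΦ1eq v (hcl hvc) hvne)
        rw [norm_mul] at h3
        have hzc : z ∈ closedBall ρ0 R := by
          rw [mem_closedBall, dist_eq_norm]; linarith
        have h4 : ‖Φ v - Φ z‖ ≤ 2 * M := by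
          refine (norm_sub_le _ _).trans ?_
          linarith [hM v hvc, hM z hzc]
        have hwh : 0 < w * h := by positivity
        rw [le_div_iff₀ hwh]
        have h5 : ‖Φ1 v‖ * (w * h / 2) ≤ 2 * M := by
          calc ‖Φ1 v‖ * (w * h / 2) ≤ ‖Φ1 v‖ * ‖E v - E z‖ := by gcongr
            _ ≤ 2 * M := by rw [h3]; exact h4
        linarith
      · rw [closure_ball _ hRpos.ne']; exact hs
    obtain ⟨Q1, hQ1, hQ1v⟩ := ih Φ1 (4 * M / (w * h)) (fun v hv => hK v (Finset.mem_insert_of_mem hv))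
      hΦ1d hΦ1b
    have hEz : ‖E z‖ ≤ 2 := by
      rw [hE]
      simp only
      rw [Complex.norm_exp]
      refine le_trans (Real.exp_le_exp.2 ?_) exp_half_le
      have h3 : (z * (h : ℂ)).re = z.re * h := by simp
      rw [h3]
      nlinarith
    have hzc : z ∈ closedBall ρ0 R := by
      rw [mem_closedBall, dist_eq_norm]; linarith
    have hstep := hQ1.step (M := M) (a := E z) (c := Φ z) hh.le hh1 hEz (hM z hzc)
    refine ⟨fun s => Φ z + Q1 s * (E s - E z), ?_, ?_⟩
    · rw [Finset.card_insert_of_notMem hzK]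
      refine ⟨hstep.diff, fun s h0 h2 => (hstep.bd s h0 h2).trans ?_, fun f L V W HK => ?_⟩
      all_goals
        have hg : 1 ≤ 16 / (w * h) := by
          rw [le_div_iff₀ (by positivity)]
          nlinarith
        set g := 16 / (w * h) with hgdef
        have hle : M + 4 * (4 * M / (w * h) * (K.card + 1) * g ^ K.card) ≤
            M * ((K.card + 1 : ℕ) + 1) * g ^ (K.card + 1) := by
          have e1 : 4 * (4 * M / (w * h) * (K.card + 1) * g ^ K.card) =
              M * (K.card + 1) * g ^ (K.card + 1) := by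
            rw [hgdef, pow_succ]
            ring
          rw [e1]
          have e2 : M ≤ M * g ^ (K.card + 1) := by
            have := one_le_pow₀ hg (n := K.card + 1)
            nlinarith
          push_cast
          nlinarith
      · exact hle
      · obtain ⟨f', hf'⟩ := hstep.ker f L V W HK
        refine ⟨f', hf'.mono le_rfl ?_⟩
        have := HK.V_nonneg
        gcongr
    · intro v hv
      rcases Finset.mem_insert.1 hv with h | h
      · rw [h]; simp
      · have hvz : v ≠ z := by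
          intro h'; rw [h'] at h; exact hzK h
        have hvU : v ∈ U := by
          have := (hK v hv).1
          rw [hU, mem_ball, dist_eq_norm]; linarith
        simp only
        rw [hQ1v v h, hΦ1eq v hvU hvz]
        ring

/-- **Pigeonhole: a circle away from all the points.** -/
theorem exists_gap (S : Finset ℂ) (ρ0 : ℂ) {r : ℝ} (hr : 0 < r) :
    ∃ R : ℝ, r / 2 ≤ R ∧ R ≤ r ∧ r / (4 * (S.card + 1)) < R ∧
      ∀ z ∈ S, R + r / (4 * (S.card + 1)) ≤ ‖z - ρ0‖ ∨ ‖z - ρ0‖ ≤ R - r / (4 * (S.card + 1)) := by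
  classical
  by_contra hcon
  push Not at hcon
  set N := S.card with hN
  set w : ℝ := r / (4 * (N + 1)) with hw
  have hw0 : 0 < w := by positivity
  have hNw : (4 * (N + 1)) * w = r := by rw [hw]; field_simp
  set Rj : ℕ → ℝ := fun j => r / 2 + (2 * j + 1) * w with hRj
  have h1 : ∀ j ∈ Finset.range (N + 1), ∃ z ∈ S, |‖z - ρ0‖ - Rj j| < w := by
    intro j hj
    rw [Finset.mem_range] at hj
    have hj' : (j:ℝ) ≤ N := by
      have : j ≤ N := by omega
      exact_mod_cast this
    have hj0 : (0:ℝ) ≤ j := Nat.cast_nonneg _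
    obtain ⟨z, hz, a1, a2⟩ := hcon (Rj j) (by
      rw [hRj]
      have : 0 ≤ (2 * (j:ℝ) + 1) * w := by positivity
      simp only
      linarith) (by
      rw [hRj]
      simp only
      nlinarith) (by
      rw [hRj]
      simp only
      nlinarith)
    refine ⟨z, hz, ?_⟩
    rw [abs_lt]
    constructor <;> linarith
  choose! f hf1 hf2 using h1
  have hmaps : ∀ j ∈ Finset.range (N + 1), f j ∈ S := hf1
  obtain ⟨i, hi, j, hj, hij, hfij⟩ := Finset.exists_ne_map_eq_of_card_lt_of_maps_to
    (by rw [Finset.card_range]; omega) hmaps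
  have b1 := abs_lt.1 (hf2 i hi)
  have b2 := abs_lt.1 (hf2 j hj)
  rw [hfij] at b1
  have h3 : 2 * w ≤ |Rj i - Rj j| := by
    have h4 : Rj i - Rj j = 2 * w * ((i:ℝ) - j) := by
      rw [hRj]; ring
    rw [h4, abs_mul, abs_of_pos (by positivity)]
    have h5 : (1:ℝ) ≤ |(i:ℝ) - j| := by
      have : (i:ℤ) - j ≠ 0 := by omega
      have := Int.one_le_abs this
      exact_mod_cast this
    nlinarith
  have h6 : |Rj i - Rj j| < 2 * w := by
    rw [abs_lt]
    constructor <;> linarith [b1.1, b1.2, b2.1, b2.2]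
  linarith

end Pool.Agent.H6.Win
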