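import Mathlib

/-!
# Kernels with compact support and prescribed zeros of the Laplace transform
-/

set_option autoImplicit false

open Complex Filter Topology MeasureTheory Set Metric

namespace Pool.Agent.H6.Win

/-- `phi z = (exp z - 1) / z` -/
noncomputable def phi (z : ℂ) : ℂ := dslope Complex.exp 0 z

lemma mul_phi (z : ℂ) : z * phi z = Complex.exp z - 1 := by
  have h := sub_smul_dslope Complex.exp 0 z
  simp only [sub_zero, smul_eq_mul, Complex.exp_zero] at h
  exact h

lemma phi_differentiable : Differentiable ℂ phi := by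
  unfold phi
  rw [← differentiableOn_univ]
  exact (Complex.differentiableOn_dslope univ_mem).2 Complex.differentiable_exp.differentiableOn

lemma phi_zero : phi 0 = 1 := by
  unfold phi
  rw [dslope_same]
  simp

lemma integral_exp_eq_phi (s : ℂ) (a : ℝ) :
    ∫ r in (0:ℝ)..a, Complex.exp (s * r) = a * phi (s * a) := by
  by_cases hs : s = 0
  · subst hs
    simp [phi_zero]
  · rw [integral_exp_mul_complex hs]
    have h := mul_phi (s * a)
    rw [div_eq_iff hs]
    simp only [Complex.ofReal_zero, mul_zero, Complex.exp_zero]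
    rw [← h]
    ring

lemma norm_phi_le {z : ℂ} (hz : 0 ≤ z.re) : ‖phi z‖ ≤ Real.exp z.re := by
  have h := integral_exp_eq_phi z 1
  simp only [Complex.ofReal_one, one_mul, mul_one] at h
  rw [← h]
  have h2 := intervalIntegral.norm_integral_le_of_norm_le_const (a := (0:ℝ)) (b := 1)
    (f := fun r : ℝ => Complex.exp (z * r)) (C := Real.exp z.re) ?_
  · simpa using h2
  · intro r hr
    rw [uIoc_of_le zero_le_one] at hr
    rw [Complex.norm_exp]
    apply Real.exp_le_exp.2
    simp only [Complex.mul_re, Complex.ofReal_re, Complex.ofReal_im, mul_zero, sub_zero]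
    nlinarith [hr.1, hr.2]

lemma norm_phi_le_div {z : ℂ} (hz : z ≠ 0) : ‖phi z‖ ≤ (1 + Real.exp z.re) / ‖z‖ := by
  have hpos : 0 < ‖z‖ := norm_pos_iff.2 hz
  rw [le_div_iff₀ hpos, ← norm_mul, mul_comm, mul_phi]
  refine (norm_sub_le _ _).trans ?_
  rw [norm_one, Complex.norm_exp]
  linarith

lemma norm_phi_sub_one {z : ℂ} (hz : ‖z‖ ≤ 1) : ‖phi z - 1‖ ≤ ‖z‖ := by
  by_cases h0 : z = 0
  · subst h0
    simp [phi_zero]
  · have hpos : 0 < ‖z‖ := norm_pos_iff.2 h0
    have h1 : z * (phi z - 1) = Complex.exp z - 1 - z := by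
      rw [mul_sub, mul_phi, mul_one]
    have h2 := Complex.norm_exp_sub_one_sub_id_le hz
    rw [← h1, norm_mul, pow_two] at h2
    exact le_of_mul_le_mul_left h2 hpos

lemma norm_phi_ge {z : ℂ} (hz : ‖z‖ ≤ 1 / 2) : Real.exp (-(2 * ‖z‖)) ≤ ‖phi z‖ := by
  have h1 := norm_phi_sub_one (z := z) (by linarith)
  have h2 : 1 - ‖z‖ ≤ ‖phi z‖ := by
    have h3 := norm_sub_norm_le (1:ℂ) (1 - phi z)
    have h4 : ‖(1:ℂ) - phi z‖ = ‖phi z - 1‖ := norm_sub_rev _ _
    rw [norm_one, sub_sub_cancel, h4] at h3
    linarith
  refine le_trans ?_ h2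
  have h0 := norm_nonneg z
  -- exp (-2x) ≤ 1 - x on [0, 1/2]
  have h5 : Real.exp (-(2 * ‖z‖)) * Real.exp (2 * ‖z‖) = 1 := by
    rw [← Real.exp_add]; simp
  have h6 : 1 + 2 * ‖z‖ ≤ Real.exp (2 * ‖z‖) := by
    have := Real.add_one_le_exp (2 * ‖z‖)
    linarith
  have h7 : 0 < Real.exp (-(2 * ‖z‖)) := Real.exp_pos _
  have h8 : Real.exp (-(2 * ‖z‖)) * (1 + 2 * ‖z‖) ≤ 1 := by
    calc Real.exp (-(2 * ‖z‖)) * (1 + 2 * ‖z‖) ≤ Real.exp (-(2 * ‖z‖)) * Real.exp (2 * ‖z‖) :=
          mul_le_mul_of_nonneg_left h6 h7.le
      _ = 1 := h5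
  have h9 : 1 ≤ (1 - ‖z‖) * (1 + 2 * ‖z‖) := by nlinarith
  have h10 : 0 < 1 + 2 * ‖z‖ := by linarith
  have h11 : Real.exp (-(2 * ‖z‖)) * (1 + 2 * ‖z‖) ≤ (1 - ‖z‖) * (1 + 2 * ‖z‖) := h8.trans h9
  exact le_of_mul_le_mul_right h11 h10

/-- Complex kernels. -/
structure Kf (f : ℝ → ℂ) (L V : ℝ) (W : ℂ → ℂ) : Prop where
  int : Integrable f
  supp : ∀ v, v ∉ Icc 0 L → f v = 0
  norm : ∫ v, ‖f v‖ ≤ V
  tr : ∀ s : ℂ, ∫ v, f v * Complex.exp (s * v) = W s

lemma Kf.int_exp {f : ℝ → ℂ} {L V : ℝ} {W : ℂ → ℂ} (h : Kf f L V W) (s : ℂ) :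
    Integrable (fun v : ℝ => f v * Complex.exp (s * v)) := by
  have h1 : (fun v : ℝ => f v * Complex.exp (s * v)) =
      fun v => f v * (Icc 0 L).indicator (fun v : ℝ => Complex.exp (s * v)) v := by
    funext v
    by_cases hv : v ∈ Icc 0 L
    · rw [indicator_of_mem hv]
    · rw [h.supp v hv, zero_mul, zero_mul]
  rw [h1]
  obtain ⟨C, hC⟩ := (isCompact_Icc (a := (0:ℝ)) (b := L)).exists_bound_of_continuousOn
    (f := fun v : ℝ => Complex.exp (s * v)) (by fun_prop)
  refine h.int.mul_bdd (c := max C 0) ?_ ?_
  · apply AEStronglyMeasurable.indicator _ measurableSet_Icc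
    exact (by fun_prop : Continuous (fun v : ℝ => Complex.exp (s * v))).aestronglyMeasurable
  · refine Eventually.of_forall fun v => ?_
    by_cases hv : v ∈ Icc 0 L
    · rw [indicator_of_mem hv]; exact (hC v hv).trans (le_max_left _ _)
    · rw [indicator_of_notMem hv, norm_zero]; exact le_max_right _ _

/-- base kernel -/
lemma Kf.base {ℓ : ℝ} (hℓ : 0 ≤ ℓ) :
    Kf ((Icc 0 ℓ).indicator (fun _ => (1:ℂ))) ℓ ℓ (fun s => ℓ * phi (s * ℓ)) where
  int := by
    rw [integrable_indicator_iff measurableSet_Icc]
    exact integrableOn_const (by simp) (by simp)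
  supp := fun v hv => indicator_of_notMem hv _
  norm := by
    have h1 : (fun v => ‖(Icc 0 ℓ).indicator (fun _ => (1:ℂ)) v‖) =
        (Icc 0 ℓ).indicator (fun _ => (1:ℝ)) := by
      funext v
      rw [norm_indicator_eq_indicator_norm]
      simp
    rw [h1, integral_indicator measurableSet_Icc]
    simp [hℓ]
  tr := by
    intro s
    have h1 : (fun v : ℝ => (Icc 0 ℓ).indicator (fun _ => (1:ℂ)) v * Complex.exp (s * v)) =
        (Icc 0 ℓ).indicator (fun v : ℝ => Complex.exp (s * v)) := by
      funext v
      by_cases hv : v ∈ Icc 0 ℓ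
      · rw [indicator_of_mem hv, indicator_of_mem hv, one_mul]
      · rw [indicator_of_notMem hv, indicator_of_notMem hv, zero_mul]
    rw [h1, integral_indicator measurableSet_Icc, integral_Icc_eq_integral_Ioc,
      ← intervalIntegral.integral_of_le hℓ, integral_exp_eq_phi]

/-- translation -/
lemma Kf.dif {f : ℝ → ℂ} {L V : ℝ} {W : ℂ → ℂ} (H : Kf f L V W) {h : ℝ} (hh : 0 ≤ h) (c : ℂ) :
    Kf (fun v => f (v - h) - c * f v) (L + h) (V * (1 + ‖c‖))
      (fun s => W s * (Complex.exp (s * h) - c)) where
  int := (H.int.comp_sub_right h).sub (H.int.const_mul c)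
  supp := by
    intro v hv
    have h1 : v - h ∉ Icc 0 L := by
      intro h2; apply hv
      exact ⟨by linarith [h2.1], by linarith [h2.2]⟩
    have h2 : v ∉ Icc 0 L := by
      intro h2; apply hv
      exact ⟨h2.1, by linarith [h2.2]⟩
    rw [H.supp _ h1, H.supp _ h2]
    simp
  norm := by
    calc ∫ v, ‖f (v - h) - c * f v‖ ≤ ∫ v, (‖f (v - h)‖ + ‖c‖ * ‖f v‖) := by
          apply integral_mono
          · exact ((H.int.comp_sub_right h).sub (H.int.const_mul c)).norm
          · exact (H.int.comp_sub_right h).norm.add (H.int.norm.const_mul _)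
          · intro v
            exact (norm_sub_le _ _).trans (by rw [norm_mul])
      _ = (∫ v, ‖f v‖) + ‖c‖ * ∫ v, ‖f v‖ := by
          rw [integral_add (H.int.comp_sub_right h).norm (H.int.norm.const_mul _),
            integral_const_mul, integral_sub_right_eq_self (fun v => ‖f v‖) h]
      _ ≤ V * (1 + ‖c‖) := by
          have := H.norm
          have := norm_nonneg c
          nlinarith
  tr := by
    intro s
    have h1 : ∀ v : ℝ, (f (v - h) - c * f v) * Complex.exp (s * v) =
        Complex.exp (s * h) * (f (v - h) * Complex.exp (s * ((v - h : ℝ) : ℂ))) -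
          c * (f v * Complex.exp (s * v)) := by
      intro v
      have : Complex.exp (s * v) = Complex.exp (s * h) * Complex.exp (s * ((v - h : ℝ) : ℂ)) := by
        rw [← Complex.exp_add]
        congr 1
        push_cast
        ring
      rw [sub_mul, this]
      ring
    simp only [h1]
    rw [integral_sub, integral_const_mul, integral_const_mul,
      integral_sub_right_eq_self (fun v : ℝ => f v * Complex.exp (s * v)) h, H.tr]
    · ring
    · exact ((H.int_exp s).comp_sub_right h).const_mul _
    · exact (H.int_exp s).const_mul _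

/-- the average of `f` over `[v - a, v]` -/
noncomputable def avg (a : ℝ) (f : ℝ → ℂ) (v : ℝ) : ℂ := (1 / a : ℝ) * ∫ r in (0:ℝ)..a, f (v - r)

lemma avg_eq (a : ℝ) (f : ℝ → ℂ) (v : ℝ) :
    avg a f v = (1 / a : ℝ) * ∫ r in (v - a)..v, f r := by
  unfold avg
  rw [intervalIntegral.integral_comp_sub_left]
  simp

lemma avg_continuous {a : ℝ} {f : ℝ → ℂ} (hf : Integrable f) : Continuous (avg a f) := by
  have h : avg a f = fun v => (1 / a : ℝ) * ((∫ r in (0:ℝ)..v, f r) - ∫ r in (0:ℝ)..(v - a), f r) := by
    funext v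
    rw [avg_eq, intervalIntegral.integral_interval_sub_left (hf.intervalIntegrable)
      (hf.intervalIntegrable)]
  rw [h]
  have h1 := intervalIntegral.continuous_primitive (fun a b => hf.intervalIntegrable) 0
    (f := f) (μ := volume)
  exact continuous_const.mul (h1.sub (h1.comp (by fun_prop)))

/-- averaging -/
lemma Kf.avg {f : ℝ → ℂ} {L V : ℝ} {W : ℂ → ℂ} (H : Kf f L V W) {a : ℝ} (ha : 0 < a) :
    Kf (avg a f) (L + a) V (fun s => W s * phi (s * a)) := by
  -- joint integrability
  have key : ∀ s : ℂ, Integrable (fun p : ℝ × ℝ => f (p.1 - p.2) * Complex.exp (s * p.1))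
      (volume.prod (volume.restrict (Ioc 0 a))) := by
    intro s
    have h1 : Integrable (fun p : ℝ × ℝ => (f p.1 * Complex.exp (s * p.1)) *
        Complex.exp (s * p.2)) (volume.prod (volume.restrict (Ioc 0 a))) := by
      have h0 : Integrable (fun r : ℝ => Complex.exp (s * r)) (volume.restrict (Ioc 0 a)) := by
        rw [← IntegrableOn, ← intervalIntegrable_iff_integrableOn_Ioc_of_le ha.le]
        exact (by fun_prop : Continuous (fun v : ℝ => Complex.exp (s * v))).intervalIntegrable _ _
      exact Integrable.mul_prod (f := fun v : ℝ => f v * Complex.exp (s * v))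
        (g := fun r : ℝ => Complex.exp (s * r)) (H.int_exp s) h0
    -- shear
    have hmp : MeasurePreserving (fun p : ℝ × ℝ => (p.1 - p.2, p.2))
        (volume.prod (volume.restrict (Ioc 0 a))) (volume.prod (volume.restrict (Ioc 0 a))) := by
      have h2 : MeasurePreserving (fun p : ℝ × ℝ => (p.1, p.2 - p.1))
          ((volume.restrict (Ioc 0 a)).prod volume) ((volume.restrict (Ioc 0 a)).prod volume) := by
        exact (MeasurePreserving.id (volume.restrict (Ioc (0:ℝ) a))).skew_product
          (g := fun x y : ℝ => y - x) (by unfold Function.uncurry; fun_prop)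
          (Eventually.of_forall fun x => (measurePreserving_sub_right volume x).map_eq)
      have h3 := (Measure.measurePreserving_swap (μ := volume.restrict (Ioc (0:ℝ) a))
        (ν := (volume : Measure ℝ))).comp (h2.comp (Measure.measurePreserving_swap
          (μ := (volume : Measure ℝ)) (ν := volume.restrict (Ioc (0:ℝ) a))))
      exact h3
    have h4 := hmp.integrable_comp_of_integrable h1
    refine h4.congr (Eventually.of_forall fun p => ?_)
    simp only [Function.comp]
    rw [mul_assoc, ← Complex.exp_add]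
    congr 2
    push_cast
    ring
  have key0 : Integrable (fun p : ℝ × ℝ => f (p.1 - p.2))
      (volume.prod (volume.restrict (Ioc 0 a))) := by
    have := key 0
    simpa using this
  have havg : ∀ v, Win.avg a f v = (1 / a : ℝ) * ∫ r in Ioc 0 a, f (v - r) := by
    intro v
    unfold Win.avg
    rw [intervalIntegral.integral_of_le ha.le]
  refine ⟨?_, ?_, ?_, ?_⟩
  · have h1 := key0.integral_prod_left.const_mul ((1 / a : ℝ) : ℂ)
    refine h1.congr (Eventually.of_forall fun v => ?_)
    simp only
    rw [havg]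
  · intro v hv
    rw [havg]
    have : ∫ r in Ioc 0 a, f (v - r) = 0 := by
      apply setIntegral_eq_zero_of_forall_eq_zero
      intro r hr
      apply H.supp
      intro h2
      apply hv
      exact ⟨by linarith [h2.1, hr.1], by linarith [h2.2, hr.2]⟩
    rw [this, mul_zero]
  · have hn : Integrable (fun p : ℝ × ℝ => ‖f (p.1 - p.2)‖)
        (volume.prod (volume.restrict (Ioc 0 a))) := key0.norm
    calc ∫ v, ‖Win.avg a f v‖ ≤ ∫ v, (1 / a) * ∫ r in Ioc 0 a, ‖f (v - r)‖ := by
          apply integral_mono
          · have h1 := key0.integral_prod_left.const_mul ((1 / a : ℝ) : ℂ)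
            refine (h1.congr (Eventually.of_forall fun v => ?_)).norm
            simp only
            rw [havg]
          · exact hn.integral_prod_left.const_mul _
          · intro v
            dsimp only
            rw [havg, norm_mul, Complex.norm_real, Real.norm_eq_abs, abs_of_pos (by positivity)]
            gcongr
            exact norm_integral_le_integral_norm _
      _ = (1 / a) * ∫ v, ∫ r in Ioc 0 a, ‖f (v - r)‖ := integral_const_mul _ _
      _ = (1 / a) * ∫ r in Ioc 0 a, ∫ v, ‖f (v - r)‖ := by
          rw [integral_integral_swap]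
          exact hn
      _ = ∫ v, ‖f v‖ := by
          have : ∀ r : ℝ, ∫ v, ‖f (v - r)‖ = ∫ v, ‖f v‖ := fun r =>
            integral_sub_right_eq_self (fun v => ‖f v‖) r
          simp only [this]
          rw [setIntegral_const]
          simp only [measureReal_def, Real.volume_Ioc, sub_zero, smul_eq_mul]
          rw [ENNReal.toReal_ofReal ha.le]
          field_simp
      _ ≤ V := H.norm
  · intro s
    calc ∫ v, Win.avg a f v * Complex.exp (s * v)
        = ∫ v, (1 / a : ℝ) * ∫ r in Ioc 0 a, f (v - r) * Complex.exp (s * v) := by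
          apply integral_congr_ae
          refine Eventually.of_forall fun v => ?_
          dsimp only
          rw [havg, integral_mul_const, mul_assoc]
      _ = (1 / a : ℝ) * ∫ v, ∫ r in Ioc 0 a, f (v - r) * Complex.exp (s * v) :=
          integral_const_mul _ _
      _ = (1 / a : ℝ) * ∫ r in Ioc 0 a, ∫ v, f (v - r) * Complex.exp (s * v) := by
          rw [integral_integral_swap]
          exact key s
      _ = (1 / a : ℝ) * ∫ r in Ioc 0 a, W s * Complex.exp (s * r) := by
          congr 1
          apply integral_congr_ae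
          refine Eventually.of_forall fun r => ?_
          dsimp only
          have h1 : ∀ v : ℝ, f (v - r) * Complex.exp (s * v) =
              Complex.exp (s * r) * (f (v - r) * Complex.exp (s * ((v - r : ℝ) : ℂ))) := by
            intro v
            have : Complex.exp (s * v) =
                Complex.exp (s * r) * Complex.exp (s * ((v - r : ℝ) : ℂ)) := by
              rw [← Complex.exp_add]
              congr 1
              push_cast
              ring
            rw [this]
            ring
          simp only [h1]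
          rw [integral_const_mul,
            integral_sub_right_eq_self (fun v : ℝ => f v * Complex.exp (s * v)) r, H.tr, mul_comm]
      _ = W s * phi (s * a) := by
          rw [integral_const_mul, ← intervalIntegral.integral_of_le ha.le, integral_exp_eq_phi]
          push_cast
          have : (a:ℂ) ≠ 0 := by exact_mod_cast ha.ne'
          field_simp

end Pool.Agent.H6.Win
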