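import Pool.Agent.H6.Win.Kern

/-!
# Iterated kernels
-/

set_option autoImplicit false

open Complex Filter Topology MeasureTheory Set Metric

namespace Pool.Agent.H6.Win

/-- Nonnegative real kernels, at least `p` on `[A, B]`. -/
structure Kr (g : ℝ → ℝ) (L V A B p : ℝ) (W : ℂ → ℂ) : Prop where
  kf : Kf (fun v => (g v : ℂ)) L V W
  nonneg : ∀ v, 0 ≤ g v
  lower : ∀ v ∈ Icc A B, p ≤ g v

lemma Kf.congr {f f' : ℝ → ℂ} {L L' V V' : ℝ} {W W' : ℂ → ℂ} (H : Kf f L V W)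
    (hf : ∀ v, f' v = f v) (hL : L = L') (hV : V = V') (hW : ∀ s, W s = W' s) :
    Kf f' L' V' W' := by
  have h1 : f' = f := funext hf
  have h2 : W = W' := funext hW
  subst h1; subst hL; subst hV; subst h2
  exact H

lemma Kr.base {ℓ : ℝ} (hℓ : 0 ≤ ℓ) :
    Kr ((Icc 0 ℓ).indicator (fun _ => (1:ℝ))) ℓ ℓ 0 ℓ 1 (fun s => ℓ * phi (s * ℓ)) where
  kf := by
    refine (Kf.base hℓ).congr (fun v => ?_) rfl rfl (fun s => rfl)
    by_cases hv : v ∈ Icc 0 ℓ
    · rw [indicator_of_mem hv, indicator_of_mem hv]; simp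
    · rw [indicator_of_notMem hv, indicator_of_notMem hv]; simp
  nonneg := fun v => indicator_nonneg (fun _ _ => zero_le_one) v
  lower := fun v hv => by rw [indicator_of_mem hv]

lemma Kr.dif {g : ℝ → ℝ} {L V A B p : ℝ} {W : ℂ → ℂ} (H : Kr g L V A B p W) {h k : ℝ}
    (hh : 0 ≤ h) (hk : 0 ≤ k) :
    Kr (fun v => g (v - h) + k * g v) (L + h) (V * (1 + k)) A B (p * k)
      (fun s => W s * (Complex.exp (s * h) + k)) where
  kf := by
    refine (H.kf.dif hh (-(k:ℂ))).congr (fun v => ?_) rfl ?_ (fun s => ?_)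
    · push_cast
      ring
    · rw [norm_neg, Complex.norm_real, Real.norm_eq_abs, abs_of_nonneg hk]
    · ring
  nonneg := fun v => by
    have := H.nonneg (v - h)
    have := H.nonneg v
    positivity
  lower := fun v hv => by
    have h1 := H.nonneg (v - h)
    have h2 := H.lower v hv
    nlinarith

noncomputable def avgR (a : ℝ) (g : ℝ → ℝ) (v : ℝ) : ℝ := (1 / a) * ∫ r in (0:ℝ)..a, g (v - r)

lemma avg_ofReal (a : ℝ) (g : ℝ → ℝ) (v : ℝ) :
    avg a (fun v => (g v : ℂ)) v = (avgR a g v : ℂ) := by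
  unfold avg avgR
  rw [intervalIntegral.integral_ofReal]
  push_cast
  ring

lemma Kf.integrable_real {g : ℝ → ℝ} {L V : ℝ} {W : ℂ → ℂ} (H : Kf (fun v => (g v : ℂ)) L V W) :
    Integrable g := by
  have := H.int.re
  simpa using this

lemma Kr.avg {g : ℝ → ℝ} {L V A B p : ℝ} {W : ℂ → ℂ} (H : Kr g L V A B p W) {a : ℝ}
    (ha : 0 < a) :
    Kr (avgR a g) (L + a) V (A + a) B p (fun s => W s * phi (s * a)) where
  kf := (H.kf.avg ha).congr (fun v => (avg_ofReal a g v).symm) rfl rfl (fun s => rfl)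
  nonneg := fun v => by
    unfold avgR
    apply mul_nonneg (by positivity)
    apply intervalIntegral.integral_nonneg ha.le
    intro r _
    exact H.nonneg _
  lower := fun v hv => by
    unfold avgR
    have h1 : ∫ _r in (0:ℝ)..a, p ≤ ∫ r in (0:ℝ)..a, g (v - r) := by
      apply intervalIntegral.integral_mono_on ha.le
      · exact intervalIntegrable_const
      · exact (H.kf.integrable_real.comp_sub_left v).intervalIntegrable
      · intro r hr
        apply H.lower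
        exact ⟨by linarith [hv.1, hr.2], by linarith [hv.2, hr.1]⟩
    rw [intervalIntegral.integral_const, sub_zero, smul_eq_mul] at h1
    calc p = (1 / a) * (a * p) := by field_simp
      _ ≤ _ := by gcongr

theorem exists_kf_avg {ℓ b : ℝ} (hℓ : 0 ≤ ℓ) (hb : 0 < b) (m : ℕ) :
    ∃ f : ℝ → ℂ, Kf f (ℓ + m * b) ℓ (fun s => ℓ * phi (s * ℓ) * phi (s * b) ^ m) := by
  induction m with
  | zero => exact ⟨_, (Kf.base hℓ).congr (fun v => rfl) (by simp) rfl (fun s => by simp)⟩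
  | succ m ih =>
    obtain ⟨f, hf⟩ := ih
    exact ⟨_, (hf.avg hb).congr (fun v => rfl) (by push_cast; ring) rfl
      (fun s => by rw [pow_succ]; ring)⟩

/-- **Complex kernels with prescribed zeros.** -/
theorem exists_kf {ℓ b : ℝ} (hℓ : 0 ≤ ℓ) (hb : 0 < b) (m : ℕ) (h : ℂ → ℝ) (c : ℂ → ℂ)
    (Z : Finset ℂ) (hh : ∀ z ∈ Z, 0 ≤ h z) :
    ∃ f : ℝ → ℂ, Kf f (ℓ + m * b + ∑ z ∈ Z, h z) (ℓ * ∏ z ∈ Z, (1 + ‖c z‖))
      (fun s => ℓ * phi (s * ℓ) * phi (s * b) ^ m * ∏ z ∈ Z, (Complex.exp (s * h z) - c z)) := by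
  classical
  induction Z using Finset.induction_on with
  | empty =>
    obtain ⟨f, hf⟩ := exists_kf_avg hℓ hb m
    exact ⟨f, hf.congr (fun v => rfl) (by simp) (by simp) (fun s => by simp)⟩
  | insert a Z ha ih =>
    obtain ⟨f, hf⟩ := ih (fun z hz => hh z (Finset.mem_insert_of_mem hz))
    refine ⟨_, (hf.dif (hh a (Finset.mem_insert_self _ _)) (c a)).congr (fun v => rfl) ?_ ?_
      (fun s => ?_)⟩
    · rw [Finset.sum_insert ha]; ring
    · rw [Finset.prod_insert ha]; ring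
    · rw [Finset.prod_insert ha]; ring

theorem exists_kr_avg {ℓ b : ℝ} (hℓ : 0 ≤ ℓ) (hb : 0 < b) (m : ℕ) :
    ∃ g : ℝ → ℝ, Kr g (ℓ + m * b) ℓ (m * b) ℓ 1
      (fun s => ℓ * phi (s * ℓ) * phi (s * b) ^ m) := by
  induction m with
  | zero =>
    refine ⟨_, (Kr.base hℓ).kf.congr (fun v => rfl) (by simp) rfl (fun s => by simp),
      (Kr.base hℓ).nonneg, fun v hv => (Kr.base hℓ).lower v ?_⟩
    simpa using hv
  | succ m ih =>
    obtain ⟨g, hg⟩ := ih
    have h1 := hg.avg hb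
    refine ⟨_, h1.kf.congr (fun v => rfl) (by push_cast; ring) rfl
      (fun s => by rw [pow_succ]; ring), h1.nonneg, fun v hv => h1.lower v ?_⟩
    push_cast at hv
    rw [show (m:ℝ) * b + b = (m + 1) * b by ring]
    exact hv

/-- **Nonnegative kernels with prescribed zeros.** -/
theorem exists_kr {ℓ b : ℝ} (hℓ : 0 ≤ ℓ) (hb : 0 < b) (m : ℕ) (h k : ℂ → ℝ)
    (Z : Finset ℂ) (hh : ∀ z ∈ Z, 0 ≤ h z) (hk : ∀ z ∈ Z, 0 ≤ k z) :
    ∃ g : ℝ → ℝ, Kr g (ℓ + m * b + ∑ z ∈ Z, h z) (ℓ * ∏ z ∈ Z, (1 + k z)) (m * b) ℓ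
      (∏ z ∈ Z, k z)
      (fun s => ℓ * phi (s * ℓ) * phi (s * b) ^ m * ∏ z ∈ Z, (Complex.exp (s * h z) + k z)) := by
  classical
  induction Z using Finset.induction_on with
  | empty =>
    obtain ⟨g, hg⟩ := exists_kr_avg hℓ hb m
    exact ⟨g, hg.kf.congr (fun v => rfl) (by simp) (by simp) (fun s => by simp), hg.nonneg,
      fun v hv => by simpa using hg.lower v hv⟩
  | insert a Z ha ih =>
    obtain ⟨g, hg⟩ := ih (fun z hz => hh z (Finset.mem_insert_of_mem hz))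
      (fun z hz => hk z (Finset.mem_insert_of_mem hz))
    have h1 := hg.dif (hh a (Finset.mem_insert_self _ _)) (hk a (Finset.mem_insert_self _ _))
    refine ⟨_, h1.kf.congr (fun v => rfl) ?_ ?_ (fun s => ?_), h1.nonneg, fun v hv => ?_⟩
    · rw [Finset.sum_insert ha]; ring
    · rw [Finset.prod_insert ha]; ring
    · rw [Finset.prod_insert ha]; ring
    · have := h1.lower v hv
      rw [Finset.prod_insert ha]
      linarith

end Pool.Agent.H6.Win
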