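import Pool.Agent.H6.Win.Kern2

/-!
# Averaged kernels and increments of `ψ(x) - x`
-/

set_option autoImplicit false

open Complex Filter Topology MeasureTheory Set Metric

namespace Pool.Agent.H6.Win

/-- increment of `ψ(x) - x` -/
noncomputable def incr (x y : ℝ) : ℝ := Chebyshev.psi y - Chebyshev.psi x - (y - x)

/-- the increment over `[e^(u+r), e^(u+r+a)]` -/
noncomputable def inc (u a r : ℝ) : ℝ := incr (Real.exp (u + r)) (Real.exp (u + r + a))

variable {f : ℝ → ℂ} {L V : ℝ} {W : ℂ → ℂ}

open ArithmeticFunction in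
lemma psi_diff (u a r : ℝ) (ha : 0 < a) {M : ℕ} (hM : Real.exp (u + r + a) ≤ M) :
    (∑ n ∈ Finset.Ioc 0 M, (vonMangoldt n : ℂ) *
      (Ico (Real.log n - u - a) (Real.log n - u)).indicator (fun _ => (1:ℂ)) r) =
      ((Chebyshev.psi (Real.exp (u + r + a)) - Chebyshev.psi (Real.exp (u + r)) : ℝ) : ℂ) := by
  have hp1 : 0 ≤ Real.exp (u + r) := (Real.exp_pos _).le
  have hp2 : 0 ≤ Real.exp (u + r + a) := (Real.exp_pos _).le
  have hlt : Real.exp (u + r) ≤ Real.exp (u + r + a) := Real.exp_le_exp.2 (by linarith)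
  set m1 := ⌊Real.exp (u + r)⌋₊ with hm1
  set m2 := ⌊Real.exp (u + r + a)⌋₊ with hm2
  have hm12 : m1 ≤ m2 := Nat.floor_le_floor hlt
  have h1 : ∀ n ∈ Finset.Ioc 0 M, ((vonMangoldt n : ℂ) *
      (Ico (Real.log n - u - a) (Real.log n - u)).indicator (fun _ => (1:ℂ)) r) =
      if n ∈ Finset.Ioc m1 m2 then (vonMangoldt n : ℂ) else 0 := by
    intro n hn
    rw [Finset.mem_Ioc] at hn
    have hn0 : (0:ℝ) < n := by exact_mod_cast hn.1
    have hiff : r ∈ Ico (Real.log n - u - a) (Real.log n - u) ↔ n ∈ Finset.Ioc m1 m2 := by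
      rw [mem_Ico, Finset.mem_Ioc, hm1, hm2, Nat.floor_lt hp1, Nat.le_floor_iff hp2,
        ← Real.lt_log_iff_exp_lt hn0, ← Real.log_le_iff_le_exp hn0]
      constructor
      · rintro ⟨a1, a2⟩; exact ⟨by linarith, by linarith⟩
      · rintro ⟨a1, a2⟩; exact ⟨by linarith, by linarith⟩
    by_cases h : n ∈ Finset.Ioc m1 m2
    · rw [if_pos h, indicator_of_mem (hiff.2 h), mul_one]
    · rw [if_neg h, indicator_of_notMem (fun h' => h (hiff.1 h')), mul_zero]
  rw [Finset.sum_congr rfl h1, ← Finset.sum_filter]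
  have h2 : (Finset.Ioc 0 M).filter (fun n => n ∈ Finset.Ioc m1 m2) = Finset.Ioc m1 m2 := by
    ext n
    rw [Finset.mem_filter, Finset.mem_Ioc, Finset.mem_Ioc]
    constructor
    · exact fun h => h.2
    · intro h
      have : m2 ≤ M := Nat.floor_le_of_le hM
      exact ⟨⟨by omega, by omega⟩, h⟩
  rw [h2, Chebyshev.psi, Chebyshev.psi, ← hm1, ← hm2]
  have h3 := Finset.sum_Ioc_consecutive (fun n => vonMangoldt n) (Nat.zero_le m1) hm12
  rw [← h3]
  push_cast
  ring

lemma avg_eq_indicator {f : ℝ → ℂ} {a : ℝ} (ha : 0 < a) (v : ℝ) :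
    avg a f v = (1 / a : ℝ) * ∫ r, f r * (Ico (v - a) v).indicator (fun _ => (1:ℂ)) r := by
  rw [avg_eq, intervalIntegral.integral_of_le (by linarith), ← integral_Ico_eq_integral_Ioc,
    ← integral_indicator measurableSet_Ico]
  congr 1
  apply integral_congr_ae
  refine Eventually.of_forall fun r => ?_
  dsimp only
  by_cases h : r ∈ Ico (v - a) v
  · rw [indicator_of_mem h, indicator_of_mem h, mul_one]
  · rw [indicator_of_notMem h, indicator_of_notMem h, mul_zero]

open ArithmeticFunction in
/-- **Averaged kernels and increments of `ψ(x) - x`.** -/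
theorem Kf.psi_avg (H : Kf f L V W) {a : ℝ} (ha : 0 < a) (u : ℝ) :
    Integrable (fun r => f r * (inc u a r : ℂ)) ∧
    (∑' n : ℕ, (vonMangoldt n : ℂ) * Win.avg a f (Real.log n - u)) - cexp u * (W 1 * phi (1 * a)) =
      (1 / a : ℝ) * ∫ r, f r * (inc u a r : ℂ) := by
  set M : ℕ := ⌈Real.exp (u + L + a)⌉₊ with hM
  have hMle : Real.exp (u + L + a) ≤ M := Nat.le_ceil _
  have hsupp := (H.avg ha).supp
  -- the sum is finite
  have hfin : (∑' n : ℕ, (vonMangoldt n : ℂ) * Win.avg a f (Real.log n - u)) =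
      ∑ n ∈ Finset.Ioc 0 M, (vonMangoldt n : ℂ) * Win.avg a f (Real.log n - u) := by
    apply tsum_eq_sum
    intro n hn
    rcases Nat.eq_zero_or_pos n with rfl | hpos
    · simp
    · rw [Finset.mem_Ioc, not_and, not_le] at hn
      have hMn := hn hpos
      have h1 : Real.exp (u + L + a) < n := lt_of_le_of_lt hMle (by exact_mod_cast hMn)
      have h2 : u + L + a < Real.log n := by
        rwa [Real.lt_log_iff_exp_lt (by exact_mod_cast hpos)]
      have h3 : Win.avg a f (Real.log n - u) = 0 := hsupp _ (fun h => by linarith [h.2])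
      rw [h3, mul_zero]
  -- the integrand
  set g : ℕ → ℝ → ℂ := fun n r => (vonMangoldt n : ℂ) *
    (f r * (Ico (Real.log n - u - a) (Real.log n - u)).indicator (fun _ => (1:ℂ)) r) with hg
  have hgi : ∀ n, Integrable (g n) := by
    intro n
    apply Integrable.const_mul
    have h1 := H.int.indicator (measurableSet_Ico (a := Real.log n - u - a) (b := Real.log n - u))
    refine h1.congr (Eventually.of_forall fun r => ?_)
    dsimp only
    by_cases h : r ∈ Ico (Real.log n - u - a) (Real.log n - u)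
    · rw [indicator_of_mem h, indicator_of_mem h, mul_one]
    · rw [indicator_of_notMem h, indicator_of_notMem h, mul_zero]
  set e : ℝ → ℂ := fun r => (cexp u * (a * phi (1 * a))) * (f r * cexp (1 * r)) with he
  have hei : Integrable e := (H.int_exp 1).const_mul _
  have hpt : ∀ r, f r * (inc u a r : ℂ) = (∑ n ∈ Finset.Ioc 0 M, g n r) - e r := by
    intro r
    by_cases hr : r ∈ Icc 0 L
    · have h1 := psi_diff u a r ha (M := M) (by
        refine le_trans (Real.exp_le_exp.2 ?_) hMle
        linarith [hr.2])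
      have h2 : ∑ n ∈ Finset.Ioc 0 M, g n r = f r *
          ((Chebyshev.psi (Real.exp (u + r + a)) - Chebyshev.psi (Real.exp (u + r)) : ℝ) : ℂ) := by
        rw [← h1, Finset.mul_sum]
        refine Finset.sum_congr rfl fun n _ => ?_
        simp only [hg]
        ring
      rw [h2]
      simp only [he, inc, incr]
      have h3 := mul_phi (1 * (a:ℂ))
      rw [one_mul] at h3
      have h4 : (a:ℂ) * phi (1 * a) = cexp a - 1 := by rw [one_mul]; exact h3
      rw [h4]
      push_cast
      rw [Complex.exp_add, Complex.exp_add, one_mul]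
      ring
    · have h0 := H.supp r hr
      simp only [hg, he, h0]
      simp
  have hint : Integrable (fun r => f r * (inc u a r : ℂ)) := by
    have h1 : Integrable (fun r => (∑ n ∈ Finset.Ioc 0 M, g n r) - e r) :=
      (integrable_finsetSum _ fun n _ => hgi n).sub hei
    exact h1.congr (Eventually.of_forall fun r => (hpt r).symm)
  refine ⟨hint, ?_⟩
  rw [hfin, integral_congr_ae (Eventually.of_forall hpt), integral_sub
    (integrable_finsetSum _ fun n _ => hgi n) hei, integral_finsetSum _ fun n _ => hgi n, mul_sub]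
  congr 1
  · rw [Finset.mul_sum]
    refine Finset.sum_congr rfl fun n _ => ?_
    simp only [hg]
    rw [avg_eq_indicator ha, integral_const_mul]
    ring
  · simp only [he]
    rw [integral_const_mul, H.tr]
    have : (a:ℂ) ≠ 0 := by exact_mod_cast ha.ne'
    push_cast
    field_simp

end Pool.Agent.H6.Win
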