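import Pool.Agent.H6.Win.Shift
import Pool.Agent.H6.Win.PsiAvg

/-!
# The master inequality for compactly supported kernels
-/

set_option autoImplicit false

open Complex Filter Topology MeasureTheory Set Metric

namespace Pool.Agent.H6.Win

open Pool.Agent.H6

/-- The transform of the kernels. -/
noncomputable def wf (ℓ b : ℝ) (m : ℕ) (P : ℂ → ℂ) (s : ℂ) : ℂ :=
  ℓ * phi (s * ℓ) * phi (s * b) ^ m * P s

/-- The height. -/
noncomputable def hgt (b : ℝ) : ℝ := Real.exp 6 * 9 / b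

lemma hgt_ge_one {b : ℝ} (hb : 0 < b) (hb1 : b ≤ 1) : 1 ≤ hgt b := by
  unfold hgt
  rw [le_div_iff₀ hb]
  have := Real.add_one_le_exp (6:ℝ)
  nlinarith

lemma norm_phi_mul_le {s : ℂ} {x : ℝ} (hx : 0 ≤ x) (h0 : 0 ≤ s.re) (h2 : s.re ≤ 2) :
    ‖phi (s * x)‖ ≤ Real.exp (2 * x) := by
  have h1 : (s * x).re = s.re * x := by simp
  refine (norm_phi_le (by rw [h1]; positivity)).trans ?_
  rw [h1]
  apply Real.exp_le_exp.2
  gcongr

lemma norm_phi_pow_le {s : ℂ} {b : ℝ} (hb : 0 < b) (hb1 : b ≤ 1) {m : ℕ} (hm : 2 ≤ m)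
    (_h0 : 0 ≤ s.re) (h2 : s.re ≤ 2) (him : hgt b ≤ |s.im|) :
    ‖phi (s * b)‖ ^ m ≤ Real.exp (-(6 * m)) * (hgt b / |s.im|) ^ 2 := by
  have hh := hgt_ge_one hb hb1
  have hi0 : 0 < |s.im| := by linarith
  have hs0 : s ≠ 0 := by
    intro h; rw [h] at hi0; simp at hi0
  have hbc : (b:ℂ) ≠ 0 := by exact_mod_cast hb.ne'
  have h1 := norm_phi_le_div (z := s * b) (mul_ne_zero hs0 hbc)
  have hre : (s * b).re = s.re * b := by simp
  have hnorm : ‖s * b‖ = ‖s‖ * b := by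
    rw [norm_mul, Complex.norm_real, Real.norm_eq_abs, abs_of_pos hb]
  rw [hre, hnorm] at h1
  have he : 1 + Real.exp (s.re * b) ≤ 9 := by
    have h3 : Real.exp (s.re * b) ≤ Real.exp 2 := by
      apply Real.exp_le_exp.2; nlinarith
    have h4 : Real.exp 2 ≤ 8 := by
      have h5 := Real.exp_one_lt_d9
      have h6 : Real.exp 2 = Real.exp 1 * Real.exp 1 := by
        rw [← Real.exp_add]; norm_num
      rw [h6]
      have := Real.exp_pos 1
      nlinarith
    linarith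
  have h7 : ‖phi (s * b)‖ ≤ Real.exp (-6) * (hgt b / |s.im|) := by
    calc ‖phi (s * b)‖ ≤ (1 + Real.exp (s.re * b)) / (‖s‖ * b) := h1
      _ ≤ 9 / (|s.im| * b) := by
          have := Complex.abs_im_le_norm s
          gcongr
      _ = Real.exp (-6) * (hgt b / |s.im|) := by
          unfold hgt
          rw [Real.exp_neg]
          field_simp
  have h8 : hgt b / |s.im| ≤ 1 := by
    rw [div_le_one hi0]; exact him
  have h9 : 0 ≤ hgt b / |s.im| := by positivity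
  calc ‖phi (s * b)‖ ^ m ≤ (Real.exp (-6) * (hgt b / |s.im|)) ^ m := by gcongr
    _ = Real.exp (-(6 * m)) * (hgt b / |s.im|) ^ m := by
        rw [mul_pow, ← Real.exp_nat_mul]
        congr 2
        ring
    _ ≤ Real.exp (-(6 * m)) * (hgt b / |s.im|) ^ 2 := by
        have := pow_le_pow_of_le_one h9 h8 hm
        gcongr

lemma norm_wf_le {ℓ b : ℝ} {m : ℕ} {P : ℂ → ℂ} {K : ℝ} (hℓ : 0 < ℓ) (hℓ1 : ℓ ≤ 1) (hb : 0 < b)
    (hbm : b * m ≤ 1) (hP : ∀ s : ℂ, 0 ≤ s.re → s.re ≤ 2 → ‖P s‖ ≤ K) {s : ℂ} (h0 : 0 ≤ s.re)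
    (h2 : s.re ≤ 2) : ‖wf ℓ b m P s‖ ≤ Real.exp 4 * K := by
  unfold wf
  rw [norm_mul, norm_mul, norm_mul, norm_pow, Complex.norm_real, Real.norm_eq_abs, abs_of_pos hℓ]
  have a1 := norm_phi_mul_le hℓ.le h0 h2
  have a2 := norm_phi_mul_le hb.le h0 h2
  have a3 : ‖phi (s * b)‖ ^ m ≤ Real.exp 2 := by
    calc ‖phi (s * b)‖ ^ m ≤ (Real.exp (2 * b)) ^ m := by gcongr
      _ = Real.exp (2 * (b * m)) := by rw [← Real.exp_nat_mul]; congr 1; ring
      _ ≤ Real.exp 2 := by apply Real.exp_le_exp.2; linarith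
  have a4 : ‖phi (s * ℓ)‖ ≤ Real.exp 2 := a1.trans (Real.exp_le_exp.2 (by linarith))
  have hK := hP s h0 h2
  calc ℓ * ‖phi (s * ℓ)‖ * ‖phi (s * b)‖ ^ m * ‖P s‖ ≤ 1 * Real.exp 2 * Real.exp 2 * K := by
        gcongr
    _ = Real.exp 4 * K := by
        rw [one_mul, ← Real.exp_add]; norm_num

lemma norm_wf_le_far {ℓ b : ℝ} {m : ℕ} {P : ℂ → ℂ} {K : ℝ} (hℓ : 0 < ℓ) (hℓ1 : ℓ ≤ 1) (hb : 0 < b)
    (hb1 : b ≤ 1) (hm : 2 ≤ m) (hP : ∀ s : ℂ, 0 ≤ s.re → s.re ≤ 2 → ‖P s‖ ≤ K) {s : ℂ}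
    (h0 : 0 ≤ s.re) (h2 : s.re ≤ 2) (him : hgt b ≤ |s.im|) :
    ‖wf ℓ b m P s‖ ≤ Real.exp 2 * K * (Real.exp (-(6 * m)) * (hgt b / |s.im|) ^ 2) := by
  unfold wf
  rw [norm_mul, norm_mul, norm_mul, norm_pow, Complex.norm_real, Real.norm_eq_abs, abs_of_pos hℓ]
  have a1 := norm_phi_mul_le hℓ.le h0 h2
  have a3 := norm_phi_pow_le hb hb1 hm h0 h2 him
  have a4 : ‖phi (s * ℓ)‖ ≤ Real.exp 2 := a1.trans (Real.exp_le_exp.2 (by linarith))
  have hK := hP s h0 h2
  calc ℓ * ‖phi (s * ℓ)‖ * ‖phi (s * b)‖ ^ m * ‖P s‖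
      ≤ 1 * Real.exp 2 * (Real.exp (-(6 * m)) * (hgt b / |s.im|) ^ 2) * K := by gcongr
    _ = _ := by ring

/-- **The master inequality.** -/
theorem master {σ σ' : ℝ} (h1 : 1 / 2 < σ) (h2 : σ < σ') (h3 : σ' ≤ 1) :
    ∃ C : ℝ, 0 < C ∧ ∀ (f : ℝ → ℂ) (L V : ℝ) (P : ℂ → ℂ) (a ℓ b : ℝ) (m : ℕ) (K u : ℝ),
      0 < a → a ≤ 1 → 0 < ℓ → ℓ ≤ 1 → 0 < b → b ≤ 1 → b * m ≤ 1 → 2 ≤ m → Differentiable ℂ P →
      (∀ s : ℂ, 0 ≤ s.re → s.re ≤ 2 → ‖P s‖ ≤ K) → Kf f L V (wf ℓ b m P) → 0 ≤ u → u ≤ m →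
      ‖((1 / a : ℝ) * ∫ r, f r * (inc u a r : ℂ)) +
        ∑ ρ ∈ zset σ (hgt b + 3), (zord ρ : ℂ) * (cexp (u * ρ) * (wf ℓ b m P ρ * phi (ρ * a)))‖ ≤
        C * K * hgt b ^ 5 * (Real.exp (u * σ') + 1) := by
  obtain ⟨C1, hC1, hloc⟩ := local_formula h1 h2 h3
  refine ⟨C1 * (Real.exp 6 * 8), by positivity, ?_⟩
  intro f L V P a ℓ b m K u ha ha1 hℓ hℓ1 hb hb1 hbm hm hPd hP HK hu hum
  set T := hgt b with hT
  have hT1 : 1 ≤ T := hgt_ge_one hb hb1
  have hT0 : 0 < T := by linarith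
  have hK0 : 0 ≤ K := (norm_nonneg _).trans (hP 1 (by simp) (by simp))
  set W : ℂ → ℂ := fun s => wf ℓ b m P s * phi (s * a) with hW
  have hWd : Differentiable ℂ W := by
    have hp := phi_differentiable
    rw [hW]
    unfold wf
    fun_prop
  have HW : Kf (Win.avg a f) (L + a) V W := HK.avg ha
  have hwc : Continuous (Win.avg a f) := avg_continuous HK.int
  -- bounds
  have hphia : ∀ s : ℂ, 0 ≤ s.re → s.re ≤ 2 → ‖phi (s * a)‖ ≤ Real.exp 2 := fun s b1 b2 =>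
    (norm_phi_mul_le ha.le b1 b2).trans (Real.exp_le_exp.2 (by linarith))
  have hWb : ∀ s : ℂ, 0 ≤ s.re → s.re ≤ 2 → ‖W s‖ ≤ Real.exp 6 * K := by
    intro s b1 b2
    simp only [hW]
    rw [norm_mul]
    have c1 := norm_wf_le hℓ hℓ1 hb hbm hP b1 b2
    have c2 := hphia s b1 b2
    calc ‖wf ℓ b m P s‖ * ‖phi (s * a)‖ ≤ (Real.exp 4 * K) * Real.exp 2 := by gcongr
      _ = Real.exp 6 * K := by
          have : Real.exp 6 = Real.exp 4 * Real.exp 2 := by rw [← Real.exp_add]; norm_num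
          rw [this]; ring
  have hWf : ∀ s : ℂ, 0 ≤ s.re → s.re ≤ 2 → T ≤ |s.im| →
      ‖W s‖ ≤ Real.exp 6 * K * (Real.exp (-(6 * m)) * (T / |s.im|) ^ 2) := by
    intro s b1 b2 b3
    simp only [hW]
    rw [norm_mul]
    have c1 := norm_wf_le_far hℓ hℓ1 hb hb1 hm hP b1 b2 b3
    have c2 := hphia s b1 b2
    calc ‖wf ℓ b m P s‖ * ‖phi (s * a)‖
        ≤ (Real.exp 2 * K * (Real.exp (-(6 * m)) * (T / |s.im|) ^ 2)) * Real.exp 2 := by gcongr
      _ = Real.exp 4 * K * (Real.exp (-(6 * m)) * (T / |s.im|) ^ 2) := by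
          have : Real.exp 4 = Real.exp 2 * Real.exp 2 := by rw [← Real.exp_add]; norm_num
          rw [this]; ring
      _ ≤ Real.exp 6 * K * (Real.exp (-(6 * m)) * (T / |s.im|) ^ 2) := by
          have : Real.exp 4 ≤ Real.exp 6 := Real.exp_le_exp.2 (by norm_num)
          gcongr
  set G : ℝ := Real.exp 6 * K with hG
  have hG0 : 0 ≤ G := by positivity
  -- decay on the line Re s = 2
  have hline1 : ∀ t : ℝ, ‖W (2 + t * I)‖ ≤ (2 * G * (1 + T ^ 2)) * (1 + t ^ 2)⁻¹ := by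
    intro t
    have hpos : 0 < 1 + t ^ 2 := by positivity
    rw [← div_eq_mul_inv, le_div_iff₀ hpos]
    by_cases ht : T ≤ |t|
    · have c1 := hWf (2 + t * I) (by simp) (by simp) (by simpa using ht)
      have c2 : |(2 + (t:ℂ) * I).im| = |t| := by simp
      rw [c2] at c1
      have ht0 : 0 < |t| := by linarith
      have ht1 : 1 ≤ t ^ 2 := by
        rw [← sq_abs]; nlinarith
      have c3 : ‖W (2 + t * I)‖ ≤ G * (T / |t|) ^ 2 := by
        refine c1.trans ?_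
        have : Real.exp (-(6 * (m:ℝ))) ≤ 1 := by
          rw [Real.exp_le_one_iff]
          have : (0:ℝ) ≤ m := Nat.cast_nonneg m
          linarith
        calc G * (Real.exp (-(6 * m)) * (T / |t|) ^ 2) ≤ G * (1 * (T / |t|) ^ 2) := by gcongr
          _ = _ := by ring
      calc ‖W (2 + t * I)‖ * (1 + t ^ 2) ≤ (G * (T / |t|) ^ 2) * (t ^ 2 + t ^ 2) := by gcongr
        _ = 2 * G * T ^ 2 := by
            have ht00 : t ≠ 0 := by
              intro h; rw [h] at ht0; simp at ht0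
            rw [div_pow, sq_abs]
            field_simp
            ring
        _ ≤ 2 * G * (1 + T ^ 2) := by gcongr; linarith
    · rw [not_le] at ht
      have c1 := hWb (2 + t * I) (by simp) (by simp)
      have c2 : t ^ 2 ≤ T ^ 2 := by
        rw [← sq_abs]; gcongr
      calc ‖W (2 + t * I)‖ * (1 + t ^ 2) ≤ G * (1 + T ^ 2) := by gcongr
        _ ≤ 2 * G * (1 + T ^ 2) := by nlinarith [sq_nonneg T, mul_nonneg hG0 (show 0 ≤ 1 + T ^ 2 by positivity)]
  have hWc : Continuous (fun t : ℝ => W (2 + t * I)) := hWd.continuous.comp (by fun_prop)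
  have hWi : Integrable (fun t : ℝ => W (2 + t * I)) := by
    refine Integrable.mono' (integrable_inv_one_add_sq.const_mul (2 * G * (1 + T ^ 2)))
      hWc.aestronglyMeasurable (Eventually.of_forall hline1)
  -- the tail
  set e6 : ℝ := Real.exp (-(6 * m)) with he6
  set ε : ℝ := 8 * G * T ^ 2 * e6 with hε
  have hε0 : 0 ≤ ε := by positivity
  have htail : ∫ t in {t : ℝ | T < |t|}, ‖W (2 + t * I)‖ ≤ ε := by
    have hms : MeasurableSet {t : ℝ | T < |t|} :=
      (isOpen_lt continuous_const continuous_abs).measurableSet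
    calc ∫ t in {t : ℝ | T < |t|}, ‖W (2 + t * I)‖
        ≤ ∫ t in {t : ℝ | T < |t|}, (2 * G * T ^ 2 * e6) * (1 + t ^ 2)⁻¹ := by
          apply setIntegral_mono_on
          · exact hWi.norm.integrableOn
          · exact (integrable_inv_one_add_sq.const_mul _).integrableOn
          · exact hms
          · intro t ht
            have ht' : T < |t| := ht
            have hpos : 0 < 1 + t ^ 2 := by positivity
            rw [← div_eq_mul_inv, le_div_iff₀ hpos]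
            have c1 := hWf (2 + t * I) (by simp) (by simp) (by simpa using ht'.le)
            have c2 : |(2 + (t:ℂ) * I).im| = |t| := by simp
            rw [c2] at c1
            have ht0 : 0 < |t| := by linarith
            have ht1 : 1 ≤ t ^ 2 := by
              rw [← sq_abs]; nlinarith
            calc ‖W (2 + t * I)‖ * (1 + t ^ 2)
                ≤ (G * (e6 * (T / |t|) ^ 2)) * (t ^ 2 + t ^ 2) := by gcongr
              _ = 2 * G * T ^ 2 * e6 := by
                  have ht00 : t ≠ 0 := by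
                    intro h; rw [h] at ht0; simp at ht0
                  rw [div_pow, sq_abs]
                  field_simp
                  ring
      _ ≤ ∫ t : ℝ, (2 * G * T ^ 2 * e6) * (1 + t ^ 2)⁻¹ := by
          apply setIntegral_le_integral (integrable_inv_one_add_sq.const_mul _)
          exact Eventually.of_forall fun t => by positivity
      _ = (2 * G * T ^ 2 * e6) * Real.pi := by
          rw [integral_const_mul, integral_univ_inv_one_add_sq]
      _ ≤ (2 * G * T ^ 2 * e6) * 4 := by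
          have := Real.pi_le_four
          gcongr
      _ = ε := by rw [hε]; ring
  have hhor : ∀ x ∈ Icc σ' 2, ‖W (x + T * I)‖ ≤ ε ∧ ‖W (x - T * I)‖ ≤ ε := by
    intro x hx
    have key : ∀ s : ℂ, s.re = x → |s.im| = T → ‖W s‖ ≤ ε := by
      intro s b1 b2
      have c1 := hWf s (by rw [b1]; linarith [hx.1]) (by rw [b1]; exact hx.2) (by rw [b2])
      rw [b2, div_self hT0.ne', one_pow, mul_one] at c1
      refine c1.trans ?_
      rw [hε]
      have hT2 : 1 ≤ 8 * T ^ 2 := by nlinarith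
      calc G * e6 = 1 * (G * e6) := by ring
        _ ≤ (8 * T ^ 2) * (G * e6) := by gcongr
        _ = _ := by ring
    refine ⟨key _ (by simp) (by simp [abs_of_pos hT0]), key _ (by simp) (by simp [abs_of_pos hT0])⟩
  have hmain := hloc T (Win.avg a f) (L + a) V W hT1 HW hwc hWd hWi u G ε hu hG0 hε0
    (fun t _ => hWb _ (by simp; linarith) (by simp; linarith)) hhor htail
  have hpsi := (HK.psi_avg ha u).2
  have hW1 : W 1 = wf ℓ b m P 1 * phi (1 * a) := rfl
  rw [hW1, hpsi] at hmain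
  refine hmain.trans ?_
  -- sizes
  have hexp : ε * Real.exp (2 * u) ≤ 8 * G * T ^ 2 := by
    rw [hε, he6, mul_assoc, ← Real.exp_add]
    have : Real.exp (-(6 * m) + 2 * u) ≤ 1 := by
      rw [Real.exp_le_one_iff]; linarith
    calc 8 * G * T ^ 2 * Real.exp (-(6 * m) + 2 * u) ≤ 8 * G * T ^ 2 * 1 := by gcongr
      _ = _ := by ring
  have hE := Real.exp_pos (u * σ')
  calc C1 * T ^ 3 * (G * Real.exp (u * σ') + ε * Real.exp (2 * u))
      ≤ C1 * T ^ 3 * (G * Real.exp (u * σ') + 8 * G * T ^ 2) := by gcongr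
    _ ≤ C1 * T ^ 3 * (8 * G * T ^ 2 * Real.exp (u * σ') + 8 * G * T ^ 2) := by
        have h11 : 1 ≤ 8 * T ^ 2 := by nlinarith
        have h10 : G ≤ 8 * G * T ^ 2 := by
          calc G = G * 1 := by ring
            _ ≤ G * (8 * T ^ 2) := by gcongr
            _ = 8 * G * T ^ 2 := by ring
        gcongr
    _ = C1 * (Real.exp 6 * 8) * K * T ^ 5 * (Real.exp (u * σ') + 1) := by
        rw [hG]; ring

end Pool.Agent.H6.Win
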