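import Pool.Agent.H6.Win.Density2

/-!
# Sums over zeros of `1 / Im ρ`
-/

set_option autoImplicit false

open Complex Filter Topology MeasureTheory Set Metric

namespace Pool.Agent.H6.Win

open Pool.Agent.H6

/-- no real zeros -/
lemma zetaPole_ne_zero_real {x : ℝ} (hx : 0 < x) (hx1 : x < 1) : zetaPole (x:ℂ) ≠ 0 := by
  rw [zetaPole_eq (by simpa using hx)]
  have h1 : frMellin (x:ℂ) = ((∫ t in Ioi (1 : ℝ), t ^ (-x - 1) * Int.fract t : ℝ) : ℂ) := by
    rw [frMellin_eq, ← integral_complex_ofReal]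
    apply setIntegral_congr_fun measurableSet_Ioi
    intro t ht
    have ht1 : (1:ℝ) < t := ht
    have ht0 : (0:ℝ) ≤ t := by linarith
    simp only [fr, if_neg (not_lt.2 ht1.le), smul_eq_mul]
    have e1 : ((t:ℂ)) ^ (-(x:ℂ) - 1) = ((t ^ (-x - 1) : ℝ) : ℂ) := by
      rw [Complex.ofReal_cpow ht0]
      push_cast
      rfl
    rw [e1]
    push_cast
    rfl
  rw [h1]
  set J : ℝ := ∫ t in Ioi (1 : ℝ), t ^ (-x - 1) * Int.fract t with hJ
  have hJ0 : 0 ≤ J := by
    apply setIntegral_nonneg measurableSet_Ioi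
    intro t ht
    have ht1 : (1:ℝ) < t := ht
    have := Int.fract_nonneg t
    have : 0 ≤ t ^ (-x - 1) := Real.rpow_nonneg (by linarith) _
    positivity
  have h2 : (x:ℂ) - x * (x - 1) * (J:ℂ) = ((x - x * (x - 1) * J : ℝ) : ℂ) := by push_cast; ring
  rw [h2]
  have h3 : 0 < x - x * (x - 1) * J := by
    have : 0 ≤ x * (1 - x) * J := by
      have : 0 < 1 - x := by linarith
      positivity
    nlinarith
  exact_mod_cast h3.ne'

lemma zetaPole_conj (s : ℂ) : zetaPole ((starRingEnd ℂ) s) = (starRingEnd ℂ) (zetaPole s) := by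
  unfold zetaPole
  by_cases h : s = 1
  · subst h; simp
  · have h' : (starRingEnd ℂ) s ≠ 1 := by
      intro h2
      apply h
      have := congrArg (starRingEnd ℂ) h2
      simpa using this
    rw [Function.update_of_ne h, Function.update_of_ne h', riemannZeta_conj, map_mul, map_sub,
      map_one]

lemma im_ne_zero_of_zero {u : ℂ} (hu : zetaPole u = 0) (h : 0 < u.re) : u.im ≠ 0 := by
  intro him
  have h1 : u = ((u.re : ℝ) : ℂ) := by
    apply Complex.ext <;> simp [him]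
  rw [h1] at hu
  exact zetaPole_ne_zero_real h (zero_re_lt (by rw [h1]; exact hu)) hu

/-- **The sum of `1 / Im ρ` over the zeros to the right of `σ > 1/2` converges.** -/
theorem zero_length {σ : ℝ} (hσ : 1 / 2 < σ) (hσ1 : σ < 1) :
    ∃ Λ : ℝ, 0 < Λ ∧ ∀ F : Finset ℂ, (∀ z ∈ F, σ < z.re ∧ 0 < z.im ∧ zetaPole z = 0) →
      ∑ z ∈ F, 1 / z.im ≤ Λ := by
  classical
  obtain ⟨κ, hκ1, hκ2⟩ : ∃ κ, 4 * σ * (1 - σ) < κ ∧ κ < 1 := by
    apply exists_between
    nlinarith [sq_nonneg (2 * σ - 1)]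
  obtain ⟨C, hC, hdens⟩ := zero_density hσ hσ1 hκ1
  set r : ℝ := (2:ℝ) ^ (κ - 1) with hr
  have hr0 : 0 < r := by positivity
  have hr1 : r < 1 := by
    rw [hr]
    exact Real.rpow_lt_one_of_one_lt_of_neg (by norm_num) (by linarith)
  set S0 : ℝ := ∑ z ∈ (zset σ 1).filter (fun z => 0 < z.im), 1 / z.im with hS0
  have hS00 : 0 ≤ S0 := Finset.sum_nonneg fun z hz => by
    rw [Finset.mem_filter] at hz
    have := hz.2
    positivity
  set A : ℝ := C * 2 with hA
  have key : ∀ K : ℕ, ∀ F : Finset ℂ, (∀ z ∈ F, σ < z.re ∧ 0 < z.im ∧ z.im ≤ 2 ^ K ∧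
      zetaPole z = 0) → ∑ z ∈ F, 1 / z.im ≤ S0 + A * ((1 - r ^ K) / (1 - r)) := by
    intro K
    induction K with
    | zero =>
      intro F hF
      simp only [pow_zero, sub_self, zero_div, mul_zero, add_zero]
      rw [hS0]
      apply Finset.sum_le_sum_of_subset_of_nonneg
      · intro z hz
        obtain ⟨a1, a2, a3, a4⟩ := hF z hz
        rw [pow_zero] at a3
        rw [Finset.mem_filter, mem_zset]
        exact ⟨⟨a1, by rw [abs_of_pos a2]; exact a3, a4⟩, a2⟩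
      · intro z hz _
        rw [Finset.mem_filter] at hz
        have := hz.2
        positivity
    | succ K ih =>
      intro F hF
      rw [← Finset.sum_filter_add_sum_filter_not F (fun z => z.im ≤ 2 ^ K)]
      have h1 := ih (F.filter (fun z => z.im ≤ 2 ^ K)) (fun z hz => by
        rw [Finset.mem_filter] at hz
        obtain ⟨a1, a2, a3, a4⟩ := hF z hz.1
        exact ⟨a1, a2, hz.2, a4⟩)
      set F2 := F.filter (fun z => ¬ z.im ≤ 2 ^ K) with hF2
      have h2 : ∑ z ∈ F2, 1 / z.im ≤ A * r ^ K := by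
        have hcard := hdens (2 ^ (K + 1)) F2 (one_le_pow₀ (by norm_num)) (fun z hz => by
          rw [hF2, Finset.mem_filter] at hz
          obtain ⟨a1, a2, a3, a4⟩ := hF z hz.1
          exact ⟨a1.le, by rw [abs_of_pos a2]; exact a3, a4⟩)
        calc ∑ z ∈ F2, 1 / z.im ≤ ∑ _z ∈ F2, 1 / (2:ℝ) ^ K := by
              refine Finset.sum_le_sum fun z hz => ?_
              rw [hF2, Finset.mem_filter, not_le] at hz
              apply one_div_le_one_div_of_le (by positivity) hz.2.le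
          _ = F2.card * (1 / (2:ℝ) ^ K) := by rw [Finset.sum_const, nsmul_eq_mul]
          _ ≤ (C * ((2:ℝ) ^ (K + 1)) ^ κ) * (1 / (2:ℝ) ^ K) := by gcongr
          _ ≤ A * r ^ K := by
              rw [hA, hr]
              have e1 : ((2:ℝ) ^ (K + 1)) ^ κ = 2 ^ κ * ((2:ℝ) ^ κ) ^ K := by
                rw [← Real.rpow_natCast 2 (K + 1), ← Real.rpow_mul (by norm_num),
                  ← Real.rpow_natCast ((2:ℝ) ^ κ) K, ← Real.rpow_mul (by norm_num),
                  ← Real.rpow_add (by norm_num)]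
                congr 1
                push_cast
                ring
              have e2 : ((2:ℝ) ^ (κ - 1)) ^ K = ((2:ℝ) ^ κ) ^ K * (1 / (2:ℝ) ^ K) := by
                rw [Real.rpow_sub_one (by norm_num), div_pow]
                ring
              rw [e1, e2]
              have e3 : (2:ℝ) ^ κ ≤ 2 := by
                calc (2:ℝ) ^ κ ≤ 2 ^ (1:ℝ) := Real.rpow_le_rpow_of_exponent_le (by norm_num) hκ2.le
                  _ = 2 := Real.rpow_one 2
              calc C * (2 ^ κ * ((2:ℝ) ^ κ) ^ K) * (1 / 2 ^ K)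
                  ≤ C * (2 * ((2:ℝ) ^ κ) ^ K) * (1 / 2 ^ K) := by gcongr
                _ = _ := by ring
      have h3 : (1 - r ^ (K + 1)) / (1 - r) = (1 - r ^ K) / (1 - r) + r ^ K := by
        have : 1 - r ≠ 0 := by linarith
        field_simp
        ring
      rw [h3]
      nlinarith
  refine ⟨S0 + A / (1 - r) + 1, by
    have : 0 < 1 - r := by linarith
    positivity, fun F hF => ?_⟩
  obtain ⟨K, hK⟩ : ∃ K : ℕ, ∀ z ∈ F, z.im ≤ 2 ^ K := by
    obtain ⟨B, hB⟩ := (F.finite_toSet.image Complex.im).bddAbove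
    obtain ⟨K, hK⟩ := pow_unbounded_of_one_lt B (show (1:ℝ) < 2 by norm_num)
    exact ⟨K, fun z hz => (hB ⟨z, hz, rfl⟩).trans hK.le⟩
  have h1 := key K F (fun z hz => by
    obtain ⟨a1, a2, a3⟩ := hF z hz
    exact ⟨a1, a2, hK z hz, a3⟩)
  have h2 : A * ((1 - r ^ K) / (1 - r)) ≤ A / (1 - r) := by
    rw [mul_div_assoc']
    have h4 : 0 < 1 - r := by linarith
    have h5 : 0 < r ^ K := by positivity
    have hA0 : 0 < A := by rw [hA]; positivity
    gcongr
    nlinarith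
  linarith

/-- The total length tends to `0` as `σ → 1`. -/
theorem zero_length_small {ε : ℝ} (hε : 0 < ε) :
    ∃ σ : ℝ, 1 / 2 < σ ∧ σ < 1 ∧ ∀ σ2, σ ≤ σ2 → ∀ F : Finset ℂ,
      (∀ z ∈ F, σ2 < z.re ∧ 0 < z.im ∧ zetaPole z = 0) → ∑ z ∈ F, 1 / z.im ≤ ε := by
  classical
  obtain ⟨Λ, hΛ0, hΛ⟩ := zero_length (σ := 3 / 4) (by norm_num) (by norm_num)
  set S : Set ℝ := {x | ∃ F : Finset ℂ, (∀ z ∈ F, 3 / 4 < z.re ∧ 0 < z.im ∧ zetaPole z = 0) ∧
    x = ∑ z ∈ F, 1 / z.im} with hS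
  have hne : S.Nonempty := ⟨0, ∅, by simp, by simp⟩
  have hbdd : BddAbove S := ⟨Λ, by rintro x ⟨F, hF, rfl⟩; exact hΛ F hF⟩
  obtain ⟨x, ⟨F0, hF0, rfl⟩, hx⟩ := exists_lt_of_lt_csSup hne (show sSup S - ε < sSup S by linarith)
  obtain ⟨σ, hσ1, hσ2, hσ3⟩ : ∃ σ : ℝ, 3 / 4 ≤ σ ∧ σ < 1 ∧ ∀ z ∈ F0, z.re ≤ σ := by
    rcases F0.eq_empty_or_nonempty with h | h
    · exact ⟨3 / 4, le_rfl, by norm_num, by simp [h]⟩
    · obtain ⟨z0, hz0, hmax⟩ := F0.exists_max_image Complex.re h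
      exact ⟨z0.re, (hF0 z0 hz0).1.le, zero_re_lt (hF0 z0 hz0).2.2, hmax⟩
  refine ⟨σ, by linarith, hσ2, fun σ2 hσσ2 F hF => ?_⟩
  have hdisj : Disjoint F0 F := by
    rw [Finset.disjoint_left]
    intro z hz1 hz2
    have := hσ3 z hz1
    have := (hF z hz2).1
    linarith
  have h1 : ∑ z ∈ F0 ∪ F, 1 / z.im ≤ sSup S := by
    apply le_csSup hbdd
    refine ⟨F0 ∪ F, fun z hz => ?_, rfl⟩
    rcases Finset.mem_union.1 hz with h | h
    · exact hF0 z h
    · obtain ⟨a1, a2, a3⟩ := hF z h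
      exact ⟨by linarith, a2, a3⟩
  rw [Finset.sum_union hdisj] at h1
  linarith

end Pool.Agent.H6.Win
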