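import Pool.Agent.H6.Win.TwoSided2
import Pool.Agent.H6.Win.ZeroLen

/-!
# One-sided bounds imply two-sided bounds
-/

set_option autoImplicit false

open Complex Filter Topology MeasureTheory Set Metric

namespace Pool.Agent.H6.Win

open Pool.Agent.H6

lemma inc_zero (u r : ℝ) : inc u 0 r = 0 := by
  simp [inc, incr]

lemma inc_add (u a b r : ℝ) : inc u (a + b) r = inc u a r + inc u b (r + a) := by
  unfold inc incr
  rw [show u + (r + a) = u + r + a by ring, show u + r + a + b = u + r + (a + b) by ring]
  ring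

lemma inc_shift (u d a r : ℝ) : inc (u + d) a r = inc u a (d + r) := by
  unfold inc
  rw [show u + d + r = u + (d + r) by ring]

/-- The kernel for the one-sided theorem. -/
theorem one_sided_core {σ σ' : ℝ} (hσ : 1 / 2 < σ) (hσσ' : σ < σ') (hσ' : σ' ≤ 1) :
    ∃ C : ℝ, 0 < C ∧ ∀ (u η Λ M sg : ℝ) (m : ℕ), 0 < η → η ≤ 1 / 3 → 0 ≤ u → 2 ≤ m → u ≤ m →
      0 ≤ M → 0 ≤ Λ → (sg = 1 ∨ sg = -1) →
      (∑ z ∈ (zset σ (hgt (η / m) + 3)).filter (fun z => 0 < z.im), Real.pi / z.im ≤ Λ) →
      (∀ r a : ℝ, 0 ≤ r → 0 < a → r + a ≤ Λ + 6 * η → sg * inc u a r ≤ M) →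
      ∀ p q : ℝ, 2 * η ≤ p → 0 < q → p + q ≤ 3 * η →
      |inc u q p| ≤
        (2 + 3 * (Real.exp (2 * Λ) + Real.exp Λ) ^ (zset σ (hgt (η / m) + 3)).card) * M +
        2 * (C * (Real.exp (2 * Λ) + Real.exp Λ) ^ (zset σ (hgt (η / m) + 3)).card *
          hgt (η / m) ^ 5 * (Real.exp (u * σ') + 1)) := by
  classical
  obtain ⟨C, hC, hmaster⟩ := master hσ hσσ' hσ'
  refine ⟨C, hC, ?_⟩
  intro u η Λ M sg m hη hη1 hu hm hum hM0 hΛ hsg hlen hone p q hp hq hpq
  have hm0 : (0:ℝ) < m := by
    have : 0 < m := by omega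
    exact_mod_cast this
  have hm1 : (1:ℝ) ≤ m := by
    have : 1 ≤ m := by omega
    exact_mod_cast this
  set b : ℝ := η / m with hb
  set Z0 := zset σ (hgt b + 3) with hZ0
  set Z := Z0.filter (fun z => 0 < z.im) with hZ
  set h : ℂ → ℝ := fun z => Real.pi / z.im with hh
  set k : ℂ → ℝ := fun z => Real.exp (z.re * h z) with hk
  set P : ℂ → ℂ := fun s => ∏ z ∈ Z, (cexp (s * h z) + k z) with hP
  set K : ℝ := Real.exp (2 * Λ) + Real.exp Λ with hK
  have hK1 : 1 ≤ K := by
    have h1 : 1 ≤ Real.exp (2 * Λ) := Real.one_le_exp (by positivity)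
    have h2 := Real.exp_pos Λ
    rw [hK]; linarith
  have hb0 : 0 < b := by positivity
  have hbm : b * m = η := by rw [hb]; field_simp
  have hb1 : b ≤ 1 := by
    rw [hb, div_le_one hm0]; linarith
  have hZmem : ∀ z ∈ Z, σ < z.re ∧ z.re < 1 ∧ 0 < z.im ∧ zetaPole z = 0 := by
    intro z hz
    rw [hZ, Finset.mem_filter, hZ0, mem_zset] at hz
    exact ⟨hz.1.1, zero_re_lt hz.1.2.2, hz.2, hz.1.2.2⟩
  have hh0 : ∀ z ∈ Z, 0 ≤ h z := by
    intro z hz
    have := (hZmem z hz).2.2.1
    have := Real.pi_pos
    rw [hh]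
    positivity
  have hhΛ : ∀ z ∈ Z, h z ≤ Λ := by
    intro z hz
    exact (Finset.single_le_sum (f := h) (fun i hi => hh0 i hi) hz).trans hlen
  have hk1 : ∀ z ∈ Z, 1 ≤ k z := by
    intro z hz
    rw [hk]
    apply Real.one_le_exp
    have := (hZmem z hz).1
    have := hh0 z hz
    have : 0 ≤ z.re := by linarith
    positivity
  have hkΛ : ∀ z ∈ Z, k z ≤ Real.exp Λ := by
    intro z hz
    rw [hk]
    apply Real.exp_le_exp.2
    have h1 := hZmem z hz
    have h2 := hh0 z hz
    have h3 := hhΛ z hz
    nlinarith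
  have hcardZ : Z.card ≤ Z0.card := Finset.card_le_card (Finset.filter_subset _ _)
  have hPb : ∀ s : ℂ, 0 ≤ s.re → s.re ≤ 2 → ‖P s‖ ≤ K ^ Z0.card := by
    intro s b1 b2
    rw [hP]
    simp only
    rw [norm_prod]
    calc ∏ z ∈ Z, ‖cexp (s * h z) + k z‖ ≤ ∏ _z ∈ Z, K := by
          refine Finset.prod_le_prod (fun z _ => norm_nonneg _) fun z hz => ?_
          refine (norm_add_le _ _).trans ?_
          have h2 := hh0 z hz
          have h3 := hhΛ z hz
          have h4 : ‖cexp (s * h z)‖ ≤ Real.exp (2 * Λ) := by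
            rw [Complex.norm_exp]
            refine Real.exp_le_exp.2 ?_
            have h3 : (s * (h z : ℂ)).re = s.re * h z := by simp
            rw [h3]
            nlinarith
          have h5 : ‖((k z : ℝ) : ℂ)‖ ≤ Real.exp Λ := by
            rw [Complex.norm_real, Real.norm_eq_abs, abs_of_nonneg (by linarith [hk1 z hz])]
            exact hkΛ z hz
          rw [hK]
          linarith
      _ = K ^ Z.card := by rw [Finset.prod_const]
      _ ≤ K ^ Z0.card := pow_le_pow_right₀ hK1 hcardZ
  have hPd : Differentiable ℂ P := by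
    rw [hP]
    apply Differentiable.fun_finsetProd
    intro z _
    fun_prop
  obtain ⟨g, hg⟩ := exists_kr (ℓ := 3 * η) (b := b) (by positivity) hb0 m h k Z hh0
    (fun z hz => by linarith [hk1 z hz])
  have hgW : Kf (fun v => (g v : ℂ)) (3 * η + m * b + ∑ z ∈ Z, h z)
      (3 * η * ∏ z ∈ Z, (1 + k z)) (wf (3 * η) b m P) := by
    have := hg.kf
    push_cast at this
    refine this.congr (fun v => rfl) rfl rfl (fun s => ?_)
    unfold wf
    push_cast
    rfl
  have hmain := hmaster (fun v => (g v : ℂ)) _ _ P (2 * η) (3 * η) b m (K ^ Z0.card) u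
    (by positivity) (by linarith) (by positivity) (by linarith) hb0 hb1 (by rw [hbm]; linarith) hm
    hPd hPb hgW hu hum
  -- the sum over zeros vanishes
  have hsum : ∑ ρ ∈ Z0, (zord ρ : ℂ) *
      (cexp (u * ρ) * (wf (3 * η) b m P ρ * phi (ρ * (2 * η : ℝ)))) = 0 := by
    apply Finset.sum_eq_zero
    intro ρ hρ
    have hρ' := hρ
    rw [hZ0, mem_zset] at hρ'
    have him : ρ.im ≠ 0 := im_ne_zero_of_zero hρ'.2.2 (by linarith [hρ'.1])
    have hPρ : P ρ = 0 := by
      rw [hP]
      simp only
      rcases lt_or_gt_of_ne him with hneg | hpos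
      · -- use the conjugate
        have hcz : (starRingEnd ℂ) ρ ∈ Z := by
          rw [hZ, Finset.mem_filter, hZ0, mem_zset]
          refine ⟨⟨by simpa using hρ'.1, by simpa using hρ'.2.1, ?_⟩, by simpa using hneg⟩
          rw [zetaPole_conj, hρ'.2.2, map_zero]
        apply Finset.prod_eq_zero hcz
        have e1 : (ρ * (h ((starRingEnd ℂ) ρ) : ℂ)) =
            ((ρ.re * h ((starRingEnd ℂ) ρ) : ℝ) : ℂ) + -(Real.pi * I) := by
          have e2 : h ((starRingEnd ℂ) ρ) = -(Real.pi / ρ.im) := by
            rw [hh]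
            simp only [Complex.conj_im]
            rw [div_neg]
          rw [e2]
          apply Complex.ext
          · simp
          · simp
            field_simp
        rw [e1, Complex.exp_add, Complex.exp_neg, Complex.exp_pi_mul_I, hk]
        simp only [Complex.conj_re]
        push_cast
        norm_num
      · have hcz : ρ ∈ Z := by
          rw [hZ, Finset.mem_filter]
          exact ⟨hρ, hpos⟩
        apply Finset.prod_eq_zero hcz
        have e1 : (ρ * (h ρ : ℂ)) = ((ρ.re * h ρ : ℝ) : ℂ) + Real.pi * I := by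
          rw [hh]
          apply Complex.ext
          · simp
          · simp
            field_simp
        rw [e1, Complex.exp_add, Complex.exp_pi_mul_I, hk]
        push_cast
        norm_num
    unfold wf
    rw [hPρ]
    ring
  rw [hsum, add_zero] at hmain
  -- the real integral
  set G : ℝ → ℝ := fun r => g r * inc u (2 * η) r with hG
  have hGc : ∀ r, ((g r : ℂ)) * (inc u (2 * η) r : ℂ) = ((G r : ℝ) : ℂ) := by
    intro r
    simp only [hG]
    push_cast
    ring
  have hGi : Integrable G := by
    have h1 := (hgW.psi_avg (a := 2 * η) (by positivity) u).1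
    have h2 := h1.re
    refine h2.congr (Eventually.of_forall fun r => ?_)
    simp only
    rw [hGc]
    simp
  set R : ℝ := C * K ^ Z0.card * hgt b ^ 5 * (Real.exp (u * σ') + 1) with hR
  have hR0 : 0 ≤ R := by
    have : 0 < hgt b := by
      have := hgt_ge_one hb0 hb1
      linarith
    positivity
  have hI : |∫ r, G r| ≤ 2 * η * R := by
    simp only [hGc] at hmain
    rw [integral_complex_ofReal, norm_mul, Complex.norm_real, Complex.norm_real,
      Real.norm_eq_abs, Real.norm_eq_abs, abs_of_pos (by positivity : 0 < 1 / (2 * η)),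
      div_mul_eq_mul_div, one_mul, div_le_iff₀ (by positivity)] at hmain
    rw [mul_comm (2 * η)]
    exact hmain
  have hgi : Integrable g := hgW.integrable_real
  have hgnorm : ∫ r, g r ≤ 3 * η * K ^ Z0.card := by
    have h1 := hgW.norm
    have h2 : ∀ r, ‖(g r : ℂ)‖ = g r := fun r => by
      rw [Complex.norm_real, Real.norm_eq_abs, abs_of_nonneg (hg.nonneg r)]
    simp only [h2] at h1
    refine h1.trans ?_
    have h3 : ∏ z ∈ Z, (1 + k z) ≤ K ^ Z0.card := by
      calc ∏ z ∈ Z, (1 + k z) ≤ ∏ _z ∈ Z, K := by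
            refine Finset.prod_le_prod (fun z hz => by linarith [hk1 z hz]) fun z hz => ?_
            have := hkΛ z hz
            have h4 : 1 ≤ Real.exp (2 * Λ) := Real.one_le_exp (by positivity)
            rw [hK]; linarith
        _ = K ^ Z.card := by rw [Finset.prod_const]
        _ ≤ K ^ Z0.card := pow_le_pow_right₀ hK1 hcardZ
    gcongr
  -- one-sided bound including zero lengths
  have hone' : ∀ r a : ℝ, 0 ≤ r → 0 ≤ a → r + a ≤ Λ + 6 * η → sg * inc u a r ≤ M := by
    intro r a h1 h2 h3
    rcases h2.eq_or_lt with h4 | h4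
    · rw [← h4, inc_zero, mul_zero]; exact hM0
    · exact hone r a h1 h4 h3
  have hsupp : 3 * η + m * b + ∑ z ∈ Z, h z + 2 * η ≤ Λ + 6 * η := by
    rw [mul_comm (m:ℝ) b, hbm]
    linarith
  have hgsupp : ∀ r, g r ≠ 0 → 0 ≤ r ∧ r + 2 * η ≤ Λ + 6 * η := by
    intro r hr
    have h1 : r ∈ Icc 0 (3 * η + m * b + ∑ z ∈ Z, h z) := by
      by_contra hcon
      apply hr
      have := hgW.supp r hcon
      exact_mod_cast this
    exact ⟨h1.1, by linarith [h1.2]⟩
  have hprod1 : (1:ℝ) ≤ ∏ z ∈ Z, k z := by
    calc (1:ℝ) = ∏ _z ∈ Z, (1:ℝ) := by simp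
      _ ≤ ∏ z ∈ Z, k z := Finset.prod_le_prod (fun _ _ => zero_le_one) hk1
  have hglow : ∀ r ∈ Icc η (2 * η), 1 ≤ g r := by
    intro r hr
    refine hprod1.trans (hg.lower r ⟨?_, ?_⟩)
    · rw [mul_comm (m:ℝ) b, hbm]; exact hr.1
    · linarith [hr.2]
  -- pointwise estimate
  set x : ℝ := sg * inc u q p with hx
  have hxM : x ≤ M := hone' p q (by linarith) hq.le (by linarith)
  have hxlow : -(2 * M + 2 * R + 3 * K ^ Z0.card * M) ≤ x := by
    by_cases hcase : -(2 * M) ≤ x
    · have : 0 ≤ 3 * K ^ Z0.card * M := by positivity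
      linarith
    · rw [not_le] at hcase
      set w : ℝ := -(2 * M + x) with hw
      have hw0 : 0 < w := by rw [hw]; linarith
      have hpt : ∀ r, sg * G r ≤ M * g r - (Icc η (2 * η)).indicator (fun _ => w) r := by
        intro r
        by_cases hr : r ∈ Icc η (2 * η)
        · rw [indicator_of_mem hr]
          have hg1 := hglow r hr
          have e1 : inc u (2 * η) r = inc u (p - r) r + inc u q p +
              inc u (r + 2 * η - (p + q)) (p + q) := by
            have a1 := inc_add u (p - r) (r + 2 * η - p) r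
            rw [show p - r + (r + 2 * η - p) = 2 * η by ring, show r + (p - r) = p by ring] at a1
            have a2 := inc_add u q (r + 2 * η - (p + q)) p
            rw [show q + (r + 2 * η - (p + q)) = r + 2 * η - p by ring] at a2
            rw [a1, a2]
            ring
          have b1 := hone' r (p - r) (by linarith [hr.1]) (by linarith [hr.2]) (by linarith [hr.1])
          have b2 := hone' (p + q) (r + 2 * η - (p + q)) (by linarith) (by linarith [hr.1])
            (by linarith [hr.2])
          have b3 : sg * inc u (2 * η) r ≤ -w := by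
            rw [e1, hw, hx]
            linarith
          have b4 : sg * G r = g r * (sg * inc u (2 * η) r) := by
            simp only [hG]; ring
          rw [b4]
          nlinarith
        · rw [indicator_of_notMem hr, sub_zero]
          by_cases hgr : g r = 0
          · simp [hG, hgr]
          · obtain ⟨c1, c2⟩ := hgsupp r hgr
            have b1 := hone' r (2 * η) c1 (by positivity) c2
            have b4 : sg * G r = g r * (sg * inc u (2 * η) r) := by
              simp only [hG]; ring
            rw [b4, mul_comm M]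
            have := hg.nonneg r
            gcongr
      have hind : Integrable ((Icc η (2 * η)).indicator (fun _ => w)) := by
        rw [integrable_indicator_iff measurableSet_Icc]
        exact integrableOn_const (by simp) (by simp)
      have hint := integral_mono (hGi.const_mul sg) ((hgi.const_mul M).sub hind) hpt
      simp only [Pi.sub_apply] at hint
      rw [integral_const_mul, integral_sub (hgi.const_mul M) hind, integral_const_mul,
        integral_indicator measurableSet_Icc] at hint
      have hvol : ∫ _r in Icc η (2 * η), w = η * w := by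
        simp only [integral_const, smul_eq_mul]
        rw [measureReal_restrict_apply_univ, Real.volume_real_Icc, max_eq_left (by linarith)]
        ring
      rw [hvol] at hint
      have h7 : -(2 * η * R) ≤ sg * ∫ r, G r := by
        rcases hsg with h | h
        · rw [h, one_mul]; exact (abs_le.1 hI).1
        · rw [h, neg_one_mul]
          have := (abs_le.1 hI).2
          linarith
      have h8 : M * ∫ r, g r ≤ M * (3 * η * K ^ Z0.card) := by gcongr
      have h9 : η * w ≤ η * (2 * R + 3 * K ^ Z0.card * M) := by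
        have : η * (2 * R + 3 * K ^ Z0.card * M) = 2 * η * R + M * (3 * η * K ^ Z0.card) := by ring
        rw [this]
        linarith
      have h10 := le_of_mul_le_mul_left h9 hη
      rw [hw] at h10
      linarith
  have habs : |inc u q p| = |x| := by
    rw [hx, abs_mul]
    rcases hsg with h | h
    · rw [h, abs_one, one_mul]
    · rw [h, abs_neg, abs_one, one_mul]
  rw [habs, abs_le]
  have hKM : 0 ≤ 3 * K ^ Z0.card * M := by positivity
  constructor
  · have : -((2 + 3 * K ^ Z0.card) * M + 2 * R) = -(2 * M + 2 * R + 3 * K ^ Z0.card * M) := by ring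
    rw [this]
    exact hxlow
  · have : (2 + 3 * K ^ Z0.card) * M + 2 * R = M + M + 3 * K ^ Z0.card * M + 2 * R := by ring
    rw [this]
    linarith

end Pool.Agent.H6.Win
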