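import Pool.Agent.H6.Win.OneSided

/-!
# One-sided bounds: asymptotics, and the conclusion for zeros
-/

set_option autoImplicit false

open Complex Filter Topology MeasureTheory Set Metric

namespace Pool.Agent.H6.Win

open Pool.Agent.H6

/-- **One-sided bounds imply two-sided bounds.** -/
theorem one_sided {σ σ' η Λ ε : ℝ} (hσ : 1 / 2 < σ) (hσ1 : σ < 1) (hσσ' : σ < σ') (hσ' : σ' ≤ 1)
    (hη : 0 < η) (hη1 : η ≤ 1 / 3) (hΛ0 : 0 ≤ Λ)
    (hΛ : ∀ F : Finset ℂ, (∀ z ∈ F, σ < z.re ∧ 0 < z.im ∧ zetaPole z = 0) →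
      ∑ z ∈ F, Real.pi / z.im ≤ Λ) (hε : 0 < ε) :
    ∀ᶠ u : ℝ in atTop, ∀ M sg : ℝ, 0 ≤ M → (sg = 1 ∨ sg = -1) →
      (∀ r a : ℝ, 0 ≤ r → 0 < a → r + a ≤ Λ + 6 * η → sg * inc u a r ≤ M) →
      ∀ r a : ℝ, 0 ≤ r → 0 < a → r + a ≤ η →
        |inc (u + 2 * η) a r| ≤ Real.exp (ε * u) * (M + Real.exp (u * σ')) := by
  classical
  obtain ⟨C, hC, hcore⟩ := one_sided_core hσ hσσ' hσ'
  obtain ⟨κ, hκ1, hκ2⟩ : ∃ κ, 4 * σ * (1 - σ) < κ ∧ κ < 1 := by
    apply exists_between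
    nlinarith [sq_nonneg (2 * σ - 1)]
  obtain ⟨CN, hCN, hcard⟩ := card_window (B := 0) (c1 := 8 * η) hσ hσ1 hκ1 (by positivity) le_rfl
  obtain ⟨K, hK⟩ : ∃ K, K = Real.exp (2 * Λ) + Real.exp Λ := ⟨_, rfl⟩
  have hK1 : 1 ≤ K := by
    have h1 : 1 ≤ Real.exp (2 * Λ) := Real.one_le_exp (by positivity)
    have h2 := Real.exp_pos Λ
    rw [hK]; linarith
  obtain ⟨j, hj⟩ := pow_unbounded_of_one_lt K (show (1:ℝ) < 4 by norm_num)
  obtain ⟨CT, hCTd⟩ : ∃ CT, CT = 288 * Real.exp 6 / (8 * η) := ⟨_, rfl⟩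
  have hCT1 : 1 ≤ CT := by
    rw [hCTd, le_div_iff₀ (by positivity)]
    have := Real.add_one_le_exp (6:ℝ)
    nlinarith
  obtain ⟨CN', hCN'⟩ : ∃ CN', CN' = (j + 1) * CN := ⟨_, rfl⟩
  have hCN'0 : 0 < CN' := by rw [hCN']; positivity
  obtain ⟨ε1, hε1⟩ : ∃ ε1, ε1 = ε / 2 := ⟨_, rfl⟩
  have hε10 : 0 < ε1 := by rw [hε1]; positivity
  have hαC0 : 0 ≤ |Real.log (2 * C)| + 2 * CN' + 5 * (Real.log CT + (1 + 0)) := by
    have := Real.log_nonneg hCT1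
    have := abs_nonneg (Real.log (2 * C))
    linarith
  have hαB0 : 0 ≤ |Real.log (2 * 5)| + 2 * CN' + 5 * (Real.log 1 + (1 + 0)) := by
    have := abs_nonneg (Real.log (2 * 5))
    rw [Real.log_one]
    linarith
  filter_upwards [eventually_ge_atTop (1:ℝ), asym hκ2 _ hαC0 hε10, asym hκ2 _ hαB0 hε10,
    eventually_ge_atTop (Real.log 2 / ε1)] with u hu1 hCc hBb hu3 M sg hM0 hsg hone r a hr ha hra
  have hu0 : 0 < u := by linarith
  have hu3' : Real.log 2 ≤ ε1 * u := by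
    rw [div_le_iff₀ hε10] at hu3
    linarith
  set m : ℕ := ⌈u⌉₊ + 2 with hm
  have hbeq : 8 * η * u ^ (-(0:ℝ)) / (8 * ((⌈u⌉₊ + 2 : ℕ) : ℝ)) = η / m := by
    rw [neg_zero, Real.rpow_zero, ← hm]
    have : (0:ℝ) < m := by rw [hm]; positivity
    field_simp
  have hN := hcard u hu1
  have hTle := hgt_window (B := 0) (c1 := 8 * η) (u := u) (by positivity) hu1
  rw [hbeq] at hN hTle
  rw [← hCTd] at hTle
  set Nc : ℕ := (zset σ (hgt (η / m) + 3)).card with hNc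
  have hmpos : (0:ℝ) < m := by rw [hm]; positivity
  have hT0 : 0 < hgt (η / m) := by
    unfold hgt
    positivity
  have hu2m : u ≤ m := by
    rw [hm]; push_cast
    have := Nat.le_ceil u
    linarith
  have hlen : ∑ z ∈ (zset σ (hgt (η / m) + 3)).filter (fun z => 0 < z.im), Real.pi / z.im ≤ Λ := by
    apply hΛ
    intro z hz
    rw [Finset.mem_filter, mem_zset] at hz
    exact ⟨hz.1.1, hz.2, hz.1.2.2⟩
  have hres := hcore u η Λ M sg m hη hη1 hu0.le (by omega) hu2m hM0 hΛ0 hsg hlen hone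
    (2 * η + r) a (by linarith) ha (by linarith)
  rw [inc_shift]
  rw [← hNc, ← hK] at hres
  refine hres.trans ?_
  -- sizes
  have hjN : (((j * Nc : ℕ)) : ℝ) ≤ CN' * u ^ κ := by
    push_cast
    have h1 : 0 < u ^ κ := Real.rpow_pos_of_pos hu0 _
    have h2 : (Nc:ℝ) ≤ CN * u ^ κ := by
      refine hN.trans (le_of_eq ?_)
      rw [add_zero, one_mul]
    calc (j:ℝ) * Nc ≤ j * (CN * u ^ κ) := by gcongr
      _ ≤ (j + 1) * CN * u ^ κ := by
          have : 0 < CN * u ^ κ := by positivity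
          nlinarith
      _ = CN' * u ^ κ := by rw [hCN']
  have hKN : K ^ Nc ≤ 4 ^ (j * Nc) := by
    rw [pow_mul]
    gcongr
  have hpC := partC (Nc := j * Nc) (B := 0) hu1 le_rfl hC hCT1 hT0 hjN hCN'0 hTle hCc
  have hpB := partC (Nc := j * Nc) (B := 0) (T := 1) (C := 5) (CT := 1) hu1 le_rfl (by norm_num)
    le_rfl one_pos hjN hCN'0 (by rw [one_mul]; exact Real.one_le_rpow hu1 (by norm_num)) hBb
  have hKN0 : 1 ≤ K ^ Nc := one_le_pow₀ hK1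
  have e1 : 2 + 3 * K ^ Nc ≤ Real.exp (ε1 * u) := by
    refine le_trans ?_ hpB
    have : (1:ℝ) ≤ 4 ^ (j * Nc) := one_le_pow₀ (by norm_num)
    nlinarith
  have hσ'0 : 1 ≤ Real.exp (u * σ') := by
    rw [Real.one_le_exp_iff]
    have : 0 ≤ σ' := by linarith
    positivity
  have e2 : C * K ^ Nc * hgt (η / m) ^ 5 * (Real.exp (u * σ') + 1) ≤
      Real.exp (ε1 * u) * Real.exp (u * σ') := by
    calc C * K ^ Nc * hgt (η / m) ^ 5 * (Real.exp (u * σ') + 1)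
        ≤ C * 4 ^ (j * Nc) * hgt (η / m) ^ 5 * (2 * Real.exp (u * σ')) := by
          gcongr
          linarith
      _ = (C * 4 ^ (j * Nc) * hgt (η / m) ^ 5 * 2) * Real.exp (u * σ') := by ring
      _ ≤ _ := by gcongr
  have e3 : 2 * Real.exp (ε1 * u) ≤ Real.exp (ε * u) := by
    have h5 : ε * u = ε1 * u + ε1 * u := by rw [hε1]; ring
    rw [h5, Real.exp_add]
    have h6 : 2 ≤ Real.exp (ε1 * u) := by
      calc (2:ℝ) = Real.exp (Real.log 2) := (Real.exp_log (by norm_num)).symm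
        _ ≤ _ := Real.exp_le_exp.2 hu3'
    gcongr
  have hE := Real.exp_pos (ε1 * u)
  calc (2 + 3 * K ^ Nc) * M + 2 * (C * K ^ Nc * hgt (η / m) ^ 5 * (Real.exp (u * σ') + 1))
      ≤ Real.exp (ε1 * u) * M + 2 * (Real.exp (ε1 * u) * Real.exp (u * σ')) := by gcongr
    _ ≤ (2 * Real.exp (ε1 * u)) * (M + Real.exp (u * σ')) := by
        have : 0 ≤ Real.exp (ε1 * u) * M := by positivity
        nlinarith
    _ ≤ _ := by gcongr

/-- **One-sided bounds exclude zeros.** -/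
theorem one_sided_zero {ρ0 : ℂ} (h0 : zetaPole ρ0 = 0) {σ η Λ θ' : ℝ} (hσ : 1 / 2 < σ)
    (hσρ : σ < ρ0.re) (hη : 0 < η) (hη1 : η ≤ 1 / 3) (hΛ0 : 0 ≤ Λ)
    (hΛ : ∀ F : Finset ℂ, (∀ z ∈ F, σ < z.re ∧ 0 < z.im ∧ zetaPole z = 0) →
      ∑ z ∈ F, Real.pi / z.im ≤ Λ) (hθ : θ' < ρ0.re) :
    ∀ᶠ u : ℝ in atTop, ∀ sg : ℝ, (sg = 1 ∨ sg = -1) →
      ¬ (∀ r a : ℝ, 0 ≤ r → 0 < a → r + a ≤ Λ + 6 * η → sg * inc u a r ≤ Real.exp (u * θ')) := by
  have hβ1 : ρ0.re < 1 := zero_re_lt h0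
  obtain ⟨σ', hσ'1, hσ'2⟩ : ∃ σ', σ < σ' ∧ σ' < ρ0.re := exists_between hσρ
  obtain ⟨μ, hμ⟩ : ∃ μ, μ = max σ' θ' := ⟨_, rfl⟩
  have hμ1 : σ' ≤ μ := by rw [hμ]; exact le_max_left _ _
  have hμ2 : θ' ≤ μ := by rw [hμ]; exact le_max_right _ _
  have hμ3 : μ < ρ0.re := by rw [hμ]; exact max_lt hσ'2 hθ
  obtain ⟨ε, hε⟩ : ∃ ε, ε = (ρ0.re - μ) / 4 := ⟨_, rfl⟩
  have hε0 : 0 < ε := by rw [hε]; linarith
  have h1 := one_sided hσ (by linarith) hσ'1 (by linarith) hη hη1 hΛ0 hΛ hε0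
  have h2 := two_sided h0 (B := 0) (c := η) hσ hσρ le_rfl
    (by nlinarith [mul_pos (show 0 < 2 * σ - 1 by linarith) (show 0 < 2 * σ - 1 by linarith)])
    hη hε0
  have h3 : Tendsto (fun u : ℝ => u + 2 * η) atTop atTop :=
    tendsto_atTop_add_const_right _ _ tendsto_id
  filter_upwards [h1, h3.eventually h2, eventually_ge_atTop (1:ℝ),
    eventually_ge_atTop (Real.log 2 / ε)] with u g1 g2 hu1 hu3 sg hsg hcon
  have hu0 : 0 < u := by linarith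
  have g3 := g1 (Real.exp (u * θ')) sg (Real.exp_pos _).le hsg hcon
  have g4 := g2 _ (fun r a hr ha hra => g3 r a hr ha (by
    rw [neg_zero, Real.rpow_zero, mul_one] at hra
    exact hra))
  have hu3' : Real.log 2 ≤ ε * u := by
    rw [div_le_iff₀ hε0] at hu3
    linarith
  have e1 : Real.exp (u * θ') ≤ Real.exp (u * μ) := Real.exp_le_exp.2 (by gcongr)
  have e2 : Real.exp (u * σ') ≤ Real.exp (u * μ) := Real.exp_le_exp.2 (by gcongr)
  have e3 : Real.exp ((u + 2 * η) * (ρ0.re - ε)) ≤ Real.exp (ε * u) * (2 * Real.exp (u * μ)) := by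
    refine g4.trans ?_
    gcongr
    linarith
  have e4 : Real.exp (ε * u) * (2 * Real.exp (u * μ)) < Real.exp ((u + 2 * η) * (ρ0.re - ε)) := by
    have h5 : (2:ℝ) ≤ Real.exp (ε * u) := by
      calc (2:ℝ) = Real.exp (Real.log 2) := (Real.exp_log (by norm_num)).symm
        _ ≤ _ := Real.exp_le_exp.2 hu3'
    calc Real.exp (ε * u) * (2 * Real.exp (u * μ))
        ≤ Real.exp (ε * u) * (Real.exp (ε * u) * Real.exp (u * μ)) := by gcongr
      _ = Real.exp (u * (μ + 2 * ε)) := by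
          rw [← Real.exp_add, ← Real.exp_add]; congr 1; ring
      _ < Real.exp ((u + 2 * η) * (ρ0.re - ε)) := by
          apply Real.exp_lt_exp.2
          have h6 : ρ0.re - ε = μ + 3 * ε := by rw [hε]; ring
          rw [h6]
          have h7 : 0 < μ + 3 * ε := by linarith
          nlinarith
  linarith

end Pool.Agent.H6.Win
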