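import Pool.Agent.H6.Win.TwoSided

/-!
# Lower bounds for the oscillation on short windows: asymptotics
-/

set_option autoImplicit false

open Complex Filter Topology MeasureTheory Set Metric

namespace Pool.Agent.H6.Win

open Pool.Agent.H6

lemma hgt_window {c1 B u : ℝ} (hc1 : 0 < c1) (hu : 1 ≤ u) :
    hgt (c1 * u ^ (-B) / (8 * ((⌈u⌉₊ + 2 : ℕ) : ℝ))) ≤ 288 * Real.exp 6 / c1 * u ^ (1 + B) := by
  have hu0 : 0 < u := by linarith
  have hm : ((⌈u⌉₊ + 2 : ℕ) : ℝ) ≤ 4 * u := by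
    push_cast
    have := Nat.ceil_lt_add_one hu0.le
    linarith
  have hm0 : (0:ℝ) < ((⌈u⌉₊ + 2 : ℕ) : ℝ) := by positivity
  have hpow : u ^ (1 + B) = u / u ^ (-B) := by
    rw [Real.rpow_neg hu0.le, Real.rpow_add hu0, Real.rpow_one]
    field_simp
  have hp : 0 < u ^ (-B) := Real.rpow_pos_of_pos hu0 _
  rw [hpow]
  unfold hgt
  calc Real.exp 6 * 9 / (c1 * u ^ (-B) / (8 * ((⌈u⌉₊ + 2 : ℕ) : ℝ)))
      = 72 * Real.exp 6 * ((⌈u⌉₊ + 2 : ℕ) : ℝ) / (c1 * u ^ (-B)) := by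
        field_simp
        ring
    _ ≤ 72 * Real.exp 6 * (4 * u) / (c1 * u ^ (-B)) := by gcongr
    _ = 288 * Real.exp 6 / c1 * (u / u ^ (-B)) := by
        field_simp
        ring

/-- Number of zeros to be removed. -/
lemma card_window {σ κ B c1 : ℝ} (hσ : 1 / 2 < σ) (hσ1 : σ < 1) (hκ : 4 * σ * (1 - σ) < κ)
    (hc1 : 0 < c1) (hB : 0 ≤ B) :
    ∃ C : ℝ, 0 < C ∧ ∀ u : ℝ, 1 ≤ u →
      ((zset σ (hgt (c1 * u ^ (-B) / (8 * ((⌈u⌉₊ + 2 : ℕ) : ℝ))) + 3)).card : ℝ) ≤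
        C * u ^ ((1 + B) * κ) := by
  obtain ⟨Cd, hCd, hdens⟩ := zero_density hσ hσ1 hκ
  have hκ0 : 0 < κ := by
    have : 0 < 4 * σ * (1 - σ) := by
      have : 0 < 1 - σ := by linarith
      positivity
    linarith
  set CT : ℝ := 288 * Real.exp 6 / c1 with hCT
  have hCT0 : 0 < CT := by positivity
  refine ⟨Cd * (CT + 3) ^ κ, by positivity, fun u hu => ?_⟩
  have hu0 : 0 < u := by linarith
  set T := hgt (c1 * u ^ (-B) / (8 * ((⌈u⌉₊ + 2 : ℕ) : ℝ))) with hT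
  have hT0 : 0 < T := by
    rw [hT]
    unfold hgt
    have : 0 < u ^ (-B) := Real.rpow_pos_of_pos hu0 _
    positivity
  have hTle : T ≤ CT * u ^ (1 + B) := hgt_window hc1 hu
  have hT1 : (1:ℝ) ≤ T + 3 := by linarith
  have h1 := hdens (T + 3) (zset σ (T + 3)) hT1 (fun z hz => by
    rw [mem_zset] at hz
    exact ⟨hz.1.le, hz.2.1, hz.2.2⟩)
  refine h1.trans ?_
  have h2 : T + 3 ≤ (CT + 3) * u ^ (1 + B) := by
    have : 1 ≤ u ^ (1 + B) := Real.one_le_rpow hu (by linarith)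
    nlinarith
  calc Cd * (T + 3) ^ κ ≤ Cd * ((CT + 3) * u ^ (1 + B)) ^ κ := by gcongr
    _ = Cd * (CT + 3) ^ κ * u ^ ((1 + B) * κ) := by
        rw [Real.mul_rpow (by positivity) (by positivity), ← Real.rpow_mul hu0.le]
        ring

/-- first size estimate -/
lemma partA {u q B c1 δ CN ε1 : ℝ} {Nc : ℕ} (hu1 : 1 ≤ u) (hq1 : q < 1) (hB : 0 ≤ B)
    (hc10 : 0 < c1) (hc11 : c1 ≤ 1) (hδ0 : 0 < δ) (hδ1 : δ ≤ 1) (hCN : 0 < CN)
    (hN : (Nc : ℝ) ≤ CN * u ^ q)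
    (hA : (Real.log (8 / c1) + B + 3 + CN * (-Real.log (δ * c1 / (8 * (CN + 1))) + (B + 1))) *
      ((1 + u ^ q) * (1 + Real.log u)) ≤ ε1 * u) :
    Real.exp (-(ε1 * u)) ≤ (c1 * u ^ (-B) / 8) * Real.exp (-3) *
      (δ * (c1 * u ^ (-B)) / (8 * (Nc + 1))) ^ Nc := by
  have hu0 : 0 < u := by linarith
  have hlu : 0 ≤ Real.log u := Real.log_nonneg hu1
  have hup : 0 < u ^ (-B) := Real.rpow_pos_of_pos hu0 _
  have hN0 : (0:ℝ) ≤ Nc := Nat.cast_nonneg _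
  obtain ⟨c2, hc2⟩ : ∃ c2, c2 = δ * c1 / (8 * (CN + 1)) := ⟨_, rfl⟩
  rw [← hc2] at hA
  have hc20 : 0 < c2 := by rw [hc2]; positivity
  have hc21 : c2 ≤ 1 := by
    rw [hc2, div_le_one (by positivity)]
    nlinarith
  have hlc2 : 0 ≤ -Real.log c2 := by
    have := Real.log_nonpos hc20.le hc21
    linarith
  have hlc1 : 0 ≤ Real.log (8 / c1) := Real.log_nonneg (by
    rw [le_div_iff₀ hc10]; linarith)
  have huq0 : 0 < u ^ q := Real.rpow_pos_of_pos hu0 _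
  have huqu : u ^ q ≤ u := by
    calc u ^ q ≤ u ^ (1:ℝ) := Real.rpow_le_rpow_of_exponent_le hu1 hq1.le
      _ = u := Real.rpow_one u
  have hy : c2 * u ^ (-(B + 1)) ≤ δ * (c1 * u ^ (-B)) / (8 * (Nc + 1)) := by
    have h1 : (Nc:ℝ) + 1 ≤ (CN + 1) * u := by nlinarith
    have h2 : u ^ (-(B + 1)) = u ^ (-B) / u := by
      rw [show -(B + 1) = -B - 1 by ring, Real.rpow_sub_one hu0.ne']
    rw [h2, hc2]
    calc δ * c1 / (8 * (CN + 1)) * (u ^ (-B) / u) = δ * (c1 * u ^ (-B)) / (8 * ((CN + 1) * u)) := by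
          field_simp
      _ ≤ δ * (c1 * u ^ (-B)) / (8 * (Nc + 1)) := by gcongr
  have hy0 : 0 < c2 * u ^ (-(B + 1)) := by positivity
  have hy1 : 0 < δ * (c1 * u ^ (-B)) / (8 * (Nc + 1)) := by positivity
  have hlogy : Real.log c2 - (B + 1) * Real.log u ≤
      Real.log (δ * (c1 * u ^ (-B)) / (8 * (Nc + 1))) := by
    have := Real.log_le_log hy0 hy
    rw [Real.log_mul hc20.ne' (by positivity), Real.log_rpow hu0] at this
    linarith
  have hpos : 0 < (c1 * u ^ (-B) / 8) * Real.exp (-3) *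
    (δ * (c1 * u ^ (-B)) / (8 * (Nc + 1))) ^ Nc := by positivity
  rw [← Real.le_log_iff_exp_le hpos, Real.log_mul (by positivity) (by positivity),
    Real.log_mul (by positivity) (by positivity), Real.log_exp, Real.log_pow]
  have e1 : Real.log (c1 * u ^ (-B) / 8) = -Real.log (8 / c1) - B * Real.log u := by
    rw [Real.log_div (by positivity) (by norm_num), Real.log_mul hc10.ne' hup.ne',
      Real.log_rpow hu0, Real.log_div (by norm_num) hc10.ne']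
    ring
  rw [e1]
  generalize Real.log (δ * (c1 * u ^ (-B)) / (8 * (Nc + 1))) = ly at hlogy ⊢
  generalize Real.log c2 = l2 at hlogy hlc2 hA
  generalize Real.log (8 / c1) = l1 at hlc1 hA ⊢
  generalize Real.log u = lu at *
  generalize u ^ q = uq at *
  generalize (Nc:ℝ) = N at *
  obtain ⟨Q, hQ⟩ : ∃ Q, Q = (1 + uq) * (1 + lu) := ⟨_, rfl⟩
  rw [← hQ] at hA
  have g1 : 1 ≤ Q := by rw [hQ]; nlinarith
  have g2 : lu ≤ Q := by rw [hQ]; nlinarith
  have g3 : uq ≤ Q := by rw [hQ]; nlinarith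
  have g4 : uq * lu ≤ Q := by rw [hQ]; nlinarith
  have e2 : -(CN * (-l2 + (B + 1)) * Q) ≤ N * ly := by
    have f1 : N * (l2 - (B + 1) * lu) ≤ N * ly := by gcongr
    have f2 : N * (-l2 + (B + 1) * lu) ≤ (CN * uq) * (-l2 + (B + 1) * lu) := by
      have : 0 ≤ -l2 + (B + 1) * lu := by positivity
      gcongr
    have f4 : CN * ((-l2) * uq + (B + 1) * (uq * lu)) ≤ CN * ((-l2) * Q + (B + 1) * Q) := by
      gcongr
    have f5 : N * (l2 - (B + 1) * lu) = -(N * (-l2 + (B + 1) * lu)) := by ring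
    have f6 : (CN * uq) * (-l2 + (B + 1) * lu) = CN * ((-l2) * uq + (B + 1) * (uq * lu)) := by ring
    have f7 : CN * (-l2 + (B + 1)) * Q = CN * ((-l2) * Q + (B + 1) * Q) := by ring
    linarith
  have e3 : l1 ≤ l1 * Q := le_mul_of_one_le_right hlc1 g1
  have e4 : B * lu ≤ B * Q := by gcongr
  have e5 : (l1 + B + 3 + CN * (-l2 + (B + 1))) * Q = l1 * Q + B * Q + 3 * Q +
      CN * (-l2 + (B + 1)) * Q := by ring
  linarith

/-- second size estimate -/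
lemma partC {u q B C CN CT T ε1 : ℝ} {Nc : ℕ} (hu1 : 1 ≤ u) (hB : 0 ≤ B) (hC : 0 < C)
    (hCT1 : 1 ≤ CT) (hT0 : 0 < T) (hN : (Nc : ℝ) ≤ CN * u ^ q) (hCN : 0 < CN)
    (hTle : T ≤ CT * u ^ (1 + B))
    (hA : (|Real.log (2 * C)| + 2 * CN + 5 * (Real.log CT + (1 + B))) *
      ((1 + u ^ q) * (1 + Real.log u)) ≤ ε1 * u) :
    C * 4 ^ Nc * T ^ 5 * 2 ≤ Real.exp (ε1 * u) := by
  have hu0 : 0 < u := by linarith
  have hlu : 0 ≤ Real.log u := Real.log_nonneg hu1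
  have hlog4 : Real.log 4 ≤ 2 := by
    have h5 : Real.log 4 = 2 * Real.log 2 := by
      rw [show (4:ℝ) = 2 ^ 2 by norm_num, Real.log_pow]; norm_num
    have := Real.log_two_lt_d9
    linarith
  have huq0 : 0 < u ^ q := Real.rpow_pos_of_pos hu0 _
  have hN0 : (0:ℝ) ≤ Nc := Nat.cast_nonneg _
  rw [← Real.log_le_iff_le_exp (by positivity)]
  have e1 : Real.log (C * 4 ^ Nc * T ^ 5 * 2) =
      Real.log (2 * C) + Nc * Real.log 4 + 5 * Real.log T := by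
    rw [show C * 4 ^ Nc * T ^ 5 * 2 = (2 * C) * 4 ^ Nc * T ^ 5 by ring,
      Real.log_mul (by positivity) (by positivity), Real.log_mul (by positivity) (by positivity),
      Real.log_pow, Real.log_pow]
    norm_num
  rw [e1]
  have e2 : Real.log T ≤ Real.log CT + (1 + B) * Real.log u := by
    have := Real.log_le_log hT0 hTle
    rwa [Real.log_mul (by positivity) (by positivity), Real.log_rpow hu0] at this
  have hlCT := Real.log_nonneg hCT1
  have hl0 := abs_nonneg (Real.log (2 * C))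
  have hl1 := le_abs_self (Real.log (2 * C))
  generalize |Real.log (2 * C)| = l2a at *
  generalize Real.log (2 * C) = l2 at *
  generalize Real.log T = lT at *
  generalize Real.log CT = lCT at *
  generalize Real.log u = lu at *
  generalize u ^ q = uq at *
  obtain ⟨Q, hQ⟩ : ∃ Q, Q = (1 + uq) * (1 + lu) := ⟨_, rfl⟩
  rw [← hQ] at hA
  have g1 : 1 ≤ Q := by rw [hQ]; nlinarith
  have g2 : lu ≤ Q := by rw [hQ]; nlinarith
  have g3 : uq ≤ Q := by rw [hQ]; nlinarith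
  have e3 : l2a ≤ l2a * Q := le_mul_of_one_le_right hl0 g1
  have e4 : (Nc:ℝ) * Real.log 4 ≤ 2 * CN * Q := by
    calc (Nc:ℝ) * Real.log 4 ≤ (CN * uq) * 2 := by gcongr
      _ ≤ (CN * Q) * 2 := by gcongr
      _ = _ := by ring
  have e5 : lCT ≤ lCT * Q := le_mul_of_one_le_right hlCT g1
  have e6 : (1 + B) * lu ≤ (1 + B) * Q := by gcongr
  have e7 : (l2a + 2 * CN + 5 * (lCT + (1 + B))) * Q = l2a * Q + 2 * CN * Q +
      5 * (lCT * Q + (1 + B) * Q) := by ring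
  linarith

/-- the final comparison -/
lemma partD {u β σ' ε ε1 M L G1 G2 : ℝ} (hu0 : 0 < u) (hM0 : 0 ≤ M) (hσ' : 0 ≤ σ')
    (h8 : 8 * ε1 ≤ ε) (hgap : σ' + 7 * ε1 ≤ β) (hε1 : 0 < ε1)
    (hu3' : Real.log 2 ≤ ε1 * u) (hL : Real.exp (-(ε1 * u)) ≤ L) (hG1 : G1 ≤ Real.exp (ε1 * u))
    (hG20 : 0 ≤ G2) (hG2 : G2 * 2 ≤ Real.exp (ε1 * u))
    (hmain : Real.exp (u * β) * L ≤ M * G1 + G2 * (Real.exp (u * σ') + 1)) :
    Real.exp (u * (β - ε)) ≤ M := by
  have hσ'0 : 1 ≤ Real.exp (u * σ') := by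
    rw [Real.one_le_exp_iff]
    positivity
  have k1 : Real.exp (u * β) * Real.exp (-(ε1 * u)) ≤
      M * Real.exp (ε1 * u) + Real.exp (ε1 * u) * Real.exp (u * σ') := by
    calc Real.exp (u * β) * Real.exp (-(ε1 * u))
        ≤ Real.exp (u * β) * L := by gcongr
      _ ≤ M * G1 + G2 * (Real.exp (u * σ') + 1) := hmain
      _ ≤ M * Real.exp (ε1 * u) + G2 * (2 * Real.exp (u * σ')) := by
          gcongr
          linarith
      _ = M * Real.exp (ε1 * u) + (G2 * 2) * Real.exp (u * σ') := by ring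
      _ ≤ _ := by gcongr
  set E : ℝ := Real.exp (u * β) * Real.exp (-(ε1 * u)) with hE
  have hexp2 : ∀ x : ℝ, Real.log 2 ≤ x → Real.exp (-x) ≤ 1 / 2 := by
    intro x hx
    rw [Real.exp_neg, inv_eq_one_div]
    apply one_div_le_one_div_of_le (by norm_num)
    calc (2:ℝ) = Real.exp (Real.log 2) := (Real.exp_log (by norm_num)).symm
      _ ≤ Real.exp x := Real.exp_le_exp.2 hx
  have k2 : Real.exp (ε1 * u) * Real.exp (u * σ') ≤ E / 2 := by
    rw [hE, ← Real.exp_add, ← Real.exp_add]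
    have h5 : ε1 * u + u * σ' ≤ (u * β + -(ε1 * u)) + -(ε1 * u) := by
      nlinarith
    calc Real.exp (ε1 * u + u * σ') ≤ Real.exp ((u * β + -(ε1 * u)) + -(ε1 * u)) :=
          Real.exp_le_exp.2 h5
      _ = Real.exp (u * β + -(ε1 * u)) * Real.exp (-(ε1 * u)) := Real.exp_add _ _
      _ ≤ Real.exp (u * β + -(ε1 * u)) * (1 / 2) := by
          gcongr
          exact hexp2 _ hu3'
      _ = _ := by ring
  have k3 : E / 2 ≤ M * Real.exp (ε1 * u) := by linarith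
  have k4 : Real.exp (u * (β - ε)) * Real.exp (ε1 * u) ≤ E / 2 := by
    rw [hE, ← Real.exp_add, ← Real.exp_add]
    have h5 : u * (β - ε) + ε1 * u ≤ (u * β + -(ε1 * u)) + -(ε1 * u) := by nlinarith
    calc Real.exp (u * (β - ε) + ε1 * u) ≤ Real.exp ((u * β + -(ε1 * u)) + -(ε1 * u)) :=
          Real.exp_le_exp.2 h5
      _ = Real.exp (u * β + -(ε1 * u)) * Real.exp (-(ε1 * u)) := Real.exp_add _ _
      _ ≤ Real.exp (u * β + -(ε1 * u)) * (1 / 2) := by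
          gcongr
          exact hexp2 _ hu3'
      _ = _ := by ring
  exact le_of_mul_le_mul_right (k4.trans k3) (Real.exp_pos _)

/-- **Oscillation on short windows.** If `ρ0` is a zero with real part greater than `σ`, then
`ψ(x) - x` has increments of size at least `X ^ (Re ρ0 - ε)` in every window
`[X, X exp (c / (log X) ^ B)]` with `X` large. -/
theorem two_sided {ρ0 : ℂ} (h0 : zetaPole ρ0 = 0) {σ B c ε : ℝ} (hσ : 1 / 2 < σ)
    (hσρ : σ < ρ0.re) (hB : 0 ≤ B) (hB1 : 4 * σ * (1 - σ) * (1 + B) < 1) (hc : 0 < c)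
    (hε : 0 < ε) :
    ∀ᶠ u : ℝ in atTop, ∀ M : ℝ,
      (∀ r a : ℝ, 0 ≤ r → 0 < a → r + a ≤ c * u ^ (-B) → |inc u a r| ≤ M) →
      Real.exp (u * (ρ0.re - ε)) ≤ M := by
  have hβ1 : ρ0.re < 1 := zero_re_lt h0
  set ε1 : ℝ := min ε (ρ0.re - σ) / 8 with hε1
  have hε10 : 0 < ε1 := by
    have : 0 < min ε (ρ0.re - σ) := lt_min hε (by linarith)
    positivity
  have hε1a : 8 * ε1 ≤ ε := by
    have := min_le_left ε (ρ0.re - σ)
    linarith
  have hε1b : 8 * ε1 ≤ ρ0.re - σ := by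
    have := min_le_right ε (ρ0.re - σ)
    linarith
  clear_value ε1
  obtain ⟨σ', hσ'⟩ : ∃ σ', σ' = σ + ε1 := ⟨_, rfl⟩
  obtain ⟨C, δ, hC, hδ0, hδ1, hcore⟩ := two_sided_core hσ (show σ < σ' by linarith)
    (by linarith) h0 hσρ
  -- the density exponent
  obtain ⟨κ, hκ1, hκ2⟩ : ∃ κ, 4 * σ * (1 - σ) < κ ∧ κ < 1 / (1 + B) := by
    apply exists_between
    rw [lt_div_iff₀ (by linarith)]
    exact hB1
  obtain ⟨q, hq⟩ : ∃ q, q = (1 + B) * κ := ⟨_, rfl⟩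
  have hq1 : q < 1 := by
    rw [lt_div_iff₀ (by linarith)] at hκ2
    linarith
  obtain ⟨c1, hc1⟩ : ∃ c1, c1 = min c (1 / (2 * (1 + ‖ρ0‖))) := ⟨_, rfl⟩
  have hn0 := norm_nonneg ρ0
  have hc10 : 0 < c1 := by rw [hc1]; exact lt_min hc (by positivity)
  have hc1c : c1 ≤ c := by rw [hc1]; exact min_le_left _ _
  have hc1ρ : c1 ≤ 1 / (2 * (1 + ‖ρ0‖)) := by rw [hc1]; exact min_le_right _ _
  have hc11 : c1 ≤ 1 := by
    refine hc1ρ.trans ?_
    rw [div_le_one (by positivity)]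
    linarith
  obtain ⟨CN, hCN, hcard⟩ := card_window (B := B) hσ (by linarith) hκ1 hc10 hB
  rw [← hq] at hcard
  have hCT1 : 1 ≤ 288 * Real.exp 6 / c1 := by
    rw [le_div_iff₀ hc10]
    have := Real.add_one_le_exp (6:ℝ)
    nlinarith
  have hlc2 : 0 ≤ -Real.log (δ * c1 / (8 * (CN + 1))) := by
    have : Real.log (δ * c1 / (8 * (CN + 1))) ≤ 0 := by
      apply Real.log_nonpos (by positivity)
      rw [div_le_one (by positivity)]
      nlinarith
    linarith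
  have hlc1 : 0 ≤ Real.log (8 / c1) := Real.log_nonneg (by
    rw [le_div_iff₀ hc10]; linarith)
  have hαA0 : 0 ≤ Real.log (8 / c1) + B + 3 +
      CN * (-Real.log (δ * c1 / (8 * (CN + 1))) + (B + 1)) := by
    have : 0 ≤ CN * (-Real.log (δ * c1 / (8 * (CN + 1))) + (B + 1)) := by positivity
    linarith
  have hαC0 : 0 ≤ |Real.log (2 * C)| + 2 * CN +
      5 * (Real.log (288 * Real.exp 6 / c1) + (1 + B)) := by
    have := Real.log_nonneg hCT1
    have := abs_nonneg (Real.log (2 * C))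
    linarith
  have hαB0 : 0 ≤ |Real.log (2 * 1)| + 2 * CN + 5 * (Real.log 1 + (1 + B)) := by
    have := abs_nonneg (Real.log (2 * 1))
    rw [Real.log_one]
    linarith
  filter_upwards [eventually_ge_atTop (1:ℝ), eventually_ge_atTop |ρ0.im|,
    asym hq1 _ hαA0 hε10, asym hq1 _ hαC0 hε10, asym hq1 _ hαB0 hε10,
    eventually_ge_atTop (Real.log 2 / ε1)] with u hu1 hu2 hA hCc hBb hu3 M hM
  have hu0 : 0 < u := by linarith
  have hu3' : Real.log 2 ≤ ε1 * u := by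
    rw [div_le_iff₀ hε10] at hu3
    linarith
  have hup : 0 < u ^ (-B) := Real.rpow_pos_of_pos hu0 _
  have hup1 : u ^ (-B) ≤ 1 := Real.rpow_le_one_of_one_le_of_nonpos hu1 (by linarith)
  have hcm := hcore u (c1 * u ^ (-B)) M (⌈u⌉₊ + 2) (by positivity) (by
    calc c1 * u ^ (-B) ≤ c1 * 1 := by gcongr
      _ ≤ _ := by rw [mul_one]; exact hc1ρ) hu0.le hu2 (by omega) (by
    push_cast
    have := Nat.le_ceil u
    linarith) (fun r a hr ha hra => hM r a hr ha (hra.trans (by gcongr)))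
  have hN := hcard u hu1
  have hTle : hgt (c1 * u ^ (-B) / (8 * ((⌈u⌉₊ + 2 : ℕ) : ℝ))) ≤
    288 * Real.exp 6 / c1 * u ^ (1 + B) := hgt_window hc10 hu1
  have hT0 : 0 < hgt (c1 * u ^ (-B) / (8 * ((⌈u⌉₊ + 2 : ℕ) : ℝ))) := by
    unfold hgt
    positivity
  have hM0 : 0 ≤ M := (abs_nonneg _).trans (hM 0 (c * u ^ (-B)) le_rfl (by positivity) (by simp))
  have hpA := partA hu1 hq1 hB hc10 hc11 hδ0 hδ1 hCN hN hA
  have hpC := partC hu1 hB hC hCT1 hT0 hN hCN hTle hCc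
  have hpB := partC (T := 1) hu1 hB one_pos le_rfl one_pos hN hCN
    (by rw [one_mul]; exact Real.one_le_rpow hu1 (by linarith)) hBb
  refine partD (β := ρ0.re) (σ' := σ') hu0 hM0 (by linarith) hε1a (by linarith) hε10 hu3' hpA
    (G1 := 3 ^ (zset σ (hgt (c1 * u ^ (-B) / (8 * ((⌈u⌉₊ + 2 : ℕ) : ℝ))) + 3)).card) ?_
    (by positivity) hpC hcm
  refine le_trans ?_ hpB
  have h34 : (3:ℝ) ^ (zset σ (hgt (c1 * u ^ (-B) / (8 * ((⌈u⌉₊ + 2 : ℕ) : ℝ))) + 3)).card ≤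
      4 ^ (zset σ (hgt (c1 * u ^ (-B) / (8 * ((⌈u⌉₊ + 2 : ℕ) : ℝ))) + 3)).card := by
    gcongr
    norm_num
  have h4 : (0:ℝ) ≤ 4 ^ (zset σ (hgt (c1 * u ^ (-B) / (8 * ((⌈u⌉₊ + 2 : ℕ) : ℝ))) + 3)).card := by
    positivity
  linarith

end Pool.Agent.H6.Win
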