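import Pool.Agent.H6.Win.Unif
import Pool.Agent.H6.Win.TwoSided2

/-!
# Lower bounds for the oscillation, uniform in the zero, with a loss `exp (- u ^ τ)`
-/

set_option autoImplicit false

open Complex Filter Topology MeasureTheory Set Metric

namespace Pool.Agent.H6.Win

open Pool.Agent.H6

lemma asymt {q τ : ℝ} (hq : q < τ) (hτ : 0 < τ) (α : ℝ) (hα : 0 ≤ α) {ε : ℝ} (hε : 0 < ε) :
    ∀ᶠ u : ℝ in atTop, α * ((1 + u ^ q) * (1 + Real.log u)) ≤ ε * u ^ τ := by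
  set q0 : ℝ := max q 0 with hq0
  have hq00 : 0 ≤ q0 := le_max_right _ _
  have hq01 : q0 < τ := max_lt hq hτ
  set η : ℝ := (τ - q0) / 2 with hη
  have hη0 : 0 < η := by rw [hη]; linarith
  have hlim := tendsto_rpow_neg_atTop hη0
  have hlim2 : Tendsto (fun u : ℝ => α * (2 * (1 + 1 / η)) * u ^ (-η)) atTop (𝓝 0) := by
    have := hlim.const_mul (α * (2 * (1 + 1 / η)))
    simpa using this
  filter_upwards [eventually_ge_atTop (1:ℝ), hlim2.eventually (gt_mem_nhds hε)] with u hu1 hu2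
  have hu0 : 0 < u := by linarith
  have e1 : 1 + u ^ q ≤ 2 * u ^ q0 := by
    have a1 : 1 ≤ u ^ q0 := Real.one_le_rpow hu1 hq00
    have a2 : u ^ q ≤ u ^ q0 := Real.rpow_le_rpow_of_exponent_le hu1 (le_max_left _ _)
    linarith
  have e2 : 1 + Real.log u ≤ (1 + 1 / η) * u ^ η := by
    have a1 : 1 ≤ u ^ η := Real.one_le_rpow hu1 hη0.le
    have a2 := Real.log_le_rpow_div hu0.le hη0
    calc 1 + Real.log u ≤ u ^ η + u ^ η / η := by linarith
      _ = _ := by ring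
  have h0 : 0 ≤ 1 + Real.log u := by
    have := Real.log_nonneg hu1
    linarith
  have e3 : u ^ q0 * u ^ η = u ^ (-η) * u ^ τ := by
    rw [← Real.rpow_add hu0, ← Real.rpow_add hu0]
    congr 1
    rw [hη]
    ring
  have hut : 0 < u ^ τ := Real.rpow_pos_of_pos hu0 _
  calc α * ((1 + u ^ q) * (1 + Real.log u)) ≤ α * ((2 * u ^ q0) * ((1 + 1 / η) * u ^ η)) := by
        gcongr
    _ = α * (2 * (1 + 1 / η)) * (u ^ q0 * u ^ η) := by ring
    _ = α * (2 * (1 + 1 / η)) * u ^ (-η) * u ^ τ := by rw [e3]; ring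
    _ ≤ ε * u ^ τ := by gcongr

/-- second size estimate -/
lemma partC' {u q B C CN CT T E : ℝ} {Nc : ℕ} (hu1 : 1 ≤ u) (hB : 0 ≤ B) (hC : 0 < C)
    (hCT1 : 1 ≤ CT) (hT0 : 0 < T) (hN : (Nc : ℝ) ≤ CN * u ^ q) (hCN : 0 < CN)
    (hTle : T ≤ CT * u ^ (1 + B))
    (hA : (|Real.log (2 * C)| + 2 * CN + 5 * (Real.log CT + (1 + B))) *
      ((1 + u ^ q) * (1 + Real.log u)) ≤ E) :
    C * 4 ^ Nc * T ^ 5 * 2 ≤ Real.exp E := by
  have hu0 : 0 < u := by linarith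
  have h1 : E / u * u = E := by field_simp
  have h2 := partC (ε1 := E / u) hu1 hB hC hCT1 hT0 hN hCN hTle (by rw [h1]; exact hA)
  rwa [h1] at h2

/-- the final comparison -/
lemma partD' {u β σ' E M L G1 G2 : ℝ} (hu0 : 0 < u) (hM0 : 0 ≤ M) (hσ' : 0 ≤ σ')
    (hgap : u * σ' + 7 * E ≤ u * β) (hE : 0 < E)
    (hu3' : Real.log 2 ≤ E) (hL : Real.exp (-E) ≤ L) (hG1 : G1 ≤ Real.exp E)
    (hG20 : 0 ≤ G2) (hG2 : G2 * 2 ≤ Real.exp E)
    (hmain : Real.exp (u * β) * L ≤ M * G1 + G2 * (Real.exp (u * σ') + 1)) :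
    Real.exp (u * β - 8 * E) ≤ M := by
  have h1 : E / u * u = E := by field_simp
  have h2 := partD (ε := 8 * (E / u)) (ε1 := E / u) (β := β) (σ' := σ') hu0 hM0 hσ' le_rfl ?_
    (by positivity) (by rw [h1]; exact hu3') (by rw [h1]; exact hL) (by rw [h1]; exact hG1) hG20
    (by rw [h1]; exact hG2) hmain
  · have h3 : u * (β - 8 * (E / u)) = u * β - 8 * E := by
      rw [mul_sub]; congr 1; field_simp
    rwa [h3] at h2
  · have h3 : u * (σ' + 7 * (E / u)) ≤ u * β := by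
      have : u * (σ' + 7 * (E / u)) = u * σ' + 7 * E := by
        rw [mul_add]; congr 1; field_simp
      rw [this]; exact hgap
    exact le_of_mul_le_mul_left h3 hu0

/-- size of the interpolation coefficients -/
lemma partG' {u q B c1 CN E r r1 m : ℝ} {N : ℕ} (hu1 : 1 ≤ u) (hq1 : q < 1) (hB : 0 ≤ B)
    (hc10 : 0 < c1) (hc11 : c1 ≤ 1) (hr1 : 0 < r1) (hr11 : r1 ≤ 1) (hr : r1 / u ≤ r)
    (hCN : 0 < CN)
    (hN : (N : ℝ) ≤ CN * u ^ q) (hm : 0 < m) (hm4 : m ≤ 4 * u)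
    (hA : (Real.log (32 / c1) + (1 + B) + Real.log (CN + 1) + 1 +
      2 * CN * (Real.log (512 * (CN + 1) ^ 2 / (r1 * c1)) + (B + 3))) *
      ((1 + u ^ q) * (1 + Real.log u)) ≤ E) :
    8 * m / (c1 * u ^ (-B)) * (N + 1) * (512 * (N + 1) ^ 2 / (r * (c1 * u ^ (-B)))) ^ (2 * N) ≤
      Real.exp E := by
  have hu0 : 0 < u := by linarith
  have hlu : 0 ≤ Real.log u := Real.log_nonneg hu1
  have hup : 0 < u ^ (-B) := Real.rpow_pos_of_pos hu0 _
  have hN0 : (0:ℝ) ≤ N := Nat.cast_nonneg _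
  have huq0 : 0 < u ^ q := Real.rpow_pos_of_pos hu0 _
  have hr0 : 0 < r := lt_of_lt_of_le (by positivity) hr
  have huqu : u ^ q ≤ u := by
    calc u ^ q ≤ u ^ (1:ℝ) := Real.rpow_le_rpow_of_exponent_le hu1 hq1.le
      _ = u := Real.rpow_one u
  have hN1 : (N:ℝ) + 1 ≤ (CN + 1) * u := by nlinarith
  obtain ⟨C2, hC2⟩ : ∃ C2, C2 = 512 * (CN + 1) ^ 2 / (r1 * c1) := ⟨_, rfl⟩
  rw [← hC2] at hA
  have hC21 : 1 ≤ C2 := by
    rw [hC2, le_div_iff₀ (by positivity)]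
    nlinarith
  have e1 : Real.log (8 * m / (c1 * u ^ (-B))) ≤ Real.log (32 / c1) + (1 + B) * Real.log u := by
    have h1 : 8 * m / (c1 * u ^ (-B)) ≤ 32 / c1 * u ^ (1 + B) := by
      have h2 : u ^ (1 + B) = u / u ^ (-B) := by
        rw [Real.rpow_neg hu0.le, Real.rpow_add hu0, Real.rpow_one]
        field_simp
      rw [h2]
      calc 8 * m / (c1 * u ^ (-B)) ≤ 8 * (4 * u) / (c1 * u ^ (-B)) := by gcongr
        _ = _ := by field_simp; norm_num
    have h3 := Real.log_le_log (by positivity) h1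
    rwa [Real.log_mul (by positivity) (by positivity), Real.log_rpow hu0] at h3
  have e2 : Real.log ((N:ℝ) + 1) ≤ Real.log (CN + 1) + Real.log u := by
    have h3 := Real.log_le_log (by positivity) hN1
    rwa [Real.log_mul (by positivity) (by positivity)] at h3
  have e3 : Real.log (512 * ((N:ℝ) + 1) ^ 2 / (r * (c1 * u ^ (-B)))) ≤
      Real.log C2 + (B + 3) * Real.log u := by
    have h1 : 512 * ((N:ℝ) + 1) ^ 2 / (r * (c1 * u ^ (-B))) ≤ C2 * u ^ (B + 3) := by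
      have h2 : u ^ (B + 3) = u ^ 3 / u ^ (-B) := by
        rw [Real.rpow_neg hu0.le, Real.rpow_add hu0]
        norm_num
        ring
      rw [h2, hC2]
      calc 512 * ((N:ℝ) + 1) ^ 2 / (r * (c1 * u ^ (-B))) ≤
            512 * ((CN + 1) * u) ^ 2 / (r1 / u * (c1 * u ^ (-B))) := by gcongr
        _ = _ := by field_simp
    have h3 := Real.log_le_log (by positivity) h1
    rwa [Real.log_mul (by positivity) (by positivity), Real.log_rpow hu0] at h3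
  rw [← Real.log_le_iff_le_exp (by positivity), Real.log_mul (by positivity) (by positivity),
    Real.log_mul (by positivity) (by positivity), Real.log_pow]
  have hl1 : 0 ≤ Real.log (32 / c1) := Real.log_nonneg (by
    rw [le_div_iff₀ hc10]; linarith)
  have hl2 : 0 ≤ Real.log (CN + 1) := Real.log_nonneg (by linarith)
  have hl3 : 0 ≤ Real.log C2 := Real.log_nonneg hC21
  push_cast
  generalize Real.log (8 * m / (c1 * u ^ (-B))) = x1 at *
  generalize Real.log ((N:ℝ) + 1) = x2 at *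
  generalize Real.log (512 * ((N:ℝ) + 1) ^ 2 / (r * (c1 * u ^ (-B)))) = x3 at *
  generalize Real.log (32 / c1) = l1 at *
  generalize Real.log (CN + 1) = l2 at *
  generalize Real.log C2 = l3 at *
  generalize Real.log u = lu at *
  generalize u ^ q = uq at *
  generalize (N:ℝ) = N at *
  obtain ⟨Q, hQ⟩ : ∃ Q, Q = (1 + uq) * (1 + lu) := ⟨_, rfl⟩
  rw [← hQ] at hA
  have g1 : 1 ≤ Q := by rw [hQ]; nlinarith
  have g2 : lu ≤ Q := by rw [hQ]; nlinarith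
  have g3 : uq ≤ Q := by rw [hQ]; nlinarith
  have g4 : uq * lu ≤ Q := by rw [hQ]; nlinarith
  have f1 : N * x3 ≤ CN * (l3 * Q + (B + 3) * Q) := by
    calc N * x3 ≤ N * (l3 + (B + 3) * lu) := by gcongr
      _ ≤ (CN * uq) * (l3 + (B + 3) * lu) := by
          have : 0 ≤ l3 + (B + 3) * lu := by positivity
          gcongr
      _ = CN * (l3 * uq + (B + 3) * (uq * lu)) := by ring
      _ ≤ CN * (l3 * Q + (B + 3) * Q) := by gcongr
  have f2 : l1 ≤ l1 * Q := le_mul_of_one_le_right hl1 g1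
  have f3 : l2 ≤ l2 * Q := le_mul_of_one_le_right hl2 g1
  have f4 : (1 + B) * lu ≤ (1 + B) * Q := by gcongr
  have e5 : (l1 + (1 + B) + l2 + 1 + 2 * CN * (l3 + (B + 3))) * Q =
      l1 * Q + (1 + B) * Q + l2 * Q + Q + 2 * (CN * (l3 * Q + (B + 3) * Q)) := by ring
  have e6 : 2 * N * x3 = 2 * (N * x3) := by ring
  linarith

/-- **Oscillation on short windows, uniform in the zero.** For large `u` and every zero `ρ0` with
`Re ρ0 ≥ σ + g`, `|Im ρ0| ≤ u ^ A`, the function `ψ(x) - x` has an increment of size at least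
`X ^ Re ρ0 exp (- (log X) ^ τ)` in `[X, X exp (c / (log X) ^ B)]`, `X = e ^ u`, provided
`τ > 4 σ (1 - σ) (1 + B)` and `τ > A - B`. -/
theorem two_sided_tau {σ A B c τ g : ℝ} (hσ : 1 / 2 < σ) (hσ1 : σ < 1) (hB : 0 ≤ B)
    (hB1 : 4 * σ * (1 - σ) * (1 + B) < τ) (hA1 : A < B + τ) (hτ1 : τ < 1) (hc : 0 < c)
    (hg : 0 < g) :
    ∀ᶠ u : ℝ in atTop, ∀ ρ0 : ℂ, zetaPole ρ0 = 0 → σ + g ≤ ρ0.re → |ρ0.im| ≤ u ^ A →
      ∀ M : ℝ, (∀ r a : ℝ, 0 ≤ r → 0 < a → r + a ≤ c * u ^ (-B) → |inc u a r| ≤ M) →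
      Real.exp (u * ρ0.re - u ^ τ) ≤ M := by
  have hκ0 : 0 < 4 * σ * (1 - σ) * (1 + B) := by
    have : 0 < 1 - σ := by linarith
    positivity
  have hτ0 : 0 < τ := by linarith
  obtain ⟨g1, hg1⟩ : ∃ g1, g1 = min g (1 - σ) / 2 := ⟨_, rfl⟩
  have hg10 : 0 < g1 := by
    have : 0 < min g (1 - σ) := lt_min hg (by linarith)
    rw [hg1]; positivity
  have hg1a : 2 * g1 ≤ g := by
    have := min_le_left g (1 - σ)
    linarith
  have hg1b : 2 * g1 ≤ 1 - σ := by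
    have := min_le_right g (1 - σ)
    linarith
  obtain ⟨σ', hσ'⟩ : ∃ σ', σ' = σ + g1 := ⟨_, rfl⟩
  obtain ⟨C, hC, hcore⟩ := unif_core hσ (show σ < σ' by linarith) (by linarith)
  -- the density exponent
  obtain ⟨κ, hκ1, hκ2⟩ : ∃ κ, 4 * σ * (1 - σ) < κ ∧ κ < τ / (1 + B) := by
    apply exists_between
    rw [lt_div_iff₀ (by linarith)]
    exact hB1
  obtain ⟨q, hq⟩ : ∃ q, q = (1 + B) * κ := ⟨_, rfl⟩
  have hqτ : q < τ := by
    rw [lt_div_iff₀ (by linarith)] at hκ2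
    linarith
  obtain ⟨c1, hc1⟩ : ∃ c1, c1 = min c 1 := ⟨_, rfl⟩
  have hc10 : 0 < c1 := by rw [hc1]; exact lt_min hc one_pos
  have hc1c : c1 ≤ c := by rw [hc1]; exact min_le_left _ _
  have hc11 : c1 ≤ 1 := by rw [hc1]; exact min_le_right _ _
  obtain ⟨CN, hCN, hcard⟩ := card_window (B := B) hσ hσ1 hκ1 hc10 hB
  rw [← hq] at hcard
  have hCT1 : 1 ≤ 288 * Real.exp 6 / c1 := by
    rw [le_div_iff₀ hc10]
    have := Real.add_one_le_exp (6:ℝ)
    nlinarith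
  have hαC0 : 0 ≤ |Real.log (2 * C)| + 2 * CN +
      5 * (Real.log (288 * Real.exp 6 / c1) + (1 + B)) := by
    have := Real.log_nonneg hCT1
    have := abs_nonneg (Real.log (2 * C))
    linarith
  have hαB0 : 0 ≤ |Real.log (2 * 1)| + 2 * CN + 5 * (Real.log 1 + (1 + B)) := by
    have := abs_nonneg (Real.log (2 * 1))
    rw [Real.log_one]
    linarith
  have hαG0 : 0 ≤ Real.log (32 / c1) + (1 + B) + Real.log (CN + 1) + 1 +
      2 * CN * (Real.log (512 * (CN + 1) ^ 2 / (1 / 24 * c1)) + (B + 3)) := by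
    have h1 : 0 ≤ Real.log (32 / c1) := Real.log_nonneg (by
      rw [le_div_iff₀ hc10]; linarith)
    have h2 : 0 ≤ Real.log (CN + 1) := Real.log_nonneg (by linarith)
    have h3 : 0 ≤ Real.log (512 * (CN + 1) ^ 2 / (1 / 24 * c1)) := Real.log_nonneg (by
      rw [le_div_iff₀ (by positivity)]
      nlinarith)
    positivity
  filter_upwards [eventually_ge_atTop (1:ℝ), asymt hqτ hτ0 _ hαG0 (show (0:ℝ) < 1 / 24 by norm_num),
    asymt hqτ hτ0 _ hαC0 (show (0:ℝ) < 1 / 8 by norm_num),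
    asymt hqτ hτ0 _ hαB0 (show (0:ℝ) < 1 / 8 by norm_num),
    asymt (q := A - B) (show A - B < τ by linarith) hτ0 2 (by norm_num)
      (show (0:ℝ) < 1 / 12 by norm_num),
    asym hτ1 1 (by norm_num) hg10] with u hu1 hA hCc hBb hy hgapu ρ0 h0 hρ him M hM
  have hu0 : 0 < u := by linarith
  have hlu : 0 ≤ Real.log u := Real.log_nonneg hu1
  have hut0 : 0 < u ^ τ := Real.rpow_pos_of_pos hu0 _
  have huA0 : 0 < u ^ (A - B) := Real.rpow_pos_of_pos hu0 _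
  have hutu : u ^ τ ≤ u := by
    calc u ^ τ ≤ u ^ (1:ℝ) := Real.rpow_le_rpow_of_exponent_le hu1 hτ1.le
      _ = u := Real.rpow_one u
  have hy' : 2 + u ^ (A - B) ≤ 1 / 12 * u ^ τ := by
    refine le_trans ?_ hy
    nlinarith [mul_nonneg huA0.le hlu]
  have hgap' : u ^ τ ≤ g1 * u := by
    refine le_trans ?_ hgapu
    nlinarith [mul_nonneg hut0.le hlu]
  have hlog2 : Real.log 2 ≤ 1 / 8 * u ^ τ := by
    have := Real.log_two_lt_d9
    linarith
  have hβ1 : ρ0.re < 1 := zero_re_lt h0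
  have hup : 0 < u ^ (-B) := Real.rpow_pos_of_pos hu0 _
  have hup1 : u ^ (-B) ≤ 1 := Real.rpow_le_one_of_one_le_of_nonpos hu1 (by linarith)
  have huB : u ^ A * u ^ (-B) = u ^ (A - B) := by
    rw [← Real.rpow_add hu0]
    congr 1
  have huA : 0 < u ^ A := Real.rpow_pos_of_pos hu0 _
  have hρD : (‖ρ0‖ + 1) * (c1 * u ^ (-B)) ≤ 1 / 12 * u ^ τ := by
    have h1 : ‖ρ0‖ ≤ 1 + u ^ A := by
      have h2 := Complex.norm_le_abs_re_add_abs_im ρ0
      have h3 : |ρ0.re| ≤ 1 := by rw [abs_le]; constructor <;> linarith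
      linarith
    have h2 : ‖ρ0‖ + 1 ≤ 2 + u ^ A := by linarith
    calc (‖ρ0‖ + 1) * (c1 * u ^ (-B)) ≤ (2 + u ^ A) * (1 * u ^ (-B)) :=
          mul_le_mul h2 (mul_le_mul_of_nonneg_right hc11 hup.le) (by positivity) (by positivity)
      _ = 2 * u ^ (-B) + u ^ A * u ^ (-B) := by ring
      _ ≤ 2 + u ^ (A - B) := by rw [huB]; linarith
      _ ≤ _ := hy'
  have hmu : u ≤ ((⌈u⌉₊ + 2 : ℕ) : ℝ) := by
    push_cast
    have := Nat.le_ceil u
    linarith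
  obtain ⟨r, hr⟩ : ∃ r : ℝ, r = 1 / 24 * u ^ (τ - 1) := ⟨_, rfl⟩
  have hur1 : u ^ (τ - 1) ≤ 1 := Real.rpow_le_one_of_one_le_of_nonpos hu1 (by linarith)
  have hur : u * r = 1 / 24 * u ^ τ := by
    rw [hr, Real.rpow_sub_one hu0.ne']
    field_simp
  have hr0 : 0 < r := by rw [hr]; positivity
  have hr1 : 1 / 24 / u ≤ r := by
    rw [div_le_iff₀ hu0, mul_comm r u, hur]
    have : 1 ≤ u ^ τ := Real.one_le_rpow hu1 hτ0.le
    linarith
  obtain ⟨N, hNd⟩ : ∃ N : ℕ,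
      N = (zset σ (hgt (c1 * u ^ (-B) / (8 * ((⌈u⌉₊ + 2 : ℕ) : ℝ))) + 3)).card := ⟨_, rfl⟩
  have hcm := hcore ρ0 u (c1 * u ^ (-B)) M r (⌈u⌉₊ + 2) N h0 (by linarith) (by positivity)
    (by nlinarith) hr0 (by rw [hr]; linarith) hu0.le hmu (by omega)
    (hρD.trans (by linarith)) (fun r a hr ha hra => hM r a hr ha (hra.trans (by gcongr))) hNd
  have hN := hcard u hu1
  rw [← hNd] at hN
  have hTle : hgt (c1 * u ^ (-B) / (8 * ((⌈u⌉₊ + 2 : ℕ) : ℝ))) ≤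
    288 * Real.exp 6 / c1 * u ^ (1 + B) := hgt_window hc10 hu1
  have hT0 : 0 < hgt (c1 * u ^ (-B) / (8 * ((⌈u⌉₊ + 2 : ℕ) : ℝ))) := by
    unfold hgt
    positivity
  have hM0 : 0 ≤ M := (abs_nonneg _).trans (hM 0 (c * u ^ (-B)) le_rfl (by positivity) (by simp))
  have hm4 : ((⌈u⌉₊ + 2 : ℕ) : ℝ) ≤ 4 * u := by
    push_cast
    have := Nat.ceil_lt_add_one hu0.le
    linarith
  have hm0 : (0:ℝ) < ((⌈u⌉₊ + 2 : ℕ) : ℝ) := by linarith
  generalize ((⌈u⌉₊ + 2 : ℕ) : ℝ) = m at hcm hTle hT0 hm4 hm0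
  have hpG := partG' hu1 (hqτ.trans hτ1) hB hc10 hc11 (show (0:ℝ) < 1 / 24 by norm_num)
    (by norm_num) hr1 hCN hN hm0 hm4 hA
  have hpC := partC' hu1 hB hC hCT1 hT0 hN hCN hTle hCc
  have hpB := partC' (T := 1) hu1 hB one_pos le_rfl one_pos hN hCN
    (by rw [one_mul]; exact Real.one_le_rpow hu1 (by linarith)) hBb
  -- the total factor
  obtain ⟨F, hF⟩ : ∃ F : ℝ, F = Real.exp (u * r + (‖ρ0‖ + 1) * (c1 * u ^ (-B)) / 2) *
      (8 * m / (c1 * u ^ (-B))) * (N + 1) *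
        (512 * (N + 1) ^ 2 / (r * (c1 * u ^ (-B)))) ^ (2 * N) := ⟨_, rfl⟩
  rw [← hF] at hcm
  have hF0 : 0 < F := by rw [hF]; positivity
  have hFle : F ≤ Real.exp (1 / 8 * u ^ τ) := by
    rw [hF]
    calc Real.exp (u * r + (‖ρ0‖ + 1) * (c1 * u ^ (-B)) / 2) * (8 * m / (c1 * u ^ (-B))) *
          (N + 1) * (512 * (N + 1) ^ 2 / (r * (c1 * u ^ (-B)))) ^ (2 * N)
        = Real.exp (u * r + (‖ρ0‖ + 1) * (c1 * u ^ (-B)) / 2) * (8 * m / (c1 * u ^ (-B)) *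
          (N + 1) * (512 * (N + 1) ^ 2 / (r * (c1 * u ^ (-B)))) ^ (2 * N)) := by ring
      _ ≤ Real.exp (1 / 12 * u ^ τ) * Real.exp (1 / 24 * u ^ τ) :=
          mul_le_mul (Real.exp_le_exp.2 (by linarith)) hpG (by positivity) (Real.exp_pos _).le
      _ = Real.exp (1 / 8 * u ^ τ) := by
          rw [← Real.exp_add]; congr 1; ring
  have hL : Real.exp (-(1 / 8 * u ^ τ)) ≤ 1 / F := by
    rw [Real.exp_neg, inv_eq_one_div]
    exact one_div_le_one_div_of_le hF0 hFle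
  have hgap2 : u * σ' + 7 * (1 / 8 * u ^ τ) ≤ u * ρ0.re := by
    have h1 : u * (σ' + g1) ≤ u * ρ0.re := by
      gcongr
      linarith
    linarith
  have hfin := partD' (β := ρ0.re) (σ' := σ') (E := 1 / 8 * u ^ τ) (L := 1 / F) (G1 := 3 ^ N)
    (G2 := C * 4 ^ N * hgt (c1 * u ^ (-B) / (8 * m)) ^ 5) hu0 hM0 (by linarith) hgap2
    (by positivity) hlog2 hL ?_ (by positivity) hpC ?_
  · have h1 : 8 * (1 / 8 * u ^ τ) = u ^ τ := by ring
    rwa [h1] at hfin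
  · refine le_trans ?_ hpB
    have h34 : (3:ℝ) ^ N ≤ 4 ^ N := by
      gcongr
      norm_num
    have h4 : (0:ℝ) ≤ 4 ^ N := by positivity
    linarith
  · rw [mul_one_div, div_le_iff₀ hF0]
    linarith

end Pool.Agent.H6.Win
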