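import Pool.Agent.H6.Win.OneSided2
import Pool.Agent.H6.Win.Tau

/-!
# One-sided bounds: the uniform version with loss `exp (- u ^ τ)`
-/

set_option autoImplicit false

open Complex Filter Topology MeasureTheory Set Metric

namespace Pool.Agent.H6.Win

open Pool.Agent.H6

/-- **One-sided bounds imply two-sided bounds.** -/
theorem one_sided_tau {σ σ' η Λ τ e : ℝ} (hσ : 1 / 2 < σ) (hσ1 : σ < 1) (hσσ' : σ < σ')
    (hσ' : σ' ≤ 1) (hη : 0 < η) (hη1 : η ≤ 1 / 3) (hΛ0 : 0 ≤ Λ)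
    (hΛ : ∀ F : Finset ℂ, (∀ z ∈ F, σ < z.re ∧ 0 < z.im ∧ zetaPole z = 0) →
      ∑ z ∈ F, Real.pi / z.im ≤ Λ) (hτ : 4 * σ * (1 - σ) < τ) (he : 0 < e) :
    ∀ᶠ u : ℝ in atTop, ∀ M sg : ℝ, 0 ≤ M → (sg = 1 ∨ sg = -1) →
      (∀ r a : ℝ, 0 ≤ r → 0 < a → r + a ≤ Λ + 6 * η → sg * inc u a r ≤ M) →
      ∀ r a : ℝ, 0 ≤ r → 0 < a → r + a ≤ η →
        |inc (u + 2 * η) a r| ≤ Real.exp (e * u ^ τ) * (M + Real.exp (u * σ')) := by
  classical
  obtain ⟨C, hC, hcore⟩ := one_sided_core hσ hσσ' hσ'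
  have hτ0 : 0 < τ := by
    have : 0 < 4 * σ * (1 - σ) := by
      have : 0 < 1 - σ := by linarith
      positivity
    linarith
  obtain ⟨κ, hκ1, hκ2⟩ : ∃ κ, 4 * σ * (1 - σ) < κ ∧ κ < τ := exists_between hτ
  obtain ⟨CN, hCN, hcard⟩ := card_window (B := 0) (c1 := 8 * η) hσ hσ1 hκ1 (by positivity) le_rfl
  obtain ⟨K, hK⟩ : ∃ K, K = Real.exp (2 * Λ) + Real.exp Λ := ⟨_, rfl⟩
  have hK1 : 1 ≤ K := by
    have h1 : 1 ≤ Real.exp (2 * Λ) := Real.one_le_exp (by positivity)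
    have h2 := Real.exp_pos Λ
    rw [hK]; linarith
  obtain ⟨j, hj⟩ := pow_unbounded_of_one_lt K (show (1:ℝ) < 4 by norm_num)
  obtain ⟨CT, hCTd⟩ : ∃ CT, CT = 288 * Real.exp 6 / (8 * η) := ⟨_, rfl⟩
  have hCT1 : 1 ≤ CT := by
    rw [hCTd, le_div_iff₀ (by positivity)]
    have := Real.add_one_le_exp (6:ℝ)
    nlinarith
  obtain ⟨CN', hCN'⟩ : ∃ CN', CN' = (j + 1) * CN := ⟨_, rfl⟩
  have hCN'0 : 0 < CN' := by rw [hCN']; positivity
  obtain ⟨ε1, hε1⟩ : ∃ ε1, ε1 = e / 2 := ⟨_, rfl⟩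
  have hε10 : 0 < ε1 := by rw [hε1]; positivity
  have hαC0 : 0 ≤ |Real.log (2 * C)| + 2 * CN' + 5 * (Real.log CT + (1 + 0)) := by
    have := Real.log_nonneg hCT1
    have := abs_nonneg (Real.log (2 * C))
    linarith
  have hαB0 : 0 ≤ |Real.log (2 * 5)| + 2 * CN' + 5 * (Real.log 1 + (1 + 0)) := by
    have := abs_nonneg (Real.log (2 * 5))
    rw [Real.log_one]
    linarith
  filter_upwards [eventually_ge_atTop (1:ℝ), asymt hκ2 hτ0 _ hαC0 hε10,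
    asymt hκ2 hτ0 _ hαB0 hε10, asymt hκ2 hτ0 1 zero_le_one hε10] with u hu1 hCc hBb hu3 M sg hM0
      hsg hone r a hr ha hra
  have hu0 : 0 < u := by linarith
  have hlu : 0 ≤ Real.log u := Real.log_nonneg hu1
  have huκ : 0 < u ^ κ := Real.rpow_pos_of_pos hu0 _
  have hu3' : Real.log 2 ≤ ε1 * u ^ τ := by
    have := Real.log_two_lt_d9
    nlinarith [mul_nonneg huκ.le hlu]
  set m : ℕ := ⌈u⌉₊ + 2 with hm
  have hbeq : 8 * η * u ^ (-(0:ℝ)) / (8 * ((⌈u⌉₊ + 2 : ℕ) : ℝ)) = η / m := by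
    rw [neg_zero, Real.rpow_zero, ← hm]
    have : (0:ℝ) < m := by rw [hm]; positivity
    field_simp
  have hN := hcard u hu1
  have hTle := hgt_window (B := 0) (c1 := 8 * η) (u := u) (by positivity) hu1
  rw [hbeq] at hN hTle
  rw [← hCTd] at hTle
  set Nc : ℕ := (zset σ (hgt (η / m) + 3)).card with hNc
  have hmpos : (0:ℝ) < m := by rw [hm]; positivity
  have hT0 : 0 < hgt (η / m) := by
    unfold hgt
    positivity
  have hu2m : u ≤ m := by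
    rw [hm]; push_cast
    have := Nat.le_ceil u
    linarith
  have hlen : ∑ z ∈ (zset σ (hgt (η / m) + 3)).filter (fun z => 0 < z.im), Real.pi / z.im ≤ Λ := by
    apply hΛ
    intro z hz
    rw [Finset.mem_filter, mem_zset] at hz
    exact ⟨hz.1.1, hz.2, hz.1.2.2⟩
  have hres := hcore u η Λ M sg m hη hη1 hu0.le (by omega) hu2m hM0 hΛ0 hsg hlen hone
    (2 * η + r) a (by linarith) ha (by linarith)
  rw [inc_shift]
  rw [← hNc, ← hK] at hres
  refine hres.trans ?_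
  -- sizes
  have hjN : (((j * Nc : ℕ)) : ℝ) ≤ CN' * u ^ κ := by
    push_cast
    have h2 : (Nc:ℝ) ≤ CN * u ^ κ := by
      refine hN.trans (le_of_eq ?_)
      rw [add_zero, one_mul]
    calc (j:ℝ) * Nc ≤ j * (CN * u ^ κ) := by gcongr
      _ ≤ (j + 1) * CN * u ^ κ := by
          have : 0 < CN * u ^ κ := by positivity
          nlinarith
      _ = CN' * u ^ κ := by rw [hCN']
  have hKN : K ^ Nc ≤ 4 ^ (j * Nc) := by
    rw [pow_mul]
    gcongr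
  have hpC := partC' (Nc := j * Nc) (B := 0) hu1 le_rfl hC hCT1 hT0 hjN hCN'0 hTle hCc
  have hpB := partC' (Nc := j * Nc) (B := 0) (T := 1) (C := 5) (CT := 1) hu1 le_rfl (by norm_num)
    le_rfl one_pos hjN hCN'0 (by rw [one_mul]; exact Real.one_le_rpow hu1 (by norm_num)) hBb
  have hKN0 : 1 ≤ K ^ Nc := one_le_pow₀ hK1
  have e1 : 2 + 3 * K ^ Nc ≤ Real.exp (ε1 * u ^ τ) := by
    refine le_trans ?_ hpB
    have : (1:ℝ) ≤ 4 ^ (j * Nc) := one_le_pow₀ (by norm_num)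
    nlinarith
  have hσ'0 : 1 ≤ Real.exp (u * σ') := by
    rw [Real.one_le_exp_iff]
    have : 0 ≤ σ' := by linarith
    positivity
  have e2 : C * K ^ Nc * hgt (η / m) ^ 5 * (Real.exp (u * σ') + 1) ≤
      Real.exp (ε1 * u ^ τ) * Real.exp (u * σ') := by
    calc C * K ^ Nc * hgt (η / m) ^ 5 * (Real.exp (u * σ') + 1)
        ≤ C * 4 ^ (j * Nc) * hgt (η / m) ^ 5 * (2 * Real.exp (u * σ')) := by
          gcongr
          linarith
      _ = (C * 4 ^ (j * Nc) * hgt (η / m) ^ 5 * 2) * Real.exp (u * σ') := by ring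
      _ ≤ _ := by gcongr
  have e3 : 2 * Real.exp (ε1 * u ^ τ) ≤ Real.exp (e * u ^ τ) := by
    have h5 : e * u ^ τ = ε1 * u ^ τ + ε1 * u ^ τ := by rw [hε1]; ring
    rw [h5, Real.exp_add]
    have h6 : 2 ≤ Real.exp (ε1 * u ^ τ) := by
      calc (2:ℝ) = Real.exp (Real.log 2) := (Real.exp_log (by norm_num)).symm
        _ ≤ _ := Real.exp_le_exp.2 hu3'
    gcongr
  have hE := Real.exp_pos (ε1 * u ^ τ)
  calc (2 + 3 * K ^ Nc) * M + 2 * (C * K ^ Nc * hgt (η / m) ^ 5 * (Real.exp (u * σ') + 1))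
      ≤ Real.exp (ε1 * u ^ τ) * M + 2 * (Real.exp (ε1 * u ^ τ) * Real.exp (u * σ')) := by gcongr
    _ ≤ (2 * Real.exp (ε1 * u ^ τ)) * (M + Real.exp (u * σ')) := by
        have : 0 ≤ Real.exp (ε1 * u ^ τ) * M := by positivity
        nlinarith
    _ ≤ _ := by gcongr

/-- **One-sided bounds exclude zeros, uniformly.** -/
theorem one_sided_unif {σ η Λ A B τ g : ℝ} (hσ : 1 / 2 < σ) (hσ1 : σ < 1)
    (hη : 0 < η) (hη1 : η ≤ 1 / 3) (hΛ0 : 0 ≤ Λ)
    (hΛ : ∀ F : Finset ℂ, (∀ z ∈ F, σ < z.re ∧ 0 < z.im ∧ zetaPole z = 0) →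
      ∑ z ∈ F, Real.pi / z.im ≤ Λ) (hB : 0 ≤ B) (hB1 : 4 * σ * (1 - σ) * (1 + B) < τ)
    (hA1 : A < B + τ) (hτ1 : τ < 1) (hg : 0 < g) :
    ∀ᶠ u : ℝ in atTop, ∀ ρ0 : ℂ, zetaPole ρ0 = 0 → σ + g ≤ ρ0.re → |ρ0.im| ≤ u ^ A →
      ∀ M sg : ℝ, 0 ≤ M → (sg = 1 ∨ sg = -1) →
      (∀ r a : ℝ, 0 ≤ r → 0 < a → r + a ≤ Λ + 6 * η → sg * inc u a r ≤ M) →
      Real.exp (u * ρ0.re - u ^ τ) ≤ M := by
  have hκ0 : 0 < 4 * σ * (1 - σ) := by
    have : 0 < 1 - σ := by linarith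
    positivity
  have hκB : 4 * σ * (1 - σ) ≤ 4 * σ * (1 - σ) * (1 + B) := by nlinarith
  have hτ0 : 0 < τ := by linarith
  obtain ⟨A', hA'⟩ : ∃ A', A' = max A 0 := ⟨_, rfl⟩
  have hA'0 : 0 ≤ A' := by rw [hA']; exact le_max_right _ _
  have hA'A : A ≤ A' := by rw [hA']; exact le_max_left _ _
  have hA'1 : A' < B + τ := by rw [hA']; exact max_lt hA1 (by linarith)
  obtain ⟨τ', hτ'1, hτ'2⟩ : ∃ τ', max (4 * σ * (1 - σ) * (1 + B)) (A' - B) < τ' ∧ τ' < τ :=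
    exists_between (max_lt hB1 (by linarith))
  have hτ'3 : 4 * σ * (1 - σ) * (1 + B) < τ' := lt_of_le_of_lt (le_max_left _ _) hτ'1
  have hτ'4 : A' - B < τ' := lt_of_le_of_lt (le_max_right _ _) hτ'1
  have hτ'0 : 0 < τ' := by linarith
  obtain ⟨g1, hg1⟩ : ∃ g1, g1 = min g (1 - σ) / 2 := ⟨_, rfl⟩
  have hg10 : 0 < g1 := by
    have : 0 < min g (1 - σ) := lt_min hg (by linarith)
    rw [hg1]; positivity
  have hg1a : 2 * g1 ≤ g := by
    have := min_le_left g (1 - σ)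
    linarith
  have hg1b : 2 * g1 ≤ 1 - σ := by
    have := min_le_right g (1 - σ)
    linarith
  have h1 := one_sided_tau (σ' := σ + g1) (e := 1 / 4) hσ hσ1 (by linarith) (by linarith) hη hη1
    hΛ0 hΛ (show 4 * σ * (1 - σ) < τ by linarith) (by norm_num)
  have h2 := two_sided_tau (c := η) hσ hσ1 hB hτ'3 (show A' < B + τ' by linarith)
    (by linarith) hη hg
  have h3 : Tendsto (fun u : ℝ => u + 2 * η) atTop atTop :=
    tendsto_atTop_add_const_right _ _ tendsto_id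
  filter_upwards [h1, h3.eventually h2, eventually_ge_atTop (1:ℝ),
    asymt hτ'2 hτ0 2 (by norm_num) (show (0:ℝ) < 1 / 4 by norm_num),
    asym hτ1 1 (by norm_num) hg10] with u g1' g2 hu1 hu2 hu3 ρ0 h0 hρ him M sg hM0 hsg hone
  have hu0 : 0 < u := by linarith
  have hlu : 0 ≤ Real.log u := Real.log_nonneg hu1
  have hut0 : 0 < u ^ τ := Real.rpow_pos_of_pos hu0 _
  have hut'0 : 0 < u ^ τ' := Real.rpow_pos_of_pos hu0 _
  have hβ1 : ρ0.re < 1 := zero_re_lt h0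
  have hu2' : 2 + 2 * u ^ τ' ≤ 1 / 4 * u ^ τ := by
    refine le_trans ?_ hu2
    nlinarith [mul_nonneg hut'0.le hlu]
  have hu3' : 1 + u ^ τ ≤ g1 * u := by
    refine le_trans ?_ hu3
    nlinarith [mul_nonneg hut0.le hlu]
  have him' : |ρ0.im| ≤ (u + 2 * η) ^ A' := by
    refine him.trans ?_
    calc u ^ A ≤ u ^ A' := Real.rpow_le_rpow_of_exponent_le hu1 hA'A
      _ ≤ (u + 2 * η) ^ A' := Real.rpow_le_rpow hu0.le (by linarith) hA'0
  have g3 := g1' M sg hM0 hsg hone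
  have hwin : η * (u + 2 * η) ^ (-B) ≤ η := by
    have : (u + 2 * η) ^ (-B) ≤ 1 := Real.rpow_le_one_of_one_le_of_nonpos (by linarith) (by linarith)
    nlinarith
  have g4 := g2 ρ0 h0 hρ him' _ (fun r a hr ha hra => g3 r a hr ha (hra.trans hwin))
  have e1 : (u + 2 * η) ^ τ' ≤ 1 / 4 * u ^ τ := by
    calc (u + 2 * η) ^ τ' ≤ (2 * u) ^ τ' := Real.rpow_le_rpow (by linarith) (by linarith) hτ'0.le
      _ = 2 ^ τ' * u ^ τ' := Real.mul_rpow (by norm_num) hu0.le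
      _ ≤ 2 * u ^ τ' := by
          have : (2:ℝ) ^ τ' ≤ 2 ^ (1:ℝ) := Real.rpow_le_rpow_of_exponent_le (by norm_num) (by linarith)
          rw [Real.rpow_one] at this
          gcongr
      _ ≤ _ := by linarith
  have e2 : Real.exp (u * ρ0.re - 1 / 2 * u ^ τ) ≤ M + Real.exp (u * (σ + g1)) := by
    have f1 : Real.exp (u * ρ0.re - 1 / 4 * u ^ τ) ≤
        Real.exp (1 / 4 * u ^ τ) * (M + Real.exp (u * (σ + g1))) := by
      refine le_trans (Real.exp_le_exp.2 ?_) g4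
      have : 0 ≤ 2 * η * ρ0.re := by
        have : 0 ≤ ρ0.re := by linarith
        positivity
      linarith
    have f2 : Real.exp (u * ρ0.re - 1 / 4 * u ^ τ) =
        Real.exp (1 / 4 * u ^ τ) * Real.exp (u * ρ0.re - 1 / 2 * u ^ τ) := by
      rw [← Real.exp_add]; congr 1; ring
    rw [f2] at f1
    exact le_of_mul_le_mul_left f1 (Real.exp_pos _)
  have hexp2 : ∀ x : ℝ, 1 ≤ x → Real.exp (-x) ≤ 1 / 2 := by
    intro x hx
    rw [Real.exp_neg, inv_eq_one_div]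
    apply one_div_le_one_div_of_le (by norm_num)
    have := Real.add_one_le_exp x
    linarith
  have e3 : Real.exp (u * (σ + g1)) ≤ Real.exp (u * ρ0.re - 1 / 2 * u ^ τ) / 2 := by
    have f1 : u * (σ + g1) ≤ (u * ρ0.re - 1 / 2 * u ^ τ) + -1 := by
      have : u * (σ + 2 * g1) ≤ u * ρ0.re := by
        gcongr
        linarith
      linarith
    calc Real.exp (u * (σ + g1)) ≤ Real.exp ((u * ρ0.re - 1 / 2 * u ^ τ) + -1) :=
          Real.exp_le_exp.2 f1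
      _ = Real.exp (u * ρ0.re - 1 / 2 * u ^ τ) * Real.exp (-1) := Real.exp_add _ _
      _ ≤ Real.exp (u * ρ0.re - 1 / 2 * u ^ τ) * (1 / 2) := by
          gcongr
          exact hexp2 1 le_rfl
      _ = _ := by ring
  have e4 : Real.exp (u * ρ0.re - u ^ τ) ≤ Real.exp (u * ρ0.re - 1 / 2 * u ^ τ) / 2 := by
    calc Real.exp (u * ρ0.re - u ^ τ)
        = Real.exp (u * ρ0.re - 1 / 2 * u ^ τ) * Real.exp (-(1 / 2 * u ^ τ)) := by
          rw [← Real.exp_add]; congr 1; ring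
      _ ≤ Real.exp (u * ρ0.re - 1 / 2 * u ^ τ) * (1 / 2) := by
          gcongr
          apply hexp2
          linarith
      _ = _ := by ring
  linarith

end Pool.Agent.H6.Win
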