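import Mathlib

/-!
# The error term in the prime number theorem on an interval
-/

set_option autoImplicit false

namespace Pool.Agent.H6.Win

/-- `π(y) - π(x) - ∫_x^y dt / log t` -/
noncomputable def primeErr (x y : ℝ) : ℝ :=
  (Nat.primeCounting ⌊y⌋₊ : ℝ) - (Nat.primeCounting ⌊x⌋₊ : ℝ) - ∫ t in x..y, 1 / Real.log t

end Pool.Agent.H6.Win
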