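import Pool.Agent.H6.Win.PsiAvg
import Pool.Agent.H6.Win.PrimeErr

/-!
# From `π` to `ψ` and back, for increments
-/

set_option autoImplicit false

open Filter Topology MeasureTheory Set Chebyshev

namespace Pool.Agent.H6.Win

/-- increment of `θ(x) - x` -/
noncomputable def thErr (x y : ℝ) : ℝ := theta y - theta x - (y - x)

noncomputable def lg (t : ℝ) : ℝ := ∫ s in (2:ℝ)..t, 1 / Real.log s

lemma log_ne_zero' {t : ℝ} (ht : 1 < t) : Real.log t ≠ 0 := (Real.log_pos ht).ne'

lemma one_div_log_continuousAt {t : ℝ} (ht : 1 < t) : ContinuousAt (fun s => 1 / Real.log s) t := by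
  have h1 : ContinuousAt Real.log t := Real.continuousAt_log (by linarith)
  exact continuousAt_const.div h1 (log_ne_zero' ht)

lemma one_div_log_intervalIntegrable {a b : ℝ} (ha : 1 < a) (hb : 1 < b) :
    IntervalIntegrable (fun s => 1 / Real.log s) volume a b := by
  apply ContinuousOn.intervalIntegrable
  intro t ht
  have : 1 < t := lt_of_lt_of_le (lt_min ha hb) ht.1
  exact (one_div_log_continuousAt this).continuousWithinAt

lemma lg_hasDerivAt {t : ℝ} (ht : 1 < t) : HasDerivAt lg (1 / Real.log t) t := by
  unfold lg
  apply intervalIntegral.integral_hasDerivAt_right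
  · exact one_div_log_intervalIntegrable (by norm_num) ht
  · have hc : ContinuousOn (fun s => 1 / Real.log s) (Ioi 1) := fun s hs =>
      (one_div_log_continuousAt hs).continuousWithinAt
    exact hc.stronglyMeasurableAtFilter isOpen_Ioi t ht
  · exact one_div_log_continuousAt ht

lemma integral_one_div_log {x y : ℝ} (hx : 1 < x) (hy : 1 < y) :
    ∫ t in x..y, 1 / Real.log t = lg y - lg x := by
  unfold lg
  rw [intervalIntegral.integral_interval_sub_left
    (one_div_log_intervalIntegrable (by norm_num) hy)
    (one_div_log_intervalIntegrable (by norm_num) hx)]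

lemma pc_mono : Monotone (fun t : ℝ => (Nat.primeCounting ⌊t⌋₊ : ℝ)) := by
  intro a b hab
  have h : ⌊a⌋₊.primeCounting ≤ ⌊b⌋₊.primeCounting :=
    Nat.monotone_primeCounting (Nat.floor_le_floor hab)
  dsimp only
  exact_mod_cast h

lemma inv_continuousOn {x y : ℝ} (hx : 1 < x) (hxy : x ≤ y) :
    ContinuousOn (fun t : ℝ => 1 / t) (uIcc x y) := by
  intro t ht
  rw [uIcc_of_le hxy] at ht
  have : t ≠ 0 := by linarith [ht.1]
  exact (continuousAt_const.div continuousAt_id this).continuousWithinAt

/-- first integration by parts -/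
lemma parts1 {x y : ℝ} (hx : 1 < x) (hxy : x ≤ y) :
    ∫ t in x..y, (lg y - lg t) / t = (y - x) - Real.log x * (lg y - lg x) := by
  have hderiv : ∀ t ∈ uIcc x y, HasDerivAt (fun t => Real.log t * (lg y - lg t) + t)
      ((lg y - lg t) / t) t := by
    intro t ht
    rw [uIcc_of_le hxy] at ht
    have ht1 : 1 < t := by linarith [ht.1]
    have h1 := (Real.hasDerivAt_log (show t ≠ 0 by linarith)).mul
      ((hasDerivAt_const t (lg y)).sub (lg_hasDerivAt ht1))
    have h2 := h1.add (hasDerivAt_id t)
    refine h2.congr_deriv ?_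
    have := log_ne_zero' ht1
    have : t ≠ 0 := by linarith
    simp only [Pi.sub_apply]
    field_simp
    ring
  have hint : IntervalIntegrable (fun t => (lg y - lg t) / t) volume x y := by
    apply ContinuousOn.intervalIntegrable
    intro t ht
    rw [uIcc_of_le hxy] at ht
    have ht1 : 1 < t := by linarith [ht.1]
    exact ((continuousAt_const.sub (lg_hasDerivAt ht1).continuousAt).div continuousAt_id
      (by simp; linarith)).continuousWithinAt
  rw [intervalIntegral.integral_eq_sub_of_hasDerivAt hderiv hint]
  ring

/-- `θ` in terms of `π` -/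
lemma thErr_eq {x y : ℝ} (hx : 2 ≤ x) (hxy : x ≤ y) :
    thErr x y = Real.log x * primeErr x y + ∫ t in x..y, primeErr t y / t := by
  have hy : 2 ≤ y := hx.trans hxy
  have h1 := theta_eq_primeCounting_mul_log_sub_integral hx
  have h2 := theta_eq_primeCounting_mul_log_sub_integral hy
  have hpi : ∀ a b : ℝ, 1 < a → a ≤ b → IntervalIntegrable
      (fun t : ℝ => (Nat.primeCounting ⌊t⌋₊ : ℝ) / t) volume a b := by
    intro a b ha hab
    have := (pc_mono.intervalIntegrable (μ := volume) (a := a) (b := b)).mul_continuousOn
      (inv_continuousOn ha hab)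
    refine this.congr (fun t _ => ?_)
    ring
  have h3 : (∫ t in (2:ℝ)..y, (Nat.primeCounting ⌊t⌋₊ : ℝ) / t) -
      ∫ t in (2:ℝ)..x, (Nat.primeCounting ⌊t⌋₊ : ℝ) / t =
      ∫ t in x..y, (Nat.primeCounting ⌊t⌋₊ : ℝ) / t :=
    intervalIntegral.integral_interval_sub_left (hpi 2 y (by norm_num) hy)
      (hpi 2 x (by norm_num) hx)
  have h4 : ∫ t in x..y, primeErr t y / t =
      (Nat.primeCounting ⌊y⌋₊ : ℝ) * (Real.log y - Real.log x) -
      (∫ t in x..y, (Nat.primeCounting ⌊t⌋₊ : ℝ) / t) - ∫ t in x..y, (lg y - lg t) / t := by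
    have e1 : ∀ t ∈ uIcc x y, primeErr t y / t = ((Nat.primeCounting ⌊y⌋₊ : ℝ) * (1 / t) -
        (Nat.primeCounting ⌊t⌋₊ : ℝ) / t) - (lg y - lg t) / t := by
      intro t ht
      rw [uIcc_of_le hxy] at ht
      rw [primeErr, integral_one_div_log (by linarith [ht.1]) (by linarith)]
      ring
    rw [intervalIntegral.integral_congr e1, intervalIntegral.integral_sub,
      intervalIntegral.integral_sub, intervalIntegral.integral_const_mul]
    · have e2 : ∫ t in x..y, 1 / t = Real.log y - Real.log x := by
        rw [integral_one_div_of_pos (by linarith) (by linarith),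
          Real.log_div (by linarith) (by linarith)]
      rw [e2]
    · exact ((inv_continuousOn (by linarith) hxy).intervalIntegrable).const_mul _
    · exact hpi x y (by linarith) hxy
    · exact (((inv_continuousOn (by linarith) hxy).intervalIntegrable).const_mul _).sub
        (hpi x y (by linarith) hxy)
    · apply ContinuousOn.intervalIntegrable
      intro t ht
      rw [uIcc_of_le hxy] at ht
      have ht1 : 1 < t := by linarith [ht.1]
      exact ((continuousAt_const.sub (lg_hasDerivAt ht1).continuousAt).div continuousAt_id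
        (by simp; linarith)).continuousWithinAt
  rw [h4, parts1 (by linarith) hxy, primeErr, integral_one_div_log (by linarith) (by linarith),
    thErr, h1, h2, ← h3]
  ring

/-- **One-sided transfer from `π` to `ψ`.** -/
theorem psi_of_pi : ∃ C : ℝ, 0 < C ∧ ∀ (x y M sg : ℝ), 2 ≤ x → x ≤ y → (sg = 1 ∨ sg = -1) →
    (∀ t, x ≤ t → t ≤ y → sg * primeErr t y ≤ M) →
    sg * incr x y ≤ M * Real.log y + C * √y := by
  obtain ⟨C, hC⟩ := psi_sub_theta_le_mul_sqrt
  refine ⟨max C 1, lt_max_of_lt_right one_pos, ?_⟩
  intro x y M sg hx hxy hsg hM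
  have hy : 2 ≤ y := hx.trans hxy
  -- the part from theta
  have hth : sg * thErr x y ≤ M * Real.log y := by
    rw [thErr_eq hx hxy, mul_add]
    have h1 : sg * (Real.log x * primeErr x y) ≤ Real.log x * M := by
      have := hM x le_rfl hxy
      have hl : 0 ≤ Real.log x := Real.log_nonneg (by linarith)
      calc sg * (Real.log x * primeErr x y) = Real.log x * (sg * primeErr x y) := by ring
        _ ≤ _ := by gcongr
    have hint : IntervalIntegrable (fun t => primeErr t y / t) volume x y := by
      have e1 : ∀ t ∈ uIcc x y, ((Nat.primeCounting ⌊y⌋₊ : ℝ) - (lg y - lg t) -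
          (Nat.primeCounting ⌊t⌋₊ : ℝ)) * (1 / t) = primeErr t y / t := by
        intro t ht
        rw [uIcc_of_le hxy] at ht
        rw [primeErr, integral_one_div_log (by linarith [ht.1]) (by linarith)]
        ring
      have h2 : IntervalIntegrable (fun t : ℝ => ((Nat.primeCounting ⌊y⌋₊ : ℝ) - (lg y - lg t) -
          (Nat.primeCounting ⌊t⌋₊ : ℝ))) volume x y := by
        apply IntervalIntegrable.sub
        · apply ContinuousOn.intervalIntegrable
          intro t ht
          rw [uIcc_of_le hxy] at ht
          have ht1 : 1 < t := by linarith [ht.1]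
          exact (continuousAt_const.sub (continuousAt_const.sub
            (lg_hasDerivAt ht1).continuousAt)).continuousWithinAt
        · exact pc_mono.intervalIntegrable
      have h3 := h2.mul_continuousOn (inv_continuousOn (show 1 < x by linarith) hxy)
      refine h3.congr (fun t ht => ?_)
      exact e1 t (uIoc_subset_uIcc ht)
    have h2 : sg * ∫ t in x..y, primeErr t y / t ≤ M * (Real.log y - Real.log x) := by
      rw [← intervalIntegral.integral_const_mul]
      have e2 : ∫ t in x..y, M * (1 / t) = M * (Real.log y - Real.log x) := by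
        rw [intervalIntegral.integral_const_mul, integral_one_div_of_pos (by linarith)
          (by linarith), Real.log_div (by linarith) (by linarith)]
      rw [← e2]
      apply intervalIntegral.integral_mono_on hxy (hint.const_mul sg)
      · exact ((inv_continuousOn (by linarith) hxy).intervalIntegrable).const_mul _
      · intro t ht
        have h3 := hM t ht.1 ht.2
        have ht0 : 0 < t := by linarith [ht.1]
        calc sg * (primeErr t y / t) = (sg * primeErr t y) * (1 / t) := by ring
          _ ≤ M * (1 / t) := by gcongr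
    linarith
  -- prime powers
  have h3 : incr x y = thErr x y + ((psi y - theta y) - (psi x - theta x)) := by
    unfold incr thErr
    ring
  have h4 : sg * ((psi y - theta y) - (psi x - theta x)) ≤ max C 1 * √y := by
    have a1 := hC y
    have a2 := hC x
    have a3 := theta_le_psi y
    have a4 := theta_le_psi x
    have a5 : C * √y ≤ max C 1 * √y := by gcongr; exact le_max_left _ _
    have a6 : C * √x ≤ max C 1 * √y := by
      calc C * √x ≤ max C 1 * √x := by gcongr; exact le_max_left _ _
        _ ≤ max C 1 * √y := by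
            have : (0:ℝ) ≤ max C 1 := le_trans zero_le_one (le_max_right _ _)
            gcongr
    rcases hsg with h | h
    · rw [h]; linarith
    · rw [h]; linarith
  rw [h3, mul_add]
  linarith

/-- second integration by parts -/
lemma parts2 {x y : ℝ} (hx : 1 < x) (hxy : x ≤ y) :
    ∫ t in x..y, (t - x) / (t * Real.log t ^ 2) = (lg y - lg x) - (y - x) / Real.log y := by
  have hderiv : ∀ t ∈ uIcc x y, HasDerivAt (fun t => lg t - (t - x) / Real.log t)
      ((t - x) / (t * Real.log t ^ 2)) t := by
    intro t ht
    rw [uIcc_of_le hxy] at ht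
    have ht1 : 1 < t := by linarith [ht.1]
    have hl := log_ne_zero' ht1
    have ht0 : t ≠ 0 := by linarith
    have h1 := (lg_hasDerivAt ht1).sub
      (((hasDerivAt_id t).sub_const x).div (Real.hasDerivAt_log ht0) hl)
    refine h1.congr_deriv ?_
    simp only [id_eq]
    field_simp
    ring
  have hint : IntervalIntegrable (fun t => (t - x) / (t * Real.log t ^ 2)) volume x y := by
    apply ContinuousOn.intervalIntegrable
    intro t ht
    rw [uIcc_of_le hxy] at ht
    have ht1 : 1 < t := by linarith [ht.1]
    have hl := log_ne_zero' ht1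
    have ht0 : t ≠ 0 := by linarith
    have hlc : ContinuousAt Real.log t := Real.continuousAt_log ht0
    exact ((continuousAt_id.sub continuousAt_const).div (continuousAt_id.mul (hlc.pow 2))
      (mul_ne_zero ht0 (pow_ne_zero 2 hl))).continuousWithinAt
  rw [intervalIntegral.integral_eq_sub_of_hasDerivAt hderiv hint]
  ring

lemma parts3 {x y : ℝ} (hx : 1 < x) (hxy : x ≤ y) :
    IntervalIntegrable (fun t => 1 / (t * Real.log t ^ 2)) volume x y ∧
    ∫ t in x..y, 1 / (t * Real.log t ^ 2) = 1 / Real.log x - 1 / Real.log y := by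
  have hderiv : ∀ t ∈ uIcc x y, HasDerivAt (fun t => - (1 / Real.log t))
      (1 / (t * Real.log t ^ 2)) t := by
    intro t ht
    rw [uIcc_of_le hxy] at ht
    have ht1 : 1 < t := by linarith [ht.1]
    have hl := log_ne_zero' ht1
    have ht0 : t ≠ 0 := by linarith
    have h1 := ((hasDerivAt_const t (1:ℝ)).div (Real.hasDerivAt_log ht0) hl).neg
    refine h1.congr_deriv ?_
    field_simp
    ring
  have hint : IntervalIntegrable (fun t => 1 / (t * Real.log t ^ 2)) volume x y := by
    apply ContinuousOn.intervalIntegrable
    intro t ht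
    rw [uIcc_of_le hxy] at ht
    have ht1 : 1 < t := by linarith [ht.1]
    have hl := log_ne_zero' ht1
    have ht0 : t ≠ 0 := by linarith
    have hlc : ContinuousAt Real.log t := Real.continuousAt_log ht0
    exact (continuousAt_const.div (continuousAt_id.mul (hlc.pow 2))
      (mul_ne_zero ht0 (pow_ne_zero 2 hl))).continuousWithinAt
  refine ⟨hint, ?_⟩
  rw [intervalIntegral.integral_eq_sub_of_hasDerivAt hderiv hint]
  ring

/-- `π` in terms of `θ` -/
lemma primeErr_eq {x y : ℝ} (hx : 2 ≤ x) (hxy : x ≤ y) :
    primeErr x y = thErr x y / Real.log y + ∫ t in x..y, thErr x t / (t * Real.log t ^ 2) := by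
  have hy : 2 ≤ y := hx.trans hxy
  have h1 := primeCounting_eq_theta_div_log_add_integral hx
  have h2 := primeCounting_eq_theta_div_log_add_integral hy
  have hth : ∀ a b : ℝ, 2 ≤ a → a ≤ b → IntervalIntegrable
      (fun t : ℝ => theta t / (t * Real.log t ^ 2)) volume a b := by
    intro a b ha hab
    rw [intervalIntegrable_iff_integrableOn_Icc_of_le hab]
    exact (integrableOn_theta_div_id_mul_log_sq b).mono_set (Icc_subset_Icc_left ha)
  have h3 : (∫ t in (2:ℝ)..y, theta t / (t * Real.log t ^ 2)) -
      ∫ t in (2:ℝ)..x, theta t / (t * Real.log t ^ 2) =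
      ∫ t in x..y, theta t / (t * Real.log t ^ 2) :=
    intervalIntegral.integral_interval_sub_left (hth 2 y le_rfl hy) (hth 2 x le_rfl hx)
  have hp3 := parts3 (show 1 < x by linarith) hxy
  have hi2 : IntervalIntegrable (fun t => (t - x) / (t * Real.log t ^ 2)) volume x y := by
    apply ContinuousOn.intervalIntegrable
    intro t ht
    rw [uIcc_of_le hxy] at ht
    have ht1 : 1 < t := by linarith [ht.1]
    have hl := log_ne_zero' ht1
    have ht0 : t ≠ 0 := by linarith
    have hlc : ContinuousAt Real.log t := Real.continuousAt_log ht0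
    exact ((continuousAt_id.sub continuousAt_const).div (continuousAt_id.mul (hlc.pow 2))
      (mul_ne_zero ht0 (pow_ne_zero 2 hl))).continuousWithinAt
  have h4 : ∫ t in x..y, thErr x t / (t * Real.log t ^ 2) =
      (∫ t in x..y, theta t / (t * Real.log t ^ 2)) - theta x * (1 / Real.log x - 1 / Real.log y) -
      ((lg y - lg x) - (y - x) / Real.log y) := by
    have e1 : ∀ t ∈ uIcc x y, thErr x t / (t * Real.log t ^ 2) =
        (theta t / (t * Real.log t ^ 2) - theta x * (1 / (t * Real.log t ^ 2))) -
          (t - x) / (t * Real.log t ^ 2) := by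
      intro t ht
      rw [thErr]
      ring
    rw [intervalIntegral.integral_congr e1, intervalIntegral.integral_sub,
      intervalIntegral.integral_sub, intervalIntegral.integral_const_mul, hp3.2,
      parts2 (by linarith) hxy]
    · exact hth x y hx hxy
    · exact hp3.1.const_mul _
    · exact (hth x y hx hxy).sub (hp3.1.const_mul _)
    · exact hi2
  rw [h4, primeErr, integral_one_div_log (by linarith) (by linarith), h1, h2, ← h3, thErr]
  have hlx := log_ne_zero' (show 1 < x by linarith)
  have hly := log_ne_zero' (show 1 < y by linarith)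
  field_simp
  ring

/-- **Two-sided transfer from `ψ` to `π`.** -/
theorem pi_of_psi : ∃ C : ℝ, 0 < C ∧ ∀ (x y M : ℝ), 2 ≤ x → x ≤ y → 0 ≤ M →
    (∀ t, x ≤ t → t ≤ y → |incr x t| ≤ M) → |primeErr x y| ≤ C * (M + √y) := by
  obtain ⟨C, hC⟩ := psi_sub_theta_le_mul_sqrt
  set K : ℝ := max C 1 with hK
  have hK1 : 1 ≤ K := le_max_right _ _
  have hl2 : 0 < Real.log 2 := Real.log_pos (by norm_num)
  refine ⟨K / Real.log 2, by positivity, ?_⟩
  intro x y M hx hxy hM0 hM
  have hy : 2 ≤ y := hx.trans hxy
  have hth : ∀ t, x ≤ t → t ≤ y → |thErr x t| ≤ M + K * √y := by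
    intro t h1 h2
    have h3 : thErr x t = incr x t + ((psi x - theta x) - (psi t - theta t)) := by
      unfold incr thErr
      ring
    have a1 := hC t
    have a2 := hC x
    have a3 := theta_le_psi t
    have a4 := theta_le_psi x
    have hsq : ∀ s, s ≤ y → C * √s ≤ K * √y := by
      intro s hs
      calc C * √s ≤ K * √s := by gcongr; exact le_max_left _ _
        _ ≤ K * √y := by gcongr
    have a5 := hsq t h2
    have a6 := hsq x hxy
    have a7 := abs_le.1 (hM t h1 h2)
    rw [h3, abs_le]
    constructor
    · linarith [a7.1]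
    · linarith [a7.2]
  set M' : ℝ := M + K * √y with hM'
  have hM'0 : 0 ≤ M' := by positivity
  have hlx : 0 < Real.log x := Real.log_pos (by linarith)
  have hly : 0 < Real.log y := Real.log_pos (by linarith)
  have hp3 := parts3 (show 1 < x by linarith) hxy
  rw [primeErr_eq hx hxy]
  have h1 : |thErr x y / Real.log y| ≤ M' * (1 / Real.log y) := by
    rw [abs_div, abs_of_pos hly, div_eq_mul_one_div]
    have := hth y hxy le_rfl
    gcongr
  have h2 : |∫ t in x..y, thErr x t / (t * Real.log t ^ 2)| ≤
      M' * (1 / Real.log x - 1 / Real.log y) := by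
    rw [← hp3.2, ← intervalIntegral.integral_const_mul, ← Real.norm_eq_abs]
    apply intervalIntegral.norm_integral_le_of_norm_le hxy
    · refine Eventually.of_forall fun t ht => ?_
      have ht0 : 0 < t := by linarith [ht.1]
      have htl : 0 < t * Real.log t ^ 2 := by
        have : 0 < Real.log t := Real.log_pos (by linarith [ht.1])
        positivity
      rw [Real.norm_eq_abs, abs_div, abs_of_pos htl, div_eq_mul_one_div]
      have := hth t ht.1.le ht.2
      gcongr
    · exact hp3.1.const_mul _
  calc |thErr x y / Real.log y + ∫ t in x..y, thErr x t / (t * Real.log t ^ 2)|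
      ≤ M' * (1 / Real.log y) + M' * (1 / Real.log x - 1 / Real.log y) :=
        (abs_add_le _ _).trans (add_le_add h1 h2)
    _ = M' * (1 / Real.log x) := by ring
    _ ≤ M' * (1 / Real.log 2) := by
        have : Real.log 2 ≤ Real.log x := Real.log_le_log (by norm_num) hx
        gcongr
    _ ≤ (K * (M + √y)) * (1 / Real.log 2) := by
        have h5 : M' ≤ K * (M + √y) := by
          rw [hM']
          nlinarith
        gcongr
    _ = _ := by ring

end Pool.Agent.H6.Win
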