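import Pool.Agent.H6.Win.OneSided2
import Pool.Agent.H6.Win.PiConv
import Pool.Agent.H6.Weil.Growth

/-!
# Oscillation of `π(x) - li(x)` in short windows
-/

set_option autoImplicit false

open Complex Filter Topology MeasureTheory Set Metric

namespace Pool.Agent.H6.Win

open Pool.Agent.H6

/-- Comparison of exponents. -/
lemma exp_compare {μ ν C D : ℝ} (hμν : μ < ν) (hν : 1 / 2 < ν) (hC : 0 ≤ C) (hD : 1 ≤ D) :
    ∀ᶠ X : ℝ in atTop, X ^ μ * Real.log (D * X) + C * √(D * X) < X ^ ν := by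
  obtain ⟨ξ, hξ1, hξ2⟩ : ∃ ξ, max μ (1 / 2) < ξ ∧ ξ < ν := exists_between (max_lt hμν hν)
  have hξμ : μ < ξ := lt_of_le_of_lt (le_max_left _ _) hξ1
  have hξh : 1 / 2 < ξ := lt_of_le_of_lt (le_max_right _ _) hξ1
  -- the three pieces are smaller than constants times X ^ ξ
  set η : ℝ := ξ - μ with hη
  have hη0 : 0 < η := by rw [hη]; linarith
  have hlim : Tendsto (fun X : ℝ => X ^ (ν - ξ)) atTop atTop :=
    tendsto_rpow_atTop (by linarith)
  filter_upwards [eventually_ge_atTop (1:ℝ),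
    hlim.eventually (eventually_gt_atTop (D ^ η / η + C * √D))] with X hX1 hX2
  have hX0 : 0 < X := by linarith
  have hD0 : 0 < D := by linarith
  have h1 : X ^ μ * Real.log (D * X) ≤ (D ^ η / η) * X ^ ξ := by
    have h2 := Real.log_le_rpow_div (show 0 ≤ D * X by positivity) hη0
    calc X ^ μ * Real.log (D * X) ≤ X ^ μ * ((D * X) ^ η / η) := by gcongr
      _ = (D ^ η / η) * (X ^ μ * X ^ η) := by
          rw [Real.mul_rpow hD0.le hX0.le]; ring
      _ = (D ^ η / η) * X ^ ξ := by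
          rw [← Real.rpow_add hX0]
          congr 2
          rw [hη]; ring
  have h3 : C * √(D * X) ≤ (C * √D) * X ^ ξ := by
    rw [Real.sqrt_mul hD0.le, Real.sqrt_eq_rpow X]
    have : X ^ (1 / 2 : ℝ) ≤ X ^ ξ := Real.rpow_le_rpow_of_exponent_le hX1 hξh.le
    calc C * (√D * X ^ (1 / 2 : ℝ)) ≤ C * (√D * X ^ ξ) := by gcongr
      _ = _ := by ring
  have h4 : X ^ ν = X ^ (ν - ξ) * X ^ ξ := by
    rw [← Real.rpow_add hX0]; congr 1; ring
  have h5 : 0 < X ^ ξ := Real.rpow_pos_of_pos hX0 _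
  rw [h4]
  calc X ^ μ * Real.log (D * X) + C * √(D * X) ≤ (D ^ η / η + C * √D) * X ^ ξ := by linarith
    _ < X ^ (ν - ξ) * X ^ ξ := by gcongr

lemma exp_log_mul {X : ℝ} (hX : 0 < X) (ν : ℝ) : Real.exp (Real.log X * ν) = X ^ ν := by
  rw [Real.rpow_def_of_pos hX]

/-- **(i)** two-sided oscillation of `π(x) - li(x)` in short windows. -/
theorem osc_two {ρ : ℂ} (h0 : zetaPole ρ = 0) (hρ : 1 / 2 < ρ.re) {c B ε : ℝ} (hc : 0 < c)
    (hB : 0 ≤ B) (hB1 : 4 * ρ.re * (1 - ρ.re) * (1 + B) < 1) (hε : 0 < ε) :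
    ∀ᶠ X : ℝ in atTop, ∃ x y : ℝ, X ≤ x ∧ x ≤ y ∧ y ≤ X + c * X / (Real.log X) ^ B ∧
      X ^ (ρ.re - ε) ≤ |primeErr x y| := by
  have hβ1 : ρ.re < 1 := zero_re_lt h0
  -- choose σ
  obtain ⟨σ, hσ1, hσ2, hσ3⟩ : ∃ σ, 1 / 2 < σ ∧ σ < ρ.re ∧ 4 * σ * (1 - σ) * (1 + B) < 1 := by
    have hcont : Continuous (fun s : ℝ => 4 * s * (1 - s) * (1 + B)) := by fun_prop
    have h1 : ∀ᶠ s in 𝓝 ρ.re, 4 * s * (1 - s) * (1 + B) < 1 :=
      hcont.continuousAt.eventually (gt_mem_nhds hB1)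
    have h2 : ∀ᶠ s in 𝓝[<] ρ.re, 4 * s * (1 - s) * (1 + B) < 1 ∧ 1 / 2 < s ∧ s < ρ.re := by
      filter_upwards [h1.filter_mono nhdsWithin_le_nhds, self_mem_nhdsWithin,
        mem_nhdsWithin_of_mem_nhds (lt_mem_nhds hρ)] with s a1 a2 a3
      exact ⟨a1, a3, a2⟩
    obtain ⟨s, a1, a2, a3⟩ := h2.exists
    exact ⟨s, a2, a3, a1⟩
  obtain ⟨C, hC, htrans⟩ := psi_of_pi
  obtain ⟨ε', hε'⟩ : ∃ ε', ε' = min ε (ρ.re - 1 / 2) := ⟨_, rfl⟩
  have hε'0 : 0 < ε' := by rw [hε']; exact lt_min hε (by linarith)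
  have hε'1 : ε' ≤ ε := by rw [hε']; exact min_le_left _ _
  have hε'2 : ε' ≤ ρ.re - 1 / 2 := by rw [hε']; exact min_le_right _ _
  obtain ⟨c', hc'⟩ : ∃ c', c' = min c 1 / 2 := ⟨_, rfl⟩
  have hc'0 : 0 < c' := by
    have : 0 < min c 1 := lt_min hc one_pos
    rw [hc']; positivity
  have hc'c : 2 * c' ≤ c := by
    have := min_le_left c 1
    rw [hc']; linarith
  have hc'1 : c' ≤ 1 / 2 := by
    have := min_le_right c 1
    rw [hc']; linarith
  have h2 := two_sided h0 (σ := σ) (B := B) (c := c') (ε := ε' / 2) hσ1 hσ2 hB hσ3 hc'0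
    (by positivity)
  have h3 := Real.tendsto_log_atTop.eventually h2
  have h4 := exp_compare (μ := ρ.re - ε) (ν := ρ.re - ε' / 2) (C := C) (D := 1 + c)
    (by linarith) (by linarith) hC.le (by linarith)
  filter_upwards [h3, h4, eventually_ge_atTop (Real.exp 1)] with X g1 g2 hX1
  have hX0 : 0 < X := lt_of_lt_of_le (Real.exp_pos 1) hX1
  have hX2 : 2 ≤ X := by
    have := Real.add_one_le_exp (1:ℝ)
    linarith
  have hlog1 : 1 ≤ Real.log X := by
    rw [Real.le_log_iff_exp_le hX0]; exact hX1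
  by_contra hcon
  push Not at hcon
  have hpow1 : 1 ≤ (Real.log X) ^ B := Real.one_le_rpow hlog1 hB
  have hwin : X + c * X / (Real.log X) ^ B ≤ (1 + c) * X := by
    have : c * X / (Real.log X) ^ B ≤ c * X := div_le_self (by positivity) hpow1
    linarith
  have hkey : ∀ r a : ℝ, 0 ≤ r → 0 < a → r + a ≤ c' * (Real.log X) ^ (-B) →
      |inc (Real.log X) a r| ≤ X ^ (ρ.re - ε) * Real.log ((1 + c) * X) + C * √((1 + c) * X) := by
    intro r a hr ha hra
    unfold inc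
    have e1 : Real.exp (Real.log X + r) = X * Real.exp r := by
      rw [Real.exp_add, Real.exp_log hX0]
    have e2 : Real.exp (Real.log X + r + a) = X * Real.exp (r + a) := by
      rw [add_assoc, Real.exp_add, Real.exp_log hX0]
    rw [e1, e2]
    have f1 : X ≤ X * Real.exp r := by
      have := Real.one_le_exp hr
      nlinarith
    have f2 : X * Real.exp r ≤ X * Real.exp (r + a) := by
      have : Real.exp r ≤ Real.exp (r + a) := Real.exp_le_exp.2 (by linarith)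
      gcongr
    have f3 : X * Real.exp (r + a) ≤ X + c * X / (Real.log X) ^ B := by
      have hp : 0 < (Real.log X) ^ (-B) := Real.rpow_pos_of_pos (by linarith) _
      have hp1 : (Real.log X) ^ (-B) ≤ 1 := Real.rpow_le_one_of_one_le_of_nonpos hlog1 (by linarith)
      have hw1 : r + a ≤ 1 / 2 := by nlinarith
      have hexp : Real.exp (r + a) ≤ 1 + 2 * (r + a) := by
        have h5 := Real.abs_exp_sub_one_sub_id_le (x := r + a) (by
          rw [abs_of_nonneg (by linarith)]; linarith)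
        have h6 := (abs_le.1 h5).2
        nlinarith
      have h7 : 1 + 2 * (r + a) ≤ 1 + c * (Real.log X) ^ (-B) := by nlinarith
      calc X * Real.exp (r + a) ≤ X * (1 + c * (Real.log X) ^ (-B)) := by
            gcongr; linarith
        _ = X + c * X / (Real.log X) ^ B := by
            rw [Real.rpow_neg (by linarith)]
            ring
    have f4 : X * Real.exp (r + a) ≤ (1 + c) * X := f3.trans hwin
    have hMnn : 0 ≤ X ^ (ρ.re - ε) := Real.rpow_nonneg hX0.le _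
    have hsg : ∀ sg : ℝ, (sg = 1 ∨ sg = -1) → sg * incr (X * Real.exp r) (X * Real.exp (r + a)) ≤
        X ^ (ρ.re - ε) * Real.log ((1 + c) * X) + C * √((1 + c) * X) := by
      intro sg hsg
      have := htrans (X * Real.exp r) (X * Real.exp (r + a)) (X ^ (ρ.re - ε)) sg
        (by linarith) f2 hsg (fun t ht1 ht2 => by
          have h8 := (hcon t (X * Real.exp (r + a)) (by linarith) ht2 f3).le
          have h9 := abs_le.1 h8
          rcases hsg with h | h
          · rw [h]; linarith [h9.2]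
          · rw [h]; linarith [h9.1])
      refine this.trans ?_
      have : Real.log (X * Real.exp (r + a)) ≤ Real.log ((1 + c) * X) :=
        Real.log_le_log (by positivity) f4
      gcongr
    rw [abs_le]
    have b1 := hsg 1 (Or.inl rfl)
    have b2 := hsg (-1) (Or.inr rfl)
    constructor <;> linarith
  have g3 := g1 _ hkey
  rw [exp_log_mul hX0] at g3
  linarith

/-- **(ii)** one-sided oscillation of `π(x) - li(x)`. -/
theorem osc_one {ρ : ℂ} (h0 : zetaPole ρ = 0) {σ η Λ lam ε : ℝ} (hσ : 1 / 2 < σ)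
    (hσρ : σ < ρ.re) (hη : 0 < η) (hη1 : η ≤ 1 / 3) (hΛ0 : 0 ≤ Λ)
    (hΛ : ∀ F : Finset ℂ, (∀ z ∈ F, σ < z.re ∧ 0 < z.im ∧ zetaPole z = 0) →
      ∑ z ∈ F, Real.pi / z.im ≤ Λ) (hlam : Real.exp (Λ + 6 * η) ≤ lam) (hε : 0 < ε) :
    ∀ᶠ X : ℝ in atTop, ∀ sg : ℝ, (sg = 1 ∨ sg = -1) → ∃ x y : ℝ, X ≤ x ∧ x ≤ y ∧ y ≤ lam * X ∧
      X ^ (ρ.re - ε) ≤ sg * primeErr x y := by
  have hβ1 : ρ.re < 1 := zero_re_lt h0
  obtain ⟨C, hC, htrans⟩ := psi_of_pi
  obtain ⟨ε', hε'⟩ : ∃ ε', ε' = min ε (ρ.re - 1 / 2) := ⟨_, rfl⟩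
  have hε'0 : 0 < ε' := by rw [hε']; exact lt_min hε (by linarith)
  have hε'1 : ε' ≤ ε := by rw [hε']; exact min_le_left _ _
  have hε'2 : ε' ≤ ρ.re - 1 / 2 := by rw [hε']; exact min_le_right _ _
  have hlam1 : 1 ≤ lam := by
    refine le_trans ?_ hlam
    rw [Real.one_le_exp_iff]
    positivity
  have h2 := one_sided_zero h0 (σ := σ) (θ' := ρ.re - ε' / 2) hσ hσρ hη hη1 hΛ0 hΛ (by linarith)
  have h3 := Real.tendsto_log_atTop.eventually h2
  have h4 := exp_compare (μ := ρ.re - ε) (ν := ρ.re - ε' / 2) (C := C) (D := lam)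
    (by linarith) (by linarith) hC.le hlam1
  filter_upwards [h3, h4, eventually_ge_atTop (2:ℝ)] with X g1 g2 hX2 sg hsg
  have hX0 : 0 < X := by linarith
  by_contra hcon
  push Not at hcon
  apply g1 sg hsg
  intro r a hr ha hra
  unfold inc
  have e1 : Real.exp (Real.log X + r) = X * Real.exp r := by
    rw [Real.exp_add, Real.exp_log hX0]
  have e2 : Real.exp (Real.log X + r + a) = X * Real.exp (r + a) := by
    rw [add_assoc, Real.exp_add, Real.exp_log hX0]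
  rw [e1, e2, exp_log_mul hX0]
  have f1 : X ≤ X * Real.exp r := by
    have := Real.one_le_exp hr
    nlinarith
  have f2 : X * Real.exp r ≤ X * Real.exp (r + a) := by
    have : Real.exp r ≤ Real.exp (r + a) := Real.exp_le_exp.2 (by linarith)
    gcongr
  have f3 : X * Real.exp (r + a) ≤ lam * X := by
    have : Real.exp (r + a) ≤ lam := (Real.exp_le_exp.2 hra).trans hlam
    rw [mul_comm]
    gcongr
  have hMnn : 0 ≤ X ^ (ρ.re - ε) := Real.rpow_nonneg hX0.le _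
  have h9 := htrans (X * Real.exp r) (X * Real.exp (r + a)) (X ^ (ρ.re - ε)) sg
    (by linarith) f2 hsg (fun t ht1 ht2 =>
      (hcon t (X * Real.exp (r + a)) (by linarith) ht2 f3).le)
  refine h9.trans (le_trans ?_ g2.le)
  have : Real.log (X * Real.exp (r + a)) ≤ Real.log (lam * X) :=
    Real.log_le_log (by positivity) f3
  gcongr

/-- Upper bound from a zero-free half-plane. -/
theorem bound_of_zero_free {θ : ℝ} (hθ : 1 / 2 ≤ θ) (hθ1 : θ < 1)
    (hZ : ∀ s : ℂ, θ < s.re → riemannZeta s ≠ 0) {D ε : ℝ} (hD : 1 ≤ D) (hε : 0 < ε) :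
    ∀ᶠ X : ℝ in atTop, ∀ x y : ℝ, X ≤ x → x ≤ y → y ≤ D * X → |primeErr x y| ≤ X ^ (θ + ε) := by
  obtain ⟨C1, hC1, hpsi⟩ := Weil.psi_real_bound hθ hθ1 hZ (show 0 < ε / 2 by positivity)
  obtain ⟨C2, hC2, hpi⟩ := pi_of_psi
  have hlim : Tendsto (fun X : ℝ => X ^ (ε / 2)) atTop atTop := tendsto_rpow_atTop (by positivity)
  filter_upwards [eventually_ge_atTop (2:ℝ), hlim.eventually (eventually_ge_atTop
    (C2 * (2 * C1 * D ^ (θ + ε / 2) + √D)))] with X hX2 hX3 x y hx hxy hy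
  have hX0 : 0 < X := by linarith
  have hD0 : 0 < D := by linarith
  have hexp : 0 ≤ θ + ε / 2 := by linarith
  have hsmall : ∀ t, X ≤ t → t ≤ D * X → |Chebyshev.psi t - t| ≤ C1 * (D * X) ^ (θ + ε / 2) := by
    intro t h1 h2
    have h3 := hpsi t (by linarith)
    rw [Chebyshev.psi_eq_sum_Icc]
    refine h3.trans ?_
    have : t ^ (θ + ε / 2) ≤ (D * X) ^ (θ + ε / 2) := Real.rpow_le_rpow (by linarith) h2 hexp
    gcongr
  have hM : ∀ t, x ≤ t → t ≤ y → |incr x t| ≤ 2 * (C1 * (D * X) ^ (θ + ε / 2)) := by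
    intro t h1 h2
    have a1 := hsmall t (by linarith) (by linarith)
    have a2 := hsmall x hx (by linarith)
    have h3 : incr x t = (Chebyshev.psi t - t) - (Chebyshev.psi x - x) := by
      unfold incr; ring
    rw [h3]
    refine (abs_sub _ _).trans ?_
    linarith
  have h1 := hpi x y (2 * (C1 * (D * X) ^ (θ + ε / 2))) (by linarith) hxy (by positivity) hM
  refine h1.trans ?_
  have h2 : √y ≤ √D * X ^ (θ + ε / 2) := by
    calc √y ≤ √(D * X) := Real.sqrt_le_sqrt hy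
      _ = √D * X ^ (1 / 2 : ℝ) := by rw [Real.sqrt_mul hD0.le, Real.sqrt_eq_rpow X]
      _ ≤ √D * X ^ (θ + ε / 2) := by
          have : X ^ (1 / 2 : ℝ) ≤ X ^ (θ + ε / 2) :=
            Real.rpow_le_rpow_of_exponent_le (by linarith) (by linarith)
          gcongr
  calc C2 * (2 * (C1 * (D * X) ^ (θ + ε / 2)) + √y)
      ≤ C2 * (2 * (C1 * (D * X) ^ (θ + ε / 2)) + √D * X ^ (θ + ε / 2)) := by gcongr
    _ = (C2 * (2 * C1 * D ^ (θ + ε / 2) + √D)) * X ^ (θ + ε / 2) := by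
        rw [Real.mul_rpow hD0.le hX0.le]; ring
    _ ≤ X ^ (ε / 2) * X ^ (θ + ε / 2) := by gcongr
    _ = X ^ (θ + ε) := by
        rw [← Real.rpow_add hX0]; congr 1; ring

end Pool.Agent.H6.Win
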