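import Pool.Agent.H6.Win.OneSided3
import Pool.Agent.H6.Win.Osc

/-!
# Oscillation of `π(x) - li(x)` in short windows, uniform in the zero
-/

set_option autoImplicit false

open Complex Filter Topology MeasureTheory Set Metric

namespace Pool.Agent.H6.Win

open Pool.Agent.H6

lemma exp_neg_le_inv {x : ℝ} (hx : 0 < x) : Real.exp (-x) ≤ 1 / x := by
  rw [Real.exp_neg, inv_eq_one_div]
  apply one_div_le_one_div_of_le hx
  have := Real.add_one_le_exp x
  linarith

/-- Comparison of the losses. -/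
lemma exp_compare_tau {σ τ τ' C D : ℝ} (hσ : 1 / 2 < σ) (hττ' : τ' < τ) (hτ : 0 < τ)
    (hτ' : τ' < 1) (hC : 0 ≤ C) (hD : 1 ≤ D) :
    ∀ᶠ X : ℝ in atTop, ∀ β : ℝ, σ ≤ β →
      X ^ β * Real.exp (-(Real.log X) ^ τ) * Real.log (D * X) + C * √(D * X) <
        X ^ β * Real.exp (-(Real.log X) ^ τ') := by
  have hlD : 0 ≤ Real.log D := Real.log_nonneg hD
  obtain ⟨α, hα⟩ : ∃ α, α = 4 * (Real.log D + 1) := ⟨_, rfl⟩
  have hα4 : 4 ≤ α := by rw [hα]; linarith
  obtain ⟨α2, hα2⟩ : ∃ α2, α2 = 4 * (C * √D) + 1 := ⟨_, rfl⟩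
  have hα21 : 1 ≤ α2 := by
    have : 0 ≤ C * √D := by positivity
    rw [hα2]; linarith
  have h1 := asymt hττ' hτ α (by linarith) one_pos
  have h2 := asym hτ' α2 (by linarith) (show 0 < σ - 1 / 2 by linarith)
  filter_upwards [Real.tendsto_log_atTop.eventually h1, Real.tendsto_log_atTop.eventually h2,
    eventually_ge_atTop (Real.exp 1)] with X hX1 hX2 hX β hβ
  have hX0 : 0 < X := lt_of_lt_of_le (Real.exp_pos 1) hX
  have hX1' : 1 ≤ X := by
    have := Real.add_one_le_exp (1:ℝ)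
    linarith
  have hu1 : 1 ≤ Real.log X := by
    rw [Real.le_log_iff_exp_le hX0]; exact hX
  obtain ⟨u, hu⟩ : ∃ u, u = Real.log X := ⟨_, rfl⟩
  have hXu : X = Real.exp u := by rw [hu, Real.exp_log hX0]
  rw [← hu] at hX1 hX2 hu1 ⊢
  have hu0 : 0 < u := by linarith
  have hlu : 0 ≤ Real.log u := Real.log_nonneg hu1
  have hut' : 0 < u ^ τ' := Real.rpow_pos_of_pos hu0 _
  -- first loss
  have e1 : Real.exp (-u ^ τ) * Real.log (D * X) ≤ Real.exp (-u ^ τ') * (1 / 4) := by
    have f1 : u ^ τ' + α + Real.log u ≤ u ^ τ := by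
      have : α * ((1 + u ^ τ') * (1 + Real.log u)) =
          α + α * u ^ τ' + α * Real.log u + α * (u ^ τ' * Real.log u) := by ring
      have g1 : 0 ≤ α * (u ^ τ' * Real.log u) := by positivity
      have g2 : u ^ τ' ≤ α * u ^ τ' := by nlinarith
      have g3 : Real.log u ≤ α * Real.log u := by nlinarith
      rw [this, one_mul] at hX1
      linarith
    have f2 : Real.log (D * X) ≤ (Real.log D + 1) * u := by
      rw [Real.log_mul (by linarith) hX0.ne', ← hu]
      nlinarith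
    calc Real.exp (-u ^ τ) * Real.log (D * X)
        ≤ Real.exp (-(u ^ τ' + α + Real.log u)) * ((Real.log D + 1) * u) := by
          have : 0 ≤ Real.log (D * X) := Real.log_nonneg (by nlinarith)
          gcongr
      _ = Real.exp (-u ^ τ') * (Real.exp (-α) * (Real.log D + 1)) := by
          rw [show -(u ^ τ' + α + Real.log u) = -u ^ τ' + -α + -Real.log u by ring,
            Real.exp_add, Real.exp_add, Real.exp_neg (Real.log u), Real.exp_log hu0]
          field_simp
      _ ≤ Real.exp (-u ^ τ') * (1 / 4) := by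
          gcongr
          calc Real.exp (-α) * (Real.log D + 1) ≤ 1 / α * (Real.log D + 1) := by
                gcongr
                exact exp_neg_le_inv (by linarith)
            _ = 1 / 4 := by
                rw [hα]; field_simp
  -- second loss
  have e2 : C * √(D * X) ≤ X ^ β * Real.exp (-u ^ τ') * (1 / 4) := by
    have f1 : u ^ τ' + α2 ≤ (σ - 1 / 2) * u := by
      refine le_trans ?_ hX2
      have : α2 * ((1 + u ^ τ') * (1 + Real.log u)) =
          α2 + α2 * u ^ τ' + α2 * Real.log u * (1 + u ^ τ') := by ring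
      have g1 : 0 ≤ α2 * Real.log u * (1 + u ^ τ') := by positivity
      have g2 : u ^ τ' ≤ α2 * u ^ τ' := by nlinarith
      linarith
    have f2 : √X = Real.exp (1 / 2 * u) := by
      rw [Real.sqrt_eq_rpow, hXu, ← Real.exp_mul]
      congr 1; ring
    have f3 : X ^ σ ≤ X ^ β := Real.rpow_le_rpow_of_exponent_le hX1' hβ
    have f4 : X ^ σ = Real.exp (σ * u) := by
      rw [hXu, ← Real.exp_mul]; congr 1; ring
    rw [Real.sqrt_mul (by linarith) X, f2]
    calc C * (√D * Real.exp (1 / 2 * u)) = (C * √D) * Real.exp (1 / 2 * u) := by ring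
      _ ≤ (α2 * (1 / 4)) * Real.exp (1 / 2 * u) :=
          mul_le_mul_of_nonneg_right (by rw [hα2]; linarith) (Real.exp_pos _).le
      _ ≤ (α2 * (1 / 4)) * (Real.exp (σ * u) * Real.exp (-u ^ τ') * Real.exp (-α2)) := by
          gcongr
          rw [← Real.exp_add, ← Real.exp_add]
          apply Real.exp_le_exp.2
          linarith
      _ ≤ (α2 * (1 / 4)) * (Real.exp (σ * u) * Real.exp (-u ^ τ') * (1 / α2)) := by
          gcongr
          exact exp_neg_le_inv (by linarith)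
      _ = Real.exp (σ * u) * Real.exp (-u ^ τ') * (1 / 4) := by
          have : α2 ≠ 0 := by linarith
          field_simp
      _ ≤ X ^ β * Real.exp (-u ^ τ') * (1 / 4) := by
          rw [← f4]
          gcongr
  have hXβ : 0 < X ^ β := Real.rpow_pos_of_pos hX0 _
  have hE := Real.exp_pos (-u ^ τ')
  have e3 : X ^ β * Real.exp (-u ^ τ) * Real.log (D * X) ≤
      X ^ β * Real.exp (-u ^ τ') * (1 / 4) := by
    calc X ^ β * Real.exp (-u ^ τ) * Real.log (D * X)
        = X ^ β * (Real.exp (-u ^ τ) * Real.log (D * X)) := by ring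
      _ ≤ X ^ β * (Real.exp (-u ^ τ') * (1 / 4)) := by gcongr
      _ = _ := by ring
  have hpos : 0 < X ^ β * Real.exp (-u ^ τ') := by positivity
  linarith

lemma choose_sigma {σ s0 B τ : ℝ} (hσ : 1 / 2 < σ) (hs0 : s0 < σ)
    (hB1 : 4 * σ * (1 - σ) * (1 + B) < τ) :
    ∃ s, 1 / 2 < s ∧ s0 < s ∧ s < σ ∧ 4 * s * (1 - s) * (1 + B) < τ := by
  have hcont : Continuous (fun s : ℝ => 4 * s * (1 - s) * (1 + B)) := by fun_prop
  have h1 : ∀ᶠ s in 𝓝 σ, 4 * s * (1 - s) * (1 + B) < τ :=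
    hcont.continuousAt.eventually (gt_mem_nhds hB1)
  have h2 : ∀ᶠ s in 𝓝[<] σ, 4 * s * (1 - s) * (1 + B) < τ ∧ 1 / 2 < s ∧ s0 < s ∧ s < σ := by
    filter_upwards [h1.filter_mono nhdsWithin_le_nhds, self_mem_nhdsWithin,
      mem_nhdsWithin_of_mem_nhds (lt_mem_nhds hσ),
      mem_nhdsWithin_of_mem_nhds (lt_mem_nhds hs0)] with s a1 a2 a3 a4
    exact ⟨a1, a3, a4, a2⟩
  obtain ⟨s, a1, a2, a3, a4⟩ := h2.exists
  exact ⟨s, a2, a3, a4, a1⟩

/-- **(i)** two-sided oscillation of `π(x) - li(x)` in short windows. -/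
theorem osc_two_tau {σ c A B τ : ℝ} (hσ : 1 / 2 < σ) (hc : 0 < c) (hB : 0 ≤ B)
    (hB1 : 4 * σ * (1 - σ) * (1 + B) < τ) (hA1 : A < B + τ) (hτ1 : τ < 1) :
    ∀ᶠ X : ℝ in atTop, ∀ ρ : ℂ, zetaPole ρ = 0 → σ ≤ ρ.re → |ρ.im| ≤ (Real.log X) ^ A →
      ∃ x y : ℝ, X ≤ x ∧ x ≤ y ∧ y ≤ X + c * X / (Real.log X) ^ B ∧
        X ^ ρ.re * Real.exp (-(Real.log X) ^ τ) ≤ |primeErr x y| := by
  rcases le_or_gt 1 σ with hσ1 | hσ1
  · refine Eventually.of_forall fun X ρ h0 hρ _ => ?_
    have := zero_re_lt h0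
    linarith
  have hκ0 : 0 < 4 * σ * (1 - σ) * (1 + B) := by
    have : 0 < 1 - σ := by linarith
    positivity
  have hτ0 : 0 < τ := by linarith
  obtain ⟨s, hs1, -, hs2, hs3⟩ := choose_sigma hσ hσ hB1
  obtain ⟨τ', hτ'1, hτ'2⟩ : ∃ τ', max (4 * s * (1 - s) * (1 + B)) (A - B) < τ' ∧ τ' < τ :=
    exists_between (max_lt hs3 (by linarith))
  have hτ'3 : 4 * s * (1 - s) * (1 + B) < τ' := lt_of_le_of_lt (le_max_left _ _) hτ'1
  have hτ'4 : A - B < τ' := lt_of_le_of_lt (le_max_right _ _) hτ'1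
  obtain ⟨C, hC, htrans⟩ := psi_of_pi
  obtain ⟨c', hc'⟩ : ∃ c', c' = min c 1 / 2 := ⟨_, rfl⟩
  have hc'0 : 0 < c' := by
    have : 0 < min c 1 := lt_min hc one_pos
    rw [hc']; positivity
  have hc'c : 2 * c' ≤ c := by
    have := min_le_left c 1
    rw [hc']; linarith
  have hc'1 : c' ≤ 1 / 2 := by
    have := min_le_right c 1
    rw [hc']; linarith
  have h2 := two_sided_tau (σ := s) (B := B) (A := A) (c := c') (τ := τ') (g := σ - s) hs1
    (by linarith) hB hτ'3 (by linarith) (by linarith) hc'0 (by linarith)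
  have h3 := Real.tendsto_log_atTop.eventually h2
  have h4 := exp_compare_tau (σ := σ) (τ := τ) (τ' := τ') (C := C) (D := 1 + c) hσ hτ'2 hτ0
    (by linarith) hC.le (by linarith)
  filter_upwards [h3, h4, eventually_ge_atTop (Real.exp 1)] with X g1 g2 hX1 ρ h0 hρ him
  have hX0 : 0 < X := lt_of_lt_of_le (Real.exp_pos 1) hX1
  have hX2 : 2 ≤ X := by
    have := Real.add_one_le_exp (1:ℝ)
    linarith
  have hlog1 : 1 ≤ Real.log X := by
    rw [Real.le_log_iff_exp_le hX0]; exact hX1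
  by_contra hcon
  push Not at hcon
  have hpow1 : 1 ≤ (Real.log X) ^ B := Real.one_le_rpow hlog1 hB
  have hwin : X + c * X / (Real.log X) ^ B ≤ (1 + c) * X := by
    have : c * X / (Real.log X) ^ B ≤ c * X := div_le_self (by positivity) hpow1
    linarith
  obtain ⟨M1, hM1⟩ : ∃ M1, M1 = X ^ ρ.re * Real.exp (-(Real.log X) ^ τ) := ⟨_, rfl⟩
  have hMnn : 0 ≤ M1 := by rw [hM1]; positivity
  have g2' := g2 ρ.re hρ
  rw [← hM1] at g2' hcon
  have hkey : ∀ r a : ℝ, 0 ≤ r → 0 < a → r + a ≤ c' * (Real.log X) ^ (-B) →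
      |inc (Real.log X) a r| ≤ M1 * Real.log ((1 + c) * X) + C * √((1 + c) * X) := by
    intro r a hr ha hra
    unfold inc
    have e1 : Real.exp (Real.log X + r) = X * Real.exp r := by
      rw [Real.exp_add, Real.exp_log hX0]
    have e2 : Real.exp (Real.log X + r + a) = X * Real.exp (r + a) := by
      rw [add_assoc, Real.exp_add, Real.exp_log hX0]
    rw [e1, e2]
    have f1 : X ≤ X * Real.exp r := by
      have := Real.one_le_exp hr
      nlinarith
    have f2 : X * Real.exp r ≤ X * Real.exp (r + a) := by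
      have : Real.exp r ≤ Real.exp (r + a) := Real.exp_le_exp.2 (by linarith)
      gcongr
    have f3 : X * Real.exp (r + a) ≤ X + c * X / (Real.log X) ^ B := by
      have hp : 0 < (Real.log X) ^ (-B) := Real.rpow_pos_of_pos (by linarith) _
      have hp1 : (Real.log X) ^ (-B) ≤ 1 := Real.rpow_le_one_of_one_le_of_nonpos hlog1 (by linarith)
      have hw1 : r + a ≤ 1 / 2 := by nlinarith
      have hexp : Real.exp (r + a) ≤ 1 + 2 * (r + a) := by
        have h5 := Real.abs_exp_sub_one_sub_id_le (x := r + a) (by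
          rw [abs_of_nonneg (by linarith)]; linarith)
        have h6 := (abs_le.1 h5).2
        nlinarith
      have h7 : 1 + 2 * (r + a) ≤ 1 + c * (Real.log X) ^ (-B) := by nlinarith
      calc X * Real.exp (r + a) ≤ X * (1 + c * (Real.log X) ^ (-B)) := by
            gcongr; linarith
        _ = X + c * X / (Real.log X) ^ B := by
            rw [Real.rpow_neg (by linarith)]
            ring
    have f4 : X * Real.exp (r + a) ≤ (1 + c) * X := f3.trans hwin
    have hsg : ∀ sg : ℝ, (sg = 1 ∨ sg = -1) → sg * incr (X * Real.exp r) (X * Real.exp (r + a)) ≤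
        M1 * Real.log ((1 + c) * X) + C * √((1 + c) * X) := by
      intro sg hsg
      have := htrans (X * Real.exp r) (X * Real.exp (r + a)) M1 sg
        (by linarith) f2 hsg (fun t ht1 ht2 => by
          have h8 := (hcon t (X * Real.exp (r + a)) (by linarith) ht2 f3).le
          have h9 := abs_le.1 h8
          rcases hsg with h | h
          · rw [h]; linarith [h9.2]
          · rw [h]; linarith [h9.1])
      refine this.trans ?_
      have : Real.log (X * Real.exp (r + a)) ≤ Real.log ((1 + c) * X) :=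
        Real.log_le_log (by positivity) f4
      gcongr
    rw [abs_le]
    have b1 := hsg 1 (Or.inl rfl)
    have b2 := hsg (-1) (Or.inr rfl)
    constructor <;> linarith
  have g3 := g1 ρ h0 (by linarith) him _ hkey
  rw [show Real.log X * ρ.re - (Real.log X) ^ τ' = Real.log X * ρ.re + -(Real.log X) ^ τ' by ring,
    Real.exp_add, exp_log_mul hX0] at g3
  linarith

/-- **(ii)** one-sided oscillation of `π(x) - li(x)`. -/
theorem osc_one_tau {s σ η Λ lam A B τ : ℝ} (hσ : 1 / 2 < s) (hsσ : s < σ)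
    (hη : 0 < η) (hη1 : η ≤ 1 / 3) (hΛ0 : 0 ≤ Λ)
    (hΛ : ∀ F : Finset ℂ, (∀ z ∈ F, s < z.re ∧ 0 < z.im ∧ zetaPole z = 0) →
      ∑ z ∈ F, Real.pi / z.im ≤ Λ) (hlam : Real.exp (Λ + 6 * η) ≤ lam) (hB : 0 ≤ B)
    (hB1 : 4 * σ * (1 - σ) * (1 + B) < τ) (hA1 : A < B + τ) (hτ1 : τ < 1) :
    ∀ᶠ X : ℝ in atTop, ∀ ρ : ℂ, zetaPole ρ = 0 → σ ≤ ρ.re → |ρ.im| ≤ (Real.log X) ^ A →
      ∀ sg : ℝ, (sg = 1 ∨ sg = -1) → ∃ x y : ℝ, X ≤ x ∧ x ≤ y ∧ y ≤ lam * X ∧
        X ^ ρ.re * Real.exp (-(Real.log X) ^ τ) ≤ sg * primeErr x y := by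
  rcases le_or_gt 1 σ with hσ1 | hσ1
  · refine Eventually.of_forall fun X ρ h0 hρ _ => ?_
    have := zero_re_lt h0
    linarith
  have hσ' : 1 / 2 < σ := by linarith
  have hκ0 : 0 < 4 * σ * (1 - σ) * (1 + B) := by
    have : 0 < 1 - σ := by linarith
    positivity
  have hτ0 : 0 < τ := by linarith
  obtain ⟨t, ht1, ht0, ht2, ht3⟩ := choose_sigma hσ' hsσ hB1
  obtain ⟨τ', hτ'1, hτ'2⟩ : ∃ τ', max (4 * t * (1 - t) * (1 + B)) (A - B) < τ' ∧ τ' < τ :=
    exists_between (max_lt ht3 (by linarith))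
  have hτ'3 : 4 * t * (1 - t) * (1 + B) < τ' := lt_of_le_of_lt (le_max_left _ _) hτ'1
  have hτ'4 : A - B < τ' := lt_of_le_of_lt (le_max_right _ _) hτ'1
  obtain ⟨C, hC, htrans⟩ := psi_of_pi
  have hlam1 : 1 ≤ lam := by
    refine le_trans ?_ hlam
    rw [Real.one_le_exp_iff]
    positivity
  have h2 := one_sided_unif (σ := t) (A := A) (B := B) (τ := τ') (g := σ - t) ht1 (by linarith)
    hη hη1 hΛ0 (fun F hF => hΛ F fun z hz => ⟨ht0.trans (hF z hz).1, (hF z hz).2⟩) hB hτ'3
    (by linarith) (by linarith) (by linarith)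
  have h3 := Real.tendsto_log_atTop.eventually h2
  have h4 := exp_compare_tau (σ := σ) (τ := τ) (τ' := τ') (C := C) (D := lam) hσ' hτ'2 hτ0
    (by linarith) hC.le hlam1
  filter_upwards [h3, h4, eventually_ge_atTop (2:ℝ)] with X g1 g2 hX2 ρ h0 hρ him sg hsg
  have hX0 : 0 < X := by linarith
  by_contra hcon
  push Not at hcon
  obtain ⟨M1, hM1⟩ : ∃ M1, M1 = X ^ ρ.re * Real.exp (-(Real.log X) ^ τ) := ⟨_, rfl⟩
  have hMnn : 0 ≤ M1 := by rw [hM1]; positivity
  have g2' := g2 ρ.re hρ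
  rw [← hM1] at g2' hcon
  have hlX : 0 ≤ Real.log (lam * X) := Real.log_nonneg (by nlinarith)
  have g3 := g1 ρ h0 (by linarith) him (M1 * Real.log (lam * X) + C * √(lam * X)) sg
    (by positivity) hsg (fun r a hr ha hra => by
      unfold inc
      have e1 : Real.exp (Real.log X + r) = X * Real.exp r := by
        rw [Real.exp_add, Real.exp_log hX0]
      have e2 : Real.exp (Real.log X + r + a) = X * Real.exp (r + a) := by
        rw [add_assoc, Real.exp_add, Real.exp_log hX0]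
      rw [e1, e2]
      have f1 : X ≤ X * Real.exp r := by
        have := Real.one_le_exp hr
        nlinarith
      have f2 : X * Real.exp r ≤ X * Real.exp (r + a) := by
        have : Real.exp r ≤ Real.exp (r + a) := Real.exp_le_exp.2 (by linarith)
        gcongr
      have f3 : X * Real.exp (r + a) ≤ lam * X := by
        have : Real.exp (r + a) ≤ lam := (Real.exp_le_exp.2 hra).trans hlam
        rw [mul_comm]
        gcongr
      have h9 := htrans (X * Real.exp r) (X * Real.exp (r + a)) M1 sg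
        (by linarith) f2 hsg (fun t ht1 ht2 =>
          (hcon t (X * Real.exp (r + a)) (by linarith) ht2 f3).le)
      refine h9.trans ?_
      have : Real.log (X * Real.exp (r + a)) ≤ Real.log (lam * X) :=
        Real.log_le_log (by positivity) f3
      gcongr)
  rw [show Real.log X * ρ.re - (Real.log X) ^ τ' = Real.log X * ρ.re + -(Real.log X) ^ τ' by ring,
    Real.exp_add, exp_log_mul hX0] at g3
  linarith

end Pool.Agent.H6.Win
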