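import Pool.Agent.H6.Win.Hfun

/-!
# The local explicit formula
-/

set_option autoImplicit false

open Complex Filter Topology MeasureTheory Set Metric

namespace Pool.Agent.H6.Win

open Pool.Agent.H6

lemma hline_continuous {Z : Finset ℂ} (hZ : ∀ ρ ∈ Z, zetaPole ρ = 0) :
    Continuous (fun t : ℝ => hline Z (2 + t * I)) := by
  unfold hline
  have h2 : ∀ t : ℝ, zetaPole (2 + t * I) ≠ 0 := fun t =>
    zetaPole_ne_zero_of_one_le (by simp)
  have h4 : Continuous (deriv zetaPole) := by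
    have h5 : ContDiff ℂ 1 zetaPole := zetaPole_differentiable.contDiff
    exact h5.continuous_deriv le_rfl
  have h5 : Continuous (fun t : ℝ => deriv zetaPole (2 + t * I)) := h4.comp (by fun_prop)
  have h6 : Continuous (fun t : ℝ => zetaPole (2 + t * I)) :=
    zetaPole_differentiable.continuous.comp (by fun_prop)
  refine (h5.div₀ h6 h2).neg.add (continuous_finsetSum _ fun u hu => ?_)
  refine continuous_const.div₀ (by fun_prop) fun t h => ?_
  have hu1 : u.re < 1 := by
    by_contra h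
    exact zetaPole_ne_zero_of_one_le (not_lt.1 h) (hZ u hu)
  have := congrArg Complex.re h
  simp at this
  linarith

theorem local_formula {σ σ' : ℝ} (h1 : 1 / 2 < σ) (h2 : σ < σ') (h3 : σ' ≤ 1) :
    ∃ C : ℝ, 0 < C ∧ ∀ (T : ℝ) (w : ℝ → ℂ) (L V : ℝ) (W : ℂ → ℂ), 1 ≤ T → Kf w L V W →
      Continuous w → Differentiable ℂ W → Integrable (fun t : ℝ => W (2 + t * I)) →
      ∀ u A ε : ℝ, 0 ≤ u → 0 ≤ A → 0 ≤ ε → (∀ t : ℝ, |t| ≤ T → ‖W (σ' + t * I)‖ ≤ A) →
      (∀ x ∈ Icc σ' 2, ‖W (x + T * I)‖ ≤ ε ∧ ‖W (x - T * I)‖ ≤ ε) →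
      (∫ t in {t : ℝ | T < |t|}, ‖W (2 + t * I)‖ ≤ ε) →
      ‖(∑' n : ℕ, (ArithmeticFunction.vonMangoldt n : ℂ) * w (Real.log n - u)) -
        cexp u * W 1 + ∑ ρ ∈ zset σ (T + 3), (zord ρ : ℂ) * (cexp (u * ρ) * W ρ)‖ ≤
        C * T ^ 3 * (A * Real.exp (u * σ') + ε * Real.exp (2 * u)) := by
  obtain ⟨C1, hC1, hH⟩ := exists_H h1 h2 h3
  obtain ⟨C2, hC2, hline2⟩ := hline_line
  refine ⟨(2 * C1 + (4 * C1 + (C2 + C1))) , by positivity, ?_⟩
  intro T w L V W hT HW hc hWd hWi u A ε hu hA hε hA1 hε1 hε2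
  obtain ⟨hcount, H, hHr, hHl⟩ := hH T hT
  set Z := zset σ (T + 3) with hZ
  have hZ0 : ∀ ρ ∈ Z, zetaPole ρ = 0 := by
    intro ρ hρ
    rw [hZ, mem_zset] at hρ
    exact hρ.2.2
  have hmain := HW.line_formula hc hWi hu hZ0
  have hT0 : 0 < T := by linarith
  -- integrability
  set f : ℝ → ℂ := fun t => W (2 + t * I) * cexp (u * (2 + t * I)) * hline Z (2 + t * I) with hf
  have hbl : ∀ t : ℝ, ‖hline Z (2 + t * I)‖ ≤ C2 + C1 * T ^ 2 := fun t =>
    (hline2 Z t hZ0).trans (by linarith)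
  have hfi : Integrable f := by
    have h5 : Integrable (fun t : ℝ => W (2 + t * I) *
        (cexp (u * (2 + t * I)) * hline Z (2 + t * I))) := by
      refine hWi.mul_bdd (c := Real.exp (2 * u) * (C2 + C1 * T ^ 2)) ?_ ?_
      · exact ((by fun_prop : Continuous (fun t : ℝ => cexp (u * (2 + t * I)))).mul
          (hline_continuous hZ0)).aestronglyMeasurable
      · refine Eventually.of_forall fun t => ?_
        rw [norm_mul, norm_exp_line]
        have := hbl t
        gcongr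
    refine h5.congr (Eventually.of_forall fun t => ?_)
    simp only [hf]
    ring
  -- the split
  have hms : MeasurableSet (Icc (-T) T) := measurableSet_Icc
  have hcompl : (Icc (-T) T)ᶜ = {t : ℝ | T < |t|} := by
    ext t
    rw [mem_compl_iff, mem_Icc, mem_ofPred_eq, ← abs_le, not_le]
  have hsplit : ∫ t, f t = (∫ t in (-T)..T, f t) + ∫ t in {t : ℝ | T < |t|}, f t := by
    rw [← integral_add_compl hms hfi, hcompl, integral_Icc_eq_integral_Ioc,
      ← intervalIntegral.integral_of_le (by linarith)]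
  -- tail
  have htail : ‖∫ t in {t : ℝ | T < |t|}, f t‖ ≤ (C2 + C1 * T ^ 2) * (ε * Real.exp (2 * u)) := by
    calc ‖∫ t in {t : ℝ | T < |t|}, f t‖ ≤ ∫ t in {t : ℝ | T < |t|}, ‖f t‖ :=
          norm_integral_le_integral_norm _
      _ ≤ ∫ t in {t : ℝ | T < |t|}, ‖W (2 + t * I)‖ * (Real.exp (2 * u) * (C2 + C1 * T ^ 2)) := by
          apply integral_mono
          · exact hfi.norm.integrableOn
          · exact (hWi.norm.mul_const _).integrableOn
          · intro t
            simp only [hf]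
            rw [norm_mul, norm_mul, norm_exp_line, mul_assoc]
            have := hbl t
            gcongr
      _ = (∫ t in {t : ℝ | T < |t|}, ‖W (2 + t * I)‖) * (Real.exp (2 * u) * (C2 + C1 * T ^ 2)) :=
          integral_mul_const _ _
      _ ≤ ε * (Real.exp (2 * u) * (C2 + C1 * T ^ 2)) := by gcongr
      _ = _ := by ring
  -- shift
  set F : ℂ → ℂ := fun s => W s * cexp (u * s) * H s with hF
  have hrect := Complex.integral_boundary_rect_eq_zero_of_differentiableOn F
    (σ' - T * I) (2 + T * I) (by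
      intro s hs
      have e1 : (((σ' : ℂ) - T * I)).re = σ' := by simp
      have e2 : ((2 : ℂ) + T * I).re = 2 := by simp
      have e3 : (((σ' : ℂ) - T * I)).im = -T := by simp
      have e4 : ((2 : ℂ) + T * I).im = T := by simp
      rw [e1, e2, e3, e4, Complex.mem_reProdIm, uIcc_of_le (by linarith),
        uIcc_of_le (by linarith)] at hs
      have hd := (hHr s hs.1.1 hs.1.2 (abs_le.2 hs.2)).1
      exact (((hWd s).mul (by fun_prop)).mul hd).differentiableWithinAt)
  have e1 : (((σ' : ℂ) - T * I)).re = σ' := by simp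
  have e2 : ((2 : ℂ) + T * I).re = 2 := by simp
  have e3 : (((σ' : ℂ) - T * I)).im = -T := by simp
  have e4 : ((2 : ℂ) + T * I).im = T := by simp
  rw [e1, e2, e3, e4] at hrect
  -- the right side is the integral of f
  have hright : ∫ y in (-T)..T, F (((2:ℝ):ℂ) + y * I) = ∫ t in (-T)..T, f t := by
    apply intervalIntegral.integral_congr
    intro t ht
    rw [uIcc_of_le (by linarith)] at ht
    simp only [hF, hf, Complex.ofReal_ofNat]
    rw [hHl t (abs_le.2 ht)]
  have hHb : ∀ s : ℂ, σ' ≤ s.re → s.re ≤ 2 → |s.im| ≤ T → ‖H s‖ ≤ C1 * T ^ 2 :=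
    fun s a b c => (hHr s a b c).2
  -- left side
  have hleft : ‖∫ y in (-T)..T, F ((σ':ℂ) + y * I)‖ ≤
      (A * Real.exp (u * σ') * (C1 * T ^ 2)) * (2 * T) := by
    have h5 := intervalIntegral.norm_integral_le_of_norm_le_const (a := -T) (b := T)
      (f := fun y : ℝ => F ((σ':ℂ) + y * I)) (C := A * Real.exp (u * σ') * (C1 * T ^ 2)) ?_
    · refine h5.trans (le_of_eq ?_)
      rw [abs_of_pos (by linarith)]
      ring
    · intro y hy
      rw [uIoc_of_le (by linarith)] at hy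
      have hy' : |y| ≤ T := abs_le.2 ⟨hy.1.le, hy.2⟩
      simp only [hF]
      rw [norm_mul, norm_mul]
      have a1 := hA1 y hy'
      have a2 : ‖cexp (u * ((σ':ℂ) + y * I))‖ = Real.exp (u * σ') := by
        rw [Complex.norm_exp]; congr 1; simp
      rw [a2]
      have a3 := hHb ((σ':ℂ) + y * I) (by simp) (by simp; linarith) (by simpa using hy')
      gcongr
  -- horizontal sides
  have hhor : ∀ τ : ℝ, (τ = T ∨ τ = -T) → ‖∫ x in σ'..2, F ((x:ℂ) + τ * I)‖ ≤
      (ε * Real.exp (2 * u) * (C1 * T ^ 2)) * 2 := by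
    intro τ hτ
    have h5 := intervalIntegral.norm_integral_le_of_norm_le_const (a := σ') (b := 2)
      (f := fun x : ℝ => F ((x:ℂ) + τ * I)) (C := ε * Real.exp (2 * u) * (C1 * T ^ 2)) ?_
    · refine h5.trans ?_
      rw [abs_of_pos (by linarith)]
      gcongr
      linarith
    · intro x hx
      rw [uIoc_of_le (by linarith)] at hx
      simp only [hF]
      rw [norm_mul, norm_mul]
      have a1 : ‖W ((x:ℂ) + τ * I)‖ ≤ ε := by
        rcases hτ with rfl | rfl
        · exact (hε1 x ⟨hx.1.le, hx.2⟩).1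
        · have := (hε1 x ⟨hx.1.le, hx.2⟩).2
          convert this using 3
          push_cast
          ring
      have a2 : ‖cexp (u * ((x:ℂ) + τ * I))‖ ≤ Real.exp (2 * u) := by
        rw [Complex.norm_exp]
        apply Real.exp_le_exp.2
        simp only [Complex.mul_re, Complex.add_re, Complex.ofReal_re, Complex.ofReal_im,
          Complex.I_re, Complex.I_im, Complex.add_im, Complex.mul_im]
        ring_nf
        nlinarith [hx.2]
      have hτT : |τ| ≤ T := by
        rcases hτ with rfl | rfl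
        · rw [abs_of_pos hT0]
        · rw [abs_neg, abs_of_pos hT0]
      have a3 := hHb ((x:ℂ) + τ * I) (by simp; exact hx.1.le) (by simp; exact hx.2)
        (by simpa using hτT)
      gcongr
  have hshift : ‖∫ t in (-T)..T, f t‖ ≤ (A * Real.exp (u * σ') * (C1 * T ^ 2)) * (2 * T) +
      2 * ((ε * Real.exp (2 * u) * (C1 * T ^ 2)) * 2) := by
    have h6 : I • ∫ t in (-T)..T, f t =
        I • (∫ y in (-T)..T, F ((σ':ℂ) + y * I)) +
        ((∫ x in σ'..2, F ((x:ℂ) + (T:ℂ) * I)) - ∫ x in σ'..2, F ((x:ℂ) + ((-T : ℝ):ℂ) * I)) := by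
      rw [← hright]
      linear_combination hrect
    have h7 : ‖∫ t in (-T)..T, f t‖ = ‖I • ∫ t in (-T)..T, f t‖ := by
      rw [norm_smul, Complex.norm_I, one_mul]
    rw [h7, h6]
    refine (norm_add_le _ _).trans ?_
    rw [norm_smul, Complex.norm_I, one_mul]
    have b1 := hhor T (Or.inl rfl)
    have b2 := hhor (-T) (Or.inr rfl)
    have b3 := norm_sub_le (∫ x in σ'..2, F ((x:ℂ) + (T:ℂ) * I))
      (∫ x in σ'..2, F ((x:ℂ) + ((-T : ℝ):ℂ) * I))
    linarith
  -- conclusion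
  set R : ℂ := (∑' n : ℕ, (ArithmeticFunction.vonMangoldt n : ℂ) * w (Real.log n - u)) -
        cexp u * W 1 + ∑ ρ ∈ Z, (zord ρ : ℂ) * (cexp (u * ρ) * W ρ) with hR
  have hnorm : ‖R‖ ≤ ‖∫ t, f t‖ := by
    have h8 : ∫ t, f t = 2 * Real.pi * R := hmain
    rw [h8, norm_mul, norm_mul, Complex.norm_real, Real.norm_eq_abs, abs_of_pos Real.pi_pos]
    have h9 : (1:ℝ) ≤ ‖(2:ℂ)‖ * Real.pi := by
      rw [Complex.norm_ofNat]
      linarith [Real.pi_gt_three]
    have := norm_nonneg R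
    nlinarith
  refine hnorm.trans ?_
  rw [hsplit]
  refine (norm_add_le _ _).trans ?_
  have hT23 : T ^ 2 ≤ T ^ 3 := by
    have : T ^ 3 = T ^ 2 * T := by ring
    rw [this]
    nlinarith [sq_nonneg T]
  have hT13 : 1 ≤ T ^ 3 := one_le_pow₀ hT
  set P := A * Real.exp (u * σ') with hP
  set Q := ε * Real.exp (2 * u) with hQ
  have hP0 : 0 ≤ P := by positivity
  have hQ0 : 0 ≤ Q := by positivity
  calc ‖∫ t in (-T)..T, f t‖ + ‖∫ t in {t : ℝ | T < |t|}, f t‖
      ≤ ((P * (C1 * T ^ 2)) * (2 * T) + 2 * ((Q * (C1 * T ^ 2)) * 2)) + (C2 + C1 * T ^ 2) * Q :=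
        add_le_add hshift htail
    _ = 2 * C1 * T ^ 3 * P + (4 * C1 * T ^ 2 + (C2 * 1 + C1 * T ^ 2)) * Q := by ring
    _ ≤ 2 * C1 * T ^ 3 * P + (4 * C1 * T ^ 3 + (C2 * T ^ 3 + C1 * T ^ 3)) * Q := by gcongr
    _ = (2 * C1) * T ^ 3 * P + (4 * C1 + (C2 + C1)) * T ^ 3 * Q := by ring
    _ ≤ (2 * C1 + (4 * C1 + (C2 + C1))) * T ^ 3 * P +
          (2 * C1 + (4 * C1 + (C2 + C1))) * T ^ 3 * Q := by
        have k1 : 2 * C1 ≤ 2 * C1 + (4 * C1 + (C2 + C1)) := by linarith
        have k2 : 4 * C1 + (C2 + C1) ≤ 2 * C1 + (4 * C1 + (C2 + C1)) := by linarith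
        have k3 : 0 ≤ T ^ 3 := by positivity
        exact add_le_add
          (mul_le_mul_of_nonneg_right (mul_le_mul_of_nonneg_right k1 k3) hP0)
          (mul_le_mul_of_nonneg_right (mul_le_mul_of_nonneg_right k2 k3) hQ0)
    _ = _ := by ring

end Pool.Agent.H6.Win
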