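import Pool.Agent.H6.Win.Master
import Pool.Agent.H6.Win.Density2

/-!
# Lower bounds for the oscillation on short windows
-/

set_option autoImplicit false

open Complex Filter Topology MeasureTheory Set Metric

namespace Pool.Agent.H6.Win

open Pool.Agent.H6

lemma asym {q : ℝ} (hq : q < 1) (α : ℝ) (hα : 0 ≤ α) {ε : ℝ} (hε : 0 < ε) :
    ∀ᶠ u : ℝ in atTop, α * ((1 + u ^ q) * (1 + Real.log u)) ≤ ε * u := by
  set q0 : ℝ := max q 0 with hq0
  have hq00 : 0 ≤ q0 := le_max_right _ _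
  have hq01 : q0 < 1 := max_lt hq one_pos
  set η : ℝ := (1 - q0) / 2 with hη
  have hη0 : 0 < η := by rw [hη]; linarith
  have hlim := tendsto_rpow_neg_atTop hη0
  have hlim2 : Tendsto (fun u : ℝ => α * (2 * (1 + 1 / η)) * u ^ (-η)) atTop (𝓝 0) := by
    have := hlim.const_mul (α * (2 * (1 + 1 / η)))
    simpa using this
  filter_upwards [eventually_ge_atTop (1:ℝ), hlim2.eventually (gt_mem_nhds hε)] with u hu1 hu2
  have hu0 : 0 < u := by linarith
  have e1 : 1 + u ^ q ≤ 2 * u ^ q0 := by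
    have a1 : 1 ≤ u ^ q0 := Real.one_le_rpow hu1 hq00
    have a2 : u ^ q ≤ u ^ q0 := Real.rpow_le_rpow_of_exponent_le hu1 (le_max_left _ _)
    linarith
  have e2 : 1 + Real.log u ≤ (1 + 1 / η) * u ^ η := by
    have a1 : 1 ≤ u ^ η := Real.one_le_rpow hu1 hη0.le
    have a2 := Real.log_le_rpow_div hu0.le hη0
    calc 1 + Real.log u ≤ u ^ η + u ^ η / η := by linarith
      _ = _ := by ring
  have h0 : 0 ≤ 1 + Real.log u := by
    have := Real.log_nonneg hu1
    linarith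
  have e3 : u ^ q0 * u ^ η = u ^ (-η) * u := by
    rw [← Real.rpow_add hu0, ← Real.rpow_add_one hu0.ne']
    congr 1
    rw [hη]
    ring
  calc α * ((1 + u ^ q) * (1 + Real.log u)) ≤ α * ((2 * u ^ q0) * ((1 + 1 / η) * u ^ η)) := by
        gcongr
    _ = α * (2 * (1 + 1 / η)) * (u ^ q0 * u ^ η) := by ring
    _ = α * (2 * (1 + 1 / η)) * u ^ (-η) * u := by rw [e3]; ring
    _ ≤ ε * u := by gcongr

/-- zeros are isolated -/
lemma zero_isolated {ρ : ℂ} : ∃ δ : ℝ, 0 < δ ∧ δ ≤ 1 ∧ ∀ z, zetaPole z = 0 → z ≠ ρ →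
    δ ≤ ‖ρ - z‖ := by
  have h := zetaPole_eventually_ne ρ
  rw [eventually_nhdsWithin_iff, Metric.eventually_nhds_iff] at h
  obtain ⟨δ, hδ, h⟩ := h
  refine ⟨min δ 1, lt_min hδ one_pos, min_le_right _ _, fun z hz hne => ?_⟩
  by_contra hcon
  rw [not_le] at hcon
  have h1 : dist z ρ < δ := by
    rw [dist_eq_norm, norm_sub_rev]
    exact lt_of_lt_of_le hcon (min_le_left _ _)
  exact h h1 (by simpa using hne) hz

lemma norm_exp_sub_one_ge {w : ℂ} (hw : ‖w‖ ≤ 1 / 2) : ‖w‖ / 2 ≤ ‖Complex.exp w - 1‖ := by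
  have h1 := Complex.norm_exp_sub_one_sub_id_le (x := w) (by linarith)
  have h2 : ‖w‖ ≤ ‖Complex.exp w - 1‖ + ‖Complex.exp w - 1 - w‖ := by
    calc ‖w‖ = ‖(Complex.exp w - 1) - (Complex.exp w - 1 - w)‖ := by congr 1; ring
      _ ≤ _ := norm_sub_le _ _
  have h0 := norm_nonneg w
  nlinarith

/-- The kernel for the two-sided theorem: everything except the asymptotics. -/
theorem two_sided_core {σ σ' : ℝ} (hσ : 1 / 2 < σ) (hσσ' : σ < σ') (hσ' : σ' ≤ 1) {ρ0 : ℂ}
    (h0 : zetaPole ρ0 = 0) (hρ : σ < ρ0.re) :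
    ∃ C δ : ℝ, 0 < C ∧ 0 < δ ∧ δ ≤ 1 ∧ ∀ (u D M : ℝ) (m : ℕ), 0 < D → D ≤ 1 / (2 * (1 + ‖ρ0‖)) →
      0 ≤ u → |ρ0.im| ≤ u → 2 ≤ m → u ≤ m →
      (∀ r a : ℝ, 0 ≤ r → 0 < a → r + a ≤ D → |inc u a r| ≤ M) →
      Real.exp (u * ρ0.re) * ((D / 8) * Real.exp (-3) *
        (δ * D / (8 * ((zset σ (hgt (D / (8 * m)) + 3)).card + 1))) ^
          (zset σ (hgt (D / (8 * m)) + 3)).card) ≤
        M * 3 ^ (zset σ (hgt (D / (8 * m)) + 3)).card +
        C * 4 ^ (zset σ (hgt (D / (8 * m)) + 3)).card * hgt (D / (8 * m)) ^ 5 *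
          (Real.exp (u * σ') + 1) := by
  classical
  obtain ⟨C, hC, hmaster⟩ := master hσ hσσ' hσ'
  obtain ⟨δ, hδ0, hδ1, hδ⟩ := zero_isolated (ρ := ρ0)
  refine ⟨C, δ, hC, hδ0, hδ1, ?_⟩
  intro u D M m hD hD1 hu him hm hum hinc
  have hn0 := norm_nonneg ρ0
  have hDhalf : D ≤ 1 / 2 := by
    refine hD1.trans ?_
    rw [div_le_div_iff₀ (by positivity) (by norm_num)]
    linarith
  have hDρ : ‖ρ0‖ * D ≤ 1 / 2 := by
    have h1 : D * (2 * (1 + ‖ρ0‖)) ≤ 1 := by
      rwa [le_div_iff₀ (by positivity)] at hD1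
    nlinarith
  have hm0 : (0:ℝ) < m := by
    have : 0 < m := by omega
    exact_mod_cast this
  have hm1 : (1:ℝ) ≤ m := by
    have : 1 ≤ m := by omega
    exact_mod_cast this
  set a : ℝ := D / 8 with ha
  set b : ℝ := D / (8 * m) with hb
  set Z0 := zset σ (hgt b + 3) with hZ0
  set Nc : ℕ := Z0.card with hNc
  set Z := Z0.erase ρ0 with hZ
  set η : ℝ := D / (4 * (Nc + 1)) with hη
  set h : ℂ → ℝ := fun z => min η (1 / (2 * ‖ρ0 - z‖)) with hh
  set c : ℂ → ℂ := fun z => cexp (z * h z) with hcdef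
  set P : ℂ → ℂ := fun s => ∏ z ∈ Z, (cexp (s * h z) - c z) with hP
  have ha0 : 0 < a := by positivity
  have hb0 : 0 < b := by positivity
  have hη0 : 0 < η := by positivity
  have hη1 : η ≤ 1 / 8 := by
    rw [hη, div_le_div_iff₀ (by positivity) (by norm_num)]
    have : (0:ℝ) ≤ Nc := Nat.cast_nonneg _
    nlinarith
  have hbm : b * m = D / 8 := by rw [hb]; field_simp
  have hb1 : b ≤ 1 := by
    rw [hb, div_le_one (by positivity)]
    nlinarith
  have hZmem : ∀ z ∈ Z, z ≠ ρ0 ∧ σ < z.re ∧ z.re < 1 ∧ zetaPole z = 0 := by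
    intro z hz
    rw [hZ, Finset.mem_erase, hZ0, mem_zset] at hz
    exact ⟨hz.1, hz.2.1, zero_re_lt hz.2.2.2, hz.2.2.2⟩
  have hdist : ∀ z ∈ Z, δ ≤ ‖ρ0 - z‖ := fun z hz => hδ z (hZmem z hz).2.2.2 (hZmem z hz).1
  have hh0 : ∀ z ∈ Z, 0 ≤ h z := by
    intro z hz
    have := hdist z hz
    have : 0 < ‖ρ0 - z‖ := by linarith
    exact le_min hη0.le (by positivity)
  have hhη : ∀ z, h z ≤ η := fun z => min_le_left _ _
  have hcard : (Z.card : ℝ) ≤ Nc := by
    rw [hNc]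
    exact_mod_cast Finset.card_le_card (Finset.erase_subset _ _)
  have hsumh : ∑ z ∈ Z, h z ≤ D / 4 := by
    calc ∑ z ∈ Z, h z ≤ ∑ _z ∈ Z, η := Finset.sum_le_sum fun z _ => hhη z
      _ = Z.card * η := by rw [Finset.sum_const, nsmul_eq_mul]
      _ ≤ Nc * η := by gcongr
      _ ≤ D / 4 := by
          rw [hη]
          have hN0 : (0:ℝ) ≤ Nc := Nat.cast_nonneg _
          rw [mul_div_assoc', div_le_div_iff₀ (by positivity) (by norm_num)]
          nlinarith
  -- exponentials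
  have hexp14 : Real.exp (1 / 4) ≤ 2 := by
    have h1 := Real.exp_one_lt_d9
    have h2 : Real.exp (1 / 4) ≤ Real.exp 1 := Real.exp_le_exp.2 (by norm_num)
    have h3 : Real.exp (1 / 4) ^ 4 = Real.exp 1 := by
      rw [← Real.exp_nat_mul]; norm_num
    by_contra hcon
    rw [not_le] at hcon
    have h4 : (2:ℝ) ^ 4 < Real.exp (1 / 4) ^ 4 := by gcongr
    rw [h3] at h4
    norm_num at h4
    linarith
  have hcn : ∀ z ∈ Z, ‖c z‖ ≤ 2 := by
    intro z hz
    have h1 := hZmem z hz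
    have h2 := hh0 z hz
    rw [hcdef]
    simp only
    rw [Complex.norm_exp]
    refine le_trans (Real.exp_le_exp.2 ?_) hexp14
    have h3 : (z * (h z : ℂ)).re = z.re * h z := by simp
    rw [h3]
    have := hhη z
    nlinarith
  have hPb : ∀ s : ℂ, 0 ≤ s.re → s.re ≤ 2 → ‖P s‖ ≤ 4 ^ Nc := by
    intro s b1 b2
    rw [hP]
    simp only
    rw [norm_prod]
    calc ∏ z ∈ Z, ‖cexp (s * h z) - c z‖ ≤ ∏ _z ∈ Z, (4:ℝ) := by
          refine Finset.prod_le_prod (fun z _ => norm_nonneg _) fun z hz => ?_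
          refine (norm_sub_le _ _).trans ?_
          have h2 := hh0 z hz
          have h4 : ‖cexp (s * h z)‖ ≤ 2 := by
            rw [Complex.norm_exp]
            refine le_trans (Real.exp_le_exp.2 ?_) hexp14
            have h3 : (s * (h z : ℂ)).re = s.re * h z := by simp
            rw [h3]
            have := hhη z
            nlinarith
          linarith [hcn z hz]
      _ = 4 ^ Z.card := by rw [Finset.prod_const]
      _ ≤ 4 ^ Nc := by
          apply pow_le_pow_right₀ (by norm_num)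
          exact Finset.card_le_card (Finset.erase_subset _ _)
  have hPd : Differentiable ℂ P := by
    rw [hP]
    apply Differentiable.fun_finsetProd
    intro z _
    fun_prop
  obtain ⟨f, hf⟩ := exists_kf (ℓ := a) (b := b) ha0.le hb0 m h c Z hh0
  have hfW : Kf f (a + m * b + ∑ z ∈ Z, h z) (a * ∏ z ∈ Z, (1 + ‖c z‖)) (wf a b m P) := hf
  have hmain := hmaster f _ _ P a a b m (4 ^ Nc) u ha0 (by rw [ha]; linarith) ha0
    (by rw [ha]; linarith) hb0 hb1 (by rw [hbm]; linarith) hm hPd hPb hfW hu hum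
  -- the sum over zeros
  have hρ0Z : ρ0 ∈ Z0 := by
    rw [hZ0, mem_zset]
    refine ⟨hρ, ?_, h0⟩
    have h1 : (m:ℝ) ≤ hgt b := by
      unfold hgt
      rw [le_div_iff₀ hb0, mul_comm, hbm]
      have := Real.add_one_le_exp (6:ℝ)
      linarith
    linarith
  have hsum : ∑ ρ ∈ Z0, (zord ρ : ℂ) * (cexp (u * ρ) * (wf a b m P ρ * phi (ρ * a))) =
      (zord ρ0 : ℂ) * (cexp (u * ρ0) * (wf a b m P ρ0 * phi (ρ0 * a))) := by
    rw [← Finset.add_sum_erase _ _ hρ0Z]
    have : ∑ ρ ∈ Z0.erase ρ0, (zord ρ : ℂ) * (cexp (u * ρ) * (wf a b m P ρ * phi (ρ * a))) = 0 := by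
      apply Finset.sum_eq_zero
      intro ρ hρz
      have h1 : P ρ = 0 := by
        rw [hP]
        apply Finset.prod_eq_zero hρz
        rw [hcdef]
        simp
      unfold wf
      rw [h1]
      ring
    rw [this, add_zero]
  rw [hsum] at hmain
  -- size of the integral
  have hM0 : 0 ≤ M := (abs_nonneg _).trans (hinc 0 a le_rfl ha0 (by rw [ha]; linarith))
  have hL : a + m * b + ∑ z ∈ Z, h z + a ≤ D := by
    rw [mul_comm (m:ℝ) b, hbm, ha]
    linarith
  have hint : ‖((1 / a : ℝ) : ℂ) * ∫ r, f r * (inc u a r : ℂ)‖ ≤ M * 3 ^ Nc := by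
    rw [norm_mul, Complex.norm_real, Real.norm_eq_abs, abs_of_pos (by positivity)]
    have h1 : ‖∫ r, f r * (inc u a r : ℂ)‖ ≤ ∫ r, M * ‖f r‖ := by
      apply norm_integral_le_of_norm_le (hfW.int.norm.const_mul _)
      refine Eventually.of_forall fun r => ?_
      by_cases hr : r ∈ Icc 0 (a + m * b + ∑ z ∈ Z, h z)
      · rw [norm_mul, Complex.norm_real, Real.norm_eq_abs, mul_comm]
        have := hinc r a hr.1 ha0 (by linarith [hr.2])
        gcongr
      · rw [hfW.supp r hr]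
        simp
    rw [integral_const_mul] at h1
    have h2 : ∏ z ∈ Z, (1 + ‖c z‖) ≤ 3 ^ Nc := by
      calc ∏ z ∈ Z, (1 + ‖c z‖) ≤ ∏ _z ∈ Z, (3:ℝ) := by
            refine Finset.prod_le_prod (fun z _ => by positivity) fun z hz => ?_
            linarith [hcn z hz]
        _ = 3 ^ Z.card := by rw [Finset.prod_const]
        _ ≤ 3 ^ Nc := by
            apply pow_le_pow_right₀ (by norm_num)
            exact Finset.card_le_card (Finset.erase_subset _ _)
    calc 1 / a * ‖∫ r, f r * (inc u a r : ℂ)‖ ≤ 1 / a * (M * ∫ r, ‖f r‖) := by gcongr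
      _ ≤ 1 / a * (M * (a * 3 ^ Nc)) := by
          have := hfW.norm
          gcongr
          exact this.trans (by gcongr)
      _ = M * 3 ^ Nc := by field_simp
  -- lower bound for the term of ρ0
  have hzord : (1:ℝ) ≤ zord ρ0 := by exact_mod_cast zord_pos h0
  have hphi : ∀ x : ℝ, 0 < x → x ≤ D / 8 → Real.exp (-1) ≤ ‖phi (ρ0 * x)‖ := by
    intro x hx hx1
    have h1 : ‖ρ0 * (x:ℂ)‖ = ‖ρ0‖ * x := by
      rw [norm_mul, Complex.norm_real, Real.norm_eq_abs, abs_of_pos hx]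
    have h2 : ‖ρ0‖ * x ≤ 1 / 2 := by nlinarith
    have h3 := norm_phi_ge (z := ρ0 * x) (by rw [h1]; exact h2)
    refine le_trans (Real.exp_le_exp.2 ?_) h3
    rw [h1]
    linarith
  have hphib : Real.exp (-1) ≤ ‖phi (ρ0 * b)‖ ^ m := by
    have h1 : ‖ρ0 * (b:ℂ)‖ = ‖ρ0‖ * b := by
      rw [norm_mul, Complex.norm_real, Real.norm_eq_abs, abs_of_pos hb0]
    have hbD : b ≤ D / 8 := by
      rw [← hbm]
      nlinarith
    have h2 : ‖ρ0‖ * b ≤ 1 / 2 := by nlinarith
    have h3 := norm_phi_ge (z := ρ0 * b) (by rw [h1]; exact h2)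
    calc Real.exp (-1) ≤ Real.exp (-(2 * ‖ρ0 * (b:ℂ)‖)) ^ m := by
          rw [← Real.exp_nat_mul]
          apply Real.exp_le_exp.2
          rw [h1]
          have : (m:ℝ) * -(2 * (‖ρ0‖ * b)) = -(2 * (‖ρ0‖ * (b * m))) := by ring
          rw [this, hbm]
          nlinarith
      _ ≤ _ := by gcongr
  have hPρ : (δ * D / (8 * (Nc + 1))) ^ Nc ≤ ‖P ρ0‖ := by
    rw [hP]
    simp only
    rw [norm_prod]
    have hy0 : 0 ≤ δ * D / (8 * ((Nc:ℝ) + 1)) := by positivity
    have hy1 : δ * D / (8 * ((Nc:ℝ) + 1)) ≤ 1 := by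
      rw [div_le_one (by positivity)]
      have : (0:ℝ) ≤ Nc := Nat.cast_nonneg _
      nlinarith
    calc (δ * D / (8 * ((Nc:ℝ) + 1))) ^ Nc ≤ (δ * D / (8 * ((Nc:ℝ) + 1))) ^ Z.card := by
          apply pow_le_pow_of_le_one hy0 hy1
          exact Finset.card_le_card (Finset.erase_subset _ _)
      _ = ∏ _z ∈ Z, (δ * D / (8 * ((Nc:ℝ) + 1))) := by rw [Finset.prod_const]
      _ ≤ ∏ z ∈ Z, ‖cexp (ρ0 * h z) - c z‖ := by
          refine Finset.prod_le_prod (fun z _ => hy0) fun z hz => ?_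
          have hd := hdist z hz
          have hd0 : 0 < ‖ρ0 - z‖ := by linarith
          have hz2 := hZmem z hz
          have hhz := hh0 z hz
          have e1 : cexp (ρ0 * h z) - c z = cexp (z * h z) * (cexp ((ρ0 - z) * h z) - 1) := by
            rw [hcdef, mul_sub, ← Complex.exp_add]
            ring_nf
          have e2 : 1 ≤ ‖cexp (z * h z)‖ := by
            rw [Complex.norm_exp, Real.one_le_exp_iff]
            have h3 : (z * (h z : ℂ)).re = z.re * h z := by simp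
            rw [h3]
            have : 0 ≤ z.re := by linarith
            positivity
          have e3 : ‖(ρ0 - z) * (h z : ℂ)‖ = ‖ρ0 - z‖ * h z := by
            rw [norm_mul, Complex.norm_real, Real.norm_eq_abs, abs_of_nonneg hhz]
          have e4 : ‖ρ0 - z‖ * h z ≤ 1 / 2 := by
            calc ‖ρ0 - z‖ * h z ≤ ‖ρ0 - z‖ * (1 / (2 * ‖ρ0 - z‖)) := by
                  gcongr
                  exact min_le_right _ _
              _ = 1 / 2 := by field_simp
          have e5 := norm_exp_sub_one_ge (w := (ρ0 - z) * h z) (by rw [e3]; exact e4)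
          have e6 : δ * D / (4 * (Nc + 1)) ≤ ‖ρ0 - z‖ * h z := by
            rcases min_choice η (1 / (2 * ‖ρ0 - z‖)) with hmin | hmin
            · have : h z = η := hmin
              rw [this, hη]
              calc δ * D / (4 * (Nc + 1)) = δ * (D / (4 * (Nc + 1))) := by ring
                _ ≤ ‖ρ0 - z‖ * (D / (4 * (Nc + 1))) := by gcongr
            · have : h z = 1 / (2 * ‖ρ0 - z‖) := hmin
              rw [this]
              calc δ * D / (4 * (Nc + 1)) ≤ 1 / 2 := by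
                    rw [div_le_div_iff₀ (by positivity) (by norm_num)]
                    have : (0:ℝ) ≤ Nc := Nat.cast_nonneg _
                    nlinarith
                _ = ‖ρ0 - z‖ * (1 / (2 * ‖ρ0 - z‖)) := by field_simp
          rw [e1, norm_mul]
          calc δ * D / (8 * ((Nc:ℝ) + 1)) = (δ * D / (4 * (Nc + 1))) / 2 := by
                field_simp
                ring
            _ ≤ (‖ρ0 - z‖ * h z) / 2 := by gcongr
            _ ≤ ‖cexp ((ρ0 - z) * h z) - 1‖ := by rw [← e3]; exact e5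
            _ ≤ ‖cexp (z * h z)‖ * ‖cexp ((ρ0 - z) * h z) - 1‖ := by
                have := norm_nonneg (cexp ((ρ0 - z) * h z) - 1)
                nlinarith
  have hlow : Real.exp (u * ρ0.re) * ((D / 8) * Real.exp (-3) * (δ * D / (8 * (Nc + 1))) ^ Nc) ≤
      ‖(zord ρ0 : ℂ) * (cexp (u * ρ0) * (wf a b m P ρ0 * phi (ρ0 * a)))‖ := by
    rw [norm_mul, norm_mul, norm_mul, Complex.norm_natCast]
    have e1 : ‖cexp (u * ρ0)‖ = Real.exp (u * ρ0.re) := by
      rw [Complex.norm_exp]; congr 1; simp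
    rw [e1]
    have e2 : (D / 8) * Real.exp (-1) * Real.exp (-1) * (δ * D / (8 * (Nc + 1))) ^ Nc ≤
        ‖wf a b m P ρ0‖ := by
      unfold wf
      rw [norm_mul, norm_mul, norm_mul, norm_pow, Complex.norm_real, Real.norm_eq_abs,
        abs_of_pos ha0]
      have := hphi a ha0 le_rfl
      gcongr
    have e3 := hphi a ha0 le_rfl
    calc Real.exp (u * ρ0.re) * ((D / 8) * Real.exp (-3) * (δ * D / (8 * (Nc + 1))) ^ Nc)
        = 1 * (Real.exp (u * ρ0.re) * (((D / 8) * Real.exp (-1) * Real.exp (-1) *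
            (δ * D / (8 * (Nc + 1))) ^ Nc) * Real.exp (-1))) := by
          have : Real.exp (-3) = Real.exp (-1) * Real.exp (-1) * Real.exp (-1) := by
            rw [← Real.exp_add, ← Real.exp_add]; norm_num
          rw [this]
          ring
      _ ≤ (zord ρ0 : ℝ) * (Real.exp (u * ρ0.re) * (‖wf a b m P ρ0‖ * ‖phi (ρ0 * a)‖)) := by
          gcongr
  -- conclusion
  have hfin : ‖(zord ρ0 : ℂ) * (cexp (u * ρ0) * (wf a b m P ρ0 * phi (ρ0 * a)))‖ ≤
      ‖((1 / a : ℝ) : ℂ) * ∫ r, f r * (inc u a r : ℂ)‖ +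
      ‖(((1 / a : ℝ) : ℂ) * ∫ r, f r * (inc u a r : ℂ)) +
        (zord ρ0 : ℂ) * (cexp (u * ρ0) * (wf a b m P ρ0 * phi (ρ0 * a)))‖ := by
    set X1 := ((1 / a : ℝ) : ℂ) * ∫ r, f r * (inc u a r : ℂ)
    set X2 := (zord ρ0 : ℂ) * (cexp (u * ρ0) * (wf a b m P ρ0 * phi (ρ0 * a)))
    calc ‖X2‖ = ‖-X1 + (X1 + X2)‖ := by congr 1; ring
      _ ≤ ‖-X1‖ + ‖X1 + X2‖ := norm_add_le _ _
      _ = _ := by rw [norm_neg]
  refine hlow.trans (hfin.trans ?_)
  gcongr

end Pool.Agent.H6.Win
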