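import Pool.Agent.H6.Win.Interp

/-!
# Lower bounds for the oscillation which are uniform in the zero
-/

set_option autoImplicit false

open Complex Filter Topology MeasureTheory Set Metric

namespace Pool.Agent.H6.Win

open Pool.Agent.H6

lemma exp_diff_lower {s z : ℂ} {x : ℝ} (hx : 0 ≤ x) (hz : 0 ≤ z.re)
    (h : ‖s - z‖ * x ≤ 1 / 2) : ‖s - z‖ * x / 2 ≤ ‖cexp (s * x) - cexp (z * x)‖ := by
  have e1 : cexp (s * x) - cexp (z * x) = cexp (z * x) * (cexp ((s - z) * x) - 1) := by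
    rw [mul_sub, ← Complex.exp_add]
    ring_nf
  have e2 : 1 ≤ ‖cexp (z * x)‖ := by
    rw [Complex.norm_exp, Real.one_le_exp_iff]
    have h3 : (z * (x : ℂ)).re = z.re * x := by simp
    rw [h3]
    positivity
  have e3 : ‖(s - z) * (x : ℂ)‖ = ‖s - z‖ * x := by
    rw [norm_mul, Complex.norm_real, Real.norm_eq_abs, abs_of_nonneg hx]
  have e5 := norm_exp_sub_one_ge (w := (s - z) * x) (by rw [e3]; exact h)
  rw [e3] at e5
  rw [e1, norm_mul]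
  calc ‖s - z‖ * x / 2 ≤ ‖cexp ((s - z) * x) - 1‖ := e5
    _ ≤ ‖cexp (z * x)‖ * ‖cexp ((s - z) * x) - 1‖ := by
        have := norm_nonneg (cexp ((s - z) * x) - 1)
        nlinarith

lemma exp_bound_two {z : ℂ} {x : ℝ} (hx : 0 ≤ x) (hx1 : x ≤ 1 / 4) (hz : z.re ≤ 2) : ‖cexp (z * x)‖ ≤ 2 := by
  rw [Complex.norm_exp]
  refine le_trans (Real.exp_le_exp.2 ?_) exp_half_le
  have h3 : (z * (x : ℂ)).re = z.re * x := by simp
  rw [h3]
  nlinarith

/-- The factors far from the zero. -/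
lemma far_factor {ρ0 s z : ℂ} {R w h D N : ℝ} (hw : 0 < w) (hR : R + w ≤ 1)
    (hD : 0 < D) (hD1 : D ≤ 1) (hN : 0 ≤ N) (hh : h = D / (8 * (N + 1)))
    (hz : R + w ≤ ‖z - ρ0‖) (hs : ‖s - ρ0‖ ≤ R) (hR0 : 0 < R) (hz0 : 0 ≤ z.re) :
    w * D / (16 * (N + 1)) ≤
      ‖cexp (s * (min h (1 / (8 * ‖ρ0 - z‖)) : ℝ)) - cexp (z * (min h (1 / (8 * ‖ρ0 - z‖)) : ℝ))‖ := by
  have hd0 : 0 < ‖ρ0 - z‖ := by
    rw [norm_sub_rev]; linarith
  have hd1 : R + w ≤ ‖ρ0 - z‖ := by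
    rw [norm_sub_rev]; exact hz
  have hsz1 : ‖s - z‖ ≤ 2 * ‖ρ0 - z‖ := by
    calc ‖s - z‖ = ‖(s - ρ0) + (ρ0 - z)‖ := by congr 1; ring
      _ ≤ ‖s - ρ0‖ + ‖ρ0 - z‖ := norm_add_le _ _
      _ ≤ _ := by linarith
  have hsz2 : ‖ρ0 - z‖ - R ≤ ‖s - z‖ := by
    have : ‖ρ0 - z‖ ≤ ‖s - ρ0‖ + ‖s - z‖ := by
      calc ‖ρ0 - z‖ = ‖-(s - ρ0) + (s - z)‖ := by congr 1; ring
        _ ≤ ‖-(s - ρ0)‖ + ‖s - z‖ := norm_add_le _ _
        _ = _ := by rw [norm_neg]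
    linarith
  have hh0 : 0 < h := by rw [hh]; positivity
  set x := min h (1 / (8 * ‖ρ0 - z‖)) with hx
  have hx0 : 0 < x := lt_min hh0 (by positivity)
  have hx1 : ‖s - z‖ * x ≤ 1 / 2 := by
    calc ‖s - z‖ * x ≤ (2 * ‖ρ0 - z‖) * (1 / (8 * ‖ρ0 - z‖)) := by
          gcongr
          exact min_le_right _ _
      _ = 1 / 4 := by field_simp; norm_num
      _ ≤ 1 / 2 := by norm_num
  refine le_trans ?_ (exp_diff_lower hx0.le hz0 hx1)
  rcases min_choice h (1 / (8 * ‖ρ0 - z‖)) with hmin | hmin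
  · have h1 : x = D / (8 * (N + 1)) := by rw [hx, hmin, hh]
    rw [h1]
    calc w * D / (16 * (N + 1)) = w * (D / (8 * (N + 1))) / 2 := by
          field_simp
          norm_num
      _ ≤ ‖s - z‖ * (D / (8 * (N + 1))) / 2 := by
          gcongr
          linarith
  · have h1 : x = 1 / (8 * ‖ρ0 - z‖) := by rw [hx, hmin]
    rw [h1]
    have h2 : w * ‖ρ0 - z‖ ≤ ‖s - z‖ := by
      -- `‖ρ0 - z‖ - R ≥ w * ‖ρ0 - z‖`
      nlinarith
    calc w * D / (16 * (N + 1)) ≤ w * 1 / (16 * (0 + 1)) := by gcongr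
      _ = (w * ‖ρ0 - z‖) * (1 / (8 * ‖ρ0 - z‖)) / 2 := by field_simp; norm_num
      _ ≤ ‖s - z‖ * (1 / (8 * ‖ρ0 - z‖)) / 2 := by gcongr

/-- the factors are nonzero in a slightly larger disc -/
lemma far_ne {ρ0 s z : ℂ} {R w h : ℝ} (hw : 0 < w) (hh : 0 < h) (hz0 : 0 ≤ z.re)
    (hz : R + w ≤ ‖z - ρ0‖) (hs : ‖s - ρ0‖ < R + w) (hR0 : 0 < R) :
    cexp (s * (min h (1 / (8 * ‖ρ0 - z‖)) : ℝ)) - cexp (z * (min h (1 / (8 * ‖ρ0 - z‖)) : ℝ)) ≠ 0 := by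
  have hd0 : 0 < ‖ρ0 - z‖ := by
    rw [norm_sub_rev]; linarith
  have hd1 : R + w ≤ ‖ρ0 - z‖ := by
    rw [norm_sub_rev]; exact hz
  have hsz1 : ‖s - z‖ ≤ 2 * ‖ρ0 - z‖ := by
    calc ‖s - z‖ = ‖(s - ρ0) + (ρ0 - z)‖ := by congr 1; ring
      _ ≤ ‖s - ρ0‖ + ‖ρ0 - z‖ := norm_add_le _ _
      _ ≤ _ := by linarith
  have hsz2 : 0 < ‖s - z‖ := by
    have : ‖ρ0 - z‖ ≤ ‖s - ρ0‖ + ‖s - z‖ := by
      calc ‖ρ0 - z‖ = ‖-(s - ρ0) + (s - z)‖ := by congr 1; ring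
        _ ≤ ‖-(s - ρ0)‖ + ‖s - z‖ := norm_add_le _ _
        _ = _ := by rw [norm_neg]
    linarith
  set x := min h (1 / (8 * ‖ρ0 - z‖)) with hx
  have hx0 : 0 < x := lt_min hh (by positivity)
  have hx1 : ‖s - z‖ * x ≤ 1 / 2 := by
    calc ‖s - z‖ * x ≤ (2 * ‖ρ0 - z‖) * (1 / (8 * ‖ρ0 - z‖)) := by
          gcongr
          exact min_le_right _ _
      _ = 1 / 4 := by field_simp; norm_num
      _ ≤ 1 / 2 := by norm_num
  have h1 := exp_diff_lower hx0.le hz0 hx1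
  have h2 : 0 < ‖s - z‖ * x / 2 := by positivity
  exact norm_pos_iff.1 (lt_of_lt_of_le h2 h1)

/-- the averaging factor -/
lemma phi_factor {ρ0 s : ℂ} {D : ℝ} {m : ℕ} (hm : 2 ≤ m) (hD : 0 < D)
    (hρD : (‖ρ0‖ + 1) * D ≤ m) (hs : ‖s - ρ0‖ ≤ 1) :
    Real.exp (-((‖ρ0‖ + 1) * D / 2)) ≤ ‖phi (s * (D / (8 * m) : ℝ))‖ ^ (m + 2) := by
  have hm0 : (0:ℝ) < m := by
    have : 0 < m := by omega
    exact_mod_cast this
  have hm2 : (2:ℝ) ≤ m := by exact_mod_cast hm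
  set b : ℝ := D / (8 * m) with hb
  have hb0 : 0 < b := by positivity
  have hbm : b * m = D / 8 := by rw [hb]; field_simp
  have hns : ‖s‖ ≤ ‖ρ0‖ + 1 := by
    calc ‖s‖ = ‖(s - ρ0) + ρ0‖ := by congr 1; ring
      _ ≤ ‖s - ρ0‖ + ‖ρ0‖ := norm_add_le _ _
      _ ≤ _ := by linarith
  have h1 : ‖s * (b:ℂ)‖ = ‖s‖ * b := by
    rw [norm_mul, Complex.norm_real, Real.norm_eq_abs, abs_of_pos hb0]
  have hn0 := norm_nonneg ρ0
  have h2 : ‖s‖ * b ≤ 1 / 2 := by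
    calc ‖s‖ * b ≤ (‖ρ0‖ + 1) * b := by gcongr
      _ = ((‖ρ0‖ + 1) * D) / (8 * m) := by rw [hb]; ring
      _ ≤ m / (8 * m) := by gcongr
      _ = 1 / 8 := by field_simp
      _ ≤ 1 / 2 := by norm_num
  have h3 := norm_phi_ge (z := s * b) (by rw [h1]; exact h2)
  calc Real.exp (-((‖ρ0‖ + 1) * D / 2)) ≤ Real.exp (-(2 * ‖s * (b:ℂ)‖)) ^ (m + 2) := by
        rw [← Real.exp_nat_mul]
        apply Real.exp_le_exp.2
        rw [h1]
        push_cast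
        have h4 : ((m:ℝ) + 2) * (2 * (‖s‖ * b)) ≤ (‖ρ0‖ + 1) * D / 2 := by
          calc ((m:ℝ) + 2) * (2 * (‖s‖ * b)) ≤ ((m:ℝ) + m) * (2 * ((‖ρ0‖ + 1) * b)) := by
                gcongr
            _ = 4 * (‖ρ0‖ + 1) * (b * m) := by ring
            _ = _ := by rw [hbm]; ring
        linarith
    _ ≤ _ := by gcongr

lemma phi_ne {ρ0 s : ℂ} {D : ℝ} {m : ℕ} (hm : 2 ≤ m) (hD : 0 < D)
    (hρD : (‖ρ0‖ + 1) * D ≤ m) (hs : ‖s - ρ0‖ ≤ 1) : phi (s * (D / (8 * m) : ℝ)) ≠ 0 := by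
  intro h
  have h1 := phi_factor hm hD hρD hs
  rw [h, norm_zero, zero_pow (by omega)] at h1
  exact absurd (Real.exp_pos _) (not_lt.2 h1)

/-- **The core inequality, uniform in the zero.** -/
theorem unif_core {σ σ' : ℝ} (hσ : 1 / 2 < σ) (hσσ' : σ < σ') (hσ' : σ' ≤ 1) :
    ∃ C : ℝ, 0 < C ∧ ∀ (ρ0 : ℂ) (u D M r : ℝ) (m N : ℕ), zetaPole ρ0 = 0 → σ < ρ0.re → 0 < D →
      D ≤ 1 → 0 < r → r ≤ 1 / 2 → 0 ≤ u → u ≤ m → 2 ≤ m → (‖ρ0‖ + 1) * D ≤ m →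
      (∀ r a : ℝ, 0 ≤ r → 0 < a → r + a ≤ D → |inc u a r| ≤ M) →
      N = (zset σ (hgt (D / (8 * m)) + 3)).card →
      Real.exp (u * ρ0.re) ≤ (Real.exp (u * r + (‖ρ0‖ + 1) * D / 2) * (8 * m / D) * (N + 1) *
        (512 * (N + 1) ^ 2 / (r * D)) ^ (2 * N)) *
        (M * 3 ^ N + C * 4 ^ N * hgt (D / (8 * m)) ^ 5 * (Real.exp (u * σ') + 1)) := by
  classical
  obtain ⟨C, hC, hmaster⟩ := master hσ hσσ' hσ'
  refine ⟨C, hC, ?_⟩
  intro ρ0 u D M r m N h0 hρ hD hD1 hr hr1 hu hum hm hρD hinc hN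
  have hn0 := norm_nonneg ρ0
  have hm0 : (0:ℝ) < m := by
    have : 0 < m := by omega
    exact_mod_cast this
  have hm2 : (2:ℝ) ≤ m := by exact_mod_cast hm
  have hN0 : (0:ℝ) ≤ N := Nat.cast_nonneg _
  set b : ℝ := D / (8 * m) with hb
  have hb0 : 0 < b := by positivity
  have hbm : b * m = D / 8 := by rw [hb]; field_simp
  have hb16 : b ≤ D / 16 := by nlinarith
  have hb1 : b ≤ 1 := by linarith
  set Z0 := zset σ (hgt b + 3) with hZ0
  obtain ⟨R, hR1, hR2, hR3, hR4⟩ := exists_gap Z0 ρ0 hr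
  rw [← hN] at hR3 hR4
  obtain ⟨w, hw⟩ : ∃ w : ℝ, w = r / (4 * (N + 1)) := ⟨_, rfl⟩
  rw [← hw] at hR3 hR4
  have hw0 : 0 < w := by rw [hw]; positivity
  have hwr : w ≤ r / 4 := by
    rw [hw]
    apply div_le_div_of_nonneg_left hr.le (by norm_num)
    linarith
  have hR0 : 0 < R := by linarith
  have hRw1 : R + w ≤ 1 := by linarith
  obtain ⟨h, hh⟩ : ∃ h : ℝ, h = D / (8 * (N + 1)) := ⟨_, rfl⟩
  have hh0 : 0 < h := by rw [hh]; positivity
  have hh14 : h ≤ 1 / 4 := by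
    rw [hh, div_le_div_iff₀ (by positivity) (by norm_num)]
    nlinarith
  have hNh : N * h ≤ D / 8 := by
    rw [hh, mul_div_assoc', div_le_div_iff₀ (by positivity) (by norm_num)]
    nlinarith
  set K := Z0.filter (fun z => ‖z - ρ0‖ ≤ R - w) with hK
  set O := Z0.filter (fun z => ¬ ‖z - ρ0‖ ≤ R - w) with hO
  have hZmem : ∀ z ∈ Z0, σ < z.re ∧ z.re < 1 ∧ zetaPole z = 0 := by
    intro z hz
    rw [hZ0, mem_zset] at hz
    exact ⟨hz.1, zero_re_lt hz.2.2, hz.2.2⟩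
  have hOmem : ∀ z ∈ O, σ < z.re ∧ z.re < 1 ∧ R + w ≤ ‖z - ρ0‖ := by
    intro z hz
    rw [hO, Finset.mem_filter] at hz
    obtain ⟨a1, a2, a3⟩ := hZmem z hz.1
    exact ⟨a1, a2, (hR4 z hz.1).resolve_right hz.2⟩
  have hKmem : ∀ z ∈ K, ‖z - ρ0‖ ≤ R - w ∧ 0 ≤ z.re ∧ z.re ≤ 1 := by
    intro z hz
    rw [hK, Finset.mem_filter] at hz
    obtain ⟨a1, a2, a3⟩ := hZmem z hz.1
    exact ⟨hz.2, by linarith, a2.le⟩
  have hKN : K.card ≤ N := by rw [hN]; exact Finset.card_le_card (Finset.filter_subset _ _)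
  have hON : O.card ≤ N := by rw [hN]; exact Finset.card_le_card (Finset.filter_subset _ _)
  set hz : ℂ → ℝ := fun z => min h (1 / (8 * ‖ρ0 - z‖)) with hhz
  set c : ℂ → ℂ := fun z => cexp (z * hz z) with hc
  set P : ℂ → ℂ := fun s => ∏ z ∈ O, (cexp (s * hz z) - c z) with hP
  have hz0 : ∀ z ∈ O, 0 ≤ hz z := by
    intro z hzO
    have := (hOmem z hzO).2.2
    have h1 : 0 < ‖ρ0 - z‖ := by rw [norm_sub_rev]; linarith
    exact le_min hh0.le (by positivity)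
  have hzh : ∀ z, hz z ≤ h := fun z => min_le_left _ _
  have hsumh : ∑ z ∈ O, hz z ≤ D / 8 := by
    calc ∑ z ∈ O, hz z ≤ ∑ _z ∈ O, h := Finset.sum_le_sum fun z _ => hzh z
      _ = O.card * h := by rw [Finset.sum_const, nsmul_eq_mul]
      _ ≤ N * h := by gcongr
      _ ≤ D / 8 := hNh
  have hcn : ∀ z ∈ O, ‖c z‖ ≤ 2 := fun z hzO =>
    exp_bound_two (hz0 z hzO) ((hzh z).trans hh14) (by linarith [(hOmem z hzO).2.1])
  have hPb : ∀ s : ℂ, 0 ≤ s.re → s.re ≤ 2 → ‖P s‖ ≤ 4 ^ N := by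
    intro s b1 b2
    rw [hP]
    simp only
    rw [norm_prod]
    calc ∏ z ∈ O, ‖cexp (s * hz z) - c z‖ ≤ ∏ _z ∈ O, (4:ℝ) := by
          refine Finset.prod_le_prod (fun z _ => norm_nonneg _) fun z hzO => ?_
          refine (norm_sub_le _ _).trans ?_
          have h4 : ‖cexp (s * hz z)‖ ≤ 2 :=
            exp_bound_two (hz0 z hzO) ((hzh z).trans hh14) b2
          linarith [hcn z hzO]
      _ = 4 ^ O.card := by rw [Finset.prod_const]
      _ ≤ 4 ^ N := pow_le_pow_right₀ (by norm_num) hON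
  have hPd : Differentiable ℂ P := by
    rw [hP]
    apply Differentiable.fun_finsetProd
    intro z _
    fun_prop
  obtain ⟨f, hf⟩ := exists_kf (ℓ := b) (b := b) hb0.le hb0 m hz c O hz0
  have hfW : Kf f (b + m * b + ∑ z ∈ O, hz z) (b * ∏ z ∈ O, (1 + ‖c z‖)) (wf b b m P) := hf
  -- the function to be interpolated
  set V : ℂ → ℂ := fun s => wf b b m P s * phi (s * b) with hV
  set Φ : ℂ → ℂ := fun s => cexp (-(u * (s - ρ0))) / V s with hΦ
  obtain ⟨g, hg⟩ : ∃ g : ℝ, g = 512 * (N + 1) ^ 2 / (r * D) := ⟨_, rfl⟩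
  have hg0 : 0 < g := by rw [hg]; positivity
  have hgw : 16 / (w * h) = g / 1 := by
    rw [hg, hw, hh]
    field_simp
    norm_num
  rw [div_one] at hgw
  have hg1 : 1 ≤ g := by
    rw [hg, le_div_iff₀ (by positivity)]
    have : r * D ≤ 1 := by nlinarith
    nlinarith
  have hVne : ∀ s ∈ ball ρ0 (R + w), V s ≠ 0 := by
    intro s hs
    rw [mem_ball, dist_eq_norm] at hs
    have h1 := phi_ne hm hD hρD (show ‖s - ρ0‖ ≤ 1 by linarith)
    rw [← hb] at h1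
    rw [hV]
    simp only
    unfold wf
    refine mul_ne_zero (mul_ne_zero (mul_ne_zero (mul_ne_zero ?_ h1) (pow_ne_zero _ h1)) ?_) h1
    · exact_mod_cast hb0.ne'
    · rw [hP]
      simp only
      rw [Finset.prod_ne_zero_iff]
      intro z hzO
      exact far_ne hw0 hh0 (by linarith [(hOmem z hzO).1]) (hOmem z hzO).2.2 hs hR0
  have hVd : Differentiable ℂ V := by
    rw [hV]
    unfold wf
    have := phi_differentiable
    fun_prop
  have hΦd : DifferentiableOn ℂ Φ (ball ρ0 (R + w)) := by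
    rw [hΦ]
    refine DifferentiableOn.div ?_ hVd.differentiableOn hVne
    fun_prop
  obtain ⟨MΦ, hMΦ⟩ : ∃ MΦ : ℝ, MΦ = Real.exp (u * r + (‖ρ0‖ + 1) * D / 2) * (8 * m / D) * g ^ N :=
    ⟨_, rfl⟩
  have hΦb : ∀ s ∈ closedBall ρ0 R, ‖Φ s‖ ≤ MΦ := by
    intro s hs
    rw [mem_closedBall, dist_eq_norm] at hs
    have h1 : Real.exp (-((‖ρ0‖ + 1) * D / 2)) ≤ ‖phi (s * (b : ℝ))‖ ^ (m + 2) := by
      have := phi_factor hm hD hρD (show ‖s - ρ0‖ ≤ 1 by linarith)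
      rw [← hb] at this
      exact this
    have h2 : (1 / g) ^ N ≤ ‖P s‖ := by
      have e0 : (0:ℝ) ≤ 1 / g := by positivity
      have e1 : 1 / g ≤ 1 := by rw [div_le_one hg0]; exact hg1
      have e2 : 1 / g ≤ w * D / (16 * (N + 1)) := by
        rw [hg, hw]
        rw [div_le_div_iff₀ (by positivity) (by positivity)]
        have : 1 * (16 * ((N:ℝ) + 1)) ≤ (r / (4 * ((N:ℝ) + 1)) * D) * (512 * ((N:ℝ) + 1) ^ 2 / (r * D)) := by
          have e3 : (r / (4 * ((N:ℝ) + 1)) * D) * (512 * ((N:ℝ) + 1) ^ 2 / (r * D)) = 128 * ((N:ℝ) + 1) := by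
            field_simp
            norm_num
          rw [e3]
          nlinarith
        exact this
      rw [hP]
      simp only
      rw [norm_prod]
      calc (1 / g) ^ N ≤ (1 / g) ^ O.card := pow_le_pow_of_le_one e0 e1 hON
        _ = ∏ _z ∈ O, (1 / g) := by rw [Finset.prod_const]
        _ ≤ ∏ z ∈ O, ‖cexp (s * hz z) - c z‖ := by
            refine Finset.prod_le_prod (fun z _ => e0) fun z hzO => ?_
            exact e2.trans (far_factor hw0 hRw1 hD hD1 hN0 hh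
              (hOmem z hzO).2.2 hs hR0 (by linarith [(hOmem z hzO).1]))
    have h3 : b * Real.exp (-((‖ρ0‖ + 1) * D / 2)) * (1 / g) ^ N ≤ ‖V s‖ := by
      have e1 : V s = b * phi (s * b) ^ (m + 2) * P s := by
        rw [hV]; unfold wf; simp only; ring
      rw [e1, norm_mul, norm_mul, norm_pow, Complex.norm_real, Real.norm_eq_abs, abs_of_pos hb0]
      gcongr
    have h4 : ‖cexp (-(u * (s - ρ0)))‖ ≤ Real.exp (u * r) := by
      rw [Complex.norm_exp]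
      apply Real.exp_le_exp.2
      have e1 : (-((u:ℂ) * (s - ρ0))).re = u * (-(s - ρ0).re) := by
        simp only [neg_re, re_ofReal_mul]; ring
      rw [e1]
      have e2 : -(s - ρ0).re ≤ r := by
        have := Complex.abs_re_le_norm (s - ρ0)
        have := neg_abs_le (s - ρ0).re
        linarith
      gcongr
    rw [hΦ]
    simp only
    rw [norm_div]
    have h5 : 0 < b * Real.exp (-((‖ρ0‖ + 1) * D / 2)) * (1 / g) ^ N := by positivity
    calc ‖cexp (-(u * (s - ρ0)))‖ / ‖V s‖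
        ≤ Real.exp (u * r) / (b * Real.exp (-((‖ρ0‖ + 1) * D / 2)) * (1 / g) ^ N) := by gcongr
      _ = MΦ := by
          rw [hMΦ, Real.exp_add, Real.exp_neg, hb, one_div, inv_pow]
          field_simp
  have hMΦ0 : 0 ≤ MΦ := by rw [hMΦ]; positivity
  obtain ⟨Q, hQ, hQv⟩ := interp (ρ0 := ρ0) hw0 hR3 (by linarith) hh0 hh14 K Φ MΦ hKmem hΦd hΦb
  rw [hgw] at hQ
  obtain ⟨MQ, hMQ⟩ : ∃ MQ : ℝ, MQ = Real.exp (u * r + (‖ρ0‖ + 1) * D / 2) * (8 * m / D) * (N + 1) *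
        g ^ (2 * N) := ⟨_, rfl⟩
  have hMQ0 : 0 ≤ MQ := by rw [hMQ]; positivity
  have hMQle : MΦ * (K.card + 1) * g ^ K.card ≤ MQ := by
    have e1 : g ^ K.card ≤ g ^ N := pow_le_pow_right₀ hg1 hKN
    have e2 : (K.card : ℝ) ≤ N := by exact_mod_cast hKN
    calc MΦ * (K.card + 1) * g ^ K.card ≤ MΦ * (N + 1) * g ^ N := by gcongr
      _ = MQ := by rw [hMΦ, hMQ, two_mul, pow_add]; ring
  obtain ⟨f', hf'⟩ := hQ.ker f _ _ _ hfW
  have hprodc : ∏ z ∈ O, (1 + ‖c z‖) ≤ 3 ^ N := by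
    calc ∏ z ∈ O, (1 + ‖c z‖) ≤ ∏ _z ∈ O, (3:ℝ) := by
          refine Finset.prod_le_prod (fun z _ => by positivity) fun z hzO => ?_
          linarith [hcn z hzO]
      _ = 3 ^ O.card := by rw [Finset.prod_const]
      _ ≤ 3 ^ N := pow_le_pow_right₀ (by norm_num) hON
  have hsupp : b + m * b + ∑ z ∈ O, hz z + K.card * h ≤ D - b := by
    have e2 : (K.card : ℝ) ≤ N := by exact_mod_cast hKN
    have e3 : K.card * h ≤ D / 8 := by
      refine le_trans ?_ hNh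
      gcongr
    rw [mul_comm (m:ℝ) b, hbm]
    linarith
  have hfk : Kf f' (D - b) (MQ * (b * 3 ^ N)) (wf b b m (fun s => P s * Q s)) := by
    have h1 := hf'.mono hsupp (V' := MQ * (b * 3 ^ N)) (by gcongr)
    exact h1.congr (fun v => rfl) rfl rfl (fun s => by unfold wf; ring)
  have hmain := hmaster f' _ _ (fun s => P s * Q s) b b b m (4 ^ N * MQ) u hb0 hb1 hb0 hb1 hb0 hb1
    (by rw [hbm]; linarith) hm (hPd.mul hQ.diff) (fun s b1 b2 => by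
      rw [norm_mul]
      have := hPb s b1 b2
      have := (hQ.bd s b1 b2).trans hMQle
      gcongr) hfk hu hum
  -- the sum over zeros
  have hρ0Z : ρ0 ∈ Z0 := by
    rw [hZ0, mem_zset]
    refine ⟨hρ, ?_, h0⟩
    have h1 : |ρ0.im| ≤ hgt b := by
      have e1 := Complex.abs_im_le_norm ρ0
      unfold hgt
      rw [le_div_iff₀ hb0]
      have e2 : |ρ0.im| * b ≤ 1 := by
        calc |ρ0.im| * b ≤ (‖ρ0‖ + 1) * b := by gcongr; linarith
          _ = ((‖ρ0‖ + 1) * D) / (8 * m) := by rw [hb]; ring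
          _ ≤ m / (8 * m) := by gcongr
          _ = 1 / 8 := by field_simp
          _ ≤ 1 := by norm_num
      have := Real.add_one_le_exp (6:ℝ)
      linarith
    linarith
  have hρ0K : ρ0 ∈ K := by
    rw [hK, Finset.mem_filter]
    refine ⟨hρ0Z, ?_⟩
    rw [sub_self, norm_zero]
    linarith
  have hsum : ∑ ρ ∈ Z0, (zord ρ : ℂ) * (cexp (u * ρ) * (wf b b m (fun s => P s * Q s) ρ *
      phi (ρ * b))) = cexp (u * ρ0) * ∑ ρ ∈ K, (zord ρ : ℂ) := by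
    rw [← Finset.sum_filter_add_sum_filter_not Z0 (fun z => ‖z - ρ0‖ ≤ R - w)]
    have hOz : ∑ ρ ∈ O, (zord ρ : ℂ) * (cexp (u * ρ) * (wf b b m (fun s => P s * Q s) ρ *
        phi (ρ * b))) = 0 := by
      apply Finset.sum_eq_zero
      intro ρ hρO
      have h1 : P ρ = 0 := by
        rw [hP]
        apply Finset.prod_eq_zero hρO
        rw [hc]
        simp
      have h2 : wf b b m (fun s => P s * Q s) ρ = 0 := by
        unfold wf
        simp only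
        rw [h1]
        ring
      rw [h2]
      ring
    rw [hOz, add_zero, Finset.mul_sum]
    refine Finset.sum_congr rfl fun ρ hρK => ?_
    have h1 := hQv ρ hρK
    have h2 : V ρ ≠ 0 := by
      apply hVne
      rw [mem_ball, dist_eq_norm]
      have := (hKmem ρ hρK).1
      linarith
    have h3 : wf b b m (fun s => P s * Q s) ρ * phi (ρ * b) = V ρ * Q ρ := by
      rw [hV]; unfold wf; ring
    have h4 : V ρ * Q ρ = cexp (-(u * (ρ - ρ0))) := by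
      rw [h1, hΦ]
      simp only
      field_simp
    rw [h3, h4]
    have h5 : cexp (u * ρ) * cexp (-(u * (ρ - ρ0))) = cexp (u * ρ0) := by
      rw [← Complex.exp_add]; congr 1; ring
    rw [h5]
    ring
  rw [hsum] at hmain
  -- size of the integral
  have hM0 : 0 ≤ M := (abs_nonneg _).trans (hinc 0 b le_rfl hb0 (by linarith))
  have hint : ‖((1 / b : ℝ) : ℂ) * ∫ r, f' r * (inc u b r : ℂ)‖ ≤ M * MQ * 3 ^ N := by
    rw [norm_mul, Complex.norm_real, Real.norm_eq_abs, abs_of_pos (by positivity)]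
    have h1 : ‖∫ r, f' r * (inc u b r : ℂ)‖ ≤ ∫ r, M * ‖f' r‖ := by
      apply norm_integral_le_of_norm_le (hfk.int.norm.const_mul _)
      refine Eventually.of_forall fun r => ?_
      by_cases hr : r ∈ Icc 0 (D - b)
      · rw [norm_mul, Complex.norm_real, Real.norm_eq_abs, mul_comm]
        have := hinc r b hr.1 hb0 (by linarith [hr.2])
        gcongr
      · rw [hfk.supp r hr]
        simp
    rw [integral_const_mul] at h1
    calc 1 / b * ‖∫ r, f' r * (inc u b r : ℂ)‖ ≤ 1 / b * (M * ∫ r, ‖f' r‖) := by gcongr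
      _ ≤ 1 / b * (M * (MQ * (b * 3 ^ N))) := by
          have := hfk.norm
          gcongr
      _ = M * MQ * 3 ^ N := by field_simp
  -- the lower bound
  have hlow : Real.exp (u * ρ0.re) ≤ ‖cexp (u * ρ0) * ∑ ρ ∈ K, (zord ρ : ℂ)‖ := by
    rw [norm_mul]
    have e1 : ‖cexp (u * ρ0)‖ = Real.exp (u * ρ0.re) := by
      rw [Complex.norm_exp]; congr 1; simp
    have e2 : (1:ℝ) ≤ ‖∑ ρ ∈ K, (zord ρ : ℂ)‖ := by
      have e3 : ∑ ρ ∈ K, (zord ρ : ℂ) = ((∑ ρ ∈ K, zord ρ : ℕ) : ℂ) := by push_cast; rfl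
      rw [e3, Complex.norm_natCast]
      have e4 : 1 ≤ ∑ ρ ∈ K, zord ρ :=
        le_trans (zord_pos h0) (Finset.single_le_sum (f := zord) (fun _ _ => Nat.zero_le _) hρ0K)
      exact_mod_cast e4
    rw [e1]
    have := Real.exp_pos (u * ρ0.re)
    nlinarith
  -- conclusion
  have hfin : ‖cexp (u * ρ0) * ∑ ρ ∈ K, (zord ρ : ℂ)‖ ≤
      ‖((1 / b : ℝ) : ℂ) * ∫ r, f' r * (inc u b r : ℂ)‖ +
      ‖(((1 / b : ℝ) : ℂ) * ∫ r, f' r * (inc u b r : ℂ)) +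
        cexp (u * ρ0) * ∑ ρ ∈ K, (zord ρ : ℂ)‖ := by
    set X1 := ((1 / b : ℝ) : ℂ) * ∫ r, f' r * (inc u b r : ℂ)
    set X2 := cexp (u * ρ0) * ∑ ρ ∈ K, (zord ρ : ℂ)
    calc ‖X2‖ = ‖-X1 + (X1 + X2)‖ := by congr 1; ring
      _ ≤ ‖-X1‖ + ‖X1 + X2‖ := norm_add_le _ _
      _ = _ := by rw [norm_neg]
  rw [← hg, ← hMQ]
  calc Real.exp (u * ρ0.re) ≤ M * MQ * 3 ^ N + C * (4 ^ N * MQ) * hgt b ^ 5 *
        (Real.exp (u * σ') + 1) := by
        refine hlow.trans (hfin.trans ?_)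
        gcongr
    _ = _ := by ring

end Pool.Agent.H6.Win
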